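import Pool.Agent.Work.MP_8f87b2_h40.ShF

/-!
# MP_8f87b2_co, one soliton: disjointness of the gadgets of the classes `(s, 2^a)`

`JG n B P U M`: the words of `B` are pure words (not 0, 4) over `RF n Φ`, `Φ ∈ P`, words of the class `RF n G`, `G ∈ U`,
or mirrored mixed words (not 10) over `RF n Ψ`, `Ψ ∈ M`. `JG.disj`: disjoint functions, no common word. `JG.disj_n`:
different `n`, no common word.
-/

set_option autoImplicit false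

namespace Pool.OddHC

open Finset Equiv BinaryTree Pool.Agent.Work.MP_8f87b2_co

namespace J

variable {k n : ℕ}

/-- pure word, not in the class -/
def IsPu (n : ℕ) (Φ : ZMod (2 * n + 1) → ℕ) (w : BinaryTree Unit) : Prop :=
  ∃ i, i < 10 ∧ i ≠ 0 ∧ i ≠ 4 ∧ w = pw (Ring1.RF n Φ) i

/-- word of the class -/
def IsUs (n : ℕ) (G : ZMod (2 * n + 1) → ℕ) (w : BinaryTree Unit) : Prop :=
  1 ≤ G 0 + G (-1) ∧ w = Ring1.RF n G

/-- mirrored mixed word -/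
def IsMx (n : ℕ) (Ψ : ZMod (2 * n + 1) → ℕ) (w : BinaryTree Unit) : Prop :=
  ∃ (t : ℕ) (D : BinaryTree Unit) (u i : ℕ), 1 ≤ t ∧ GD D ∧ Tsq.mir (Ring1.RF n Ψ) = RR t D u ∧
    11 ≤ i ∧ i < 20 ∧ w = Tsq.mir (mw t D u i)

/-- the words of a gadget of the class -/
def JG (n : ℕ) (B : Finset (X k)) (P U M : Set (ZMod (2 * n + 1) → ℕ)) : Prop :=
  ∀ w ∈ B, (∃ Φ ∈ P, IsPu n Φ w.1) ∨ (∃ G ∈ U, IsUs n G w.1) ∨ ∃ Ψ ∈ M, IsMx n Ψ w.1

theorem RF_shape (hn : 1 ≤ n) (F : ZMod (2 * n + 1) → ℕ) :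
    ∃ D : BinaryTree Unit, GD D ∧ Ring1.RF n F = RR (F 0) D (F (-1)) := by
  obtain ⟨D0, h1, h2⟩ := Ring1.shape hn F
  exact ⟨inf D0, gd_inf h1, h2⟩

theorem kd_pos {i : ℕ} (h0 : i ≠ 0) (h4 : i ≠ 4) : kd i ≠ 0 := by
  unfold kd
  rw [if_neg h4]
  exact h0

theorem RF_cross {m : ℕ} (hn : 1 ≤ n) (hm : 1 ≤ m) {F : ZMod (2 * n + 1) → ℕ}
    {G : ZMod (2 * m + 1) → ℕ} (h : Ring1.RF n F = Ring1.RF m G) : n = m := by
  have h1 := congrArg OddHC.cont h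
  rw [Ring1.cont_RF hn, Ring1.cont_RF hm] at h1
  have h2 : n + 2 ∈ ({m + 2} + Multiset.replicate (∑ x, G x) 2 : Multiset ℕ) := by
    rw [← h1]
    exact Multiset.mem_add.2 (Or.inl (Multiset.mem_singleton_self _))
  rw [Multiset.mem_add, Multiset.mem_singleton, Multiset.mem_replicate] at h2
  omega

theorem pu_pu {m : ℕ} (hn : 1 ≤ n) (hm : 1 ≤ m) {F : ZMod (2 * n + 1) → ℕ}
    {G : ZMod (2 * m + 1) → ℕ} {w : BinaryTree Unit} (h : IsPu n F w) (h' : IsPu m G w) :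
    Ring1.RF n F = Ring1.RF m G := by
  obtain ⟨i, hi, h0, h4, rfl⟩ := h
  obtain ⟨j, hj, h0', h4', e⟩ := h'
  obtain ⟨D, hD, e1⟩ := RF_shape hn F
  obtain ⟨D', hD', e2⟩ := RF_shape hm G
  rw [e1, e2] at e ⊢
  rcases pure_inj hD hD' hi hj e with ⟨_, h1⟩ | ⟨h1, _⟩
  · exact h1
  · rcases h1 with h1 | h1
    · exact absurd h1 h0
    · exact absurd h1 h4

theorem kn_us {m : ℕ} (hm : 1 ≤ m) {G : ZMod (2 * m + 1) → ℕ} {w : BinaryTree Unit}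
    (h : IsUs m G w) : kn w = 0 := by
  obtain ⟨h1, rfl⟩ := h
  obtain ⟨D, hD, e1⟩ := RF_shape hm G
  rw [e1]
  exact kn_RR hD h1

theorem pu_us {m : ℕ} (hn : 1 ≤ n) (hm : 1 ≤ m) {F : ZMod (2 * n + 1) → ℕ}
    {G : ZMod (2 * m + 1) → ℕ} {w : BinaryTree Unit} (h : IsPu n F w) (h' : IsUs m G w) : False := by
  obtain ⟨i, hi, h0, h4, rfl⟩ := h
  obtain ⟨D, hD, e1⟩ := RF_shape hn F
  have h1 := kn_us hm h'
  rw [e1, kn_pw hD hi] at h1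
  exact kd_pos h0 h4 h1

/-- index of the mirror of a pure word -/
def mx : ℕ → ℕ
  | 0 => 4
  | 1 => 5
  | 2 => 2
  | 3 => 7
  | 4 => 0
  | 5 => 1
  | 6 => 8
  | 7 => 3
  | 8 => 6
  | _ => 9

theorem mir_pw (R : BinaryTree Unit) {i : ℕ} (hi : i < 10) :
    Tsq.mir (pw R i) = pw (Tsq.mir R) (mx i) := by
  have h0 : Tsq.mir BinaryTree.nil = BinaryTree.nil := rfl
  interval_cases i <;>
    simp only [pw, H1.W, mx, Tsq.mir_node, Tsq.mir_app, h0, app, app_nil', app_assoc']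

theorem mir_mir' (R : BinaryTree Unit) : Tsq.mir (Tsq.mir R) = R := Tsq.mir_mir R

theorem mx_lt (i : ℕ) : mx i < 10 := by
  unfold mx
  split <;> omega

theorem pu_mx {m : ℕ} (hn : 1 ≤ n) {F : ZMod (2 * n + 1) → ℕ}
    {G : ZMod (2 * m + 1) → ℕ} {w : BinaryTree Unit} (h : IsPu n F w) (h' : IsMx m G w) : False := by
  obtain ⟨i, hi, h0, h4, rfl⟩ := h
  obtain ⟨t, D, u, j, ht, hD, _, hj, hj', e⟩ := h'
  have e' := congrArg Tsq.mir e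
  rw [mir_mir', mir_pw _ hi, mir_RF] at e'
  obtain ⟨D', hD', e2⟩ := RF_shape hn (rf F)
  rw [e2] at e'
  have := (mix_pure hD hD' ht (by omega) hj' (mx_lt i) e'.symm).1
  omega

theorem us_mx {m : ℕ} (hn : 1 ≤ n) {F : ZMod (2 * n + 1) → ℕ}
    {G : ZMod (2 * m + 1) → ℕ} {w : BinaryTree Unit} (h : IsUs n F w) (h' : IsMx m G w) : False := by
  obtain ⟨h1, rfl⟩ := h
  obtain ⟨t, D, u, j, ht, hD, _, hj, hj', e⟩ := h'
  have e' := congrArg Tsq.mir e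
  rw [mir_mir', mir_RF] at e'
  obtain ⟨D', hD', e2⟩ := RF_shape hn (rf F)
  have e3 := congrArg kn e'
  rw [e2, kn_RR hD' (by unfold rf; simp only [sub_zero, sub_neg_eq_add, neg_add_cancel]; omega),
    kn_mw hD ht (by omega) hj', if_neg (by omega)] at e3
  omega

theorem mx_mx {m : ℕ} {F : ZMod (2 * n + 1) → ℕ}
    {G : ZMod (2 * m + 1) → ℕ} {w : BinaryTree Unit} (h : IsMx n F w) (h' : IsMx m G w) :
    Ring1.RF n F = Ring1.RF m G := by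
  obtain ⟨t, D, u, i, ht, hD, h1, hi, hi', rfl⟩ := h
  obtain ⟨t', D', u', j, ht', hD', h1', hj, hj', e⟩ := h'
  have e' := mir_inj e
  obtain ⟨_, h2, h3⟩ := mix_inj hD hD' ht ht' (by omega) hi' (by omega) hj' e'
  subst h2
  apply mir_inj
  rw [h1, h1']
  change lv2 t (RR 0 D u) = lv2 t (RR 0 D' u')
  rw [h3]

/-- different `n` -/
theorem JG.disj_n {m : ℕ} (hn : 1 ≤ n) (hm : 1 ≤ m) (hnm : n ≠ m) {B B' : Finset (X k)}
    {P U M : Set (ZMod (2 * n + 1) → ℕ)} {P' U' M' : Set (ZMod (2 * m + 1) → ℕ)}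
    (h : JG n B P U M) (h' : JG m B' P' U' M') : ∀ w ∈ B, w ∉ B' := by
  intro w hw hw'
  rcases h w hw with ⟨Φ, _, h1⟩ | ⟨G, _, h1⟩ | ⟨Ψ, _, h1⟩ <;>
    rcases h' w hw' with ⟨Φ', _, h2⟩ | ⟨G', _, h2⟩ | ⟨Ψ', _, h2⟩
  · exact hnm (RF_cross hn hm (pu_pu hn hm h1 h2))
  · exact pu_us hn hm h1 h2
  · exact pu_mx hn h1 h2
  · exact pu_us hm hn h2 h1
  · obtain ⟨_, e1⟩ := h1
    obtain ⟨_, e2⟩ := h2
    exact hnm (RF_cross hn hm (e1.symm.trans e2))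
  · exact us_mx hn h1 h2
  · exact pu_mx hm h2 h1
  · exact us_mx hm h2 h1
  · exact hnm (RF_cross hn hm (mx_mx h1 h2))

/-- **the gadgets of one class** -/
theorem JG.disj (hn : 1 ≤ n) {B B' : Finset (X k)} {P U M P' U' M' : Set (ZMod (2 * n + 1) → ℕ)}
    (h : JG n B P U M) (h' : JG n B' P' U' M') (hP : ∀ Φ ∈ P, Φ ∉ P') (hU : ∀ G ∈ U, G ∉ U')
    (hM : ∀ Ψ ∈ M, Ψ ∉ M') : ∀ w ∈ B, w ∉ B' := by
  intro w hw hw'
  rcases h w hw with ⟨Φ, k1, h1⟩ | ⟨G, k1, h1⟩ | ⟨Ψ, k1, h1⟩ <;>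
    rcases h' w hw' with ⟨Φ', k2, h2⟩ | ⟨G', k2, h2⟩ | ⟨Ψ', k2, h2⟩
  · have := Ring1.RF_inj (pu_pu hn hn h1 h2)
    subst this
    exact hP _ k1 k2
  · exact pu_us hn hn h1 h2
  · exact pu_mx hn h1 h2
  · exact pu_us hn hn h2 h1
  · obtain ⟨_, e1⟩ := h1
    obtain ⟨_, e2⟩ := h2
    have := Ring1.RF_inj (e1.symm.trans e2)
    subst this
    exact hU _ k1 k2
  · exact us_mx hn h1 h2
  · exact pu_mx hn h2 h1
  · exact us_mx hn h2 h1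
  · have := Ring1.RF_inj (mx_mx h1 h2)
    subst this
    exact hM _ k1 k2

end J

end Pool.OddHC
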