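import Pool.Agent.Work.MP_8f87b2_h40.JG

/-!
# MP_8f87b2_co, one soliton: the gadgets from a function `Φ` on the ring

`Φ : ZMod (2n+1) → ℕ`, star at letter 0 (between the gaps `-1` and `0`). Mirrored words `jM`: new `Φ + [0]` (words 0 and
10 = `Φ' + [-1]`, `Φ' = Φ (· + 1)`), `Φ + [-1]` (word 4), old `Φ' + [0]` (word 13) if `Φ 0 = 0`.
Right words `jX`: new `Φ + [-1]` (words 0, 10 = `Φ'' + [0]`, `Φ'' = Φ (· - 1)`), `Φ + [0]` (word 4), `Φ'' + [-1]` (word 13)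
if `Φ (-1) = 0`.
-/

set_option autoImplicit false

namespace Pool.OddHC

open Finset Equiv BinaryTree Pool.Agent.Work.MP_8f87b2_co

namespace J

variable {k n : ℕ}

/-- one more bead -/
def ad {N : ℕ} (Φ : ZMod N → ℕ) (x : ZMod N) : ZMod N → ℕ := fun z => Φ z + if z = x then 1 else 0

theorem ad_sum {N : ℕ} [NeZero N] (Φ : ZMod N → ℕ) (x : ZMod N) : ∑ z, ad Φ x z = ∑ z, Φ z + 1 := by
  unfold ad
  rw [sum_add_distrib, Finset.sum_ite_eq' univ x (fun _ => 1), if_pos (mem_univ _)]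

theorem ad_self {N : ℕ} (Φ : ZMod N → ℕ) (x : ZMod N) : 1 ≤ ad Φ x x := by
  unfold ad
  rw [if_pos rfl]
  omega

theorem rf_ad {N : ℕ} (Φ : ZMod N → ℕ) (x : ZMod N) : rf (ad Φ x) = ad (rf Φ) (-1 - x) := by
  funext z
  unfold rf ad
  have : (-1 - z = x) ↔ (z = -1 - x) := by
    constructor
    · intro h; rw [← h]; ring
    · intro h; rw [h]; ring
  simp only [this]

/-- the word of the class -/
noncomputable def wc (hn : 1 ≤ n) (G : ZMod (2 * n + 1) → ℕ) (h : n + 2 + 2 * ∑ x, G x = k) : X k :=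
  Ring1.wa hn G h

theorem l1_app (X : BinaryTree Unit) : l1 △ X = lv2 1 X := rfl

/-- class words as trees: right -/
theorem val_0 {p t : ℕ} {D : BinaryTree Unit} {F : ZMod (2 * n + 1) → ℕ}
    (e : RR p D t = Ring1.RF n F) : pw (RR p D t) 0 = Ring1.RF n (ad F (-1)) := by
  rw [e]
  exact Ring1.app_RF F

theorem val_4 {p t : ℕ} {D : BinaryTree Unit} {F : ZMod (2 * n + 1) → ℕ}
    (e : RR p D t = Ring1.RF n F) : pw (RR p D t) 4 = Ring1.RF n (ad F 0) := by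
  rw [e]
  exact Ring1.cons_RF F

theorem val_10 {t u : ℕ} {D' : BinaryTree Unit} {F' : ZMod (2 * n + 1) → ℕ}
    (e : RR t D' u = Ring1.RF n F') : mw t D' u 10 = Ring1.RF n (ad F' 0) := by
  rw [mw_10]
  change l1 △ RR t D' u = _
  rw [e]
  exact Ring1.cons_RF F'

/-! ### Mirrored words -/

/-- the data of the mirrored words of `Φ` -/
structure MD (k n : ℕ) (Φ : ZMod (2 * n + 1) → ℕ) (D D' : BinaryTree Unit) : Prop where
  sh : Sh k (Φ (-1)) D (Φ 0) D' (Φ 1)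
  e : RR (Φ (-1)) D (Φ 0) = Ring1.RF n (rf Φ)
  e' : RR (Φ 0) D' (Φ 1) = Ring1.RF n (rf (fun z => Φ (z + 1)))

theorem exMD (hn : 1 ≤ n) (Φ : ZMod (2 * n + 1) → ℕ) (hk : n + 4 + 2 * ∑ x, Φ x = k) :
    ∃ D D' : BinaryTree Unit, MD k n Φ D D' := by
  obtain ⟨D, D', h1, h2, h3⟩ := sh_RF (k := k) hn (rf Φ) (by rw [rf_sum]; exact hk)
  have a0 : rf Φ 0 = Φ (-1) := by unfold rf; rw [sub_zero]
  have a1 : rf Φ (-1) = Φ 0 := by unfold rf; congr 1; ring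
  have a2 : rf Φ (-2) = Φ 1 := by unfold rf; congr 1; ring
  rw [a0, a1, a2] at h1
  rw [a0, a1] at h2
  rw [a1, a2] at h3
  refine ⟨D, D', h1, h2, ?_⟩
  rw [h3]
  congr 1
  funext z
  unfold rf
  congr 1
  ring

variable {Φ : ZMod (2 * n + 1) → ℕ} {D D' : BinaryTree Unit}

/-- the words -/
noncomputable def jP (Φ : ZMod (2 * n + 1) → ℕ) (D D' : BinaryTree Unit) (w0 : X k) (i : ℕ) : X k :=
  jM (Φ (-1)) D (Φ 0) D' (Φ 1) w0 i

theorem MD.v0 (h : MD k n Φ D D') (w0 : X k) : (jP Φ D D' w0 0).1 = Ring1.RF n (ad Φ 0) := by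
  change Tsq.mir (jX _ _ _ _ _ w0 0).1 = _
  rw [h.sh.word_lo w0 (by norm_num), val_0 h.e, mir_RF, rf_ad, rf_rf]
  congr 2
  ring

theorem MD.v4 (h : MD k n Φ D D') (w0 : X k) : (jP Φ D D' w0 4).1 = Ring1.RF n (ad Φ (-1)) := by
  change Tsq.mir (jX _ _ _ _ _ w0 4).1 = _
  rw [h.sh.word_lo w0 (by norm_num), val_4 h.e, mir_RF, rf_ad, rf_rf]
  congr 2
  ring

theorem MD.v10 (h : MD k n Φ D D') (w0 : X k) :
    (jP Φ D D' w0 10).1 = Ring1.RF n (ad (fun z => Φ (z + 1)) (-1)) := by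
  change Tsq.mir (jX _ _ _ _ _ w0 10).1 = _
  rw [h.sh.word_hi w0 (by norm_num) (by norm_num), val_10 h.e', mir_RF, rf_ad, rf_rf]
  congr 2
  ring

theorem MD.v13 (h : MD k n Φ D D') (h0 : Φ 0 = 0) (w0 : X k) :
    (jP Φ D D' w0 13).1 = Ring1.RF n (ad (fun z => Φ (z + 1)) 0) := by
  change Tsq.mir (jX _ _ _ _ _ w0 13).1 = _
  have e' := h.e'
  rw [h.sh.word_hi w0 (by norm_num) (by norm_num), h0, mw_zero D' _ (by norm_num) (by norm_num)]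
  rw [h0] at e'
  change Tsq.mir (pw (RR 0 D' (Φ 1)) 0) = _
  rw [val_0 e', mir_RF, rf_ad, rf_rf]
  congr 2
  ring

/-- the kind of every mirrored word -/
theorem MD.lo (h : MD k n Φ D D') (w0 : X k) {i : ℕ} (hi : i < 10) (h0 : i ≠ 0) (h4 : i ≠ 4) :
    IsPu n Φ (jP Φ D D' w0 i).1 := by
  refine ⟨mx i, mx_lt i, ?_, ?_, ?_⟩
  · interval_cases i <;> first | exact absurd rfl h0 | exact absurd rfl h4 | decide
  · interval_cases i <;> first | exact absurd rfl h0 | exact absurd rfl h4 | decide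
  · change Tsq.mir (jX _ _ _ _ _ w0 i).1 = _
    rw [h.sh.word_lo w0 hi, mir_pw _ hi, h.e, mir_RF, rf_rf]

theorem MD.hi0 (h : MD k n Φ D D') (h0 : Φ 0 = 0) (w0 : X k) {i : ℕ} (hi : 10 ≤ i) (hi' : i < 20)
    (h10 : i ≠ 10) (h13 : i ≠ 13) : IsPu n (fun z => Φ (z + 1)) (jP Φ D D' w0 i).1 := by
  have e' := h.e'
  rw [h0] at e'
  refine ⟨mx (ixp i), mx_lt _, ?_, ?_, ?_⟩
  · interval_cases i <;> first | exact absurd rfl h10 | exact absurd rfl h13 | decide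
  · interval_cases i <;> first | exact absurd rfl h10 | exact absurd rfl h13 | decide
  · change Tsq.mir (jX _ _ _ _ _ w0 i).1 = _
    rw [h.sh.word_hi w0 hi hi', h0, mw_zero D' _ hi hi', mir_pw _ (ixp_lt i), e', mir_RF, rf_rf]

theorem MD.hi1 (h : MD k n Φ D D') (h0 : 1 ≤ Φ 0) (w0 : X k) {i : ℕ} (hi : 11 ≤ i) (hi' : i < 20) :
    IsMx n (fun z => Φ (z + 1)) (jP Φ D D' w0 i).1 := by
  refine ⟨Φ 0, D', Φ 1, i, h0, h.sh.gD', ?_, hi, hi', ?_⟩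
  · rw [mir_RF, h.e']
  · change Tsq.mir (jX _ _ _ _ _ w0 i).1 = _
    rw [h.sh.word_hi w0 (by omega) hi']

/-- pure functions of the mirrored gadget -/
def PM (Φ : ZMod (2 * n + 1) → ℕ) : Set (ZMod (2 * n + 1) → ℕ) :=
  {Ψ | Ψ = Φ ∨ (Φ 0 = 0 ∧ Ψ = fun z => Φ (z + 1))}

/-- class functions of the mirrored gadget -/
def UM (Φ : ZMod (2 * n + 1) → ℕ) : Set (ZMod (2 * n + 1) → ℕ) :=
  {Ψ | Ψ = ad Φ 0 ∨ Ψ = ad Φ (-1) ∨ Ψ = ad (fun z => Φ (z + 1)) (-1) ∨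
    (Φ 0 = 0 ∧ Ψ = ad (fun z => Φ (z + 1)) 0)}

/-- mixed functions of the mirrored gadget -/
def MM (Φ : ZMod (2 * n + 1) → ℕ) : Set (ZMod (2 * n + 1) → ℕ) :=
  {Ψ | 1 ≤ Φ 0 ∧ Ψ = fun z => Φ (z + 1)}

theorem MD.jg (h : MD k n Φ D D') (w0 : X k) {B : Finset (X k)}
    (hB : ∀ w ∈ B, ∃ i < 20, w = jP Φ D D' w0 i) : JG n B (PM Φ) (UM Φ) (MM Φ) := by
  intro w hw
  obtain ⟨i, hi, rfl⟩ := hB w hw
  have us : ∀ (G : ZMod (2 * n + 1) → ℕ) (x : ZMod (2 * n + 1)), x = 0 ∨ x = -1 →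
      1 ≤ ad G x 0 + ad G x (-1) := by
    rintro G x (rfl | rfl)
    · have := ad_self G 0; omega
    · have := ad_self G (-1); omega
  by_cases h0 : i = 0
  · subst h0
    exact Or.inr (Or.inl ⟨_, Or.inl rfl, us _ _ (Or.inl rfl), h.v0 w0⟩)
  by_cases h4 : i = 4
  · subst h4
    exact Or.inr (Or.inl ⟨_, Or.inr (Or.inl rfl), us _ _ (Or.inr rfl), h.v4 w0⟩)
  by_cases h10 : i = 10
  · subst h10
    exact Or.inr (Or.inl ⟨_, Or.inr (Or.inr (Or.inl rfl)), us _ _ (Or.inr rfl), h.v10 w0⟩)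
  rcases lt_or_ge i 10 with h1 | h1
  · exact Or.inl ⟨_, Or.inl rfl, h.lo w0 h1 h0 h4⟩
  rcases Nat.eq_zero_or_pos (Φ 0) with hΦ | hΦ
  · by_cases h13 : i = 13
    · subst h13
      exact Or.inr (Or.inl ⟨_, Or.inr (Or.inr (Or.inr ⟨hΦ, rfl⟩)), us _ _ (Or.inl rfl),
        h.v13 hΦ w0⟩)
    · exact Or.inl ⟨_, Or.inr ⟨hΦ, rfl⟩, h.hi0 hΦ w0 h1 hi h10 h13⟩
  · exact Or.inr (Or.inr ⟨_, ⟨hΦ, rfl⟩, h.hi1 hΦ w0 (by omega) hi⟩)

/-- existence of the mirrored pair gadget -/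
theorem exJM (hn : 1 ≤ n) (Φ : ZMod (2 * n + 1) → ℕ) (hk : n + 4 + 2 * ∑ x, Φ x = k)
    {z z' : X k} (hz : z.1 = Ring1.RF n (ad Φ 0)) (hz' : z'.1 = Ring1.RF n (ad Φ (-1)))
    (h10 : ad Φ 0 ≠ ad (fun z => Φ (z + 1)) (-1)) (h4 : cyc z ≠ cyc z')
    (h13 : Φ 0 = 0 → ∀ y : X k, y.1 = Ring1.RF n (ad (fun z => Φ (z + 1)) 0) →
      cyc y ≠ cyc z ∧ cyc y ≠ cyc z') :
    ∃ g : DG k, TyJM {cyc z, cyc z'} g ∧ JG n g.B (PM Φ) (UM Φ) (MM Φ) := by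
  obtain ⟨D, D', h⟩ := exMD (k := k) hn Φ hk
  have e0 : jP Φ D D' z 0 = z := Subtype.ext ((h.v0 z).trans hz.symm)
  have e4 : jP Φ D D' z 4 = z' := Subtype.ext ((h.v4 z).trans hz'.symm)
  refine ⟨gadJM (jP Φ D D' z), ⟨_, D, _, D', _, z, h.sh, ⟨?_, ?_, ?_⟩, ?_, rfl⟩, ?_⟩
  · intro e
    have e1 := congrArg Subtype.val e
    change (jP Φ D D' z 0).1 = (jP Φ D D' z 10).1 at e1
    rw [h.v0, h.v10] at e1
    exact h10 (Ring1.RF_inj e1)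
  · change cyc (jP Φ D D' z 0) ≠ cyc (jP Φ D D' z 4)
    rw [e0, e4]
    exact h4
  · intro ht
    change cyc (jP Φ D D' z 13) ≠ cyc (jP Φ D D' z 0) ∧ cyc (jP Φ D D' z 13) ≠ cyc (jP Φ D D' z 4)
    rw [e0, e4]
    exact h13 ht _ (h.v13 ht z)
  · change _ = {cyc (jP Φ D D' z 0), cyc (jP Φ D D' z 4)}
    rw [e0, e4]
  · apply h.jg z
    intro w hw
    obtain ⟨i, hi, _, rfl⟩ := mem_gadJM.1 hw
    exact ⟨i, hi, rfl⟩

end J

end Pool.OddHC
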