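import Pool.Agent.Work.MP_8f87b2_h35.GadJ5
import Pool.Agent.Work.MP_8f87b2_h22.B6
import Pool.Agent.Work.MP_8f87b2_h40.TyF

/-!
# MP_8f87b2_co, one soliton, no beads: type TyJ5 = helper47's gadget J5 (right, 11 words, `Φ (-1) = 0`)

New T-cycles: word 0 = `Φ + [-1]`, word 4 = `Φ + [0]`, word 13 = `Φ'' + [-1]`, `Φ'' = Φ (· - 1)`, word 1 = `R()()`, word 2 =
`()R()`. All old words are higher.
-/

set_option autoImplicit false

namespace Pool.OddHC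

open Finset Equiv BinaryTree Pool.Agent.Work.MP_8f87b2_co

namespace J

variable {k p u : ℕ} {D D' : BinaryTree Unit}

/-- the conditions of the gadget J5 -/
structure J5OK (p : ℕ) (D D' : BinaryTree Unit) (u : ℕ) (w0 : X k) : Prop where
  n4 : cyc (jX p D 0 D' u w0 0) ≠ cyc (jX p D 0 D' u w0 4)
  n13 : cyc (jX p D 0 D' u w0 13) ≠ cyc (jX p D 0 D' u w0 0)
  n134 : cyc (jX p D 0 D' u w0 13) ≠ cyc (jX p D 0 D' u w0 4)
  n12 : cyc (jX p D 0 D' u w0 1) ≠ cyc (jX p D 0 D' u w0 2)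
  s18 : cyc (jX p D 0 D' u w0 18) = cyc (jX p D 0 D' u w0 2)

theorem Sh.htJ5 (h : Sh k p D 0 D' u) (w0 : X k) : ∀ i ∈ nwJ5,
    ht (jX p D 0 D' u w0 i).1 = ht (RR p D 0) := by
  intro i hi
  have hb := ht_RR h.gD p 0
  have hD := h.gD.ht
  have hS := h.htS
  have h00 : ht (BinaryTree.nil : BinaryTree Unit) = 0 := rfl
  have hB : ht (b2 0) = 0 := rfl
  have hlt : i < 20 := by
    simp only [nwJ5, List.mem_cons, List.not_mem_nil, or_false] at hi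
    omega
  rw [h.word w0 hlt]
  simp only [nwJ5, List.mem_cons, List.not_mem_nil, or_false] at hi
  rcases hi with rfl | rfl | rfl | rfl | rfl <;>
    simp only [H1.W, app, ht_app, ht_node, h00, hB] <;> omega

theorem Sh.htJ5o (h : Sh k p D 0 D' u) (w0 : X k) : ∀ i ∈ odJ5,
    ht (RR p D 0) < ht (jX p D 0 D' u w0 i).1 := by
  intro i hi
  have hb := ht_RR h.gD p 0
  have hD := h.gD.ht
  have hS := h.htS
  have h00 : ht (BinaryTree.nil : BinaryTree Unit) = 0 := rfl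
  have hB : ht (b2 0) = 0 := rfl
  have hlt : i < 20 := by
    simp only [odJ5, List.mem_cons, List.not_mem_nil, or_false] at hi
    omega
  rw [h.word w0 hlt]
  simp only [odJ5, List.mem_cons, List.not_mem_nil, or_false] at hi
  rcases hi with rfl | rfl | rfl | rfl <;>
    simp only [H1.W, app, ht_app, ht_node, h00, hB] <;> omega

theorem Sh.same11 (h : Sh k p D 0 D' u) (w0 : X k) :
    TT.SameCycle (jX p D 0 D' u w0 1) (jX p D 0 D' u w0 11) := by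
  have h1 := h.link w0 (i := 1) (j := 11) (by simp)
  refine ⟨2, ?_⟩
  rw [show (2 : ℤ) = ((2 : ℕ) : ℤ) from rfl, zpow_natCast, pow_two, Perm.mul_apply, h1]

theorem Sh.injJ5 (h : Sh k p D 0 D' u) {w0 : X k} (hp : J5OK p D D' u w0) :
    ∀ i ∈ ixJ5, ∀ j ∈ ixJ5, jX p D 0 D' u w0 i = jX p D 0 D' u w0 j → i = j := by
  have lo : ∀ i < 10, ∀ j < 10, jX p D 0 D' u w0 i = jX p D 0 D' u w0 j → i = j := by
    intro i hi j hj e
    have e1 := congrArg Subtype.val e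
    rw [h.word_lo w0 hi, h.word_lo w0 hj] at e1
    rcases pure_inj h.gD h.gD hi hj e1 with ⟨h1, _⟩ | ⟨h1 | h1, h2 | h2⟩
    · exact h1
    · omega
    · subst h1 h2; exact absurd (congrArg cyc e) hp.n4
    · subst h1 h2; exact absurd (congrArg cyc e).symm hp.n4
    · omega
  have mid : ∀ i < 10, ∀ j, 11 ≤ j → j < 20 → jX p D 0 D' u w0 i ≠ jX p D 0 D' u w0 j := by
    intro i hi j hj hj' e
    have e1 := congrArg Subtype.val e
    rw [h.word_lo w0 hi, h.word_hi w0 (by omega) hj', mw_zero D' u (by omega) hj'] at e1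
    rcases pure_inj h.gD h.gD' hi (ixp_lt j) e1 with ⟨_, h2⟩ | ⟨h1, h2⟩
    · apply hp.n13
      apply congrArg cyc
      apply Subtype.ext
      rw [h.word_hi w0 (i := 13) (by norm_num) (by norm_num),
        mw_zero D' u (by norm_num) (by norm_num), h.word_lo w0 (i := 0) (by norm_num), h2]
      rfl
    · have hj2 : j = 13 := by
        interval_cases j <;> simp [ixp] at h2 ⊢
      subst hj2
      rcases h1 with h1 | h1 <;> subst h1
      · exact hp.n13 (congrArg cyc e).symm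
      · exact hp.n134 (congrArg cyc e).symm
  have hi2 : ∀ i, 11 ≤ i → i < 20 → ∀ j, 11 ≤ j → j < 20 →
      jX p D 0 D' u w0 i = jX p D 0 D' u w0 j → i = j := by
    intro i hi hi' j hj hj' e
    have e1 := congrArg Subtype.val e
    rw [h.word_hi w0 (by omega) hi', h.word_hi w0 (by omega) hj', mw_zero D' u (by omega) hj',
      mw_zero D' u (by omega) hi'] at e1
    rcases pure_inj h.gD' h.gD' (ixp_lt i) (ixp_lt j) e1 with ⟨h1, _⟩ | ⟨h1, h2⟩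
    · exact ixp_inj (by omega) hi' (by omega) hj' h1
    · have hi2 : i = 13 := by
        interval_cases i <;> simp [ixp] at h1 ⊢
      have hj2 : j = 13 := by
        interval_cases j <;> simp [ixp] at h2 ⊢
      omega
  have hr : ∀ i ∈ ixJ5, i < 10 ∨ (11 ≤ i ∧ i < 20) := by decide
  intro i hi j hj e
  rcases hr i hi with h1 | ⟨h1, h1'⟩ <;> rcases hr j hj with h2 | ⟨h2, h2'⟩
  · exact lo i h1 j h2 e
  · exact absurd e (mid i h1 j h2 h2')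
  · exact absurd e.symm (mid j h2 i h1 h1')
  · exact hi2 i h1 h1' j h2 h2' e

theorem Sh.clJ5 (h : Sh k p D 0 D' u) (w0 : X k) : ∀ i ∈ [0, 4, 13],
    OddHC.cont (jX p D 0 D' u w0 i).1 = OddHC.cont (RR p D 0) + {2} := by
  intro i hi
  simp only [List.mem_cons, List.not_mem_nil, or_false] at hi
  rcases hi with rfl | rfl | rfl
  · exact h.cont0 w0
  · exact h.cont4 w0
  · exact h.cont13 w0

/-- the new T-cycles are different -/
theorem Sh.sepJ5 (h : Sh k p D 0 D' u) {w0 : X k} (hp : J5OK p D D' u w0) :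
    ∀ i ∈ nwJ5, ∀ j ∈ nwJ5, TT.SameCycle (jX p D 0 D' u w0 i) (jX p D 0 D' u w0 j) → i = j := by
  have hr : ∀ i ∈ nwJ5, i ∈ [0, 4, 13] ∨ i = 1 ∨ i = 2 := by decide
  have cl : ∀ i ∈ [0, 4, 13], ∀ j, j = 1 ∨ j = 2 →
      ¬ TT.SameCycle (jX p D 0 D' u w0 i) (jX p D 0 D' u w0 j) := by
    intro i hi j hj
    exact h.other w0 (by omega) (by omega) (by omega) (by omega) (by omega) (h.clJ5 w0 i hi)
  have cc : ∀ i ∈ [0, 4, 13], ∀ j ∈ [0, 4, 13],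
      cyc (jX p D 0 D' u w0 i) = cyc (jX p D 0 D' u w0 j) → i = j := by
    intro i hi j hj e
    simp only [List.mem_cons, List.not_mem_nil, or_false] at hi hj
    rcases hi with rfl | rfl | rfl <;> rcases hj with rfl | rfl | rfl
    · rfl
    · exact absurd e hp.n4
    · exact absurd e.symm hp.n13
    · exact absurd e.symm hp.n4
    · rfl
    · exact absurd e.symm hp.n134
    · exact absurd e hp.n13
    · exact absurd e hp.n134
    · rfl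
  intro i hi j hj hs
  rcases hr i hi with h1 | h1 <;> rcases hr j hj with h2 | h2
  · exact cc i h1 j h2 (cyc_eq.2 hs)
  · exact absurd hs (cl i h1 j h2)
  · exact absurd hs.symm (cl j h2 i h1)
  · have e := cyc_eq.2 hs
    rcases h1 with rfl | rfl <;> rcases h2 with rfl | rfl
    · rfl
    · exact absurd e hp.n12
    · exact absurd e.symm hp.n12
    · rfl

theorem Sh.absJ5 (h : Sh k p D 0 D' u) {w0 : X k} (hp : J5OK p D D' u w0) :
    (gadJ5 (jX p D 0 D' u w0)).Abs := by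
  have e := h.num
  have es := h.size
  have hix : ∀ i ∈ ixJ5, i < 20 := by decide
  apply gadJ5_abs (R := RR p D 0) (B := b2 0) (S := RR 0 D' u) es (by omega)
    (fun i hi => by rw [h.word w0 (hix i hi), H1.W_w20 _ _ _ _ i (hix i hi)]) (h.injJ5 hp)
    (h.same11 w0) (cyc_eq.1 hp.s18.symm) (h.sepJ5 hp)
  intro i hi j hj hs
  have h1 := h.htJ5 w0 i hi
  have h2 := h.htJ5o w0 j hj
  have h3 : htc (cyc (jX p D 0 D' u w0 i)) = htc (cyc (jX p D 0 D' u w0 j)) :=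
    congrArg htc (cyc_eq.2 hs)
  rw [htc_cyc, htc_cyc] at h3
  omega

end J

open J

variable {k : ℕ} {F F' : Set (Cyc k)} {g g' : DG k}

/-- TYPE J5 -/
def TyJ5 (F : Set (Cyc k)) (g : DG k) : Prop :=
  ∃ (p : ℕ) (D : BinaryTree Unit) (D' : BinaryTree Unit) (u : ℕ) (w0 : X k),
    Sh k p D 0 D' u ∧ J5OK p D D' u w0 ∧
    F = {c | ∃ i ∈ nwJ5, c = cyc (jX p D 0 D' u w0 i)} ∧ g = gadJ5 (jX p D 0 D' u w0)

theorem TyJ5.hF (h : TyJ5 F g) : ∀ w, w ∈ g.F ↔ cyc w ∈ F := by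
  obtain ⟨p, D, D', u, w0, h1, hp, rfl, rfl⟩ := h
  intro w
  rw [mem_gadJ5_F]
  constructor
  · rintro ⟨c, hc, hs⟩
    exact ⟨c, hc, (cyc_eq.2 hs).symm⟩
  · rintro ⟨c, hc, hs⟩
    exact ⟨c, hc, cyc_eq.1 hs.symm⟩

theorem TyJ5.new (h : TyJ5 F g) : ∀ c ∈ F, ∃ u ∈ g.B, cyc u = c := by
  obtain ⟨p, D, D', u, w0, h1, hp, rfl, rfl⟩ := h
  rintro c ⟨i, hi, rfl⟩
  have hix : ∀ i ∈ nwJ5, i ∈ ixJ5 := by decide
  exact ⟨_, mem_gadJ5_B.2 ⟨i, hix i hi, rfl⟩, rfl⟩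

/-- every old word is higher -/
theorem TyJ5.rank (h : TyJ5 F g) : ∀ w ∈ g.B, cyc w ∈ F ∨ ∀ c ∈ F, htc c < htc (cyc w) := by
  obtain ⟨p, D, D', u, w0, h1, hp, rfl, rfl⟩ := h
  intro w hw
  obtain ⟨i, hi, rfl⟩ := mem_gadJ5_B.1 hw
  have hr : ∀ i ∈ ixJ5, i ∈ nwJ5 ∨ i = 11 ∨ i = 18 ∨ i ∈ odJ5 := by decide
  rcases hr i hi with h2 | rfl | rfl | h2
  · exact Or.inl ⟨i, h2, rfl⟩
  · exact Or.inl ⟨1, by decide, (cyc_eq.2 (h1.same11 w0)).symm⟩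
  · exact Or.inl ⟨2, by decide, hp.s18⟩
  · right
    rintro c ⟨j, hj, rfl⟩
    have h3 := h1.htJ5 w0 j hj
    have h4 := h1.htJ5o w0 i h2
    rw [htc_cyc, htc_cyc]
    omega

theorem TyJ5.old (h : TyJ5 F g) : ∃ u ∈ g.B, cyc u ∉ F := by
  obtain ⟨p, D, D', u, w0, h1, hp, rfl, rfl⟩ := h
  refine ⟨_, mem_gadJ5_B.2 ⟨3, by decide, rfl⟩, ?_⟩
  rintro ⟨i, hi, e⟩
  have h3 := h1.htJ5 w0 i hi
  have h4 := h1.htJ5o w0 3 (by decide)
  have h5 : htc (cyc (jX p D 0 D' u w0 3)) = htc (cyc (jX p D 0 D' u w0 i)) := congrArg htc e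
  rw [htc_cyc, htc_cyc] at h5
  omega

theorem TyJ5.abs (h : TyJ5 F g) : g.Abs := by
  obtain ⟨p, D, D', u, w0, h1, hp, rfl, rfl⟩ := h
  exact h1.absJ5 hp

/-- all new T-cycles have the same height -/
theorem TyJ5.htp (h : TyJ5 F g) : ∀ c ∈ F, ∀ d ∈ F, htc c = htc d := by
  obtain ⟨p, D, D', u, w0, h1, hp, rfl, rfl⟩ := h
  rintro c ⟨i, hi, rfl⟩ d ⟨j, hj, rfl⟩
  have h3 := h1.htJ5 w0 i hi
  have h4 := h1.htJ5 w0 j hj
  rw [htc_cyc, htc_cyc]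
  omega

theorem TyJ5.path (h : TyJ5 F g) : ∀ a ∈ g.arcs, ∃ n : ℕ, (TT ^ (n + 1)) a.1 = a.2 ∧ a.1 ∈ g.B ∧
    ∀ i < n, (TT ^ (i + 1)) a.1 ∈ innA a := by
  obtain ⟨p, D, D', u, w0, h1, hp, rfl, rfl⟩ := h
  intro q hq
  have hq' : q = (jX p D 0 D' u w0 8, jX p D 0 D' u w0 14) := hq
  subst hq'
  refine ⟨1, ?_, mem_gadJ5_B.2 ⟨8, by decide, rfl⟩, ?_⟩
  · rw [pow_succ, pow_one, Perm.mul_apply]
    exact h1.link w0 (by simp)
  · intro n hn
    obtain rfl : n = 0 := by omega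
    rw [pow_one]
    rfl

namespace J

variable {n : ℕ}

/-- pure functions of J5 -/
def P5 (Φ : ZMod (2 * n + 1) → ℕ) : Set (ZMod (2 * n + 1) → ℕ) := {Φ, fun z => Φ (z - 1)}

/-- class functions of J5 -/
def U5 (Φ : ZMod (2 * n + 1) → ℕ) : Set (ZMod (2 * n + 1) → ℕ) :=
  {ad Φ (-1), ad Φ 0, ad (fun z => Φ (z - 1)) (-1)}

/-- existence of J5 over `Φ`, `Φ (-1) = 0`: `z1, z2, z3` the three places, `y, y'` the words `R()()`, `()R()` -/
theorem exJ5 (hn : 1 ≤ n) (Φ : ZMod (2 * n + 1) → ℕ) (hk : n + 4 + 2 * ∑ x, Φ x = k)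
    (h0 : Φ (-1) = 0) {z1 z2 z3 y y' : X k} (hz1 : z1.1 = Ring1.RF n (ad Φ (-1)))
    (hz2 : z2.1 = Ring1.RF n (ad Φ 0)) (hz3 : z3.1 = Ring1.RF n (ad (fun z => Φ (z - 1)) (-1)))
    (hy : y.1 = app (Ring1.RF n Φ) (.nil △ (.nil △ .nil)))
    (hy' : y'.1 = .nil △ app (Ring1.RF n Φ) (.nil △ .nil))
    (h12 : cyc z1 ≠ cyc z2) (h31 : cyc z3 ≠ cyc z1) (h32 : cyc z3 ≠ cyc z2)
    (hyy : cyc y ≠ cyc y') :
    ∃ g : DG k, TyJ5 {cyc z1, cyc z2, cyc z3, cyc y, cyc y'} g ∧ JG n g.B (P5 Φ) (U5 Φ) ∅ := by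
  obtain ⟨D, D', h, e, e'⟩ := sh_RF (k := k) hn Φ hk
  rw [h0] at h e e'
  have v0 : (jX (Φ 0) D 0 D' (Φ (-2)) z1 0).1 = Ring1.RF n (ad Φ (-1)) := by
    rw [h.word_lo z1 (by norm_num), val_0 e]
  have v4 : (jX (Φ 0) D 0 D' (Φ (-2)) z1 4).1 = Ring1.RF n (ad Φ 0) := by
    rw [h.word_lo z1 (by norm_num), val_4 e]
  have v13 : (jX (Φ 0) D 0 D' (Φ (-2)) z1 13).1 = Ring1.RF n (ad (fun z => Φ (z - 1)) (-1)) := by
    rw [h.word_hi z1 (by norm_num) (by norm_num), mw_zero D' _ (by norm_num) (by norm_num)]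
    exact val_0 e'
  have v1 : (jX (Φ 0) D 0 D' (Φ (-2)) z1 1).1 = app (Ring1.RF n Φ) (.nil △ (.nil △ .nil)) := by
    rw [h.word_lo z1 (by norm_num), e]
    rfl
  have v2 : (jX (Φ 0) D 0 D' (Φ (-2)) z1 2).1 = .nil △ app (Ring1.RF n Φ) (.nil △ .nil) := by
    rw [h.word_lo z1 (by norm_num), e]
    rfl
  have v18 : (jX (Φ 0) D 0 D' (Φ (-2)) z1 18).1 =
      .nil △ app (Ring1.RF n fun z => Φ (z + (-1))) (.nil △ .nil) := by
    rw [h.word_hi z1 (by norm_num) (by norm_num), mw_zero D' _ (by norm_num) (by norm_num), e']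
    have e3 : (fun z => Φ (z - 1)) = fun z => Φ (z + (-1)) := by
      funext z
      rw [sub_eq_add_neg]
    rw [e3]
    rfl
  have e0 : jX (Φ 0) D 0 D' (Φ (-2)) z1 0 = z1 := Subtype.ext (v0.trans hz1.symm)
  have e4 : jX (Φ 0) D 0 D' (Φ (-2)) z1 4 = z2 := Subtype.ext (v4.trans hz2.symm)
  have e13 : jX (Φ 0) D 0 D' (Φ (-2)) z1 13 = z3 := Subtype.ext (v13.trans hz3.symm)
  have e1 : jX (Φ 0) D 0 D' (Φ (-2)) z1 1 = y := Subtype.ext (v1.trans hy.symm)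
  have e2 : jX (Φ 0) D 0 D' (Φ (-2)) z1 2 = y' := Subtype.ext (v2.trans hy'.symm)
  have s18 : cyc (jX (Φ 0) D 0 D' (Φ (-2)) z1 18) = cyc (jX (Φ 0) D 0 D' (Φ (-2)) z1 2) :=
    (cyc_eq.2 (Ring1.same_mid hn Φ (-1) v2 v18)).symm
  refine ⟨gadJ5 (jX (Φ 0) D 0 D' (Φ (-2)) z1), ⟨_, D, D', _, z1, h, ⟨?_, ?_, ?_, ?_, s18⟩, ?_, rfl⟩,
    ?_⟩
  · rw [e0, e4]; exact h12
  · rw [e13, e0]; exact h31
  · rw [e13, e4]; exact h32
  · rw [e1, e2]; exact hyy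
  · ext c
    simp only [nwJ5, List.mem_cons, List.not_mem_nil, or_false, Set.mem_ofPred_eq, exists_eq_or_imp,
      exists_eq_left, Set.mem_insert_iff, Set.mem_singleton_iff, e0, e4, e13, e1, e2]
  · intro w hw
    obtain ⟨i, hi, rfl⟩ := mem_gadJ5_B.1 hw
    have us : ∀ (G : ZMod (2 * n + 1) → ℕ) (x : ZMod (2 * n + 1)), x = 0 ∨ x = -1 →
        1 ≤ ad G x 0 + ad G x (-1) := by
      rintro G x (rfl | rfl)
      · have := ad_self G 0; omega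
      · have := ad_self G (-1); omega
    have hr : ∀ i ∈ ixJ5, i = 0 ∨ i = 4 ∨ i = 13 ∨ (i < 10 ∧ i ≠ 0 ∧ i ≠ 4) ∨
        (10 ≤ i ∧ i < 20 ∧ ixp i ≠ 0 ∧ ixp i ≠ 4) := by decide
    rcases hr i hi with rfl | rfl | rfl | ⟨h1, h2, h3⟩ | ⟨h1, h2, h3, h4⟩
    · exact Or.inr (Or.inl ⟨_, Or.inl rfl, us _ _ (Or.inr rfl), v0⟩)
    · exact Or.inr (Or.inl ⟨_, Or.inr (Or.inl rfl), us _ _ (Or.inl rfl), v4⟩)
    · exact Or.inr (Or.inl ⟨_, Or.inr (Or.inr rfl), us _ _ (Or.inr rfl), v13⟩)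
    · left
      refine ⟨Φ, Or.inl rfl, i, h1, h2, h3, ?_⟩
      rw [h.word_lo z1 h1, e]
    · left
      refine ⟨_, Or.inr rfl, ixp i, ixp_lt i, h3, h4, ?_⟩
      rw [h.word_hi z1 h1 h2, mw_zero D' _ h1 h2, e']

end J

end Pool.OddHC
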