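import Pool.Agent.Work.MP_8f87b2_h22.B6

/-!
# MP_8f87b2_co, one soliton: `R()()` and `()R()` are on different T-cycles
-/

set_option autoImplicit false

namespace Pool.OddHC

open Finset Equiv BinaryTree Pool.Agent.Work.MP_8f87b2_co

namespace J

open Ring1

variable {k n : ℕ}

/-- `R()()` and `()R'()` are on different T-cycles, for all `R`, `R'` -/
theorem bb_ne_fb (hn : 1 ≤ n) (F F' : ZMod (2 * n + 1) → ℕ) (hs : ∑ x, F x = ∑ x, F' x)
    {y y' : X k} (hy : y.1 = app (RF n F) (.nil △ (.nil △ .nil)))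
    (hy' : y'.1 = .nil △ app (RF n F') (.nil △ .nil)) : cyc y ≠ cyc y' := by
  intro he
  have hj := hj_of hn F
  have hj' : n + pkn (pwX n).1 + ∑ x, F' x = n + 1 + ∑ x, F x := by
    rw [hs]
    exact hj_of hn F'
  rw [RF_bb F hj] at hy
  rw [RF_fb F' hj'] at hy'
  obtain ⟨h1, rfl⟩ := eq_phi F hj _ hy
  obtain ⟨h2, rfl⟩ := eq_phi F' hj' _ hy'
  obtain ⟨i, -, hi⟩ := (cyc_eq.1 he).exists_pow_eq'
  rw [pow_phi] at hi
  have h3 := (phi_inj hi).2
  have h4 := congrFun h3 (-1 - sp (phi (pwX n) F hj) i)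
  simp only [sub_add_cancel, if_true] at h4
  have h6 : (0 : ZMod (2 * (n + 1 + ∑ x, F x) + 1)) = -1 := by
    by_contra hne
    split_ifs at h4 with a b b <;> try omega
    exact hne (b.symm.trans a)
  refine cast_ne (M := 2 * (n + 1 + ∑ x, F x) + 1) (m := 1) le_rfl (by omega) ?_
  rw [Nat.cast_one]
  linear_combination h6

end J

end Pool.OddHC
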