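import Pool.Agent.Work.MP_8f87b2_h35.GadJ4
import Pool.Agent.Work.MP_8f87b2_h40.TyJ5
import Pool.Agent.Work.MP_8f87b2_h40.YY

/-!
# MP_8f87b2_co, one soliton, no beads: type TyJ4 = the bottom pair of an even group with the E pair (right, 10 words,
`Φ (-1) = 0`)

New T-cycles: word 0 = `Φ + [-1]`, word 4 = `Φ + [0]`, word 1 = `R()()` (with 11, 5), word 2 = `()R()` (with 18). All old words
(6, 8, 14) are higher.
-/

set_option autoImplicit false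

namespace Pool.OddHC

open Finset Equiv BinaryTree Pool.Agent.Work.MP_8f87b2_co

namespace J

variable {k p u : ℕ} {D D' : BinaryTree Unit}

/-- the conditions of the gadget J4 -/
structure J4OK (p : ℕ) (D D' : BinaryTree Unit) (u : ℕ) (w0 : X k) : Prop where
  nR : RR p D 0 ≠ RR 0 D' u
  n4 : cyc (jX p D 0 D' u w0 0) ≠ cyc (jX p D 0 D' u w0 4)
  n12 : cyc (jX p D 0 D' u w0 1) ≠ cyc (jX p D 0 D' u w0 2)
  s18 : cyc (jX p D 0 D' u w0 18) = cyc (jX p D 0 D' u w0 2)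
  f1 : FR TT {jX p D 0 D' u w0 1, jX p D 0 D' u w0 11, jX p D 0 D' u w0 5}
    (jX p D 0 D' u w0 1) (jX p D 0 D' u w0 11)
  f11 : FR TT {jX p D 0 D' u w0 1, jX p D 0 D' u w0 11, jX p D 0 D' u w0 5}
    (jX p D 0 D' u w0 11) (jX p D 0 D' u w0 5)
  f5 : FR TT {jX p D 0 D' u w0 1, jX p D 0 D' u w0 11, jX p D 0 D' u w0 5}
    (jX p D 0 D' u w0 5) (jX p D 0 D' u w0 1)

theorem Sh.htJ4 (h : Sh k p D 0 D' u) (w0 : X k) : ∀ i ∈ [0, 4, 1, 2],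
    ht (jX p D 0 D' u w0 i).1 = ht (RR p D 0) := by
  intro i hi
  apply h.htJ5 w0 i
  simp only [List.mem_cons, List.not_mem_nil, or_false] at hi
  rcases hi with rfl | rfl | rfl | rfl <;> decide

theorem Sh.htJ4o (h : Sh k p D 0 D' u) (w0 : X k) : ∀ i ∈ [6, 8, 14],
    ht (RR p D 0) < ht (jX p D 0 D' u w0 i).1 := by
  intro i hi
  have hb := ht_RR h.gD p 0
  have hD := h.gD.ht
  have hS := h.htS
  have h00 : ht (BinaryTree.nil : BinaryTree Unit) = 0 := rfl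
  have hB : ht (b2 0) = 0 := rfl
  have hlt : i < 20 := by
    simp only [List.mem_cons, List.not_mem_nil, or_false] at hi
    omega
  rw [h.word w0 hlt]
  simp only [List.mem_cons, List.not_mem_nil, or_false] at hi
  rcases hi with rfl | rfl | rfl <;>
    simp only [H1.W, app, ht_app, ht_node, h00, hB] <;> omega

theorem Sh.injJ4 (h : Sh k p D 0 D' u) {w0 : X k} (hp : J4OK p D D' u w0) :
    ∀ i ∈ ixJ4, ∀ j ∈ ixJ4, jX p D 0 D' u w0 i = jX p D 0 D' u w0 j → i = j := by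
  have lo : ∀ i < 10, ∀ j < 10, jX p D 0 D' u w0 i = jX p D 0 D' u w0 j → i = j := by
    intro i hi j hj e
    have e1 := congrArg Subtype.val e
    rw [h.word_lo w0 hi, h.word_lo w0 hj] at e1
    rcases pure_inj h.gD h.gD hi hj e1 with ⟨h1, _⟩ | ⟨h1 | h1, h2 | h2⟩
    · exact h1
    · omega
    · subst h1 h2; exact absurd (congrArg cyc e) hp.n4
    · subst h1 h2; exact absurd (congrArg cyc e).symm hp.n4
    · omega
  have mid : ∀ i < 10, ∀ j, 10 ≤ j → j < 20 → ixp j ≠ 0 → ixp j ≠ 4 →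
      jX p D 0 D' u w0 i ≠ jX p D 0 D' u w0 j := by
    intro i hi j hj hj' hj0 hj4 e
    have e1 := congrArg Subtype.val e
    rw [h.word_lo w0 hi, h.word_hi w0 (by omega) hj', mw_zero D' u (by omega) hj'] at e1
    rcases pure_inj h.gD h.gD' hi (ixp_lt j) e1 with ⟨_, h2⟩ | ⟨h1, h2⟩
    · exact hp.nR h2
    · omega
  have hi2 : ∀ i, 10 ≤ i → i < 20 → ixp i ≠ 0 → ixp i ≠ 4 → ∀ j, 10 ≤ j → j < 20 →
      jX p D 0 D' u w0 i = jX p D 0 D' u w0 j → i = j := by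
    intro i hi hi' hi0 hi4 j hj hj' e
    have e1 := congrArg Subtype.val e
    rw [h.word_hi w0 (by omega) hi', h.word_hi w0 (by omega) hj', mw_zero D' u (by omega) hj',
      mw_zero D' u (by omega) hi'] at e1
    rcases pure_inj h.gD' h.gD' (ixp_lt i) (ixp_lt j) e1 with ⟨h1, _⟩ | ⟨h1, h2⟩
    · exact ixp_inj (by omega) hi' (by omega) hj' h1
    · omega
  have hr : ∀ i ∈ ixJ4, i < 10 ∨ (10 ≤ i ∧ i < 20 ∧ ixp i ≠ 0 ∧ ixp i ≠ 4) := by decide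
  intro i hi j hj e
  rcases hr i hi with h1 | ⟨h1, h1', h1a, h1b⟩ <;> rcases hr j hj with h2 | ⟨h2, h2', h2a, h2b⟩
  · exact lo i h1 j h2 e
  · exact absurd e (mid i h1 j h2 h2' h2a h2b)
  · exact absurd e.symm (mid j h2 i h1 h1' h1a h1b)
  · exact hi2 i h1 h1' h1a h1b j h2 h2' e

/-- the new T-cycles are different -/
theorem Sh.sepJ4 (h : Sh k p D 0 D' u) {w0 : X k} (hp : J4OK p D D' u w0) :
    ∀ i ∈ [0, 4, 1, 2], ∀ j ∈ [0, 4, 1, 2],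
      cyc (jX p D 0 D' u w0 i) = cyc (jX p D 0 D' u w0 j) → i = j := by
  have hr : ∀ i ∈ [0, 4, 1, 2], i ∈ [0, 4] ∨ i = 1 ∨ i = 2 := by decide
  have cl : ∀ i ∈ [0, 4], ∀ j, j = 1 ∨ j = 2 →
      cyc (jX p D 0 D' u w0 i) ≠ cyc (jX p D 0 D' u w0 j) := by
    intro i hi j hj e
    have hc : OddHC.cont (jX p D 0 D' u w0 i).1 = OddHC.cont (RR p D 0) + {2} := by
      apply h.clJ5 w0 i
      simp only [List.mem_cons, List.not_mem_nil, or_false] at hi ⊢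
      omega
    exact h.other w0 (i := j) (by omega) (by omega) (by omega) (by omega) (by omega) hc (cyc_eq.1 e)
  intro i hi j hj e
  rcases hr i hi with h1 | h1 <;> rcases hr j hj with h2 | h2
  · simp only [List.mem_cons, List.not_mem_nil, or_false] at h1 h2
    rcases h1 with rfl | rfl <;> rcases h2 with rfl | rfl
    · rfl
    · exact absurd e hp.n4
    · exact absurd e.symm hp.n4
    · rfl
  · exact absurd e (cl i h1 j h2)
  · exact absurd e.symm (cl j h2 i h1)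
  · rcases h1 with rfl | rfl <;> rcases h2 with rfl | rfl
    · rfl
    · exact absurd e hp.n12
    · exact absurd e.symm hp.n12
    · rfl

theorem Sh.oldJ4 (h : Sh k p D 0 D' u) (w0 : X k) : ∀ i ∈ [0, 4, 1, 2], ∀ j ∈ [6, 8, 14],
    cyc (jX p D 0 D' u w0 i) ≠ cyc (jX p D 0 D' u w0 j) := by
  intro i hi j hj e
  have h1 := h.htJ4 w0 i hi
  have h2 := h.htJ4o w0 j hj
  have h3 : htc (cyc (jX p D 0 D' u w0 i)) = htc (cyc (jX p D 0 D' u w0 j)) := congrArg htc e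
  rw [htc_cyc, htc_cyc] at h3
  omega

theorem Sh.absJ4 (h : Sh k p D 0 D' u) {w0 : X k} (hp : J4OK p D D' u w0) :
    (gadJ4 (jX p D 0 D' u w0)).Abs := by
  classical
  have e := h.num
  have es := h.size
  have hix : ∀ i ∈ ixJ4, i < 20 := by decide
  have hnw : ∀ i ∈ nwJ4, i ∈ [0, 4, 1, 2] := by decide
  have hod : ∀ i ∈ odJ4, i ∈ [6, 8, 14] := by decide
  apply gadJ4_abs (R := RR p D 0) (Q := .nil) (B := b2 0) (S := RR 0 D' u)
    (by change 0 + _ + 2 = k; omega) (by change 0 + _ + _ + 2 = k; omega)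
    (fun i hi => by rw [h.word w0 (hix i hi), H1.W_w20 _ _ _ _ i (hix i hi)]) (h.injJ4 hp)
  · intro q hq
    simp only [prJ4, List.mem_cons, List.not_mem_nil, or_false] at hq
    subst hq
    exact cyc_eq.1 hp.s18.symm
  · intro q hq
    simp only [trJ4, List.mem_cons, List.not_mem_nil, or_false] at hq
    subst hq
    refine ⟨{jX p D 0 D' u w0 1, jX p D 0 D' u w0 11, jX p D 0 D' u w0 5}, by simp, ?_, ?_, ?_⟩
    · convert hp.f1
    · convert hp.f11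
    · convert hp.f5
  · exact fun i hi j hj hs => h.sepJ4 hp i (hnw i hi) j (hnw j hj) (cyc_eq.2 hs)
  · exact fun i hi j hj hs => h.oldJ4 w0 i (hnw i hi) j (hod j hj) (cyc_eq.2 hs)

end J

open J

variable {k : ℕ} {F F' : Set (Cyc k)} {g g' : DG k}

/-- TYPE J4 -/
def TyJ4 (F : Set (Cyc k)) (g : DG k) : Prop :=
  ∃ (p : ℕ) (D : BinaryTree Unit) (D' : BinaryTree Unit) (u : ℕ) (w0 : X k),
    Sh k p D 0 D' u ∧ J4OK p D D' u w0 ∧
    F = {c | ∃ i ∈ [0, 4, 1, 2], c = cyc (jX p D 0 D' u w0 i)} ∧ g = gadJ4 (jX p D 0 D' u w0)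

theorem TyJ4.hF (h : TyJ4 F g) : ∀ w, w ∈ g.F ↔ cyc w ∈ F := by
  obtain ⟨p, D, D', u, w0, h1, hp, rfl, rfl⟩ := h
  intro w
  change (∃ c ∈ nwJ4, TT.SameCycle (jX p D 0 D' u w0 c) w) ↔ _
  have hnw : ∀ i ∈ nwJ4, i ∈ [0, 4, 1, 2] := by decide
  have hnw' : ∀ i ∈ [0, 4, 1, 2], i ∈ nwJ4 := by decide
  constructor
  · rintro ⟨c, hc, hs⟩
    exact ⟨c, hnw c hc, (cyc_eq.2 hs).symm⟩
  · rintro ⟨c, hc, hs⟩
    exact ⟨c, hnw' c hc, cyc_eq.1 hs.symm⟩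

theorem TyJ4.new (h : TyJ4 F g) : ∀ c ∈ F, ∃ u ∈ g.B, cyc u = c := by
  obtain ⟨p, D, D', u, w0, h1, hp, rfl, rfl⟩ := h
  rintro c ⟨i, hi, rfl⟩
  have hix : ∀ i ∈ [0, 4, 1, 2], i ∈ ixJ4 := by decide
  exact ⟨_, mem_gadOf_B.2 ⟨i, hix i hi, rfl⟩, rfl⟩

/-- every old word is higher -/
theorem TyJ4.rank (h : TyJ4 F g) : ∀ w ∈ g.B, cyc w ∈ F ∨ ∀ c ∈ F, htc c < htc (cyc w) := by
  obtain ⟨p, D, D', u, w0, h1, hp, rfl, rfl⟩ := h
  intro w hw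
  obtain ⟨i, hi, rfl⟩ := mem_gadOf_B.1 hw
  have hr : ∀ i ∈ ixJ4, i ∈ [0, 4, 1, 2] ∨ i = 11 ∨ i = 5 ∨ i = 18 ∨ i ∈ [6, 8, 14] := by decide
  rcases hr i hi with h2 | rfl | rfl | rfl | h2
  · exact Or.inl ⟨i, h2, rfl⟩
  · exact Or.inl ⟨1, by decide, (cyc_eq.2 (h1.same11 w0)).symm⟩
  · exact Or.inl ⟨1, by decide, cyc_eq.2 hp.f5.same⟩
  · exact Or.inl ⟨2, by decide, hp.s18⟩
  · right
    rintro c ⟨j, hj, rfl⟩
    have h3 := h1.htJ4 w0 j hj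
    have h4 := h1.htJ4o w0 i h2
    rw [htc_cyc, htc_cyc]
    omega

theorem TyJ4.old (h : TyJ4 F g) : ∃ u ∈ g.B, cyc u ∉ F := by
  obtain ⟨p, D, D', u, w0, h1, hp, rfl, rfl⟩ := h
  refine ⟨_, mem_gadOf_B.2 ⟨6, by decide, rfl⟩, ?_⟩
  rintro ⟨i, hi, e⟩
  exact h1.oldJ4 w0 i hi 6 (by decide) e.symm

theorem TyJ4.abs (h : TyJ4 F g) : g.Abs := by
  obtain ⟨p, D, D', u, w0, h1, hp, rfl, rfl⟩ := h
  exact h1.absJ4 hp

/-- all new T-cycles have the same height -/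
theorem TyJ4.htp (h : TyJ4 F g) : ∀ c ∈ F, ∀ d ∈ F, htc c = htc d := by
  obtain ⟨p, D, D', u, w0, h1, hp, rfl, rfl⟩ := h
  rintro c ⟨i, hi, rfl⟩ d ⟨j, hj, rfl⟩
  have h3 := h1.htJ4 w0 i hi
  have h4 := h1.htJ4 w0 j hj
  rw [htc_cyc, htc_cyc]
  omega

theorem TyJ4.path (h : TyJ4 F g) : ∀ a ∈ g.arcs, ∃ n : ℕ, (TT ^ (n + 1)) a.1 = a.2 ∧ a.1 ∈ g.B ∧
    ∀ i < n, (TT ^ (i + 1)) a.1 ∈ innA a := by
  obtain ⟨p, D, D', u, w0, h1, hp, rfl, rfl⟩ := h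
  intro q hq
  obtain ⟨r, hr, rfl⟩ := mem_gadOf_arcs.1 hq
  simp only [arJ4, List.mem_cons, List.not_mem_nil, or_false] at hr
  subst hr
  refine ⟨1, ?_, mem_gadOf_B.2 ⟨8, by decide, rfl⟩, ?_⟩
  · rw [pow_succ, pow_one, Perm.mul_apply]
    exact h1.link w0 (by simp)
  · intro n hn
    obtain rfl : n = 0 := by omega
    rw [pow_one]
    rfl

namespace J

variable {n : ℕ}

/-- class functions of J4 -/
def U4 (Φ : ZMod (2 * n + 1) → ℕ) : Set (ZMod (2 * n + 1) → ℕ) := {ad Φ (-1), ad Φ 0}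

/-- existence of J4 over `Φ`, `Φ (-1) = 0`: `z1, z2` the two places, `y, y'` the words `R()()`, `()R()` -/
theorem exJ4 (hn : 1 ≤ n) (Φ : ZMod (2 * n + 1) → ℕ) (hk : n + 4 + 2 * ∑ x, Φ x = k)
    (h0 : Φ (-1) = 0) (hs : 1 ≤ ∑ x, Φ x) {z1 z2 y y' : X k}
    (hz1 : z1.1 = Ring1.RF n (ad Φ (-1))) (hz2 : z2.1 = Ring1.RF n (ad Φ 0))
    (hy : y.1 = app (Ring1.RF n Φ) (.nil △ (.nil △ .nil)))
    (hy' : y'.1 = .nil △ app (Ring1.RF n Φ) (.nil △ .nil))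
    (h12 : cyc z1 ≠ cyc z2) :
    ∃ g : DG k, TyJ4 {cyc z1, cyc z2, cyc y, cyc y'} g ∧ JG n g.B (P5 Φ) (U4 Φ) ∅ := by
  obtain ⟨D, D', h, e, e'⟩ := sh_RF (k := k) hn Φ hk
  rw [h0] at h e e'
  have v0 : (jX (Φ 0) D 0 D' (Φ (-2)) z1 0).1 = Ring1.RF n (ad Φ (-1)) := by
    rw [h.word_lo z1 (by norm_num), val_0 e]
  have v4 : (jX (Φ 0) D 0 D' (Φ (-2)) z1 4).1 = Ring1.RF n (ad Φ 0) := by
    rw [h.word_lo z1 (by norm_num), val_4 e]
  have v1 : (jX (Φ 0) D 0 D' (Φ (-2)) z1 1).1 = app (Ring1.RF n Φ) (.nil △ (.nil △ .nil)) := by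
    rw [h.word_lo z1 (by norm_num), e]
    rfl
  have v2 : (jX (Φ 0) D 0 D' (Φ (-2)) z1 2).1 = .nil △ app (Ring1.RF n Φ) (.nil △ .nil) := by
    rw [h.word_lo z1 (by norm_num), e]
    rfl
  have v5 : (jX (Φ 0) D 0 D' (Φ (-2)) z1 5).1 = .nil △ (.nil △ Ring1.RF n Φ) := by
    rw [h.word_lo z1 (by norm_num), e]
    rfl
  have v18 : (jX (Φ 0) D 0 D' (Φ (-2)) z1 18).1 =
      .nil △ app (Ring1.RF n fun z => Φ (z + (-1))) (.nil △ .nil) := by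
    rw [h.word_hi z1 (by norm_num) (by norm_num), mw_zero D' _ (by norm_num) (by norm_num), e']
    have e3 : (fun z => Φ (z - 1)) = fun z => Φ (z + (-1)) := by
      funext z
      rw [sub_eq_add_neg]
    rw [e3]
    rfl
  have e0 : jX (Φ 0) D 0 D' (Φ (-2)) z1 0 = z1 := Subtype.ext (v0.trans hz1.symm)
  have e4 : jX (Φ 0) D 0 D' (Φ (-2)) z1 4 = z2 := Subtype.ext (v4.trans hz2.symm)
  have e1 : jX (Φ 0) D 0 D' (Φ (-2)) z1 1 = y := Subtype.ext (v1.trans hy.symm)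
  have e2 : jX (Φ 0) D 0 D' (Φ (-2)) z1 2 = y' := Subtype.ext (v2.trans hy'.symm)
  have s18 : cyc (jX (Φ 0) D 0 D' (Φ (-2)) z1 18) = cyc (jX (Φ 0) D 0 D' (Φ (-2)) z1 2) :=
    (cyc_eq.2 (Ring1.same_mid hn Φ (-1) v2 v18)).symm
  have hv : TT (TT (jX (Φ 0) D 0 D' (Φ (-2)) z1 1)) = jX (Φ 0) D 0 D' (Φ (-2)) z1 11 :=
    h.link z1 (by simp)
  obtain ⟨q1, q2, q3⟩ := Ring1.order_right hn Φ hs v1 v5 hv
  have hnR : RR (Φ 0) D 0 ≠ RR 0 D' (Φ (-2)) := by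
    rw [e, e']
    intro h1
    have h2 := Ring1.RF_inj h1
    have h3 : ∀ i : ℕ, Φ (-1 - (i : ZMod (2 * n + 1))) = 0 := by
      intro i
      induction i with
      | zero => rw [Nat.cast_zero, sub_zero]; exact h0
      | succ i ih =>
        rw [← ih]
        conv_rhs => rw [h2]
        congr 1
        push_cast
        ring
    have h4 : ∑ x, Φ x = 0 := by
      apply Finset.sum_eq_zero
      intro x _
      have h5 := h3 (-1 - x).val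
      rw [ZMod.natCast_zmod_val] at h5
      rw [← h5]
      congr 1
      ring
    omega
  refine ⟨gadJ4 (jX (Φ 0) D 0 D' (Φ (-2)) z1), ⟨_, D, D', _, z1, h,
    ⟨hnR, ?_, ?_, s18, ?_, ?_, ?_⟩, ?_, rfl⟩, ?_⟩
  · rw [e0, e4]; exact h12
  · rw [e1, e2]; exact bb_ne_fb hn Φ Φ rfl hy hy'
  · convert q1
  · convert q2
  · convert q3
  · ext c
    simp only [List.mem_cons, List.not_mem_nil, or_false, Set.mem_ofPred_eq, exists_eq_or_imp,
      exists_eq_left, Set.mem_insert_iff, Set.mem_singleton_iff, e0, e4, e1, e2]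
  · intro w hw
    obtain ⟨i, hi, rfl⟩ := mem_gadOf_B.1 hw
    have us : ∀ (G : ZMod (2 * n + 1) → ℕ) (x : ZMod (2 * n + 1)), x = 0 ∨ x = -1 →
        1 ≤ ad G x 0 + ad G x (-1) := by
      rintro G x (rfl | rfl)
      · have := ad_self G 0; omega
      · have := ad_self G (-1); omega
    have hr : ∀ i ∈ ixJ4, i = 0 ∨ i = 4 ∨ (i < 10 ∧ i ≠ 0 ∧ i ≠ 4) ∨
        (10 ≤ i ∧ i < 20 ∧ ixp i ≠ 0 ∧ ixp i ≠ 4) := by decide
    rcases hr i hi with rfl | rfl | ⟨h1, h2, h3⟩ | ⟨h1, h2, h3, h4⟩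
    · exact Or.inr (Or.inl ⟨_, Or.inl rfl, us _ _ (Or.inr rfl), v0⟩)
    · exact Or.inr (Or.inl ⟨_, Or.inr rfl, us _ _ (Or.inl rfl), v4⟩)
    · left
      refine ⟨Φ, Or.inl rfl, i, h1, h2, h3, ?_⟩
      rw [h.word_lo z1 h1, e]
    · left
      refine ⟨_, Or.inr rfl, ixp i, ixp_lt i, h3, h4, ?_⟩
      rw [h.word_hi z1 h1 h2, mw_zero D' _ h1 h2, e']

end J

end Pool.OddHC
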