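import Pool.Agent.Work.MP_8f87b2_h40.Kinds

/-!
# MP_8f87b2_co, one soliton: pure and mixed words

`pw R i`, `i < 10`: the ten words of the block `[R;e^4]`. `mw t D u i`, `10 ≤ i < 20`: the ten words of the block
`[B;e,e,e,S]`, `B = (())^t`, `S = (D)(())^u`. Different blocks have common words only in the content of the class
(`pw R 0 = R(())`, `pw R 4 = (())R`, `mw 10 = B(())S`).
-/

set_option autoImplicit false

namespace Pool.OddHC

namespace J

open BinaryTree H1

/-- the words of a pure block -/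
def pw (R : BinaryTree Unit) (i : ℕ) : BinaryTree Unit := W R .nil .nil .nil i

/-- the words of a mixed block -/
def mw (t : ℕ) (D : BinaryTree Unit) (u i : ℕ) : BinaryTree Unit := W .nil .nil (b2 t) (RR 0 D u) i

/-- the kind of a pure word -/
def kd (i : ℕ) : ℕ := if i = 4 then 0 else i

theorem app_b2 (t : ℕ) (X : BinaryTree Unit) : app (b2 t) X = lv2 t X := by
  apply cs_inj
  rw [cs_app, cs_b2, cs_lv2]

theorem pw_0 (p : ℕ) (D : BinaryTree Unit) (t : ℕ) : pw (RR p D t) 0 = RR p D (t + 1) := by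
  apply cs_inj
  change cs (app (RR p D t) (l1 △ .nil)) = _
  rw [cs_app, cs_RR, cs_RR, List.append_assoc, List.cons_append, cs_node, cs_nil,
    List.replicate_succ']

theorem pw_4 (p : ℕ) (D : BinaryTree Unit) (t : ℕ) : pw (RR p D t) 4 = RR (p + 1) D t := rfl

theorem mw_10 (t : ℕ) (D : BinaryTree Unit) (u : ℕ) : mw t D u 10 = RR (t + 1) D u := by
  apply cs_inj
  change cs (app (b2 t) (l1 △ RR 0 D u)) = _
  rw [cs_app, cs_b2, cs_node, cs_RR, cs_RR, List.replicate_succ']
  simp

/-- the position of the tall component -/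
theorem rep_inj : ∀ {p p' : ℕ} {D D' : BinaryTree Unit} {c c' : List (BinaryTree Unit)},
    D ≠ l1 → D' ≠ l1 → List.replicate p l1 ++ D :: c = List.replicate p' l1 ++ D' :: c' →
    p = p' ∧ D = D' ∧ c = c' := by
  intro p
  induction p with
  | zero =>
    intro p' D D' c c' h h' e
    cases p' with
    | zero =>
      simp only [List.replicate_zero, List.nil_append, List.cons.injEq] at e
      exact ⟨rfl, e.1, e.2⟩
    | succ p' =>
      rw [List.replicate_succ, List.replicate_zero, List.nil_append, List.cons_append,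
        List.cons.injEq] at e
      exact absurd e.1 h
  | succ p ih =>
    intro p' D D' c c' h h' e
    cases p' with
    | zero =>
      rw [List.replicate_succ, List.replicate_zero, List.nil_append, List.cons_append,
        List.cons.injEq] at e
      exact absurd e.1.symm h'
    | succ p' =>
      rw [List.replicate_succ, List.replicate_succ, List.cons_append, List.cons_append,
        List.cons.injEq] at e
      obtain ⟨h1, h2, h3⟩ := ih h h' e.2
      exact ⟨by rw [h1], h2, h3⟩

theorem rep_len {t t' : ℕ} (h : List.replicate t l1 = List.replicate t' l1) : t = t' := by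
  have := congrArg List.length h
  rwa [List.length_replicate, List.length_replicate] at this

theorem RR_inj {p p' t t' : ℕ} {D D' : BinaryTree Unit} (h : GD D) (h' : GD D')
    (e : RR p D t = RR p' D' t') : p = p' ∧ D = D' ∧ t = t' := by
  have e1 := congrArg cs e
  rw [cs_RR, cs_RR] at e1
  obtain ⟨h1, h2, h3⟩ := rep_inj h.ne h'.ne e1
  exact ⟨h1, h2, rep_len h3⟩

theorem kn_pw {p t : ℕ} {D : BinaryTree Unit} (h : GD D) {i : ℕ} (hi : i < 10) :
    kn (pw (RR p D t) i) = kd i := by
  interval_cases i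
  · rw [pw_0]; exact kn_RR h (by omega)
  · exact kn_1 h
  · exact kn_2
  · exact kn_3
  · rw [pw_4]; exact kn_RR h (by omega)
  · exact kn_5 h
  · exact kn_6
  · exact kn_7 h
  · exact kn_8
  · exact kn_9

theorem kn_mw {t u : ℕ} {D : BinaryTree Unit} (h : GD D) (ht : 1 ≤ t) {i : ℕ} (h1 : 10 ≤ i)
    (h2 : i < 20) : kn (mw t D u i) = if i = 10 then 0 else i := by
  interval_cases i
  · rw [mw_10]; exact kn_RR h (by omega)
  · exact kn_11 h ht
  · exact kn_12 ht
  · exact kn_13 h ht
  · exact kn_14 ht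
  · exact kn_15 ht
  · exact kn_16 h ht
  · exact kn_17 ht
  · exact kn_18 h ht
  · exact kn_19 h ht

theorem node_inj' {A B A' B' : BinaryTree Unit} (h : A △ B = A' △ B') : A = A' ∧ B = B' :=
  H1.node_inj h

theorem app_right {P P' X : BinaryTree Unit} (h : app P X = app P' X) : P = P' := by
  apply cs_inj
  have h1 := congrArg cs h
  rw [cs_app, cs_app] at h1
  exact List.append_cancel_right h1

theorem app_last {P P' A A' : BinaryTree Unit} (h : app P (A △ .nil) = app P' (A' △ .nil)) :
    P = P' ∧ A = A' := H1.app_snoc h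

/-- **pure words** -/
theorem pure_inj {p t p' t' : ℕ} {D D' : BinaryTree Unit} (h : GD D) (h' : GD D') {i j : ℕ}
    (hi : i < 10) (hj : j < 10) (e : pw (RR p D t) i = pw (RR p' D' t') j) :
    (i = j ∧ RR p D t = RR p' D' t') ∨ ((i = 0 ∨ i = 4) ∧ (j = 0 ∨ j = 4)) := by
  have e1 := congrArg kn e
  rw [kn_pw h hi, kn_pw h' hj] at e1
  by_cases h04 : (i = 0 ∨ i = 4) ∧ (j = 0 ∨ j = 4)
  · exact Or.inr h04
  · left
    have hij : i = j := by
      unfold kd at e1
      split at e1 <;> split at e1 <;> omega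
    subst hij
    refine ⟨rfl, ?_⟩
    interval_cases i
    · exact absurd ⟨Or.inl rfl, Or.inl rfl⟩ h04
    · exact app_right e
    · exact app_right (node_inj' e).2
    · exact app_right (node_inj' e).1
    · exact absurd ⟨Or.inr rfl, Or.inr rfl⟩ h04
    · exact (node_inj' (node_inj' e).2).2
    · exact (node_inj' e).1
    · exact (node_inj' (node_inj' e).1).2
    · exact (node_inj' (node_inj' e).2).1
    · exact (node_inj' (node_inj' e).1).1

/-- **mixed against pure words** -/
theorem mix_pure {t u p' t' : ℕ} {D D' : BinaryTree Unit} (h : GD D) (h' : GD D') (ht : 1 ≤ t)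
    {i j : ℕ} (h1 : 10 ≤ i) (h2 : i < 20) (hj : j < 10)
    (e : mw t D u i = pw (RR p' D' t') j) : i = 10 ∧ (j = 0 ∨ j = 4) := by
  have e1 := congrArg kn e
  rw [kn_mw h ht h1 h2, kn_pw h' hj] at e1
  unfold kd at e1
  split at e1 <;> split at e1 <;> omega

theorem b2_inj {t t' : ℕ} (h : b2 t = b2 t') : t = t' := by
  have := congrArg cs h
  rw [cs_b2, cs_b2] at this
  exact rep_len this

/-- **mixed words** -/
theorem mix_inj {t u t' u' : ℕ} {D D' : BinaryTree Unit} (h : GD D) (h' : GD D') (ht : 1 ≤ t)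
    (ht' : 1 ≤ t') {i j : ℕ} (h1 : 10 ≤ i) (h2 : i < 20) (h3 : 10 ≤ j) (h4 : j < 20)
    (e : mw t D u i = mw t' D' u' j) : i = j ∧ t = t' ∧ RR 0 D u = RR 0 D' u' := by
  have e1 := congrArg kn e
  rw [kn_mw h ht h1 h2, kn_mw h' ht' h3 h4] at e1
  have hij : i = j := by
    split at e1 <;> split at e1 <;> omega
  subst hij
  refine ⟨rfl, ?_⟩
  interval_cases i
  · rw [mw_10, mw_10] at e
    obtain ⟨l1, l2, l3⟩ := RR_inj h h' e
    exact ⟨by omega, by rw [l2, l3]⟩
  · have e2 := congrArg cs e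
    change cs (app (b2 t) (.nil △ (.nil △ RR 0 D u))) = cs (app (b2 t') (.nil △ (.nil △ RR 0 D' u'))) at e2
    simp only [cs_app, cs_b2, cs_node] at e2
    obtain ⟨l1, _, l3⟩ := rep_inj (by simp) (by simp) e2
    rw [List.cons.injEq] at l3
    exact ⟨l1, cs_inj l3.2⟩
  · obtain ⟨l1, l2⟩ := node_inj' e
    exact ⟨b2_inj (app_right l2), l1⟩
  · obtain ⟨l1, l2⟩ := app_last e
    exact ⟨b2_inj (app_right l2), l1⟩
  · obtain ⟨l1, l2⟩ := node_inj' e
    exact ⟨b2_inj l2, (node_inj' l1).2⟩
  · obtain ⟨l1, l2⟩ := node_inj' (node_inj' e).2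
    exact ⟨b2_inj l2, l1⟩
  · have e2 := congrArg cs e
    change cs (app (RR 0 D u) (b2 t △ (.nil △ .nil))) = cs (app (RR 0 D' u') (b2 t' △ (.nil △ .nil))) at e2
    rw [cs_app, cs_app] at e2
    have e3 := List.append_inj' e2 rfl
    simp only [cs_node, cs_nil, List.cons.injEq, and_true] at e3
    exact ⟨b2_inj e3.2, cs_inj e3.1⟩
  · obtain ⟨l1, l2⟩ := node_inj' (node_inj' e).1
    exact ⟨b2_inj l2, l1⟩
  · obtain ⟨l1, l2⟩ := app_last (node_inj' e).2
    exact ⟨b2_inj l2, l1⟩
  · obtain ⟨l1, l2⟩ := app_last (node_inj' e).1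
    exact ⟨b2_inj l2, l1⟩

end J

end Pool.OddHC
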