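import Pool.Agent.Work.MP_8f87b2_h71.H1Gad
import Pool.Agent.Work.MP_8f87b2_h40.Words

/-!
# MP_8f87b2_co, one soliton, no beads: the data of the gadgets J2 and single, right version

`Sh k p D t D' u`: `R = (())^p (D) (())^t`, `sq R = ((D') (())^u, (())^t)`, no `1`-part, `|R| + 2 = k`. Words
`jX .. i`, `(jX .. i).1 = W R nil B S i`. Links, contents, rank.
-/

set_option autoImplicit false

namespace Pool.OddHC

namespace J

open BinaryTree H1 Equiv Multiset

variable {k : ℕ}

/-- the shape data -/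
structure Sh (k p : ℕ) (D : BinaryTree Unit) (t : ℕ) (D' : BinaryTree Unit) (u : ℕ) : Prop where
  gD : GD D
  gD' : GD D'
  sq : Tsq.sq (RR p D t) = (RR 0 D' u, b2 t)
  one : (cont (RR p D t)).count 1 = 0
  size : (RR p D t).numNodes + 2 = k

variable {p t u : ℕ} {D D' : BinaryTree Unit}

theorem RR_ne (p : ℕ) (D : BinaryTree Unit) (t : ℕ) : RR p D t ≠ .nil := by
  intro h
  have := RR_isN (p := p) (t := t) (D := D)
  rw [h] at this
  exact absurd this (by simp)

theorem ht_b2 (t : ℕ) : ht (b2 t) ≤ 2 := by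
  induction t with
  | zero => exact Nat.zero_le _
  | succ t ih =>
    change ht (l1 △ b2 t) ≤ 2
    rw [ht_node]
    have : ht l1 = 1 := rfl
    omega

theorem ht_RR (h : GD D) (p t : ℕ) : ht (RR p D t) = ht D + 1 := by
  have h1 := h.ht
  induction p with
  | zero =>
    change ht (D △ b2 t) = _
    rw [ht_node]
    have := ht_b2 t
    omega
  | succ p ih =>
    change ht (l1 △ RR p D t) = _
    rw [ht_node, ih]
    have : ht l1 = 1 := rfl
    omega

theorem Sh.num (h : Sh k p D t D' u) :
    (RR 0 D' u).numNodes + (b2 t).numNodes = (RR p D t).numNodes := by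
  have := Tsq.sq_num (RR_ne p D t)
  rwa [h.sq] at this

theorem Sh.htS (h : Sh k p D t D' u) : ht (RR 0 D' u) = ht (RR p D t) := by
  have := (Tsq.ht_sq (RR_ne p D t)).1
  rwa [h.sq, H1.ht_eq, H1.ht_eq] at this

theorem Sh.cont (h : Sh k p D t D' u) : cont (b2 t) + cont (RR 0 D' u) = cont (RR p D t) := by
  let x : X (RR p D t).numNodes := ⟨RR p D t, mem_treesOfNumNodesEq.2 rfl⟩
  have e1 : (TT (TT x)).1 = app (Tsq.sq (RR p D t)).2 (Tsq.sq (RR p D t)).1 :=
    Tsq.TT_sq x (RR_ne p D t)
  have e2 : OddHC.cont (TT (TT x)).1 = OddHC.cont (RR p D t) := by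
    rw [TT_apply, cont_TF, TT_apply, cont_TF]
  rw [e1, cont_app, h.sq] at e2
  exact e2

/-- the twenty words have `|R| + 2` nodes -/
theorem Sh.num_W (h : Sh k p D t D' u) : ∀ i < 20,
    (W (RR p D t) .nil (b2 t) (RR 0 D' u) i).numNodes = k := by
  have e := h.num
  have e1 := h.size
  intro i hi
  have hn : ∀ A C : BinaryTree Unit, (A △ C).numNodes = A.numNodes + C.numNodes + 1 := fun _ _ => rfl
  have h0 : (BinaryTree.nil : BinaryTree Unit).numNodes = 0 := rfl
  interval_cases i <;> simp only [W, num_app, hn, h0] <;> omega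

/-- the words in `X k` -/
noncomputable def jX (p : ℕ) (D : BinaryTree Unit) (t : ℕ) (D' : BinaryTree Unit) (u : ℕ) (w0 : X k)
    (i : ℕ) : X k := by
  classical
  exact if h : (W (RR p D t) .nil (b2 t) (RR 0 D' u) i).numNodes = k then
    ⟨_, mem_treesOfNumNodesEq.2 h⟩ else w0

theorem Sh.word (h : Sh k p D t D' u) (w0 : X k) {i : ℕ} (hi : i < 20) :
    (jX p D t D' u w0 i).1 = W (RR p D t) .nil (b2 t) (RR 0 D' u) i := by
  unfold jX
  rw [dif_pos (h.num_W i hi)]

/-- the words of the first block are pure -/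
theorem Sh.word_lo (h : Sh k p D t D' u) (w0 : X k) {i : ℕ} (hi : i < 10) :
    (jX p D t D' u w0 i).1 = pw (RR p D t) i := by
  rw [h.word w0 (by omega)]
  interval_cases i <;> rfl

/-- the words of the second block are mixed -/
theorem Sh.word_hi (h : Sh k p D t D' u) (w0 : X k) {i : ℕ} (hi : 10 ≤ i) (hi' : i < 20) :
    (jX p D t D' u w0 i).1 = mw t D' u i := by
  rw [h.word w0 hi']
  interval_cases i <;> rfl

/-- index of a word of the second block as a pure word, `t = 0` -/
def ixp : ℕ → ℕ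
  | 10 => 4
  | 11 => 5
  | 12 => 6
  | 13 => 0
  | 14 => 7
  | 15 => 8
  | 16 => 1
  | 17 => 9
  | 18 => 2
  | _ => 3

theorem mw_zero (D : BinaryTree Unit) (u : ℕ) {i : ℕ} (hi : 10 ≤ i) (hi' : i < 20) :
    mw 0 D u i = pw (RR 0 D u) (ixp i) := by
  interval_cases i <;> rfl

theorem ixp_lt (i : ℕ) : ixp i < 10 := by
  unfold ixp
  split <;> omega

theorem ixp_inj {i j : ℕ} (hi : 10 ≤ i) (hi' : i < 20) (hj : 10 ≤ j) (hj' : j < 20)
    (h : ixp i = ixp j) : i = j := by
  have key : ∀ a b : Fin 10, ixp (10 + a.1) = ixp (10 + b.1) → a = b := by decide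
  have := key ⟨i - 10, by omega⟩ ⟨j - 10, by omega⟩ (by
    rw [show 10 + (i - 10) = i by omega, show 10 + (j - 10) = j by omega]
    exact h)
  have := congrArg Fin.val this
  simp only at this
  omega

/-! ### Links -/

theorem Sh.link (h : Sh k p D t D' u) (w0 : X k) {i j : ℕ}
    (hij : (i, j) ∈ [(0, 10), (1, 11), (3, 12), (6, 15), (8, 14), (9, 17)]) :
    TT (TT (jX p D t D' u w0 i)) = jX p D t D' u w0 j := by
  have hR : Tsq.ht (RR p D t) = ht (RR p D t) := H1.ht_eq _
  have hR2 := ht_RR h.gD p t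
  have hD := h.gD.ht
  have e1 : ∀ n < 20, (jX p D t D' u w0 n).1 = w20 (RR p D t) .nil (b2 t) (RR 0 D' u) n := by
    intro n hn
    rw [h.word w0 hn, W_w20 _ _ _ _ n hn]
  have hs1 : (Tsq.sq (RR p D t)).1 = RR 0 D' u := by rw [h.sq]
  have hs2 : (Tsq.sq (RR p D t)).2 = b2 t := by rw [h.sq]
  have h0 : Tsq.ht (BinaryTree.nil : BinaryTree Unit) = 0 := rfl
  simp only [List.mem_cons, Prod.mk.injEq, List.not_mem_nil, or_false] at hij
  rcases hij with ⟨rfl, rfl⟩ | ⟨rfl, rfl⟩ | ⟨rfl, rfl⟩ | ⟨rfl, rfl⟩ | ⟨rfl, rfl⟩ | ⟨rfl, rfl⟩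
  · exact Tsq.link0 (R := RR p D t) (Q := .nil) (by omega) (by rw [e1 0 (by norm_num)]; rfl)
      (by rw [e1 10 (by norm_num), hs1, hs2]; rfl)
  · exact Tsq.link (RR_ne p D t) (Q := .nil) (i := 1) (j := 1) (by omega) (by simp)
      (by rw [e1 1 (by norm_num)]; rfl) (by rw [e1 11 (by norm_num), hs1, hs2]; rfl)
  · exact Tsq.link (RR_ne p D t) (Q := .nil) (i := 3) (j := 2) (by omega) (by simp)
      (by rw [e1 3 (by norm_num)]; rfl) (by rw [e1 12 (by norm_num), hs1, hs2]; rfl)
  · exact Tsq.link (RR_ne p D t) (Q := .nil) (i := 6) (j := 5) (by omega) (by simp)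
      (by rw [e1 6 (by norm_num)]; rfl) (by rw [e1 15 (by norm_num), hs1, hs2]; rfl)
  · exact Tsq.link (RR_ne p D t) (Q := .nil) (i := 8) (j := 4) (by omega) (by simp)
      (by rw [e1 8 (by norm_num)]; rfl) (by rw [e1 14 (by norm_num), hs1, hs2]; rfl)
  · exact Tsq.link (RR_ne p D t) (Q := .nil) (i := 9) (j := 7) (by omega) (by simp)
      (by rw [e1 9 (by norm_num)]; rfl) (by rw [e1 17 (by norm_num), hs1, hs2]; rfl)

theorem Sh.same10 (h : Sh k p D t D' u) (w0 : X k) :
    TT.SameCycle (jX p D t D' u w0 0) (jX p D t D' u w0 10) := by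
  have h1 := h.link w0 (i := 0) (j := 10) (by simp)
  refine ⟨2, ?_⟩
  rw [show (2 : ℤ) = ((2 : ℕ) : ℤ) from rfl, zpow_natCast, pow_two, Perm.mul_apply, h1]

/-! ### Contents and rank -/

theorem raise_nil : raise (OddHC.cont (BinaryTree.nil : BinaryTree Unit)) = {1} := by
  rw [cont_nil, raise_zero]

theorem cont_l1 : OddHC.cont l1 = {1} := by
  rw [cont_node, raise_nil, cont_nil, add_zero]

theorem cont_l1' (X : BinaryTree Unit) : OddHC.cont (l1 △ X) = {2} + OddHC.cont X := by
  rw [cont_node, cont_l1]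
  rfl

theorem Sh.cont0 (h : Sh k p D t D' u) (w0 : X k) :
    OddHC.cont (jX p D t D' u w0 0).1 = OddHC.cont (RR p D t) + {2} := by
  rw [h.word w0 (by norm_num)]
  change OddHC.cont (app (RR p D t) (l1 △ .nil)) = _
  rw [cont_app, cont_l1', cont_nil, add_zero]

theorem Sh.cont4 (h : Sh k p D t D' u) (w0 : X k) :
    OddHC.cont (jX p D t D' u w0 4).1 = OddHC.cont (RR p D t) + {2} := by
  rw [h.word w0 (by norm_num)]
  change OddHC.cont (l1 △ (RR p D t)) = _
  rw [cont_l1', add_comm]

theorem Sh.cont10 (h : Sh k p D t D' u) (w0 : X k) :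
    OddHC.cont (jX p D t D' u w0 10).1 = OddHC.cont (RR p D t) + {2} := by
  rw [← cont_same (h.same10 w0), h.cont0]

theorem Sh.cont13 (h : Sh k p D 0 D' u) (w0 : X k) :
    OddHC.cont (jX p D 0 D' u w0 13).1 = OddHC.cont (RR p D 0) + {2} := by
  rw [h.word w0 (by norm_num), ← h.cont]
  change OddHC.cont (app (RR 0 D' u) (l1 △ .nil)) = _
  rw [cont_app, cont_l1', cont_nil, add_zero]
  change _ = OddHC.cont (BinaryTree.nil : BinaryTree Unit) + _ + _
  rw [cont_nil, zero_add]

theorem count_b2 (t : ℕ) : (OddHC.cont (b2 t)).count 1 = 0 := by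
  induction t with
  | zero => rfl
  | succ t ih =>
    change (OddHC.cont (l1 △ b2 t)).count 1 = 0
    rw [cont_l1', Multiset.count_add, ih]
    rfl

/-- **the old words are older**: all but 4, and 13 for `t = 0` -/
theorem Sh.rank (h : Sh k p D t D' u) (w0 : X k) : ∀ i < 20, i ≠ 0 → i ≠ 4 → i ≠ 10 →
    (i = 13 → 1 ≤ t) → Lower (OddHC.cont (jX p D t D' u w0 i).1) (OddHC.cont (RR p D t) + {2}) := by
  intro i hi h0 h4 h10 h13
  rw [h.word w0 hi]
  have hb := ht_RR h.gD p t
  have hD := h.gD.ht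
  have hz : (OddHC.cont (RR p D t) + {2}).sup = ht (RR p D t) := by
    rw [sup_add', ← OddHC.ht_eq, Multiset.sup_singleton]
    omega
  have hz1 : (OddHC.cont (RR p D t) + {2}).count 1 = 0 := by
    rw [Multiset.count_add, h.one]
    rfl
  have hS := h.htS
  have hB := ht_b2 t
  have hc := h.cont
  have h00 : ht (BinaryTree.nil : BinaryTree Unit) = 0 := rfl
  have hB1 := count_b2 t
  have hS1 : (OddHC.cont (RR 0 D' u)).count 1 = 0 := by
    have := h.one
    rw [← hc, Multiset.count_add, hB1, zero_add] at this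
    exact this
  have up : ∀ w : BinaryTree Unit, ht (RR p D t) < ht w → Lower (OddHC.cont w)
      (OddHC.cont (RR p D t) + {2}) := by
    intro w hw
    left
    rw [hz, ← OddHC.ht_eq]
    exact hw
  have one : ∀ w : BinaryTree Unit, ht w = ht (RR p D t) → 0 < (OddHC.cont w).count 1 →
      Lower (OddHC.cont w) (OddHC.cont (RR p D t) + {2}) := by
    intro w hw h1
    right
    rw [hz, ← OddHC.ht_eq]
    refine ⟨hw, Or.inl ?_⟩
    rw [hz1]
    exact h1
  have cn : ∀ A C : BinaryTree Unit, (OddHC.cont (A △ C)).count 1 =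
      (raise (OddHC.cont A)).count 1 + (OddHC.cont C).count 1 := by
    intro A C
    rw [cont_node, Multiset.count_add]
  have ca : ∀ A C : BinaryTree Unit, (OddHC.cont (app A C)).count 1 =
      (OddHC.cont A).count 1 + (OddHC.cont C).count 1 := by
    intro A C
    rw [cont_app, Multiset.count_add]
  have c0 : (OddHC.cont (BinaryTree.nil : BinaryTree Unit)).count 1 = 0 := rfl
  have r0 : (raise (OddHC.cont (BinaryTree.nil : BinaryTree Unit))).count 1 = 1 := by
    rw [cont_nil, raise_zero]; rfl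
  interval_cases i
  · exact absurd rfl h0
  · apply one
    · simp only [W, app, ht_app, ht_node, h00]; omega
    · simp only [W, app, ca, cn, c0, r0]; omega
  · apply one
    · simp only [W, ht_app, ht_node, h00]; omega
    · simp only [W, ca, cn, c0, r0]; omega
  · apply up
    simp only [W, ht_app, ht_node, h00]; omega
  · exact absurd rfl h4
  · apply one
    · simp only [W, ht_node, h00]; omega
    · simp only [W, cn, r0]; omega
  · apply up
    simp only [W, ht_node, h00]; omega
  · apply up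
    simp only [W, app, ht_node, h00]; omega
  · apply up
    simp only [W, app, ht_node, h00]; omega
  · apply up
    simp only [W, ht_node, h00]; omega
  · exact absurd rfl h10
  · apply one
    · simp only [W, app, ht_app, ht_node, h00]; omega
    · simp only [W, app, ca, cn, r0]; omega
  · apply up
    simp only [W, ht_app, ht_node, h00]; omega
  · have ht1 := h13 rfl
    obtain ⟨t, rfl⟩ : ∃ m, t = m + 1 := ⟨t - 1, by omega⟩
    apply one
    · simp only [W, ht_app, ht_node, h00]; omega
    · have h6 : 1 ≤ (raise (OddHC.cont (app (b2 (t + 1)) (BinaryTree.nil △ .nil)))).count 1 := by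
        apply raise_one_pos
        · rw [cont_app, cont_node, cont_nil, raise_zero]
          simp
        · intro h6
          have h7 := congrArg Multiset.card h6
          rw [cont_app, Multiset.card_add] at h7
          change _ + Multiset.card (OddHC.cont l1) = _ at h7
          rw [cont_l1] at h7
          change Multiset.card (OddHC.cont (l1 △ b2 t)) + _ = _ at h7
          rw [cont_l1', Multiset.card_add] at h7
          simp at h7
        · exact cont_pos _
      simp only [W, ca, cn, c0]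
      omega
  · apply up
    simp only [W, app, ht_node, h00]; omega
  · apply up
    simp only [W, ht_node, h00]; omega
  · apply one
    · simp only [W, ht_app, ht_node, h00]; omega
    · simp only [W, ca, cn, c0, r0]; omega
  · apply up
    simp only [W, app, ht_node, h00]; omega
  · apply one
    · simp only [W, app, ht_app, ht_node, h00]; omega
    · simp only [W, app, ca, cn, r0, c0]; omega
  · apply up
    simp only [W, ht_app, ht_node, h00]; omega

/-- old words are on other T-cycles -/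
theorem Sh.other (h : Sh k p D t D' u) (w0 : X k) {i : ℕ} (hi : i < 20) (h0 : i ≠ 0) (h4 : i ≠ 4)
    (h10 : i ≠ 10) (h13 : i = 13 → 1 ≤ t) {x : X k}
    (hx : OddHC.cont x.1 = OddHC.cont (RR p D t) + {2}) :
    ¬ TT.SameCycle x (jX p D t D' u w0 i) := by
  intro hs
  have h1 := cont_same hs
  rw [hx] at h1
  exact (h.rank w0 i hi h0 h4 h10 h13).ne h1.symm

end J

end Pool.OddHC
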