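import Pool.Agent.Work.MP_8f87b2_mid.Types
import Pool.Agent.Work.MP_8f87b2_h24.GadJM
import Pool.Agent.Work.MP_8f87b2_h60.A0Gad
import Pool.Agent.Work.MP_8f87b2_h40.Dat

/-!
# MP_8f87b2_co, one soliton, no beads: type TyJM = the mirrored pair gadget J2 (19 words, no arc at `((R))`)

`jM i` = mirror of `jX i`: new `(())R'` (index 0, with 10 on the same T-cycle) and `R'(())` (index 4), `R' = mir R`.
-/

set_option autoImplicit false

namespace Pool.OddHC

open Finset Equiv BinaryTree Pool.Agent.Work.MP_8f87b2_co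

namespace J

variable {k p t u : ℕ} {D D' : BinaryTree Unit}

/-- the mirrored words -/
noncomputable def jM (p : ℕ) (D : BinaryTree Unit) (t : ℕ) (D' : BinaryTree Unit) (u : ℕ) (w0 : X k)
    (i : ℕ) : X k := Tsq.mirX (jX p D t D' u w0 i)

theorem mir_inj {a b : BinaryTree Unit} (h : Tsq.mir a = Tsq.mir b) : a = b := by
  rw [← Tsq.mir_mir a, h, Tsq.mir_mir]

theorem mirX_inj {a b : X k} (h : Tsq.mirX a = Tsq.mirX b) : a = b :=
  Subtype.ext (mir_inj (congrArg Subtype.val h))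

theorem Sh.wordM (h : Sh k p D t D' u) (w0 : X k) {i : ℕ} (hi : i < 20) :
    (jM p D t D' u w0 i).1 = Tsq.mir (H1.W (RR p D t) .nil (b2 t) (RR 0 D' u) i) := by
  change Tsq.mir (jX p D t D' u w0 i).1 = _
  rw [h.word w0 hi]

theorem Sh.wordM' (h : Sh k p D t D' u) (w0 : X k) {i : ℕ} (hi : i < 20) :
    (jM p D t D' u w0 i).1 =
      w20M (Tsq.mir (RR p D t)) .nil (Tsq.mir (b2 t)) (Tsq.mir (RR 0 D' u)) i := by
  rw [h.wordM w0 hi, HM.mir_W _ _ _ _ hi]
  rfl

theorem Sh.contM (_h : Sh k p D t D' u) (w0 : X k) (i : ℕ) :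
    OddHC.cont (jM p D t D' u w0 i).1 = OddHC.cont (jX p D t D' u w0 i).1 := HM.cont_mir _

theorem Sh.linkM (h : Sh k p D t D' u) (w0 : X k) {i j : ℕ}
    (hij : (i, j) ∈ [(0, 10), (1, 11), (3, 12), (6, 15), (8, 14), (9, 17)]) :
    TT (TT (jM p D t D' u w0 j)) = jM p D t D' u w0 i :=
  Tsq.TT_mir2 (h.link w0 hij)

theorem Sh.same10M (h : Sh k p D t D' u) (w0 : X k) :
    TT.SameCycle (jM p D t D' u w0 0) (jM p D t D' u w0 10) := by
  have h1 := h.linkM w0 (i := 0) (j := 10) (by simp)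
  refine Perm.SameCycle.symm ⟨2, ?_⟩
  rw [show (2 : ℤ) = ((2 : ℕ) : ℤ) from rfl, zpow_natCast, pow_two, Perm.mul_apply, h1]

theorem Sh.cont0M (h : Sh k p D t D' u) (w0 : X k) :
    OddHC.cont (jM p D t D' u w0 0).1 = OddHC.cont (RR p D t) + {2} := by
  rw [h.contM, h.cont0]

theorem Sh.cont4M (h : Sh k p D t D' u) (w0 : X k) :
    OddHC.cont (jM p D t D' u w0 4).1 = OddHC.cont (RR p D t) + {2} := by
  rw [h.contM, h.cont4]

theorem Sh.otherM (h : Sh k p D t D' u) (w0 : X k) {i : ℕ} (hi : i < 20) (h0 : i ≠ 0) (h4 : i ≠ 4)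
    (h10 : i ≠ 10) (h13 : i = 13 → 1 ≤ t) {x : X k}
    (hx : OddHC.cont x.1 = OddHC.cont (RR p D t) + {2}) :
    ¬ TT.SameCycle x (jM p D t D' u w0 i) := by
  intro hs
  have h1 := cont_same hs
  rw [hx, h.contM] at h1
  exact (h.rank w0 i hi h0 h4 h10 h13).ne h1.symm

/-- the words of one gadget are different -/
theorem Sh.injX (h : Sh k p D t D' u) (w0 : X k)
    (h10 : jX p D t D' u w0 0 ≠ jX p D t D' u w0 10)
    (h04 : jX p D t D' u w0 0 ≠ jX p D t D' u w0 4)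
    (h104 : jX p D t D' u w0 10 ≠ jX p D t D' u w0 4)
    (h13 : t = 0 → jX p D t D' u w0 0 ≠ jX p D t D' u w0 13 ∧
      jX p D t D' u w0 4 ≠ jX p D t D' u w0 13 ∧ jX p D t D' u w0 10 ≠ jX p D t D' u w0 13) :
    ∀ i < 20, ∀ j < 20, jX p D t D' u w0 i = jX p D t D' u w0 j → i = j := by
  have lo : ∀ i < 10, ∀ j < 10, jX p D t D' u w0 i = jX p D t D' u w0 j → i = j := by
    intro i hi j hj e
    have e1 := congrArg Subtype.val e
    rw [h.word_lo w0 hi, h.word_lo w0 hj] at e1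
    rcases pure_inj h.gD h.gD hi hj e1 with ⟨h1, _⟩ | ⟨h1 | h1, h2 | h2⟩
    · exact h1
    · omega
    · subst h1 h2; exact absurd e h04
    · subst h1 h2; exact absurd e.symm h04
    · omega
  have mid : ∀ i < 10, ∀ j, 10 ≤ j → j < 20 → jX p D t D' u w0 i ≠ jX p D t D' u w0 j := by
    intro i hi j hj hj' e
    have e1 := congrArg Subtype.val e
    rw [h.word_lo w0 hi, h.word_hi w0 hj hj'] at e1
    rcases Nat.eq_zero_or_pos t with ht | ht
    · subst ht
      obtain ⟨k1, k2, k3⟩ := h13 rfl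
      rw [mw_zero D' u hj hj'] at e1
      rcases pure_inj h.gD h.gD' hi (ixp_lt j) e1 with ⟨_, h2⟩ | ⟨h1, h2⟩
      · apply k1
        apply Subtype.ext
        rw [h.word_lo w0 (by norm_num), h.word_hi w0 (by norm_num) (by norm_num),
          mw_zero D' u (by norm_num) (by norm_num), ← h2]
        rfl
      · have hj2 : j = 10 ∨ j = 13 := by
          interval_cases j <;> simp [ixp] at h2 ⊢
        rcases h1 with h1 | h1 <;> rcases hj2 with h2 | h2 <;> subst h1 h2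
        · exact h10 e
        · exact k1 e
        · exact h104 e.symm
        · exact k2 e
    · obtain ⟨h1, h2⟩ := mix_pure h.gD' h.gD ht hj hj' hi e1.symm
      subst h1
      rcases h2 with h2 | h2 <;> subst h2
      · exact h10 e
      · exact h104 e.symm
  have hi2 : ∀ i, 10 ≤ i → i < 20 → ∀ j, 10 ≤ j → j < 20 →
      jX p D t D' u w0 i = jX p D t D' u w0 j → i = j := by
    intro i hi hi' j hj hj' e
    have e1 := congrArg Subtype.val e
    rw [h.word_hi w0 hi hi', h.word_hi w0 hj hj'] at e1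
    rcases Nat.eq_zero_or_pos t with ht | ht
    · subst ht
      obtain ⟨k1, k2, k3⟩ := h13 rfl
      rw [mw_zero D' u hj hj', mw_zero D' u hi hi'] at e1
      rcases pure_inj h.gD' h.gD' (ixp_lt i) (ixp_lt j) e1 with ⟨h1, _⟩ | ⟨h1, h2⟩
      · exact ixp_inj hi hi' hj hj' h1
      · have hi2 : i = 10 ∨ i = 13 := by
          interval_cases i <;> simp [ixp] at h1 ⊢
        have hj2 : j = 10 ∨ j = 13 := by
          interval_cases j <;> simp [ixp] at h2 ⊢
        rcases hi2 with h1 | h1 <;> rcases hj2 with h2 | h2 <;> subst h1 h2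
        · rfl
        · exact absurd e k3
        · exact absurd e.symm k3
        · rfl
    · exact (mix_inj h.gD' h.gD' ht ht hi hi' hj hj' e1).1
  intro i hi j hj e
  rcases lt_or_ge i 10 with h1 | h1 <;> rcases lt_or_ge j 10 with h2 | h2
  · exact lo i h1 j h2 e
  · exact absurd e (mid i h1 j h2 hj)
  · exact absurd e.symm (mid j h2 i h1 hi)
  · exact hi2 i h1 hi j h2 hj e

/-- the conditions of a pair gadget: `z ≠ z'`, `z` is not `T`-fixed, the old neighbour is old -/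
structure PairOK (p : ℕ) (D : BinaryTree Unit) (t : ℕ) (D' : BinaryTree Unit) (u : ℕ) (w0 : X k) :
    Prop where
  n10 : jM p D t D' u w0 0 ≠ jM p D t D' u w0 10
  n4 : cyc (jM p D t D' u w0 0) ≠ cyc (jM p D t D' u w0 4)
  n13 : t = 0 → cyc (jM p D t D' u w0 13) ≠ cyc (jM p D t D' u w0 0) ∧
    cyc (jM p D t D' u w0 13) ≠ cyc (jM p D t D' u w0 4)

theorem Sh.cyc10M (h : Sh k p D t D' u) (w0 : X k) :
    cyc (jM p D t D' u w0 10) = cyc (jM p D t D' u w0 0) :=
  cyc_eq.2 (h.same10M w0).symm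

theorem Sh.injM (h : Sh k p D t D' u) {w0 : X k} (hp : PairOK p D t D' u w0) :
    ∀ i < 20, ∀ j < 20, jM p D t D' u w0 i = jM p D t D' u w0 j → i = j := by
  have hc := h.cyc10M w0
  have e : ∀ {i j : ℕ}, cyc (jM p D t D' u w0 i) ≠ cyc (jM p D t D' u w0 j) →
      jX p D t D' u w0 i ≠ jX p D t D' u w0 j := by
    intro i j h1 h2
    exact h1 (by unfold jM; rw [h2])
  intro i hi j hj hij
  refine h.injX w0 (fun h1 => hp.n10 (by unfold jM; rw [h1])) (e hp.n4)
    (e (by rw [hc]; exact hp.n4)) (fun ht => ⟨e (hp.n13 ht).1.symm, e (hp.n13 ht).2.symm,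
      e (by rw [hc]; exact (hp.n13 ht).1.symm)⟩) i hi j hj (mirX_inj hij)

theorem Sh.absM (h : Sh k p D t D' u) {w0 : X k} (hp : PairOK p D t D' u w0) :
    (gadJM (jM p D t D' u w0)).Abs := by
  have e := h.num
  have es := h.size
  apply gadJM_abs (R := Tsq.mir (RR p D t)) (B := Tsq.mir (b2 t)) (S := Tsq.mir (RR 0 D' u))
    (by rw [Tsq.mir_num]; omega) (by rw [Tsq.mir_num, Tsq.mir_num]; omega)
    (fun i hi _ => h.wordM' w0 hi) (fun i hi _ j hj _ => h.injM hp i hi j hj) (h.same10M w0)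
    (fun h1 => hp.n4 (cyc_eq.2 h1))
  intro i hi h0 h4 _ h10
  by_cases h13 : i = 13 ∧ t = 0
  · obtain ⟨rfl, h13⟩ := h13
    exact ⟨fun h1 => (hp.n13 h13).1 (cyc_eq.2 h1).symm, fun h1 => (hp.n13 h13).2 (cyc_eq.2 h1).symm⟩
  · have h13' : i = 13 → 1 ≤ t := fun h1 => by omega
    exact ⟨h.otherM w0 hi h0 h4 h10 h13' (h.cont0M w0), h.otherM w0 hi h0 h4 h10 h13' (h.cont4M w0)⟩

end J

open J

variable {k : ℕ} {F F' : Set (Cyc k)} {g g' : DG k}

/-- TYPE JM: the mirrored pair gadget J2 -/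
def TyJM (F : Set (Cyc k)) (g : DG k) : Prop :=
  ∃ (p : ℕ) (D : BinaryTree Unit) (t : ℕ) (D' : BinaryTree Unit) (u : ℕ) (w0 : X k),
    Sh k p D t D' u ∧ PairOK p D t D' u w0 ∧
    F = {cyc (jM p D t D' u w0 0), cyc (jM p D t D' u w0 4)} ∧ g = gadJM (jM p D t D' u w0)

theorem mem_gadJM {w : ℕ → X k} {x : X k} : x ∈ (gadJM w).B ↔ ∃ i < 20, i ≠ 5 ∧ w i = x := by
  classical
  change x ∈ ((range 20).erase 5).image w ↔ _
  rw [Finset.mem_image]
  constructor
  · rintro ⟨i, hi, rfl⟩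
    rw [Finset.mem_erase, Finset.mem_range] at hi
    exact ⟨i, hi.2, hi.1, rfl⟩
  · rintro ⟨i, hi, h5, rfl⟩; exact ⟨i, Finset.mem_erase.2 ⟨h5, Finset.mem_range.2 hi⟩, rfl⟩

theorem TyJM.hF (h : TyJM F g) : ∀ w, w ∈ g.F ↔ cyc w ∈ F := by
  obtain ⟨p, D, t, D', u, w0, h1, hp, rfl, rfl⟩ := h
  intro w
  change TT.SameCycle _ _ ∨ TT.SameCycle _ _ ↔ cyc w = _ ∨ cyc w = _
  rw [← cyc_eq, ← cyc_eq]
  exact ⟨fun e => e.imp Eq.symm Eq.symm, fun e => e.imp Eq.symm Eq.symm⟩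

theorem TyJM.new (h : TyJM F g) : ∀ c ∈ F, ∃ u ∈ g.B, cyc u = c := by
  obtain ⟨p, D, t, D', u, w0, h1, hp, rfl, rfl⟩ := h
  rintro c (rfl | rfl)
  · exact ⟨_, mem_gadJM.2 ⟨0, by norm_num, by norm_num, rfl⟩, rfl⟩
  · exact ⟨_, mem_gadJM.2 ⟨4, by norm_num, by norm_num, rfl⟩, rfl⟩

theorem TyJM.old (h : TyJM F g) : ∃ u ∈ g.B, cyc u ∉ F := by
  obtain ⟨p, D, t, D', u, w0, h1, hp, rfl, rfl⟩ := h
  refine ⟨_, mem_gadJM.2 ⟨1, by norm_num, by norm_num, rfl⟩, ?_⟩
  rintro (e | e)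
  · exact h1.otherM w0 (i := 1) (by norm_num) (by norm_num) (by norm_num) (by norm_num)
      (by norm_num) (h1.cont0M w0) (cyc_eq.1 e).symm
  · exact h1.otherM w0 (i := 1) (by norm_num) (by norm_num) (by norm_num) (by norm_num)
      (by norm_num) (h1.cont4M w0) (cyc_eq.1 e).symm

theorem TyJM.abs (h : TyJM F g) : g.Abs := by
  obtain ⟨p, D, t, D', u, w0, h1, hp, rfl, rfl⟩ := h
  exact h1.absM hp

/-- all T-cycles of the group have the same content, the content of the class -/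
theorem TyJM.cont (h : TyJM F g) : ∀ c ∈ F, ∀ d ∈ F, contc c = contc d := by
  obtain ⟨p, D, t, D', u, w0, h1, hp, rfl, rfl⟩ := h
  have e0 : contc (cyc (jM p D t D' u w0 0)) = OddHC.cont (RR p D t) + {2} := h1.cont0M w0
  have e4 : contc (cyc (jM p D t D' u w0 4)) = OddHC.cont (RR p D t) + {2} := h1.cont4M w0
  rintro c (rfl | rfl) d (rfl | rfl)
  · rfl
  · rw [e0, e4]
  · rw [e0, e4]
  · rfl

/-- rank: every old word is `Lower` than the new T-cycles, with the exception of the word 13 if `t = 0`, which has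
the same content -/
theorem TyJM.rank (h : TyJM F g) : ∀ w ∈ g.B, cyc w ∈ F ∨
    (∀ c ∈ F, H1.Lower (contc (cyc w)) (contc c)) ∨
    (∀ c ∈ F, contc (cyc w) = contc c) := by
  obtain ⟨p, D, t, D', u, w0, h1, hp, rfl, rfl⟩ := h
  have e0 : contc (cyc (jM p D t D' u w0 0)) = OddHC.cont (RR p D t) + {2} := h1.cont0M w0
  have e4 : contc (cyc (jM p D t D' u w0 4)) = OddHC.cont (RR p D t) + {2} := h1.cont4M w0
  intro w hw
  obtain ⟨i, hi, _, rfl⟩ := mem_gadJM.1 hw
  by_cases h0 : i = 0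
  · left; rw [h0]; exact Or.inl rfl
  · by_cases h4 : i = 4
    · left; rw [h4]; exact Or.inr rfl
    · by_cases h10 : i = 10
      · left; rw [h10]; exact Or.inl (h1.cyc10M w0)
      · by_cases h13 : i = 13 ∧ t = 0
        · obtain ⟨rfl, rfl⟩ := h13
          right; right
          have e13 : contc (cyc (jM p D 0 D' u w0 13)) = OddHC.cont (RR p D 0) + {2} := by
            change OddHC.cont (jM p D 0 D' u w0 13).1 = _
            rw [h1.contM, h1.cont13]
          rintro c (rfl | rfl)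
          · rw [e13, e0]
          · rw [e13, e4]
        · right; left
          have e := h1.rank w0 i hi h0 h4 h10 (fun h => by omega)
          rw [← h1.contM] at e
          rintro c (rfl | rfl)
          · rw [e0]; exact e
          · rw [e4]; exact e

theorem TyJM.path (h : TyJM F g) : ∀ a ∈ g.arcs, ∃ n : ℕ, (TT ^ (n + 1)) a.1 = a.2 ∧ a.1 ∈ g.B ∧
    ∀ i < n, (TT ^ (i + 1)) a.1 ∈ innA a := by
  obtain ⟨p, D, t, D', u, w0, h1, hp, rfl, rfl⟩ := h
  intro q hq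
  have key : ∀ i j, (i, j) ∈ [(0, 10), (1, 11), (3, 12), (6, 15), (8, 14), (9, 17)] → j < 20 → j ≠ 5 →
      q = (jM p D t D' u w0 j, jM p D t D' u w0 i) →
      ∃ n : ℕ, (TT ^ (n + 1)) q.1 = q.2 ∧ q.1 ∈ (gadJM (jM p D t D' u w0)).B ∧
        ∀ i < n, (TT ^ (i + 1)) q.1 ∈ innA q := by
    rintro i j hij hj h5 rfl
    refine ⟨1, ?_, mem_gadJM.2 ⟨j, hj, h5, rfl⟩, ?_⟩
    · rw [pow_succ, pow_one, Perm.mul_apply]
      exact h1.linkM w0 hij
    · intro n hn
      obtain rfl : n = 0 := by omega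
      rw [pow_one]
      rfl
  have hp' : q = (jM p D t D' u w0 11, jM p D t D' u w0 1) ∨
      q = (jM p D t D' u w0 12, jM p D t D' u w0 3) ∨
      q = (jM p D t D' u w0 15, jM p D t D' u w0 6) ∨
      q = (jM p D t D' u w0 14, jM p D t D' u w0 8) := hq
  rcases hp' with e | e | e | e
  · exact key 1 11 (by simp) (by norm_num) (by norm_num) e
  · exact key 3 12 (by simp) (by norm_num) (by norm_num) e
  · exact key 6 15 (by simp) (by norm_num) (by norm_num) e
  · exact key 8 14 (by simp) (by norm_num) (by norm_num) e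

end Pool.OddHC
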