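import Pool.Agent.Work.MP_8f87b2_h35.GadJNM
import Pool.Agent.Work.MP_8f87b2_h22.B6
import Pool.Agent.Work.MP_8f87b2_h40.TyF

/-!
# MP_8f87b2_co, one soliton, no beads: type TyNM = helper47's gadget J3n, mirror (18 words, `1 ≤ Φ 0`)

New T-cycles: word 0 = `Φ + [0]`, word 1 = `()()R` (with `R()()` = word 5), word 2 = `()R()`. Old words of the same height: word
4 = `Φ + [-1]` and the words 13, 16, 18 (content with exactly one `1`); all other old words are higher.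
-/

set_option autoImplicit false

namespace Pool.OddHC

open Finset Equiv BinaryTree Pool.Agent.Work.MP_8f87b2_co

namespace J

variable {k p t u : ℕ} {D D' : BinaryTree Unit}

theorem Sh.count12 (h : Sh k p D t D' u) (w0 : X k) : ∀ i ∈ [1, 2],
    (OddHC.cont (jX p D t D' u w0 i).1).count 1 = 2 := by
  intro i hi
  have hlt : i < 20 := by
    simp only [List.mem_cons, List.not_mem_nil, or_false] at hi
    omega
  have h1 := h.one
  have r0 : (raise (OddHC.cont (BinaryTree.nil : BinaryTree Unit))).count 1 = 1 := by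
    rw [cont_nil, raise_zero]; rfl
  have c0 : (OddHC.cont (BinaryTree.nil : BinaryTree Unit)).count 1 = 0 := rfl
  rw [h.word w0 hlt]
  simp only [List.mem_cons, List.not_mem_nil, or_false] at hi
  rcases hi with rfl | rfl <;>
    simp only [H1.W, app, cont_app, cont_node, Multiset.count_add, c0, r0] <;> omega

theorem Sh.countM (h : Sh k p D t D' u) (ht : 1 ≤ t) (w0 : X k) : ∀ i ∈ [13, 16, 18],
    (OddHC.cont (jX p D t D' u w0 i).1).count 1 = 1 := by
  intro i hi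
  have hlt : i < 20 := by
    simp only [List.mem_cons, List.not_mem_nil, or_false] at hi
    omega
  have hB1 := count_b2 t
  have hc := h.cont
  have hS1 : (OddHC.cont (RR 0 D' u)).count 1 = 0 := by
    have := h.one
    rw [← hc, Multiset.count_add, hB1, zero_add] at this
    exact this
  have r0 : (raise (OddHC.cont (BinaryTree.nil : BinaryTree Unit))).count 1 = 1 := by
    rw [cont_nil, raise_zero]; rfl
  have c0 : (OddHC.cont (BinaryTree.nil : BinaryTree Unit)).count 1 = 0 := rfl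
  have hb2 : 2 ≤ (OddHC.cont (b2 t)).sup := by
    obtain ⟨t, rfl⟩ : ∃ m, t = m + 1 := ⟨t - 1, by omega⟩
    apply Multiset.le_sup
    change 2 ∈ OddHC.cont (l1 △ b2 t)
    rw [cont_l1']
    simp
  have e1 : (raise (OddHC.cont (b2 t))).count 1 = 0 := by rw [H1.raise_one hb2, hB1]
  have e2 : (raise (OddHC.cont (b2 t) + {1})).count 1 = 1 := by
    rw [H1.raise_one (by rw [Multiset.sup_add]; exact hb2.trans le_sup_left), Multiset.count_add, hB1]
    rfl
  rw [h.word w0 hlt]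
  simp only [List.mem_cons, List.not_mem_nil, or_false] at hi
  rcases hi with rfl | rfl | rfl
  · simp only [H1.W, cont_app, cont_node, Multiset.count_add, hS1, zero_add]
    rw [cont_nil, raise_zero, add_zero, e2]
    rfl
  · simp only [H1.W, cont_app, cont_node, Multiset.count_add, hS1, e1, c0, r0]
  · simp only [H1.W, app, cont_app, cont_node, Multiset.count_add, hS1, e1, c0, r0]

/-- words of the height of the class -/
theorem Sh.ht_eq' (h : Sh k p D t D' u) (_ : 1 ≤ t) (w0 : X k) : ∀ i ∈ [0, 1, 2, 4, 13, 16, 18],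
    ht (jX p D t D' u w0 i).1 = ht (RR p D t) := by
  intro i hi
  have hlt : i < 20 := by
    simp only [List.mem_cons, List.not_mem_nil, or_false] at hi
    omega
  have hb := ht_RR h.gD p t
  have hD := h.gD.ht
  have hS := h.htS
  have h00 : ht (BinaryTree.nil : BinaryTree Unit) = 0 := rfl
  have hB := ht_b2 t
  rw [h.word w0 hlt]
  simp only [List.mem_cons, List.not_mem_nil, or_false] at hi
  rcases hi with rfl | rfl | rfl | rfl | rfl | rfl | rfl <;>
    simp only [H1.W, app, ht_app, ht_node, h00] <;> omega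

/-- higher words -/
theorem Sh.ht_gt (h : Sh k p D t D' u) (w0 : X k) : ∀ i ∈ [3, 6, 7, 8, 9, 12, 14, 15, 17, 19],
    ht (RR p D t) < ht (jX p D t D' u w0 i).1 := by
  intro i hi
  have hlt : i < 20 := by
    simp only [List.mem_cons, List.not_mem_nil, or_false] at hi
    omega
  have hb := ht_RR h.gD p t
  have hD := h.gD.ht
  have hS := h.htS
  have h00 : ht (BinaryTree.nil : BinaryTree Unit) = 0 := rfl
  have hB := ht_b2 t
  rw [h.word w0 hlt]
  simp only [List.mem_cons, List.not_mem_nil, or_false] at hi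
  rcases hi with rfl | rfl | rfl | rfl | rfl | rfl | rfl | rfl | rfl | rfl <;>
    simp only [H1.W, app, ht_app, ht_node, h00] <;> omega

theorem htM (w0 : X k) (i : ℕ) : ht (jM p D t D' u w0 i).1 = ht (jX p D t D' u w0 i).1 := by
  rw [OddHC.ht_eq, OddHC.ht_eq]
  exact congrArg Multiset.sup (HM.cont_mir _)

/-- the conditions of the gadget J3n, mirror -/
structure NMOK (p : ℕ) (D : BinaryTree Unit) (t : ℕ) (D' : BinaryTree Unit) (u : ℕ) (w0 : X k) :
    Prop where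
  t1 : 1 ≤ t
  n10 : jM p D t D' u w0 0 ≠ jM p D t D' u w0 10
  n4 : cyc (jM p D t D' u w0 0) ≠ cyc (jM p D t D' u w0 4)
  n12 : cyc (jM p D t D' u w0 1) ≠ cyc (jM p D t D' u w0 2)
  f11 : FR TT {jM p D t D' u w0 11, jM p D t D' u w0 1, jM p D t D' u w0 5}
    (jM p D t D' u w0 11) (jM p D t D' u w0 1)
  f1 : FR TT {jM p D t D' u w0 11, jM p D t D' u w0 1, jM p D t D' u w0 5}
    (jM p D t D' u w0 1) (jM p D t D' u w0 5)
  f5 : FR TT {jM p D t D' u w0 11, jM p D t D' u w0 1, jM p D t D' u w0 5}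
    (jM p D t D' u w0 5) (jM p D t D' u w0 11)

theorem NMOK.pair {w0 : X k} (h : NMOK p D t D' u w0) : PairOK p D t D' u w0 :=
  ⟨h.n10, h.n4, fun h0 => absurd h.t1 (by omega)⟩

/-- old words are on other T-cycles -/
theorem Sh.oldNM (h : Sh k p D t D' u) {w0 : X k} (hp : NMOK p D t D' u w0) :
    ∀ i ∈ nwJN, ∀ j ∈ odJN, cyc (jM p D t D' u w0 i) ≠ cyc (jM p D t D' u w0 j) := by
  have hr : ∀ j ∈ odJN, j = 4 ∨ j ∈ [13, 16, 18] ∨ j ∈ [3, 6, 7, 8, 9, 12, 14, 15, 17, 19] := by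
    decide
  have hr2 : ∀ i ∈ nwJN, i ∈ [0, 1, 2, 4, 13, 16, 18] := by decide
  have hr3 : ∀ i ∈ nwJN, i = 0 ∨ i ∈ [1, 2] := by decide
  intro i hi j hj e
  rcases hr j hj with rfl | h1 | h1
  · rcases hr3 i hi with rfl | h2
    · exact hp.n4 e
    · have h3 := h.otherM w0 (i := i) (by simp at h2; omega) (by simp at h2; omega)
        (by simp at h2; omega) (by simp at h2; omega) (by simp at h2; omega) (h.cont4M w0)
      exact h3 (cyc_eq.1 e.symm)
  · have h4 : (contc (cyc (jM p D t D' u w0 i))).count 1 = (contc (cyc (jM p D t D' u w0 j))).count 1 :=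
      by rw [e]
    rw [contc_cyc, contc_cyc, h.contM, h.contM, h.countM hp.t1 w0 j h1] at h4
    rcases hr3 i hi with rfl | h2
    · rw [h.cont0, Multiset.count_add, h.one] at h4
      exact absurd h4 (by decide)
    · rw [h.count12 w0 i h2] at h4
      omega
  · have h4 : htc (cyc (jM p D t D' u w0 i)) = htc (cyc (jM p D t D' u w0 j)) := by rw [e]
    rw [htc_cyc, htc_cyc, htM, htM, h.ht_eq' hp.t1 w0 i (hr2 i hi)] at h4
    have := h.ht_gt w0 j h1
    omega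

theorem Sh.sepNM (h : Sh k p D t D' u) {w0 : X k} (hp : NMOK p D t D' u w0) :
    ∀ i ∈ nwJN, ∀ j ∈ nwJN, cyc (jM p D t D' u w0 i) = cyc (jM p D t D' u w0 j) → i = j := by
  have hr3 : ∀ i ∈ nwJN, i = 0 ∨ i ∈ [1, 2] := by decide
  have key : ∀ i ∈ [1, 2], cyc (jM p D t D' u w0 0) ≠ cyc (jM p D t D' u w0 i) := by
    intro i h2 e
    exact h.otherM w0 (i := i) (by simp at h2; omega) (by simp at h2; omega)
        (by simp at h2; omega) (by simp at h2; omega) (by simp at h2; omega) (h.cont0M w0)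
        (cyc_eq.1 e)
  intro i hi j hj e
  rcases hr3 i hi with rfl | h1 <;> rcases hr3 j hj with rfl | h2
  · rfl
  · exact absurd e (key j h2)
  · exact absurd e.symm (key i h1)
  · simp only [List.mem_cons, List.not_mem_nil, or_false] at h1 h2
    rcases h1 with rfl | rfl <;> rcases h2 with rfl | rfl
    · rfl
    · exact absurd e hp.n12
    · exact absurd e.symm hp.n12
    · rfl

theorem Sh.absNM (h : Sh k p D t D' u) {w0 : X k} (hp : NMOK p D t D' u w0) :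
    (gadJNM (jM p D t D' u w0)).Abs := by
  classical
  have e := h.num
  have es := h.size
  have hix : ∀ i ∈ ixJN, i < 20 := by decide
  apply gadJNM_abs (R := Tsq.mir (RR p D t)) (B := Tsq.mir (b2 t)) (S := Tsq.mir (RR 0 D' u))
    (by rw [Tsq.mir_num]; omega) (by rw [Tsq.mir_num, Tsq.mir_num]; omega)
    (fun i hi => h.wordM' w0 (hix i hi))
    (fun i hi j hj => h.injM hp.pair i (hix i hi) j (hix j hj)) (h.same10M w0)
    (C := {jM p D t D' u w0 11, jM p D t D' u w0 1, jM p D t D' u w0 5}) ?_ (by convert hp.f11)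
    (by convert hp.f1) (by convert hp.f5)
    (fun i hi j hj hs => h.sepNM hp i hi j hj (cyc_eq.2 hs))
    (fun i hi j hj hs => h.oldNM hp i hi j hj (cyc_eq.2 hs))
  simp

end J

open J

variable {k : ℕ} {F F' : Set (Cyc k)} {g g' : DG k}

/-- TYPE NM (J3n, mirror) -/
def TyNM (F : Set (Cyc k)) (g : DG k) : Prop :=
  ∃ (p : ℕ) (D : BinaryTree Unit) (t : ℕ) (D' : BinaryTree Unit) (u : ℕ) (w0 : X k),
    Sh k p D t D' u ∧ NMOK p D t D' u w0 ∧
    F = {cyc (jM p D t D' u w0 0), cyc (jM p D t D' u w0 1), cyc (jM p D t D' u w0 2)} ∧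
    g = gadJNM (jM p D t D' u w0)

theorem TyNM.hF (h : TyNM F g) : ∀ w, w ∈ g.F ↔ cyc w ∈ F := by
  obtain ⟨p, D, t, D', u, w0, h1, hp, rfl, rfl⟩ := h
  intro w
  change TT.SameCycle _ _ ∨ TT.SameCycle _ _ ∨ TT.SameCycle _ _ ↔ cyc w = _ ∨ cyc w = _ ∨ cyc w = _
  rw [← cyc_eq, ← cyc_eq, ← cyc_eq]
  exact ⟨fun e => e.imp Eq.symm (Or.imp Eq.symm Eq.symm),
    fun e => e.imp Eq.symm (Or.imp Eq.symm Eq.symm)⟩

theorem TyNM.new (h : TyNM F g) : ∀ c ∈ F, ∃ u ∈ g.B, cyc u = c := by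
  obtain ⟨p, D, t, D', u, w0, h1, hp, rfl, rfl⟩ := h
  rintro c (rfl | rfl | rfl)
  · exact ⟨_, mem_gadJNM_B.2 ⟨0, by decide, rfl⟩, rfl⟩
  · exact ⟨_, mem_gadJNM_B.2 ⟨1, by decide, rfl⟩, rfl⟩
  · exact ⟨_, mem_gadJNM_B.2 ⟨2, by decide, rfl⟩, rfl⟩

theorem TyNM.htp (h : TyNM F g) : ∀ c ∈ F, ∀ d ∈ F, htc c = htc d := by
  obtain ⟨p, D, t, D', u, w0, h1, hp, rfl, rfl⟩ := h
  have key : ∀ i ∈ [0, 1, 2], htc (cyc (jM p D t D' u w0 i)) = ht (RR p D t) := by
    intro i hi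
    rw [htc_cyc, htM]
    exact h1.ht_eq' hp.t1 w0 i (by simp at hi ⊢; omega)
  rintro c (rfl | rfl | rfl) d (rfl | rfl | rfl) <;>
    simp only [key 0 (by simp), key 1 (by simp), key 2 (by simp)]

/-- rank: the old words are higher, or of the same height: word 4 (the content of the new T-cycle of word 0), or words with
exactly one `1` -/
theorem TyNM.rank (h : TyNM F g) : ∀ w ∈ g.B, cyc w ∈ F ∨ (∀ c ∈ F, htc c < htc (cyc w)) ∨
    ((∀ c ∈ F, htc (cyc w) = htc c) ∧ ((contc (cyc w)).count 1 = 1 ∨ (contc (cyc w)).count 1 = 0)) := by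
  obtain ⟨p, D, t, D', u, w0, h1, hp, rfl, rfl⟩ := h
  have key : ∀ i ∈ [0, 1, 2, 4, 13, 16, 18], htc (cyc (jM p D t D' u w0 i)) = ht (RR p D t) := by
    intro i hi
    rw [htc_cyc, htM]
    exact h1.ht_eq' hp.t1 w0 i hi
  have hr : ∀ i ∈ ixJN, i ∈ [0, 1, 2] ∨ i = 10 ∨ i = 11 ∨ i = 5 ∨ i = 4 ∨ i ∈ [13, 16, 18] ∨
      i ∈ [3, 6, 7, 8, 9, 12, 14, 15, 17, 19] := by decide
  have sc : ∀ {C : Finset (X k)} {u v : X k}, FR TT C u v → TT.SameCycle u v := by
    rintro C u v ⟨n, hn, _⟩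
    exact ⟨((n + 1 : ℕ) : ℤ), by rw [zpow_natCast]; exact hn⟩
  intro w hw
  obtain ⟨i, hi, rfl⟩ := mem_gadJNM_B.1 hw
  rcases hr i hi with h2 | rfl | rfl | rfl | rfl | h2 | h2
  · left
    simp only [List.mem_cons, List.not_mem_nil, or_false] at h2
    rcases h2 with rfl | rfl | rfl
    · exact Or.inl rfl
    · exact Or.inr (Or.inl rfl)
    · exact Or.inr (Or.inr rfl)
  · exact Or.inl (Or.inl (h1.cyc10M w0))
  · exact Or.inl (Or.inr (Or.inl (cyc_eq.2 (sc hp.f11))))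
  · exact Or.inl (Or.inr (Or.inl (cyc_eq.2 (sc hp.f1)).symm))
  · right; right
    constructor
    · rintro c (rfl | rfl | rfl)
      · rw [key 4 (by simp), key 0 (by simp)]
      · rw [key 4 (by simp), key 1 (by simp)]
      · rw [key 4 (by simp), key 2 (by simp)]
    · right
      rw [contc_cyc, h1.cont4M, Multiset.count_add, h1.one]
      rfl
  · right; right
    have hi7 : i ∈ [0, 1, 2, 4, 13, 16, 18] := by simp at h2 ⊢; omega
    constructor
    · rintro c (rfl | rfl | rfl)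
      · rw [key i hi7, key 0 (by simp)]
      · rw [key i hi7, key 1 (by simp)]
      · rw [key i hi7, key 2 (by simp)]
    · left
      rw [contc_cyc, h1.contM, h1.countM hp.t1 w0 i h2]
  · right; left
    have h3 := h1.ht_gt w0 i h2
    rw [← htM, ← htc_cyc] at h3
    rintro c (rfl | rfl | rfl)
    · rw [key 0 (by simp)]; exact h3
    · rw [key 1 (by simp)]; exact h3
    · rw [key 2 (by simp)]; exact h3

theorem TyNM.old (h : TyNM F g) : ∃ u ∈ g.B, cyc u ∉ F := by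
  obtain ⟨p, D, t, D', u, w0, h1, hp, rfl, rfl⟩ := h
  refine ⟨_, mem_gadJNM_B.2 ⟨3, by decide, rfl⟩, ?_⟩
  rintro (e | e | e)
  · exact h1.oldNM hp 0 (by decide) 3 (by decide) e.symm
  · exact h1.oldNM hp 1 (by decide) 3 (by decide) e.symm
  · exact h1.oldNM hp 2 (by decide) 3 (by decide) e.symm

theorem TyNM.abs (h : TyNM F g) : g.Abs := by
  obtain ⟨p, D, t, D', u, w0, h1, hp, rfl, rfl⟩ := h
  exact h1.absNM hp

theorem TyNM.path (h : TyNM F g) : ∀ a ∈ g.arcs, ∃ n : ℕ, (TT ^ (n + 1)) a.1 = a.2 ∧ a.1 ∈ g.B ∧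
    ∀ i < n, (TT ^ (i + 1)) a.1 ∈ innA a := by
  obtain ⟨p, D, t, D', u, w0, h1, hp, rfl, rfl⟩ := h
  intro q hq
  have key : ∀ i j, (i, j) ∈ [(0, 10), (1, 11), (3, 12), (6, 15), (8, 14), (9, 17)] → j ∈ ixJN →
      q = (jM p D t D' u w0 j, jM p D t D' u w0 i) →
      ∃ n : ℕ, (TT ^ (n + 1)) q.1 = q.2 ∧ q.1 ∈ (gadJNM (jM p D t D' u w0)).B ∧
        ∀ i < n, (TT ^ (i + 1)) q.1 ∈ innA q := by
    rintro i j hij hj rfl
    refine ⟨1, ?_, mem_gadJNM_B.2 ⟨j, hj, rfl⟩, ?_⟩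
    · rw [pow_succ, pow_one, Perm.mul_apply]
      exact h1.linkM w0 hij
    · intro n hn
      obtain rfl : n = 0 := by omega
      rw [pow_one]
      rfl
  have hp' : q = (jM p D t D' u w0 12, jM p D t D' u w0 3) ∨
      q = (jM p D t D' u w0 15, jM p D t D' u w0 6) ∨
      q = (jM p D t D' u w0 14, jM p D t D' u w0 8) := hq
  rcases hp' with e | e | e
  · exact key 3 12 (by simp) (by decide) e
  · exact key 6 15 (by simp) (by decide) e
  · exact key 8 14 (by simp) (by decide) e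

namespace J

variable {n : ℕ}

/-- class functions of J3n -/
def UN (Φ : ZMod (2 * n + 1) → ℕ) : Set (ZMod (2 * n + 1) → ℕ) :=
  {ad Φ 0, ad Φ (-1), ad (fun z => Φ (z + 1)) (-1)}

/-- existence of J3n (mirror) over `Φ`, `1 ≤ Φ 0` -/
theorem exNM (hn : 1 ≤ n) (Φ : ZMod (2 * n + 1) → ℕ) (hk : n + 4 + 2 * ∑ x, Φ x = k)
    (h0 : 1 ≤ Φ 0) {z z' y y' : X k} (hz : z.1 = Ring1.RF n (ad Φ 0))
    (hz' : z'.1 = Ring1.RF n (ad Φ (-1)))
    (hy : y.1 = app (Ring1.RF n Φ) (.nil △ (.nil △ .nil)))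
    (hy' : y'.1 = .nil △ app (Ring1.RF n Φ) (.nil △ .nil))
    (h10 : ad Φ 0 ≠ ad (fun z => Φ (z + 1)) (-1)) (h4 : cyc z ≠ cyc z') (hyy : cyc y ≠ cyc y') :
    ∃ g : DG k, TyNM {cyc z, cyc y, cyc y'} g ∧
      JG n g.B {Φ} (UN Φ) {fun z => Φ (z + 1)} := by
  classical
  obtain ⟨D, D', h⟩ := exMD (k := k) hn Φ hk
  have e0 : jP Φ D D' z 0 = z := Subtype.ext ((h.v0 z).trans hz.symm)
  have e4 : jP Φ D D' z 4 = z' := Subtype.ext ((h.v4 z).trans hz'.symm)
  have vm : ∀ i < 10, (jP Φ D D' z i).1 = pw (Ring1.RF n Φ) (mx i) := by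
    intro i hi
    change Tsq.mir (jX _ _ _ _ _ z i).1 = _
    rw [h.sh.word_lo z hi, mir_pw _ hi, h.e, mir_RF, rf_rf]
  have v5 : (jP Φ D D' z 5).1 = app (Ring1.RF n Φ) (.nil △ (.nil △ .nil)) := vm 5 (by norm_num)
  have v1 : (jP Φ D D' z 1).1 = .nil △ (.nil △ Ring1.RF n Φ) := vm 1 (by norm_num)
  have v2 : (jP Φ D D' z 2).1 = .nil △ app (Ring1.RF n Φ) (.nil △ .nil) := vm 2 (by norm_num)
  have e5 : jP Φ D D' z 5 = y := Subtype.ext (v5.trans hy.symm)
  have e2 : jP Φ D D' z 2 = y' := Subtype.ext (v2.trans hy'.symm)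
  have hF : 1 ≤ ∑ x, Φ x := h0.trans (Finset.single_le_sum (f := Φ) (fun _ _ => Nat.zero_le _) (mem_univ 0))
  have hv : TT (TT (jP Φ D D' z 11)) = jP Φ D D' z 1 := h.sh.linkM z (by simp)
  obtain ⟨q1, q2, q3⟩ := Ring1.order_left hn Φ hF v5 v1 hv
  have sc : ∀ {C : Finset (X k)} {u v : X k}, FR TT C u v → TT.SameCycle u v := by
    rintro C u v ⟨n, hn, _⟩
    exact ⟨((n + 1 : ℕ) : ℤ), by rw [zpow_natCast]; exact hn⟩
  have c15 : cyc (jP Φ D D' z 1) = cyc y := by rw [← e5]; exact cyc_eq.2 (sc q2)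
  refine ⟨gadJNM (jP Φ D D' z), ⟨_, D, _, D', _, z, h.sh, ⟨h0, ?_, ?_, ?_, ?_, ?_, ?_⟩, ?_, rfl⟩, ?_⟩
  · intro e
    have e1 := congrArg Subtype.val e
    change (jP Φ D D' z 0).1 = (jP Φ D D' z 10).1 at e1
    rw [h.v0, h.v10] at e1
    exact h10 (Ring1.RF_inj e1)
  · change cyc (jP Φ D D' z 0) ≠ cyc (jP Φ D D' z 4)
    rw [e0, e4]
    exact h4
  · change cyc (jP Φ D D' z 1) ≠ cyc (jP Φ D D' z 2)
    rw [c15, e2]
    exact hyy
  · convert q1 <;> rfl
  · convert q2 <;> rfl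
  · convert q3 <;> rfl
  · change _ = {cyc (jP Φ D D' z 0), cyc (jP Φ D D' z 1), cyc (jP Φ D D' z 2)}
    rw [e0, c15, e2]
  · intro w hw
    obtain ⟨i, hi, rfl⟩ := mem_gadJNM_B.1 hw
    have hix : ∀ i ∈ ixJN, i < 20 := by decide
    rcases h.jg z (B := {jP Φ D D' z i}) (fun w hw => ⟨i, hix i hi, Finset.mem_singleton.1 hw⟩) _
      (Finset.mem_singleton_self _) with ⟨Ψ, h1, h2⟩ | ⟨G, h1, h2⟩ | ⟨Ψ, h1, h2⟩
    · rcases h1 with rfl | ⟨h1, _⟩
      · exact Or.inl ⟨_, rfl, h2⟩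
      · omega
    · rcases h1 with rfl | rfl | rfl | ⟨h1, _⟩
      · exact Or.inr (Or.inl ⟨_, Or.inl rfl, h2⟩)
      · exact Or.inr (Or.inl ⟨_, Or.inr (Or.inl rfl), h2⟩)
      · exact Or.inr (Or.inl ⟨_, Or.inr (Or.inr rfl), h2⟩)
      · omega
    · exact Or.inr (Or.inr ⟨Ψ, h1.2, h2⟩)

end J

end Pool.OddHC
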