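import Pool.Agent.Work.MP_8f87b2_h24.Ring1
import Pool.Agent.Work.MP_8f87b2_h40.TyJM

/-!
# MP_8f87b2_co, one soliton: the shape data from a function on the ring

`sh_RF`: `Sh k (F 0) D (F (-1)) D' (F (-2))` with `RR .. = RF n F`. `mir_RF`: the mirror of `RF n F` is `RF n F*`,
`F* z = F (-1 - z)`.
-/

set_option autoImplicit false

namespace Pool.OddHC

open Finset Equiv BinaryTree Pool.Agent.Work.MP_8f87b2_co

namespace J

variable {k n : ℕ}

theorem nn_of_NN : ∀ {X : BinaryTree Unit}, Ring1.NN X → nn X := by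
  intro X
  induction X with
  | nil =>
    intro _ A hA
    exact absurd hA (by simp)
  | node _ A B _ ih =>
    intro h C hC
    have hC' : C ∈ A :: cs B := hC
    obtain ⟨h1, h2⟩ := (show A ≠ .nil ∧ Ring1.NN B from h)
    rw [List.mem_cons] at hC'
    rcases hC' with rfl | hC'
    · rw [Bool.eq_false_iff]
      intro h3
      exact h1 (isN_iff.1 h3)
    · exact ih h2 C hC'

theorem gd_inf {D : BinaryTree Unit} (h : D ≠ .nil) : GD (inf D) :=
  ⟨Ring1.ht_two h, nn_of_NN (Ring1.NN_inf D)⟩

/-- the shape data of a function -/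
theorem sh_RF (hn : 1 ≤ n) (F : ZMod (2 * n + 1) → ℕ) (hk : n + 4 + 2 * ∑ x, F x = k) :
    ∃ D D' : BinaryTree Unit, Sh k (F 0) D (F (-1)) D' (F (-2)) ∧
      RR (F 0) D (F (-1)) = Ring1.RF n F ∧
      RR (F (-1)) D' (F (-2)) = Ring1.RF n (fun x => F (x - 1)) := by
  obtain ⟨D0, h1, h2⟩ := Ring1.shape hn F
  obtain ⟨h3, h4, D1, h5, h6⟩ := Ring1.sq_RF hn F
  have e : RR (F 0) (inf D0) (F (-1)) = Ring1.RF n F := h2.symm
  refine ⟨inf D0, inf D1, ⟨gd_inf h1, gd_inf h5, ?_, ?_, ?_⟩, e, ?_⟩
  · rw [e]
    exact Prod.ext h6 h3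
  · rw [e, Ring1.cont_RF hn, Multiset.count_add, Multiset.count_singleton, if_neg (by omega),
      Multiset.count_replicate, if_neg (by omega)]
  · rw [e, Ring1.RF_num hn]
    omega
  · rw [← h4, h6]
    rfl

/-! ### Mirror -/

theorem mir_inf1 (A : BinaryTree Unit) (ih : Tsq.mir (inf A) = inf (Tsq.mir A)) :
    Tsq.mir (inf1 A) = inf1 (Tsq.mir A) := by
  by_cases h : A = .nil
  · subst h
    rfl
  · have h' : Tsq.mir A ≠ .nil := by
      intro h1
      apply h
      rw [← Tsq.mir_mir A, h1]
      rfl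
    rw [inf1_eq h, inf1_eq h', ih]

theorem mir_inf (t : BinaryTree Unit) : Tsq.mir (inf t) = inf (Tsq.mir t) := by
  induction t with
  | nil => rfl
  | node _ A B ihA ihB =>
    change Tsq.mir (inf (A △ B)) = inf (Tsq.mir (A △ B))
    rw [inf_node, Tsq.mir_node, Tsq.mir_node, inf_app, inf_node, ihB, mir_inf1 A ihA]
    rfl

theorem mir_lv (m : ℕ) (X : BinaryTree Unit) : Tsq.mir (lv m X) = app (Tsq.mir X) (lv m .nil) := by
  induction m with
  | zero => rw [lv, lv, app_nil']
  | succ m ih =>
    rw [lv, Tsq.mir_node, ih, app_assoc']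
    congr 1
    have h : ∀ m : ℕ, app (lv m .nil) ((.nil : BinaryTree Unit) △ .nil) = lv (m + 1) .nil := by
      intro m
      induction m with
      | zero => rfl
      | succ m ih =>
        change .nil △ app (lv m .nil) (.nil △ .nil) = _
        rw [ih]
        rfl
    exact h m

theorem bump_ch {m : ℕ} {e : List ℕ} : bump (H1.ch (m + 1)) e = e := rfl

theorem mir_ins_ch : ∀ (m : ℕ) (e : List ℕ), e.length = 2 * m + 1 →
    Tsq.mir (ins (H1.ch m) e) = ins (H1.ch m) e.reverse := by
  intro m
  induction m with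
  | zero =>
    intro e he
    obtain ⟨x, rfl⟩ := List.length_eq_one_iff.1 (by simpa using he)
    change Tsq.mir (lv x .nil) = lv x .nil
    rw [mir_lv]
    rfl
  | succ m ih =>
    intro e he
    obtain ⟨p, e1, rfl⟩ : ∃ p e1, e = p :: e1 := by
      cases e with
      | nil => simp at he
      | cons p e1 => exact ⟨p, e1, rfl⟩
    obtain ⟨e2, q, rfl⟩ : ∃ e2 q, e1 = e2 ++ [q] := by
      have : e1 ≠ [] := by
        rintro rfl
        simp at he
      exact ⟨e1.dropLast, e1.getLast this, (List.dropLast_append_getLast this).symm⟩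
    have hl : e2.length = 2 * m + 1 := by
      simp at he
      omega
    have hnum : (H1.ch m).numNodes = m := Ring1.ch_num m
    have key : ∀ (p q : ℕ) (e2 : List ℕ), e2.length = 2 * m + 1 →
        ins (H1.ch (m + 1)) (p :: (e2 ++ [q])) =
          lv p (ins (H1.ch m) (bump (H1.ch m) e2) △ lv q .nil) := by
      intro p q e2 hl
      change ins (H1.ch m △ .nil) _ = _
      rw [ins]
      have g1 : (p :: (e2 ++ [q])).headD 0 = p := rfl
      have g2 : (p :: (e2 ++ [q])).tail.take (2 * (H1.ch m).numNodes + 1) = e2 := by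
        rw [hnum, List.tail_cons]
        exact List.take_left' hl
      have g3 : (p :: (e2 ++ [q])).drop (2 * (H1.ch m).numNodes + 2) = [q] := by
        rw [hnum]
        change (e2 ++ [q]).drop (2 * m + 1) = _
        exact List.drop_left' hl
      rw [g1, g2, g3]
      rfl
    rw [key p q e2 hl]
    have hrev : (p :: (e2 ++ [q])).reverse = q :: (e2.reverse ++ [p]) := by simp
    rw [hrev, key q p e2.reverse (by rw [List.length_reverse]; exact hl)]
    have hb : bump (H1.ch m) e2.reverse = (bump (H1.ch m) e2).reverse := by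
      cases m with
      | zero =>
        obtain ⟨x, rfl⟩ := List.length_eq_one_iff.1 (by simpa using hl)
        rfl
      | succ m => rfl
    have hbl : (bump (H1.ch m) e2).length = 2 * m + 1 := by
      cases m with
      | zero =>
        obtain ⟨x, rfl⟩ := List.length_eq_one_iff.1 (by simpa using hl)
        rfl
      | succ m => exact hl
    rw [hb, ← ih _ hbl, mir_lv, Tsq.mir_node, mir_lv]
    change app (app (app .nil (lv q .nil)) _) _ = _
    have h1 : ∀ (q : ℕ) (Y : BinaryTree Unit), app (lv q .nil) Y = lv q Y := by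
      intro q Y
      induction q with
      | zero => rfl
      | succ q ih =>
        change .nil △ app (lv q .nil) Y = _
        rw [ih]
        rfl
    change app (app (lv q .nil) _) _ = _
    rw [app_assoc', h1]
    rfl

theorem lf_rev {N : ℕ} [NeZero N] (F : ZMod N → ℕ) :
    (lf F).reverse = lf (fun z => F (-1 - z)) := by
  apply List.ext_getElem
  · rw [List.length_reverse, lf_length, lf_length]
  · intro i h1 h2
    rw [List.length_reverse, lf_length] at h1
    rw [List.getElem_reverse, lf_getElem, lf_getElem, lf_length]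
    congr 1
    have h3 : N - 1 - i + (1 + i) = N := by omega
    have h4 : (((N - 1 - i + (1 + i) : ℕ)) : ZMod N) = 0 := by
      rw [h3]
      exact ZMod.natCast_self N
    push_cast at h4
    linear_combination h4

/-- the mirror of a function -/
def rf {N : ℕ} (F : ZMod N → ℕ) : ZMod N → ℕ := fun z => F (-1 - z)

theorem rf_rf {N : ℕ} (F : ZMod N → ℕ) : rf (rf F) = F := by
  funext z
  unfold rf
  congr 1
  ring

theorem mir_RF (F : ZMod (2 * n + 1) → ℕ) : Tsq.mir (Ring1.RF n F) = Ring1.RF n (rf F) := by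
  unfold Ring1.RF
  rw [mir_inf, mir_ins_ch n (lf F) (lf_length F), lf_rev]
  rfl

theorem rf_sum (F : ZMod (2 * n + 1) → ℕ) : ∑ z, rf F z = ∑ z, F z := by
  unfold rf
  exact Fintype.sum_equiv (Equiv.subLeft (-1)) _ _ (fun x => rfl)

end J

end Pool.OddHC
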