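import Pool.Agent.Work.MP_8f87b2_h40.H2g

/-!
# MP_8f87b2_co, HOLE 2: the two classes

`cls_m0`: the class `(n + 2, 2^a)`, all T-cycles are in `X`. `cls_m2`: the class `(n + 2, 2^b, 1, 1)`: `X` = the groups of type H
and possibly one guest of an even level `≥ 2` (exactly if both sizes are odd).
-/

set_option autoImplicit false

namespace Pool.OddHC

open Finset Equiv BinaryTree Multiset Pool.OddHop Pool.Agent.Work.MP_8f87b2_co

theorem oddF_two_iffH (j : ℕ) : oddF j 2 ↔ j % 2 = 0 := by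
  refine ⟨oddF_two_even, fun h => ?_⟩
  have h1 : Nat.card (Ms (2 * j + 1) 2) = (2 * j + 1) * (j + 1) := by
    have e1 : Nat.card (Ms (2 * j + 1) 2) = Nat.card (Sym (ZMod (2 * j + 1)) 2) :=
      (Nat.card_congr (Sym.equivNatSumOfFintype (ZMod (2 * j + 1)) 2)).symm
    rw [e1, Nat.card_eq_fintype_card, Sym.card_sym_eq_choose, ZMod.card, Nat.choose_two_right]
    have e2 : (2 * j + 1 + 2 - 1) * (2 * j + 1 + 2 - 1 - 1) = 2 * ((2 * j + 1) * (j + 1)) := by
      have e3 : 2 * j + 1 + 2 - 1 = 2 * (j + 1) := by omega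
      have e4 : 2 * (j + 1) - 1 = 2 * j + 1 := by omega
      rw [e3, e4]
      ring
    rw [e2, Nat.mul_div_cancel_left _ (by norm_num)]
  unfold oddF
  rw [h1, Nat.odd_mul]
  exact ⟨⟨j, rfl⟩, ⟨j / 2, by omega⟩⟩

variable {k n b j : ℕ}
variable {τp τw : Type} {Pp : τp → Set (Cyc k) → DG k → Prop} {Pw : τw → Set (Cyc k) → DG k → Prop}
  {AE : Cyc k → Cyc k → Prop}

/-- a class which lies in `X` -/
theorem cls_all (p0 : Cyc k) (X : Set (Cyc k)) (hX : ∀ c, cl c = cl p0 → c ∈ X) :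
    ClsOK AE (cl p0) X ∅ ∅ Pp Pw := by
  have h0 : ∀ F : Set (Cyc k), F ∉ (∅ ∪ ∅ : Set (Set (Cyc k))) := by
    rintro F (h | h)
    · exact h
    · exact h
  refine ⟨fun F h => absurd h (h0 F), fun F h => absurd h (h0 F), fun F h => absurd h (h0 F),
    fun F h => absurd h (Set.notMem_empty F), fun F h => absurd h (Set.notMem_empty F),
    fun F h => absurd h (Set.notMem_empty F), ?_⟩
  intro p hp
  refine remA_all AE (Rd p) _ fun q hq => Or.inr (hX q ?_)
  rw [cl_fam hq, hp]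

/-- two beads at an even distance `≥ 2` -/
def LevTwo (p : Cyc k) : Prop := ∃ (j : ℕ) (u : X j) (x : ZMod (2 * j + 1)) (d : ℕ) (w : X k),
  2 ≤ d ∧ d ≤ j ∧ d % 2 = 0 ∧ cyc w = p ∧
    w.1 = ins u.1 (lf (fun z => (if z = x then 1 else 0) + if z = x + (d : ZMod (2 * j + 1)) then 1 else 0))

namespace Hole2

open J Runs Ring1

/-- THE CLASS `(n + 2, 2^a)` -/
theorem cls_m0 (hn : 1 ≤ n) {a : ℕ} (ha : 2 ≤ a) {p0 : Cyc k}
    (hp0 : contc p0 = {n + 2} + Multiset.replicate a 2) (X : Set (Cyc k))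
    (hX : ∀ S g, TyH S g → S ⊆ X) : ClsOK AE (cl p0) X ∅ ∅ Pp Pw := by
  refine cls_all p0 X fun c hc => ?_
  have h1 := (cl_contc hc).trans hp0
  have hs := contc_sum c
  rw [h1, Multiset.sum_add, Multiset.sum_singleton, Multiset.sum_replicate, smul_eq_mul] at hs
  obtain ⟨S, g, hS, hc⟩ := TyH.cover' (k := k) hn ha (by omega) h1
  exact hX S g hS hc

/-- the T-cycles of the groups of type H -/
def TYH (k : ℕ) : Set (Cyc k) := {c | ∃ S g, TyH S g ∧ c ∈ S}

theorem lev_mem (hn : 1 ≤ n) (F : ZMod (2 * n + 1) → ℕ) (hF : ∑ x, F x = b)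
    (hj : n + pkn (pwX n).1 + ∑ x, F x = j) (hk : j + pkn (phi (pwX n) F hj).1 + 2 = k)
    (x : ZMod (2 * j + 1)) {d : ℕ} (hd : 2 ≤ d) (hdj : d ≤ j) :
    tc (phi (pwX n) F hj) hk x d ∉ TYH k := by
  have hj1 : 1 ≤ j := by omega
  obtain ⟨_, hF2, _, _⟩ := two_family hj1 (phi (pwX n) F hj) hk
  intro h
  rcases TyH.fam hn F hF hj hk with h1 | h1
  · exact h1 _ (Rd_tc _ hk x d) h
  · rcases (h1 _ (Rd_tc _ hk x d)).1 h with h2 | h2
    · rw [Yc_tc hn F hj hk 0] at h2
      have := hF2 _ _ _ _ hdj (by omega) h2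
      omega
    · rw [Zc_tc hn F hj hk 0] at h2
      have := hF2 _ _ _ _ hdj (by omega) h2
      omega

/-- `j` odd -/
theorem rem_odd (hn : 1 ≤ n) (F : ZMod (2 * n + 1) → ℕ) (hF : ∑ x, F x = b)
    (hj : n + pkn (pwX n).1 + ∑ x, F x = j) (hk : j + pkn (phi (pwX n) F hj).1 + 2 = k)
    (hj2 : j % 2 = 1) : RemOK ⟨j, cyc (phi (pwX n) F hj)⟩ (TYH k) := by
  have hj1 : 1 ≤ j := by omega
  rcases TyH.fam hn F hF hj hk with h1 | h1
  · refine (remOK_even ⟨j, cyc (phi (pwX n) F hj)⟩ 2 ?_ ?_).congr fun c hc => ?_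
    · intro p hp
      rw [Rd_count (hp.trans (Rd_tc _ hk 0 0).symm), ← Yc_tc hn F hj hk 0]
      exact count_Yc hn (k_of hn F hj hk)
    · change ¬ oddF j 2
      rw [oddF_two_iffH]
      omega
    · constructor
      · intro h; exact absurd h (Set.notMem_empty _)
      · intro h; exact absurd h (h1 c hc)
  · refine (rem_edge hj1 (phi (pwX n) F hj) hk hj2 0 true).congr fun c hc => ?_
    rw [← Yc_tc hn F hj hk, ← Zc_tc hn F hj hk]
    exact (h1 c hc).symm

/-- `j` even: any element of an even level `≥ 2` -/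
theorem rem_even (hn : 1 ≤ n) (F : ZMod (2 * n + 1) → ℕ) (hF : ∑ x, F x = b)
    (hj : n + pkn (pwX n).1 + ∑ x, F x = j) (hk : j + pkn (phi (pwX n) F hj).1 + 2 = k)
    (hj2 : j % 2 = 0) (x : ZMod (2 * j + 1)) {d : ℕ} (hd : 2 ≤ d) (hdj : d ≤ j) (hd2 : d % 2 = 0) :
    RemOK ⟨j, cyc (phi (pwX n) F hj)⟩ ({tc (phi (pwX n) F hj) hk x d} ∪ TYH k) := by
  have hj1 : 1 ≤ j := by omega
  have hcount : ∀ x d, (contc (tc (phi (pwX n) F hj) hk x d)).count 1 = 2 := by
    intro x d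
    rw [Rd_count ((Rd_tc _ hk x d).trans (Rd_tc _ hk 0 0).symm), ← Yc_tc hn F hj hk 0]
    exact count_Yc hn (k_of hn F hj hk)
  rcases TyH.fam hn F hF hj hk with h1 | h1
  · obtain ⟨w, hw, hw'⟩ := tc_exists (phi (pwX n) F hj) hk x d
    refine (remOK_lo ⟨j, cyc (phi (pwX n) F hj)⟩ (tc (phi (pwX n) F hj) hk x d) (Rd_tc _ hk x d)
      (fun _ _ => ⟨j, _, x, d, w, hdj, hd2, hw, hw'⟩)).congr fun c hc => ?_
    rw [Set.mem_ofPred_eq, hcount]
    constructor
    · rintro ⟨h, _⟩; exact Or.inl h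
    · rintro (h | h)
      · exact ⟨h, (oddF_two_iffH j).2 hj2⟩
      · exact absurd h (h1 c hc)
  · obtain ⟨i, rfl⟩ : ∃ i, d = 2 * i := ⟨d / 2, by omega⟩
    refine (rem_mid_edge hj1 (phi (pwX n) F hj) hk hj2 (i := i) (by omega) hdj x 0 true).congr
      fun c hc => ?_
    rw [← Yc_tc hn F hj hk, ← Zc_tc hn F hj hk]
    constructor
    · rintro (h | h)
      · exact Or.inl h
      · exact Or.inr ((h1 c hc).2 h)
    · rintro (h | h)
      · exact Or.inl h
      · exact Or.inr ((h1 c hc).1 h)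

/-- a word with two beads over a reduced T-cycle -/
theorem lev_over {u : X j} (hk : j + pkn u.1 + 2 = k) {p : Cyc k} (hp : Rd p = ⟨j, cyc u⟩) {j' : ℕ}
    {u' : X j'} {x : ZMod (2 * j' + 1)} {d : ℕ} {w : X k} (hw : cyc w = p)
    (hw' : w.1 = ins u'.1 (lf (fun z => (if z = x then 1 else 0) +
      if z = x + (d : ZMod (2 * j' + 1)) then 1 else 0))) : j' = j ∧ ∃ x', p = tc u hk x' d := by
  have h1 : Rd p = ⟨j', cyc u'⟩ := by
    rw [← hw]
    exact Rd_ins (lf_length _) hw'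
  rw [hp] at h1
  obtain ⟨rfl, h2⟩ := Sigma.mk.inj_iff.1 h1
  refine ⟨rfl, ?_⟩
  rw [← hw]
  exact lev_tc hk (eq_of_heq h2).symm hw'

theorem top_tc {u : X j} (hk : j + pkn u.1 + 2 = k) {p : Cyc k} (hp : Rd p = ⟨j, cyc u⟩)
    (h : TopTwo p) : j % 2 = 0 ∧ ∃ x', p = tc u hk x' j := by
  obtain ⟨j', u', x, w, h1, h2, h3⟩ := h
  obtain ⟨rfl, h4⟩ := lev_over hk hp h2 h3
  exact ⟨h1, h4⟩

/-- **THE CLASS `(n + 2, 2^b, 1, 1)`** -/
theorem cls_m2 (hn : 1 ≤ n) (hb : 1 ≤ b) {p0 : Cyc k}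
    (hp0 : contc p0 = ({n + 2} + Multiset.replicate b 2) + {1, 1})
    (hEnv : ClsEnv AE Pp Pw (cl p0)) (X D : Set (Cyc k))
    (hX : ∀ c, cl c = cl p0 → (c ∈ X ↔ (∃ S g, TyH S g ∧ c ∈ S) ∨ c ∈ D))
    (hD : (D = ∅ ∧ ¬ (oddF n b ∧ oddF (n + 1 + b) 2)) ∨
      ∃ z, D = {z} ∧ (oddF n b ∧ oddF (n + 1 + b) 2) ∧ cl z = cl p0 ∧ LevTwo z) :
    ∃ Gp Gw, ClsOK AE (cl p0) X Gp Gw Pp Pw := by
  obtain ⟨hk0, U1, hp1, hU1, hcU1⟩ := cls_data hn hp0
  obtain ⟨j, hjd⟩ : ∃ j, j = n + 1 + b := ⟨_, rfl⟩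
  rw [← hjd] at hD
  subst hjd
  have hpk : pkc U1 = b + 1 := by
    unfold pkc
    rw [hcU1, Multiset.card_add, Multiset.card_singleton, Multiset.card_replicate, add_comm]
  have hkU : n + 1 + b + pkc U1 + 2 = k := by omega
  have hpw := pk_pwX hn
  -- the families
  have fam : ∀ U : Cyc (n + 1 + b), Rd U = Rd U1 → ∃ (F : ZMod (2 * n + 1) → ℕ) (_ : ∑ x, F x = b)
      (hj : n + pkn (pwX n).1 + ∑ x, F x = n + 1 + b)
      (_ : n + 1 + b + pkn (phi (pwX n) F hj).1 + 2 = k), U = cyc (phi (pwX n) F hj) := by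
    intro U hU
    obtain ⟨F, hj, rfl⟩ := exists_F U (hU.trans hU1)
    have hF : ∑ x, F x = b := by omega
    exact ⟨F, hF, hj, k_of' hn F hj (by omega), rfl⟩
  have hcount : ∀ U : Cyc (n + 1 + b), Rd U = Rd U1 → (contc U).count 1 = b := by
    intro U hU
    rw [Rd_contc hU, hcU1, Multiset.count_add, Multiset.count_singleton, if_neg (by omega),
      Multiset.count_replicate, if_pos rfl, zero_add]
  have hRd1 : ∀ U : Cyc (n + 1 + b), Rd U = Rd U1 → (Rd U).1 = n := by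
    intro U hU
    rw [hU, hU1]
  have hXU : ∀ U : Cyc (n + 1 + b), Rd U = Rd U1 → ∀ c : Cyc k, Rd c = ⟨n + 1 + b, U⟩ →
      (c ∈ X ↔ c ∈ TYH k ∨ c ∈ D) := fun U hU c hc => hX c (cl_same hp1 hc hU)
  by_cases ho : oddF (n + 1 + b) 2
  · -- all families are odd
    have hj2 := (oddF_two_iffH _).1 ho
    have top : ∀ U : Cyc (n + 1 + b), Rd U = Rd U1 → (∀ c : Cyc k, Rd c = ⟨n + 1 + b, U⟩ → c ∉ D) →
        ∀ p, Rd p = ⟨n + 1 + b, U⟩ → TopTwo p → p ∉ X ∧ RemA AE ⟨n + 1 + b, U⟩ ({p} ∪ X) := by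
      intro U hU hDU p hp hT
      obtain ⟨F, hF, hj, hk, rfl⟩ := fam U hU
      obtain ⟨_, x, rfl⟩ := top_tc hk hp hT
      refine ⟨?_, ?_⟩
      · rw [hXU _ hU _ hp]
        rintro (h | h)
        · exact lev_mem hn F hF hj hk x (by omega) le_rfl h
        · exact hDU _ hp h
      · refine (hEnv.rem hp1 hU (rem_even hn F hF hj hk hj2 x (by omega) le_rfl hj2)).congr
          fun c hc => ?_
        have := hXU _ hU c hc
        constructor
        · rintro (h | h)
          · exact Or.inl h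
          · exact Or.inr (this.2 (Or.inl h))
        · rintro (h | h)
          · exact Or.inl h
          · rcases this.1 h with h | h
            · exact Or.inr h
            · exact absurd h (hDU c hc)
    by_cases hb2 : oddF n b
    · -- both odd: one guest
      rcases hD with ⟨_, h⟩ | ⟨z, rfl, _, hz, hL⟩
      · exact absurd ⟨hb2, ho⟩ h
      obtain ⟨h1, h2⟩ := cl_iff.1 hz
      rw [hp1] at h1 h2
      obtain ⟨U0, hU0⟩ : ∃ U0 : Cyc (n + 1 + b), Rd z = ⟨n + 1 + b, U0⟩ := by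
        revert h1
        generalize Rd z = dz
        intro h1
        obtain ⟨i, U⟩ := dz
        change i = n + 1 + b at h1
        subst h1
        exact ⟨U, rfl⟩
      rw [hU0] at h2
      change Rd U0 = Rd U1 at h2
      have hbne : b ≠ 2 := by
        rintro rfl
        have := (oddF_two_iffH n).1 hb2
        omega
      refine r1_gen hp1 X (m := 2) (by omega) hkU hEnv.l U0 h2 ?_ ?_ ?_
      · intro h3
        rw [hcount U0 h2] at h3
        exact absurd h3 hbne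
      · intro U hU hne
        have hUne : U ≠ U0 := by
          rintro rfl
          exact hne ⟨rfl, by rw [hRd1 U h2, hcount U h2]; exact hb2⟩
        refine ⟨fun h => absurd ho h, fun _ p hp hT => top U hU ?_ p hp (hT rfl)⟩
        rintro c hc h
        rw [Set.mem_singleton_iff] at h
        subst h
        rw [hU0] at hc
        exact hUne (eq_of_heq (Sigma.mk.inj_iff.1 hc).2).symm
      · intro _
        refine ⟨∅, fun F h => absurd h (Set.notMem_empty _), fun F h => absurd h (Set.notMem_empty _), ?_⟩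
        rw [inG_empty', Set.empty_union]
        obtain ⟨F, hF, hj, hk, rfl⟩ := fam U0 h2
        obtain ⟨j', u', x, d, w, hd, hdj, hd2, hw, hw'⟩ := hL
        obtain ⟨rfl, x', hz'⟩ := lev_over hk hU0 hw hw'
        refine (hEnv.rem hp1 h2 (rem_even hn F hF hj hk hj2 x' hd hdj hd2)).congr fun c hc => ?_
        rw [← hz']
        have := hXU _ h2 c hc
        constructor
        · rintro (h | h)
          · exact this.2 (Or.inr h)
          · exact this.2 (Or.inl h)
        · intro h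
          rcases this.1 h with h | h
          · exact Or.inr h
          · exact Or.inl h
    · -- the second level is even
      have hD0 : D = ∅ := by
        rcases hD with ⟨h, _⟩ | ⟨z, _, h, _⟩
        · exact h
        · exact absurd h.1 hb2
      subst hD0
      refine r1_gen hp1 X (m := 2) (by omega) hkU hEnv.l U1 rfl ?_ ?_ ?_
      · intro h3 h4
        rw [hcount U1 rfl] at h3
        rw [hRd1 U1 rfl] at h4
        rw [h3] at hb2
        exact absurd h4 hb2
      · intro U hU _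
        exact ⟨fun h => absurd ho h, fun _ p hp hT =>
          top U hU (fun _ _ => Set.notMem_empty _) p hp (hT rfl)⟩
      · intro h
        rw [hRd1 U1 rfl, hcount U1 rfl] at h
        exact absurd h hb2
  · -- all families are even
    have hj2 : (n + 1 + b) % 2 = 1 := by
      rw [oddF_two_iffH] at ho
      omega
    have hD0 : D = ∅ := by
      rcases hD with ⟨h, _⟩ | ⟨z, _, h, _⟩
      · exact h
      · exact absurd h.2 ho
    subst hD0
    have all : ∀ U : Cyc (n + 1 + b), Rd U = Rd U1 → RemA AE ⟨n + 1 + b, U⟩ X := by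
      intro U hU
      obtain ⟨F, hF, hj, hk, rfl⟩ := fam U hU
      refine (hEnv.rem hp1 hU (rem_odd hn F hF hj hk hj2)).congr fun c hc => ?_
      have := hXU _ hU c hc
      constructor
      · intro h
        exact this.2 (Or.inl h)
      · intro h
        rcases this.1 h with h | h
        · exact h
        · exact absurd h (Set.notMem_empty _)
    obtain ⟨U0, hU0, h2⟩ : ∃ U0 : Cyc (n + 1 + b), Rd U0 = Rd U1 ∧ (b = 2 → IsTwo U0) := by
      by_cases hb2 : b = 2
      · have hk2 : n + pkn (pwX n).1 + 2 = n + 1 + b := by omega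
        obtain ⟨w, hw, hw'⟩ := tc_exists (pwX n) hk2 0 0
        refine ⟨cyc w, ?_, fun _ => ⟨n, pwX n, 0, 0, w, by omega, rfl, rfl, hw'⟩⟩
        rw [hw, Rd_tc, hU1]
      · exact ⟨U1, rfl, fun h => absurd h hb2⟩
    refine r1_gen hp1 X (m := 2) (by omega) hkU hEnv.l U0 hU0 ?_ ?_ ?_
    · intro h3 _
      rw [hcount U0 hU0] at h3
      exact h2 h3
    · intro U hU _
      exact ⟨fun _ => all U hU, fun h => absurd h ho⟩
    · intro _
      refine ⟨∅, fun F h => absurd h (Set.notMem_empty _), fun F h => absurd h (Set.notMem_empty _), ?_⟩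
      rw [inG_empty', Set.empty_union]
      exact all U0 hU0

end Hole2

end Pool.OddHC
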