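import Pool.Agent.Work.MP_8f87b2_h40.Excl
import Pool.Agent.Work.MP_8f87b2_h3.InJ4

/-!
# MP_8f87b2_co: the windows of the classes `((s, 3); a, 1)` against the T-cycles of type H

`sq_A`. `excl_A`: window A, `q = 0`, `H = (())^(a+1) ()`, two parts `≥ 3` in `z`. `excl_T`: height 3, `b = 0`, one bead.
-/

set_option autoImplicit false

namespace Pool.OddHC

open Finset Equiv BinaryTree Multiset Pool.OddHop Pool.Agent.Work.MP_8f87b2_co

variable {k j n a : ℕ}

namespace Hole2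

theorem raise_top40 {s : ℕ} {M : Multiset ℕ} (h : ∀ x ∈ M, x ≤ s) : raise ({s} + M) = {s + 1} + M := by
  have h1 : ({s} + M).sup = s := by
    apply le_antisymm
    · rw [Multiset.sup_le]
      intro x hx
      rcases Multiset.mem_add.1 hx with h2 | h2
      · exact (Multiset.mem_singleton.1 h2).le
      · exact h x h2
    · exact Multiset.le_sup (Multiset.mem_add.2 (Or.inl (Multiset.mem_singleton_self s)))
  unfold raise
  rw [h1, Multiset.singleton_add, Multiset.erase_cons_head, Multiset.singleton_add]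

theorem sq_ch (m : ℕ) : Tsq.sq (H1.ch (m + 1)) = (H1.ch (m + 1), .nil) := by
  induction m with
  | zero => rfl
  | succ m ih =>
    change Tsq.sq (H1.ch (m + 1) △ .nil) = _
    have h1 : ¬ Tsq.ht (H1.ch (m + 1)) + 1 < Tsq.ht (BinaryTree.nil : BinaryTree Unit) := by
      change ¬ _ < 0
      omega
    rw [Tsq.sq_node, if_neg h1]
    change ((Tsq.sq (H1.ch (m + 1))).1 △ (Tsq.sq (H1.ch (m + 1))).2, BinaryTree.nil) = _
    rw [ih]
    rfl

theorem ht_ch (m : ℕ) : Tsq.ht (H1.ch m) = m := by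
  induction m with
  | zero => rfl
  | succ m ih =>
    change Tsq.ht (H1.ch m △ .nil) = m + 1
    rw [Tsq.ht_node, ih]
    change max (m + 1) 0 = m + 1
    omega

theorem ht_lv2c (a m : ℕ) (hm : 2 ≤ m) : Tsq.ht (lv2 a (.nil △ H1.ch m)) = m := by
  induction a with
  | zero =>
    change Tsq.ht (.nil △ H1.ch m) = m
    rw [Tsq.ht_node, ht_ch]
    change max (0 + 1) m = m
    omega
  | succ a ih =>
    change Tsq.ht ((.nil △ .nil) △ lv2 a (.nil △ H1.ch m)) = m
    rw [Tsq.ht_node, ih]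
    change max (1 + 1) m = m
    omega

theorem sq_in (a : ℕ) {m : ℕ} (hm : 2 ≤ m) :
    Tsq.sq (lv2 a (.nil △ H1.ch (m + 1))) = ((lv2 a (.nil △ H1.ch m)) △ .nil, .nil) := by
  induction a with
  | zero =>
    change Tsq.sq (.nil △ H1.ch (m + 1)) = _
    have h1 : Tsq.ht (BinaryTree.nil : BinaryTree Unit) + 1 < Tsq.ht (H1.ch (m + 1)) := by
      rw [ht_ch]
      change 0 + 1 < m + 1
      omega
    rw [Tsq.sq_node, if_pos h1, sq_ch]
    rfl
  | succ a ih =>
    change Tsq.sq ((.nil △ .nil) △ lv2 a (.nil △ H1.ch (m + 1))) = _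
    have h1 : Tsq.ht (BinaryTree.nil △ BinaryTree.nil) + 1 < Tsq.ht (lv2 a (.nil △ H1.ch (m + 1))) := by
      rw [ht_lv2c a (m + 1) (by omega)]
      change 1 + 1 < m + 1
      omega
    rw [Tsq.sq_node, if_pos h1, ih]
    rfl

/-- `R = ((())^a () [m+1])`, `S = (((())^a () [m]))` -/
theorem sq_A (a : ℕ) {m : ℕ} (hm : 2 ≤ m) : Tsq.sq (lv2 a (.nil △ H1.ch (m + 1)) △ .nil) =
    (((lv2 a (.nil △ H1.ch m)) △ .nil) △ .nil, .nil) := by
  have h1 : ¬ Tsq.ht (lv2 a (.nil △ H1.ch (m + 1))) + 1 < Tsq.ht (BinaryTree.nil : BinaryTree Unit) := by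
    change ¬ _ < 0
    omega
  obtain ⟨A, C, hA⟩ : ∃ A C, lv2 a (.nil △ H1.ch (m + 1)) = A △ C := by
    cases a with
    | zero => exact ⟨_, _, rfl⟩
    | succ a => exact ⟨_, _, rfl⟩
  rw [Tsq.sq_node, if_neg h1]
  have h2 := sq_in a hm
  rw [hA] at h2 ⊢
  change ((Tsq.sq (A △ C)).1 △ (Tsq.sq (A △ C)).2, BinaryTree.nil) = _
  rw [h2]

theorem app_lv2c (a : ℕ) (s : BinaryTree Unit) : app (lv2 a (lv 1 .nil)) s = lv2 a (.nil △ s) := by
  induction a with
  | zero => rfl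
  | succ a ih =>
    change (.nil △ .nil) △ app (lv2 a (lv 1 .nil)) s = (.nil △ .nil) △ lv2 a (.nil △ s)
    rw [ih]

/-- **the window `((())^a () [m+1])[3]`** -/
theorem excl_Am (ha : 1 ≤ a) {m : ℕ} (h : H1.NodeG k 0 .nil (lv2 a (lv 1 .nil)) (H1.ch (m + 1)) .nil)
    (w0 : X k) {i : ℕ} (hi : i < 20)
    (hh : OddHC.ht (H1.gX 0 .nil (lv2 a (lv 1 .nil)) (H1.ch (m + 1)) .nil w0 i).1 = m + 2) :
    cyc (H1.gX 0 .nil (lv2 a (lv 1 .nil)) (H1.ch (m + 1)) .nil w0 i) ∉ TYH k := by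
  have hm : 2 ≤ m := by
    have h1 := h.hs3
    rw [← H1.ht_eq, ht_ch] at h1
    omega
  obtain ⟨R, hR⟩ : ∃ R, R = H1.gR .nil (lv2 a (lv 1 .nil)) (H1.ch (m + 1)) .nil := ⟨_, rfl⟩
  have hR' : R = lv2 a (.nil △ H1.ch (m + 1)) △ .nil := by
    rw [hR]
    change app (lv2 a (lv 1 .nil)) (H1.ch (m + 1)) △ .nil = _
    rw [app_lv2c]
  have hd := h.dat
  have hsq : (Tsq.sq R).1 = ((lv2 a (.nil △ H1.ch m)) △ .nil) △ .nil := by
    rw [hR', sq_A a hm]
  have hw := h.word w0 hi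
  rw [← hR] at hd hw
  rw [hsq] at hd hw
  have hhR : OddHC.ht R = m + 2 := by
    rw [hR, h.ht, ← H1.ht_eq, ht_ch]
  obtain ⟨m', rfl⟩ : ∃ m', m = m' + 1 := ⟨m - 1, by omega⟩
  refine excl_W hd ?_ (hR' ▸ oneB_R a (by omega)) (oneB_S a (n := m') (by omega)) (by omega) (by omega) hi hw
    (by rw [hh, hhR])
  rw [hR']
  have c1 : OddHC.cont (lv2 a (.nil △ H1.ch (m' + 1 + 1))) =
      Multiset.replicate a 2 + ({1} + {m' + 2}) := by
    rw [OddHC.cont_lv2, OddHC.cont_node, OddHC.cont_nil, raise_zero, H1.ch_cont]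
  rw [OddHC.cont_node, OddHC.cont_nil, add_zero, c1]
  have c2 : (Multiset.replicate a 2 + ({1} + {m' + 2} : Multiset ℕ)) =
      {m' + 2} + (Multiset.replicate a 2 + {1}) := by
    rw [add_comm ({1} : Multiset ℕ) {m' + 2}, ← add_assoc, add_comm (Multiset.replicate a 2) {m' + 2},
      add_assoc]
  have c3 : raise ({m' + 2} + (Multiset.replicate a 2 + {1}) : Multiset ℕ) =
      {m' + 3} + (Multiset.replicate a 2 + {1}) := by
    apply raise_top40
    intro x hx
    rcases Multiset.mem_add.1 hx with h1 | h1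
    · rw [Multiset.eq_of_mem_replicate h1]
      omega
    · rw [Multiset.mem_singleton.1 h1]
      omega
  rw [c2, c3, Multiset.count_add, Multiset.count_add, Multiset.count_singleton, if_neg (by omega),
    Multiset.count_replicate, if_neg (by omega)]
  simp

/-- **window A with `q = 0`, `H = (())^(a+1) ()`**, two parts `≥ 3` in `z` -/
theorem excl_A {B1 s B : BinaryTree Unit} (h : H1.NodeG k 0 B1 (lv2 (a + 1) (lv 1 .nil)) s B) (w0 : X k)
    (hz : (contc (cyc (H1.gX 0 B1 (lv2 (a + 1) (lv 1 .nil)) s B w0 0))).countP (3 ≤ ·) ≤ 2) {i : ℕ} (hi : i < 20)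
    (hh : htc (cyc (H1.gX 0 B1 (lv2 (a + 1) (lv 1 .nil)) s B w0 i)) =
      htc (cyc (H1.gX 0 B1 (lv2 (a + 1) (lv 1 .nil)) s B w0 0))) :
    cyc (H1.gX 0 B1 (lv2 (a + 1) (lv 1 .nil)) s B w0 i) ∉ TYH k := by
  -- one part in R
  have h0 := h.word w0 (i := 0) (by omega)
  have hz' : J.h3c (H1.gX 0 B1 (lv2 (a + 1) (lv 1 .nil)) s B w0 0).1 ≤ 2 := hz
  rw [h0] at hz'
  change J.h3c (app (H1.gR B1 (lv2 (a + 1) (lv 1 .nil)) s B) ((H1.ch (0 + 1) △ .nil) △ .nil)) ≤ 2 at hz'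
  have e3 : J.h3c ((H1.ch (0 + 1) △ .nil) △ .nil) = 1 := by decide
  rw [J.h3c_app, e3] at hz'
  have hR : J.h3c (H1.gR B1 (lv2 (a + 1) (lv 1 .nil)) s B) ≤ 1 := by omega
  unfold H1.gR at hR
  rw [J.h3c_app] at hR
  have hpos : ∀ {t : BinaryTree Unit}, H1.hv t → t ≠ .nil → 1 ≤ J.h3c t := by
    intro t ht h0
    have h1 : OddHC.cont t ≠ 0 := fun h => h0 (cont_eq_zero.1 h)
    have h2 : 3 ≤ (OddHC.cont t).sup := by
      have h3 := H1.hv_ht ht h0
      rw [H1.ht_eq, OddHC.ht_eq] at h3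
      exact h3
    change 0 < (OddHC.cont t).countP (3 ≤ ·)
    rw [Multiset.countP_pos]
    exact ⟨_, sup_mem h1, h2⟩
  have h1 : 1 ≤ J.h3c s := hpos h.hs h.s0
  have h2 : J.h3c s ≤ J.h3c (app (lv2 (a + 1) (lv 1 .nil)) s) := by
    rw [J.h3c_app]
    omega
  have h3 : J.h3c (app (lv2 (a + 1) (lv 1 .nil)) s) + J.h3c B ≤
      J.h3c (app (lv2 (a + 1) (lv 1 .nil)) s △ B) := J.h3c_node_le le_rfl le_rfl
  have hB1 : B1 = .nil := by
    by_contra hne
    have := hpos h.h1 hne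
    omega
  have hB : B = .nil := by
    by_contra hne
    have := hpos h.hB hne
    omega
  subst hB1
  subst hB
  obtain ⟨m, hm⟩ := J.hv_one h.hs (by omega) h.s0
  subst hm
  refine excl_Am (m := m + 2) (by omega) h w0 hi ?_
  have h4 : htc (cyc (H1.gX 0 .nil (lv2 (a + 1) (lv 1 .nil)) (H1.ch (m + 3)) .nil w0 0)) = m + 4 := by
    rw [htc_cyc, h0]
    change OddHC.ht (app (H1.gR .nil (lv2 (a + 1) (lv 1 .nil)) (H1.ch (m + 3)) .nil)
      ((H1.ch (0 + 1) △ .nil) △ .nil)) = _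
    rw [OddHC.ht_app, h.ht, ← H1.ht_eq, ht_ch]
    have e4 : OddHC.ht ((H1.ch (0 + 1) △ .nil) △ .nil) = 3 := by decide
    rw [e4]
    omega
  rw [h4] at hh
  rw [htc_cyc] at hh
  exact hh

/-- **the windows of height 3**, `b = 0`, one bead -/
theorem excl_T (ha : 1 ≤ a) (h : H1.NodeT k 0 1 a) (w0 : X k) {i : ℕ} (hi : i < 20)
    (hh : htc (cyc (H1.tX 0 1 a w0 i)) = 3) : cyc (H1.tX 0 1 a w0 i) ∉ TYH k := by
  have hd := H1.dat3 0 1 a
  have hw := h.word w0 hi
  rw [htc_cyc] at hh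
  refine excl_W hd ?_ (oneB_R3 a) (oneB_S3 a) (by omega) (by omega) hi hw ?_
  · change Multiset.count 1 (OddHC.cont (((.nil △ .nil) △ (.nil △ lv2 a .nil)) △ .nil)) = 1
    have c1 : OddHC.cont ((.nil △ .nil) △ (.nil △ lv2 a .nil)) = {2} + ({1} + Multiset.replicate a 2) := by
      rw [OddHC.cont_node, OddHC.cont_node, OddHC.cont_node, OddHC.cont_nil, raise_zero, OddHC.cont_lv2,
        OddHC.cont_nil, add_zero, add_zero]
      rfl
    have c3 : raise ({2} + ({1} + Multiset.replicate a 2) : Multiset ℕ) = {3} + ({1} + Multiset.replicate a 2) := by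
      apply raise_top40
      intro x hx
      rcases Multiset.mem_add.1 hx with h1 | h1
      · rw [Multiset.mem_singleton.1 h1]
        omega
      · rw [Multiset.eq_of_mem_replicate h1]
    rw [OddHC.cont_node, OddHC.cont_nil, add_zero, c1, c3, Multiset.count_add, Multiset.count_add,
      Multiset.count_singleton, if_neg (by omega), Multiset.count_replicate, if_neg (by omega)]
    simp
  · rw [hh]
    have h1 := (hd).big
    change 3 = OddHC.ht (((.nil △ .nil) △ (.nil △ lv2 a .nil)) △ .nil)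
    have h2 : OddHC.ht (lv2 a (BinaryTree.nil : BinaryTree Unit)) = 2 := by
      obtain ⟨b, rfl⟩ : ∃ b, a = b + 1 := ⟨a - 1, by omega⟩
      have h3 : OddHC.ht (lv2 b (BinaryTree.nil : BinaryTree Unit)) ≤ 2 := by
        clear hh hw hd h1 h hi ha
        induction b with
        | zero => exact Nat.zero_le _
        | succ b ih =>
          change OddHC.ht ((.nil △ .nil) △ lv2 b .nil) ≤ 2
          rw [OddHC.ht_node, OddHC.ht_node]
          have : OddHC.ht (BinaryTree.nil : BinaryTree Unit) = 0 := rfl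
          omega
      change OddHC.ht ((.nil △ .nil) △ lv2 b .nil) = 2
      rw [OddHC.ht_node, OddHC.ht_node]
      have : OddHC.ht (BinaryTree.nil : BinaryTree Unit) = 0 := rfl
      omega
    simp only [OddHC.ht_node, h2]
    have : OddHC.ht (BinaryTree.nil : BinaryTree Unit) = 0 := rfl
    omega

end Hole2

end Pool.OddHC
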