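import Pool.Agent.Work.MP_8f87b2_h47.Runs6

/-!
# MP_8f87b2_co, HOLE 2: the scheme with one more property

`Far κ Φ`: `Φ(-1) = Φ(-2) = 0` for `jm`, `Φ(-2) = 0` for `j5`. `exists_sch_far`. `UF_far`: no class word `RF G` of a gadget has
`G(-1) = 0`, `G(0) = 1`, `G(-2) ≥ 1` (the hosts of section 5).
-/

set_option autoImplicit false

namespace Pool.OddHC

open Finset

namespace Runs

variable {N : ℕ}

/-- the extra property -/
def Far (κ : Kd) (Φ : ZMod N → ℕ) : Prop :=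
  (κ = .jm → Φ (-1) = 0 ∧ Φ (-2) = 0) ∧ (κ = .j5 → Φ (-2) = 0)

theorem InS.far [NeZero N] {g : Gd N} (h : InS g) : Far g.kd (Phi g) := by
  rcases h with ⟨f, h, h0, he⟩ | ⟨f, h, h0, ho, hp⟩ | ⟨_, q, l, hr, hg⟩
  · exact ⟨fun h => (by cases h), fun h => (by cases h)⟩
  · exact ⟨fun h => (by cases h), fun h => (by cases h)⟩
  · obtain ⟨κ, f, p, r⟩ := g
    have hz := hr.fst.zero
    have h1 := hr.l1
    constructor
    · rintro rfl
      change l ≤ p ∧ p + 1 ≤ q ∧ _ at hg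
      obtain ⟨g1, g2, _⟩ := hg
      change sh ((p + 1 : ℕ) : ZMod N) f (-1) = 0 ∧ sh ((p + 1 : ℕ) : ZMod N) f (-2) = 0
      rw [sh_apply, sh_apply]
      obtain ⟨p', rfl⟩ : ∃ p', p = p' + 1 := ⟨p - 1, by omega⟩
      have e1 : (-1 : ZMod N) + ((p' + 1 + 1 : ℕ) : ZMod N) = ((p' + 1 : ℕ) : ZMod N) := by
        push_cast; ring
      have e2 : (-2 : ZMod N) + ((p' + 1 + 1 : ℕ) : ZMod N) = ((p' : ℕ) : ZMod N) := by
        push_cast; ring
      rw [e1, e2]
      exact ⟨hz (p' + 1) (by omega), hz p' (by omega)⟩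
    · rintro rfl
      change p = l ∧ (q - l) % 2 = 0 ∧ l + 2 ≤ q ∧ _ at hg
      obtain ⟨g1, _, g2, _⟩ := hg
      change sh ((p + 2 : ℕ) : ZMod N) f (-2) = 0
      rw [sh_apply]
      have e1 : (-2 : ZMod N) + ((p + 2 : ℕ) : ZMod N) = ((p : ℕ) : ZMod N) := by
        push_cast; ring
      rw [e1]
      exact hz p (by omega)

/-- **THE SCHEME** with the extra property -/
theorem exists_sch_far [NeZero N] (hN : 3 ≤ N) {a : ℕ} (ha : 2 ≤ a) :
    ∃ (T : Type) (kd : T → Kd) (F : T → ZMod N → ℕ) (rk : T → ℕ), Sch a kd F rk ∧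
      ∀ t, Far (kd t) (F t) := by
  by_cases h : ∃ m : ℕ, m % 2 = 0 ∧ a = N * m
  · obtain ⟨m, h1, rfl⟩ := h
    obtain ⟨μ, rfl⟩ : ∃ μ, m = μ + 2 := by
      refine ⟨m - 2, ?_⟩
      have : m ≠ 0 := by
        rintro rfl
        rw [Nat.mul_zero] at ha
        omega
      omega
    refine ⟨_, _, _, _, (csch_sp hN (μ := μ) (by omega)).sch, ?_⟩
    rintro ⟨g, ⟨h2, _⟩ | rfl | rfl⟩
    · exact h2.far
    · exact ⟨fun h => (by cases h), fun h => (by cases h)⟩
    · exact ⟨fun h => (by cases h), fun h => (by cases h)⟩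
  · refine ⟨_, _, _, _, (csch_gen hN ha h).sch, ?_⟩
    rintro ⟨g, h2, _⟩
    exact h2.far

/-- **the class words avoid the hosts of section 5** -/
theorem UF_far (hN : 3 ≤ N) {κ : Kd} {Φ : ZMod N → ℕ} (hc : CF κ Φ) (hf : Far κ Φ)
    {G : ZMod N → ℕ} (hG : G ∈ UF κ Φ) : ¬ (G (-1) = 0 ∧ G 0 = 1 ∧ 1 ≤ G (-2)) := by
  have h20 : (-2 : ZMod N) ≠ 0 := by
    intro h
    have h1 : ((2 : ℕ) : ZMod N) = 0 := by push_cast; linear_combination -h
    rw [ZMod.natCast_eq_zero_iff] at h1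
    have := Nat.le_of_dvd (by omega) h1
    omega
  rintro ⟨h1, h2, h3⟩
  -- the three forms
  have k1 : ∀ F : ZMod N → ℕ, G ≠ ad F (-1) := by
    rintro F rfl
    rw [ad_self] at h1
    omega
  have k2 : G = ad Φ 0 → False := by
    rintro rfl
    rw [ad_self] at h2
    rw [ad_ne _ h20] at h3
    cases κ
    · have := (hf.1 rfl).2
      omega
    · have := hc.1
      omega
    · have := hf.2 rfl
      omega
    · have := hc.1
      omega
  cases κ
  · rcases hG with h | h | h | ⟨_, h⟩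
    · exact k2 h
    · exact k1 _ h
    · exact k1 _ h
    · rw [h, ad_ne _ h20] at h3
      have h4 : up Φ (-2) = Φ (-1) := by
        change Φ (-2 + 1) = Φ (-1)
        congr 1
        ring
      rw [h4, (hf.1 rfl).1] at h3
      omega
  · rcases hG with h | h | h
    · exact k2 h
    · exact k1 _ h
    · exact k1 _ h
  · rcases hG with h | h | h
    · exact k1 _ h
    · exact k2 h
    · exact k1 _ h
  · rcases hG with h | h | h
    · exact k2 h
    · exact k1 _ h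
    · exact k1 _ h

end Runs

end Pool.OddHC
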