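import Pool.Agent.Work.MP_8f87b2_h40.H2d
import Pool.Agent.Work.MP_8f87b2_h40.Far
import Pool.Agent.Work.MP_8f87b2_fin.Classes

/-!
# MP_8f87b2_co, HOLE 2: type TyH = the groups of the one-soliton classes `(n + 2, 2^a)` with their chosen gadgets

`HData k n a`: a system of groups for the class. `TyH k F g`: `F` is a group of the chosen system of some class, `g` its gadget.
-/

set_option autoImplicit false

namespace Pool.OddHC

open Finset Equiv BinaryTree Pool.Agent.Work.MP_8f87b2_co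

namespace Hole2

open J Runs

variable {k n a : ℕ}

/-- a system of groups for the class `(n + 2, 2^a)` -/
structure HData (k n a : ℕ) where
  T : Type
  kd : T → Kd
  F : T → ZMod (2 * n + 1) → ℕ
  rk : T → ℕ
  gd : T → DG k
  hole : Hole k n a kd F rk gd
  far : ∀ t, Far (kd t) (F t)
  cond : ∀ t, CF (kd t) (F t)
  line : ∀ t, kd t = .jm → ∃ t', kd t' ≠ .jm ∧ Runs.Rot (F t) (F t')

/-- the chosen system -/
noncomputable def hdo (k n a : ℕ) : Option (HData k n a) := by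
  classical
  exact if h : Nonempty (HData k n a) then some h.some else none

/-- `(F, g)` belongs to the system of the class `(n, a)` at `t` -/
def InH (n a : ℕ) (F : Set (Cyc k)) (g : DG k) (r : ℕ) : Prop :=
  ∃ d ∈ hdo k n a, ∃ t : d.T, F = FT k n (d.kd t) (d.F t) ∧ g = d.gd t ∧ r = d.rk t

/-- TYPE H -/
def TyH (F : Set (Cyc k)) (g : DG k) : Prop :=
  ∃ n a r, 1 ≤ n ∧ 1 ≤ a ∧ n + 2 + 2 * a = k ∧ InH n a F g r

variable {F F' : Set (Cyc k)} {g g' : DG k}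

theorem TyH.tyK (h : TyH F g) : ∃ κ, TyK κ F g := by
  obtain ⟨n, a, r, _, _, _, d, hd, t, rfl, rfl, rfl⟩ := h
  exact ⟨_, d.hole.ty t⟩

theorem TyH.hF (h : TyH F g) : ∀ w, w ∈ g.F ↔ cyc w ∈ F := by
  obtain ⟨κ, h1⟩ := h.tyK
  exact h1.hF

theorem TyH.new (h : TyH F g) : ∀ c ∈ F, ∃ u ∈ g.B, cyc u = c := by
  obtain ⟨κ, h1⟩ := h.tyK
  exact h1.new

theorem TyH.old (h : TyH F g) : ∃ u ∈ g.B, cyc u ∉ F := by
  obtain ⟨κ, h1⟩ := h.tyK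
  exact h1.old

theorem TyH.abs (h : TyH F g) : g.Abs := by
  obtain ⟨κ, h1⟩ := h.tyK
  exact h1.abs

theorem TyH.path (h : TyH F g) : ∀ a ∈ g.arcs, ∃ n : ℕ, (TT ^ (n + 1)) a.1 = a.2 ∧ a.1 ∈ g.B ∧
    ∀ i < n, (TT ^ (i + 1)) a.1 ∈ innA a := by
  obtain ⟨κ, h1⟩ := h.tyK
  exact h1.path

/-- the four types -/
theorem TyH.cases (h : TyH F g) : TyJM F g ∨ TyJY F g ∨ TyJ5 F g ∨ TyNM F g := by
  obtain ⟨κ, h1⟩ := h.tyK
  cases κ
  · exact Or.inl h1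
  · exact Or.inr (Or.inl h1)
  · exact Or.inr (Or.inr (Or.inl h1))
  · exact Or.inr (Or.inr (Or.inr h1))

/-- the words -/
theorem TyH.jg (h : TyH F g) : ∃ n, 1 ≤ n ∧ ∃ P U M : Set (ZMod (2 * n + 1) → ℕ), JG n g.B P U M := by
  obtain ⟨n, a, r, hn, _, _, d, hd, t, rfl, rfl, rfl⟩ := h
  exact ⟨n, hn, _, _, _, d.hole.jg t⟩

theorem InH.ht {r : ℕ} (h : InH n a F g r) : ∀ c ∈ F, htc c = n + 2 := by
  obtain ⟨d, hd, t, rfl, rfl, rfl⟩ := h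
  exact d.hole.ht t

theorem TyH.htp (h : TyH F g) : ∀ c ∈ F, ∀ d ∈ F, htc c = htc d := by
  obtain ⟨n, a, r, hn, _, _, h1⟩ := h
  intro c hc d hd
  rw [h1.ht c hc, h1.ht d hd]

theorem TyH.ne (h : TyH F g) : F.Nonempty := by
  obtain ⟨n, a, r, _, _, _, d, hd, t, rfl, rfl, rfl⟩ := h
  have h1 : ∃ G, G ∈ NF (d.kd t) (d.F t) := by
    cases d.kd t
    · exact ⟨_, Or.inl rfl⟩
    · exact ⟨_, Or.inl rfl⟩
    · exact ⟨_, Or.inl rfl⟩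
    · exact ⟨_, rfl⟩
  obtain ⟨G, hG⟩ := h1
  exact ⟨_, Or.inl ⟨G, hG, rfl⟩⟩

/-- contents: the class, or `R()()`, `()R()` -/
theorem TyH.cls (h : TyH F g) : ∃ n a, 1 ≤ n ∧ 1 ≤ a ∧ n + 2 + 2 * a = k ∧
    ∀ c ∈ F, contc c = {n + 2} + Multiset.replicate a 2 ∨
      ∃ f : ZMod (2 * n + 1) → ℕ, ∑ z, f z + 1 = a ∧ (c = Yc k n f ∨ c = Zc k n f) ∧
        Yc k n f ∈ F ∧ Zc k n f ∈ F := by
  obtain ⟨n, a, r, hn, ha, hk, d, hd, t, rfl, rfl, rfl⟩ := h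
  refine ⟨n, a, hn, ha, hk, fun c hc => ?_⟩
  rcases d.hole.cls t c hc with h | ⟨h1, h2⟩
  · exact Or.inl h
  · exact Or.inr ⟨d.F t, d.hole.sum t, h2, Or.inr ⟨h1, Or.inl rfl⟩, Or.inr ⟨h1, Or.inr rfl⟩⟩

/-- a T-cycle is in at most one group -/
theorem TyH.one (h : TyH F g) (h' : TyH F' g') {c : Cyc k} (hc : c ∈ F) (hc' : c ∈ F') :
    F = F' ∧ g = g' := by
  obtain ⟨n, a, r, hn, ha, hk, h1⟩ := h
  obtain ⟨n', a', r', hn', ha', hk', h1'⟩ := h'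
  have e1 := h1.ht c hc
  have e2 := h1'.ht c hc'
  have e3 : n = n' := by omega
  subst e3
  have e4 : a = a' := by omega
  subst e4
  obtain ⟨d, hd, t, rfl, rfl, rfl⟩ := h1
  obtain ⟨d', hd', t', rfl, rfl, rfl⟩ := h1'
  have e5 : d = d' := by
    rw [Option.mem_def] at hd hd'
    rw [hd] at hd'
    exact Option.some_injective _ hd'
  subst e5
  by_cases h2 : t = t'
  · subst h2
    exact ⟨rfl, rfl⟩
  · exact absurd hc' (d.hole.disj t t' h2 c hc)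

/-- **the gadgets of different groups have different words** -/
theorem TyH.disj (h : TyH F g) (h' : TyH F' g') (hne : F ≠ F') : ∀ w ∈ g.B, w ∉ g'.B := by
  obtain ⟨n, a, r, hn, ha, hk, h1⟩ := h
  obtain ⟨n', a', r', hn', ha', hk', h1'⟩ := h'
  by_cases e3 : n = n'
  · subst e3
    have e4 : a = a' := by omega
    subst e4
    obtain ⟨d, hd, t, rfl, rfl, rfl⟩ := h1
    obtain ⟨d', hd', t', rfl, rfl, rfl⟩ := h1'
    have e5 : d = d' := by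
      rw [Option.mem_def] at hd hd'
      rw [hd] at hd'
      exact Option.some_injective _ hd'
    subst e5
    apply d.hole.words t t'
    rintro rfl
    exact hne rfl
  · obtain ⟨d, hd, t, rfl, rfl, rfl⟩ := h1
    obtain ⟨d', hd', t', rfl, rfl, rfl⟩ := h1'
    exact JG.disj_n hn hn' e3 (d.hole.jg t) (d'.hole.jg t')

/-- the rank of a group -/
noncomputable def rkH (F : Set (Cyc k)) : ℕ := by
  classical
  exact if h : ∃ r n a g, 1 ≤ n ∧ 1 ≤ a ∧ n + 2 + 2 * a = k ∧ InH n a F g r then h.choose else 0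

theorem rkH_eq {r : ℕ} (hn : 1 ≤ n) (ha : 1 ≤ a) (hk : n + 2 + 2 * a = k) (h : InH n a F g r) :
    rkH F = r := by
  classical
  have hex : ∃ r n a g, 1 ≤ n ∧ 1 ≤ a ∧ n + 2 + 2 * a = k ∧ InH n a F g r :=
    ⟨r, n, a, g, hn, ha, hk, h⟩
  unfold rkH
  rw [dif_pos hex]
  obtain ⟨n', a', g', hn', ha', hk', h'⟩ := hex.choose_spec
  obtain ⟨c, hc⟩ := TyH.ne ⟨n, a, r, hn, ha, hk, h⟩
  have e1 := h.ht c hc
  have e2 := h'.ht c hc
  have e3 : n = n' := by omega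
  subst e3
  have e4 : a = a' := by omega
  subst e4
  generalize hex.choose = r' at h' ⊢
  obtain ⟨d, hd, t, e, rfl, rfl⟩ := h
  obtain ⟨d', hd', t', e', rfl, rfl⟩ := h'
  have e5 : d = d' := by
    rw [Option.mem_def] at hd hd'
    rw [hd] at hd'
    exact Option.some_injective _ hd'
  subst e5
  by_cases h2 : t = t'
  · subst h2
    rfl
  · rw [e] at hc
    rw [e] at e'
    exact absurd (e' ▸ hc) (d.hole.disj t t' h2 c hc)

theorem rkH_lt (h : TyH F g) : rkH F < 4 * k := by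
  obtain ⟨n, a, r, hn, ha, hk, h1⟩ := h
  rw [rkH_eq hn ha hk h1]
  obtain ⟨d, hd, t, rfl, rfl, rfl⟩ := h1
  have := d.hole.rkb t
  omega

/-- **the old words of TyH** -/
theorem TyH.rank (h : TyH F g) : ∀ w ∈ g.B, cyc w ∈ F ∨ (∀ c ∈ F, htc c < htc (cyc w)) ∨
    ((∀ c ∈ F, htc c = htc (cyc w)) ∧ ((contc (cyc w)).count 1 = 1 ∨
      ∃ F' g', TyH F' g' ∧ cyc w ∈ F' ∧ rkH F' < rkH F)) := by
  obtain ⟨n, a, r, hn, ha, hk, h1⟩ := h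
  have hr := rkH_eq hn ha hk h1
  obtain ⟨d, hd, t, rfl, rfl, rfl⟩ := h1
  intro w hw
  rcases d.hole.old t w hw with h | h | ⟨h, h'⟩ | ⟨t', h, h'⟩
  · exact Or.inl h
  · right; left
    intro c hc
    rw [d.hole.ht t c hc]
    exact h
  · right; right
    refine ⟨fun c hc => ?_, Or.inl h'⟩
    rw [d.hole.ht t c hc, h]
  · right; right
    refine ⟨fun c hc => ?_, Or.inr ⟨_, d.gd t', ⟨n, a, d.rk t', hn, ha, hk, d, hd, t', rfl, rfl, rfl⟩,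
      h', ?_⟩⟩
    · rw [d.hole.ht t c hc, d.hole.ht t' _ h']
    · rw [hr, rkH_eq hn ha hk ⟨d, hd, t', rfl, rfl, rfl⟩]
      exact h

theorem PF_rot {κ : Kd} {Φ Ψ : ZMod (2 * n + 1) → ℕ} (h : Ψ ∈ PF κ Φ) : Runs.Rot Φ Ψ := by
  cases κ
  · rcases h with rfl | ⟨_, rfl⟩
    · exact ⟨0, (sh_zero _).symm⟩
    · exact ⟨1, rfl⟩
  · rcases h with rfl
    exact ⟨0, (sh_zero _).symm⟩
  · rcases h with rfl | rfl
    · exact ⟨0, (sh_zero _).symm⟩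
    · refine ⟨-1, ?_⟩
      funext z
      change Φ (z - 1) = Φ (z + -1)
      congr 1
      ring
  · rcases h with rfl
    exact ⟨0, (sh_zero _).symm⟩

theorem MF_rot {κ : Kd} {Φ Ψ : ZMod (2 * n + 1) → ℕ} (h : Ψ ∈ MF κ Φ) : Runs.Rot Φ Ψ := by
  cases κ
  · rcases h with ⟨_, rfl⟩
    exact ⟨1, rfl⟩
  · rcases h with rfl
    exact ⟨1, rfl⟩
  · rcases h with ⟨h, _⟩
    exact h.elim
  · rcases h with rfl
    exact ⟨1, rfl⟩

theorem PF_sum {κ : Kd} {Φ Ψ : ZMod (2 * n + 1) → ℕ} (h : Ψ ∈ PF κ Φ) : ∑ z, Ψ z = ∑ z, Φ z :=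
  (PF_rot h).sum

theorem MF_sum {κ : Kd} {Φ Ψ : ZMod (2 * n + 1) → ℕ} (h : Ψ ∈ MF κ Φ) : ∑ z, Ψ z = ∑ z, Φ z :=
  (MF_rot h).sum

/-- the class words of the groups: a JG set, and no `RF G` with `G(-1) = 0`, `G(0) = 1`, `G(-2) ≥ 1` -/
theorem TyH.jgf (h : TyH F g) : ∃ n a, 1 ≤ n ∧ 1 ≤ a ∧ n + 2 + 2 * a = k ∧ (∀ c ∈ F, htc c = n + 2) ∧
    ∃ P U M : Set (ZMod (2 * n + 1) → ℕ), JG n g.B P U M ∧
      (∀ Φ ∈ P, ∑ z, Φ z + 1 = a) ∧ (∀ G ∈ U, ∑ z, G z = a) ∧ (∀ Ψ ∈ M, ∑ z, Ψ z + 1 = a) ∧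
      ∀ G ∈ U, ¬ (G (-1) = 0 ∧ G 0 = 1 ∧ 1 ≤ G (-2)) := by
  obtain ⟨n, a, r, hn, ha, hk, d, hd, t, rfl, rfl, rfl⟩ := h
  refine ⟨n, a, hn, ha, hk, d.hole.ht t, _, _, _, d.hole.jg t, ?_, ?_, ?_, ?_⟩
  · intro Φ hΦ
    rw [PF_sum hΦ]
    exact d.hole.sum t
  · intro G hG
    rw [UF_sum hG]
    exact d.hole.sum t
  · intro Ψ hΨ
    rw [MF_sum hΨ]
    exact d.hole.sum t
  · intro G hG
    have h3 : 3 ≤ 2 * n + 1 := by omega
    exact UF_far h3 (d.cond t) (d.far t) hG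

/-- every line of a pure word is owned by a group of type H -/
theorem TyH.line (h : TyH F g) : ∃ n a, 1 ≤ n ∧ 1 ≤ a ∧ n + 2 + 2 * a = k ∧
    ∃ P U M : Set (ZMod (2 * n + 1) → ℕ), JG n g.B P U M ∧
      (∀ Φ ∈ P, ∑ z, Φ z + 1 = a) ∧ (∀ G ∈ U, ∑ z, G z = a) ∧ (∀ Ψ ∈ M, ∑ z, Ψ z + 1 = a) ∧
      (∀ Φ, Φ ∈ P ∨ Φ ∈ M → ∃ S g', TyH S g' ∧ Yc k n Φ ∈ S ∧ Zc k n Φ ∈ S) ∧
      ∀ G ∈ U, ¬ (G (-1) = 0 ∧ G 0 = 1 ∧ 1 ≤ G (-2)) := by
  obtain ⟨n, a, r, hn, ha, hk, d, hd, t, rfl, rfl, rfl⟩ := h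
  refine ⟨n, a, hn, ha, hk, _, _, _, d.hole.jg t, ?_, ?_, ?_, ?_, ?_⟩
  · intro Φ hΦ
    rw [PF_sum hΦ]
    exact d.hole.sum t
  · intro G hG
    rw [UF_sum hG]
    exact d.hole.sum t
  · intro Ψ hΨ
    rw [MF_sum hΨ]
    exact d.hole.sum t
  · -- the owner of the line
    have key : ∃ t', d.kd t' ≠ .jm ∧ Runs.Rot (d.F t) (d.F t') := by
      by_cases h1 : d.kd t = .jm
      · exact d.line t h1
      · exact ⟨t, h1, ⟨0, (sh_zero _).symm⟩⟩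
    obtain ⟨t', h1, h2⟩ := key
    intro Φ hΦ
    have h3 : Runs.Rot (d.F t) Φ := by
      rcases hΦ with hΦ | hΦ
      · exact PF_rot hΦ
      · exact MF_rot hΦ
    have hs : ∀ t, n + 4 + 2 * ∑ x, d.F t x = k := by
      intro t
      have := d.hole.sum t
      omega
    obtain ⟨c, rfl⟩ := h3
    obtain ⟨c', h4⟩ := h2
    refine ⟨_, _, ⟨n, a, _, hn, ha, hk, d, hd, t', rfl, rfl, rfl⟩, Or.inr ⟨h1, Or.inl ?_⟩,
      Or.inr ⟨h1, Or.inr ?_⟩⟩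
    · change Yc k n (sh c (d.F t)) = Yc k n (d.F t')
      have h5 : d.F t' = sh c' (d.F t) := h4
      rw [h5, Yc_sh hn (hs t), Yc_sh hn (hs t)]
    · change Zc k n (sh c (d.F t)) = Zc k n (d.F t')
      have h5 : d.F t' = sh c' (d.F t) := h4
      rw [h5, Zc_sh hn (hs t), Zc_sh hn (hs t)]
  · intro G hG
    have h3 : 3 ≤ 2 * n + 1 := by omega
    exact UF_far h3 (d.cond t) (d.far t) hG

/-- **cover** -/
theorem TyH.cover (hn : 1 ≤ n) (ha : 1 ≤ a) (hk : n + 2 + 2 * a = k)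
    (hS : ∃ (T : Type) (kd : T → Kd) (F : T → ZMod (2 * n + 1) → ℕ) (rk : T → ℕ), Sch a kd F rk ∧
      ∀ t, Far (kd t) (F t))
    {c : Cyc k} (hc : contc c = {n + 2} + Multiset.replicate a 2) : ∃ F g, TyH F g ∧ c ∈ F := by
  classical
  obtain ⟨T, kd, F, rk, hS, hfar⟩ := hS
  obtain ⟨gd, hg⟩ := hole_of_sch hn hk hS
  have hne : Nonempty (HData k n a) := ⟨⟨T, kd, F, rk, gd, hg, hfar, hS.cond,
    fun t ht => by
      obtain ⟨t', h1, h2, _⟩ := hS.line t ht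
      exact ⟨t', h1, h2⟩⟩⟩
  have h1 : hne.some ∈ hdo k n a := by
    unfold hdo
    rw [dif_pos hne]
    rfl
  obtain ⟨t, ht⟩ := hne.some.hole.cover c hc
  exact ⟨_, _, ⟨n, a, _, hn, ha, hk, hne.some, h1, t, rfl, rfl, rfl⟩, ht⟩

end Hole2

end Pool.OddHC
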