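import Pool.Agent.Work.MP_8f87b2_h22.JC
import Pool.Agent.Work.MP_8f87b2_h13.N3
import Pool.Agent.Work.MP_8f87b2_h40.H2e
import Pool.Agent.Work.MP_8f87b2_h40.Excl2

/-!
# MP_8f87b2_co: the one-soliton gadgets against the K and K' links, exact conditions (no condition on the number of squares)

`JG.nK`: K over `S` (host `(S)()`, new `S(())`, `()()S`): no common word if `S` is none of `R`, `()()R`, `S'()()(())^j`
(`R` a word of a class `(s, 2^a)`). In particular if `S` has two parts `≥ 3`.
`JG.nKm`: K' over `S` (host `()(S)`, new `S()()`, `(())S`), `S` with a component `(A())`, `A ≠ e`: no common word if `S` is not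
`(())^j (S'())`.
-/

set_option autoImplicit false
set_option linter.unusedSimpArgs false

namespace Pool.OddHC

open Finset Equiv BinaryTree Pool.Agent.Work.MP_8f87b2_co

namespace J

variable {k n : ℕ}

theorem rep_snoc (q : ℕ) (x : BinaryTree Unit) : List.replicate (q + 1) x = List.replicate q x ++ [x] := by
  rw [List.replicate_succ']

theorem cont_RR_pred (hn : 1 ≤ n) {Φ : ZMod (2 * n + 1) → ℕ} {p q : ℕ} {D : BinaryTree Unit}
    (e : Ring1.RF n Φ = RR p D (q + 1)) :
    ∃ b, OddHC.cont (RR p D q) = {n + 2} + Multiset.replicate b 2 := by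
  have e1 : RR p D (q + 1) = app (RR p D q) (l1 △ .nil) := by
    apply cs_inj
    simp [rep_snoc]
  have hc := Ring1.cont_RF hn Φ
  rw [e, e1, cont_app, cont_l1', cont_nil, add_zero] at hc
  have h1 := congrArg (Multiset.count 2) hc
  rw [Multiset.count_add, Multiset.count_add, Multiset.count_replicate, Multiset.count_singleton,
    Multiset.count_singleton, if_pos rfl, if_neg (by omega), if_pos rfl] at h1
  obtain ⟨b, hb⟩ : ∃ b, ∑ x, Φ x = b + 1 := ⟨∑ x, Φ x - 1, by omega⟩
  refine ⟨b, ?_⟩
  rw [hb, Multiset.replicate_succ, ← Multiset.singleton_add, ← add_assoc, add_right_comm] at hc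
  exact add_right_cancel hc

/-- **K, exact** -/
theorem JG.nK (hn : 1 ≤ n) {B : Finset (X k)} {P U M : Set (ZMod (2 * n + 1) → ℕ)}
    (h : JG n B P U M) {F : Set (Cyc k)} {g : DG k} {S : BinaryTree Unit}
    (ht : IsTri .nil S (.nil △ .nil) F g) (hSn : S ≠ .nil)
    (hx1 : ∀ p D q b, GD D → OddHC.cont (RR p D q) = {n + 2} + Multiset.replicate b 2 → S ≠ RR p D q)
    (hx2 : ∀ p D q b, GD D → OddHC.cont (RR p D q) = {n + 2} + Multiset.replicate b 2 →
      S ≠ .nil △ (.nil △ RR p D q))
    (hx3 : ∀ u D j b, GD D → OddHC.cont (RR u D 0) = {n + 2} + Multiset.replicate b 2 →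
      S ≠ app (RR u D 0) (.nil △ (.nil △ b2 j))) : ∀ w ∈ B, w ∉ g.B := by
  intro w hw hwE
  have hW : w.1 = w1 .nil S (.nil △ .nil) ∨ w.1 = w1 S (.nil △ .nil) .nil ∨
      w.1 = w1 (.nil △ .nil) .nil S := by
    rcases ht.words w hwE with h | ⟨_, h | h⟩
    · exact Or.inl h
    · exact Or.inr (Or.inl h)
    · exact Or.inr (Or.inr h)
  have hfl : cs S ≠ [] := by
    cases S with
    | nil => exact absurd rfl hSn
    | node _ _ _ => rw [cs_node']; simp
  rcases h.cases hn hw with ⟨Φ, hΦ, p, q, D, hD, e, hcs⟩ | ⟨G, hG, p, q, D, hD, h0, e, hcs⟩ |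
    ⟨Ψ, hΨ, t, u, D, hD, e, hcs⟩
  · have hDn := hD.nil_ne
    have hRn' := RR_ne p D q
    have hl1 := RR_l1 p q hD
    obtain ⟨A2, Y2, f2, n2⟩ := RR_front p D q hD
    obtain ⟨A3, Y3, f3, n3⟩ := RR_back p D q hD
    rcases hcs with e1 | e1 | e1 | e1 | e1 | e1 | e1 | e1 <;> rw [e1] at hW
    · -- R()()
      rcases hW with e2 | e2 | e2 <;> obtain ⟨h5, h6, h7⟩ := cs_fb e2
      · simp [w1] at h7
        omega
      · simp [w1] at h6
      · simp [w1, f2, n2] at h5
    · -- ()R()
      rcases hW with e2 | e2 | e2 <;> obtain ⟨h5, h6, h7⟩ := cs_fb e2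
      · simp [w1, hSn.symm] at h5
      · simp [w1] at h6
      · simp [w1, f2, n2] at h5
    · -- (R())
      rcases hW with e2 | e2 | e2 <;> obtain ⟨h5, h6, h7⟩ := cs_fb e2
      · simp [w1] at h7
      · simp [w1, hfl] at h7
      · simp [w1] at h7
    · -- ()()R
      rcases hW with e2 | e2 | e2 <;> obtain ⟨h5, h6, h7⟩ := cs_fb e2
      · simp [w1, hSn.symm] at h5
      · cases q with
        | zero => simp [w1, rev_RR, hD.ne] at h6
        | succ q =>
          obtain ⟨b, hb⟩ := cont_RR_pred hn e
          apply hx2 p D q b hD hb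
          apply cs_inj
          have h8 : (nil :: nil :: (List.replicate p l1 ++ D :: List.replicate q l1)) ++ [l1] =
              cs S ++ [l1] := by
            rw [← show cs (w1 S (.nil △ .nil) .nil) = cs S ++ [l1] by simp [w1], ← h5]
            simp [rep_snoc]
          rw [← List.append_cancel_right h8]
          simp
      · have h8 : RR p D q = S := by
          apply cs_inj
          simpa [w1] using h5
        exact hx1 _ _ _ _ hD (by rw [← e]; exact Ring1.cont_RF hn Φ) h8.symm
    · -- (R)()
      rcases hW with e2 | e2 | e2 <;> obtain ⟨h5, h6, h7⟩ := cs_fb e2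
      · have h8 : RR p D q = S := by
          simpa [w1] using h5
        exact hx1 _ _ _ _ hD (by rw [← e]; exact Ring1.cont_RF hn Φ) h8.symm
      · simp [w1] at h6
      · simp [w1, hRn'] at h5
    · -- (()R)
      rcases hW with e2 | e2 | e2 <;> obtain ⟨h5, h6, h7⟩ := cs_fb e2
      · simp [w1] at h7
      · simp [w1, hfl] at h7
      · simp [w1] at h7
    · -- ()(R)
      rcases hW with e2 | e2 | e2 <;> obtain ⟨h5, h6, h7⟩ := cs_fb e2
      · simp [w1, hSn.symm] at h5
      · simp [w1, hl1] at h6
      · simp [w1, hRn'] at h5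
    · -- ((R))
      rcases hW with e2 | e2 | e2 <;> obtain ⟨h5, h6, h7⟩ := cs_fb e2
      · simp [w1] at h7
      · simp [w1, hfl] at h7
      · simp [w1] at h7
  · rw [hcs] at hW
    obtain ⟨A2, Y2, f2, n2⟩ := RR_front p D q hD
    obtain ⟨A3, Y3, f3, n3⟩ := RR_back p D q hD
    rcases hW with e2 | e2 | e2 <;> obtain ⟨h5, h6, h7⟩ := cs_fb e2
    · rw [f3] at h6
      simp [w1, n3] at h6
    · cases q with
      | zero => simp [w1, rev_RR, hD.ne] at h6
      | succ q =>
        obtain ⟨b, hb⟩ := cont_RR_pred hn e
        apply hx1 p D q b hD hb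
        apply cs_inj
        have h8 : (List.replicate p l1 ++ D :: List.replicate q l1) ++ [l1] = cs S ++ [l1] := by
          rw [← show cs (w1 S (.nil △ .nil) .nil) = cs S ++ [l1] by simp [w1], ← h5]
          simp [rep_snoc]
        rw [← List.append_cancel_right h8]
        simp
    · simp [w1, f2, n2] at h5
  · have hDn := hD.nil_ne
    have hDl := hD.ne
    have hRn' := RR_ne u D 0
    have hl1 := RR_l1 u 0 hD
    obtain ⟨A2, Y2, f2, n2⟩ := RR_front u D 0 hD
    have f3 := RR0_back u D
    have g2 := b2_front t
    have g3 := b2_back t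
    have hb2 : b2 (t + 1) ≠ l1 := by
      intro h
      have := congrArg cs h
      simp [List.replicate_succ] at this
    have hb0 : b2 (t + 1) ≠ .nil := by
      intro h8
      have := congrArg cs h8
      simp [List.replicate_succ] at this
    rcases hcs with e1 | e1 | e1 | e1 | e1 | e1 | e1 | e1 | e1 <;> rw [e1] at hW
    · -- S'()()B'
      rcases hW with e2 | e2 | e2 <;> obtain ⟨h5, h6, h7⟩ := cs_fb e2
      · simp [w1, List.replicate_succ, rep_comm] at h6
      · obtain ⟨b, -, hb⟩ := cont_S' hn e
        apply hx3 u D t b hD hb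
        apply cs_inj
        have h8 : (cs (RR u D 0) ++ nil :: nil :: List.replicate t l1) ++ [l1] = cs S ++ [l1] := by
          rw [← show cs (w1 S (.nil △ .nil) .nil) = cs S ++ [l1] by simp [w1], ← h5]
          simp [rep_snoc]
        rw [← List.append_cancel_right h8]
        simp
      · simp [w1, f2, n2] at h5
    · -- ()B'(S')
      rcases hW with e2 | e2 | e2 <;> obtain ⟨h5, h6, h7⟩ := cs_fb e2
      · simp [w1, hSn.symm] at h5
      · simp [w1, hl1] at h6
      · simp [w1, List.replicate_succ] at h5
    · -- (()B')S'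
      rcases hW with e2 | e2 | e2 <;> obtain ⟨h5, h6, h7⟩ := cs_fb e2
      · simp [w1, f3, hDn] at h6
      · simp [w1, f3, hDl] at h6
      · simp [w1] at h5
    · -- B'(S'())
      have h8 : app (RR u D 0) (.nil △ .nil) ≠ .nil := by
        intro h8
        have := congrArg cs h8
        simp at this
      have h9 : app (RR u D 0) (.nil △ .nil) ≠ l1 := by
        intro h8
        have := congrArg (fun t => (cs t).length) h8
        simp at this
      rcases hW with e2 | e2 | e2 <;> obtain ⟨h5, h6, h7⟩ := cs_fb e2
      · simp [w1, h8] at h6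
      · simp [w1, h9] at h6
      · simp [w1, List.replicate_succ] at h5
    · -- B'(S')()
      rcases hW with e2 | e2 | e2 <;> obtain ⟨h5, h6, h7⟩ := cs_fb e2
      · simp [w1] at h7
      · simp [w1] at h6
      · simp [w1, List.replicate_succ] at h5
    · -- ()(B')S'
      rcases hW with e2 | e2 | e2 <;> obtain ⟨h5, h6, h7⟩ := cs_fb e2
      · simp [w1, hSn.symm] at h5
      · simp [w1, f3, hDl] at h6
      · simp [w1, hb0] at h5
    · -- (B'(S'))
      rcases hW with e2 | e2 | e2 <;> obtain ⟨h5, h6, h7⟩ := cs_fb e2
      · simp [w1] at h7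
      · simp [w1, hfl] at h7
      · simp [w1] at h7
    · -- (B')S'()
      rcases hW with e2 | e2 | e2 <;> obtain ⟨h5, h6, h7⟩ := cs_fb e2
      · simp [w1] at h7
      · simp [w1] at h6
      · simp [w1, hb0] at h5
    · -- ((B')S')
      rcases hW with e2 | e2 | e2 <;> obtain ⟨h5, h6, h7⟩ := cs_fb e2
      · simp [w1] at h7
      · simp [w1, hfl] at h7
      · simp [w1] at h7

/-- `C` is `A()` with `A ≠ e` -/
def EB (C : BinaryTree Unit) : Prop := ∃ A : BinaryTree Unit, A ≠ .nil ∧ C = app A (.nil △ .nil)

theorem EB.rev {C : BinaryTree Unit} (h : EB C) : ∃ Y, (cs C).reverse = nil :: Y ∧ 2 ≤ (cs C).length := by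
  obtain ⟨A, hA, rfl⟩ := h
  refine ⟨(cs A).reverse, by simp, ?_⟩
  cases A with
  | nil => exact absurd rfl hA
  | node _ A B => simp [cs_node']

theorem not_EB {C A : BinaryTree Unit} {Y : List (BinaryTree Unit)} (h : (cs C).reverse = A :: Y) (hA : A ≠ .nil) :
    ¬ EB C := by
  intro h1
  obtain ⟨Y', h2, -⟩ := h1.rev
  rw [h] at h2
  exact hA (List.cons.inj h2).1

theorem not_EB_nil : ¬ EB (.nil : BinaryTree Unit) := by
  intro h
  obtain ⟨Y, h2, -⟩ := h.rev
  simp at h2

theorem not_EB_l1 : ¬ EB l1 := by
  intro h
  obtain ⟨Y, h2, h3⟩ := h.rev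
  simp at h3

theorem GD.not_EB {D : BinaryTree Unit} (h : GD D) : ¬ EB D := by
  intro h1
  obtain ⟨Y, h2, -⟩ := h1.rev
  have h3 : nil ∈ cs D := by
    rw [← List.mem_reverse, h2]
    exact List.mem_cons_self
  have := h.nn _ h3
  simp at this

theorem not_EB_RR {p q : ℕ} {D C : BinaryTree Unit} (hD : GD D) (h : C ∈ cs (RR p D q)) : ¬ EB C := by
  rw [cs_RR, List.mem_append, List.mem_cons, List.mem_replicate, List.mem_replicate] at h
  rcases h with ⟨_, rfl⟩ | rfl | ⟨_, rfl⟩
  · exact not_EB_l1
  · exact hD.not_EB
  · exact not_EB_l1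

theorem not_EB_b2 {t : ℕ} {C : BinaryTree Unit} (h : C ∈ cs (b2 t)) : ¬ EB C := by
  rw [cs_b2, List.mem_replicate] at h
  rw [h.2]
  exact not_EB_l1

/-- **K', exact** -/
theorem JG.nKm (hn : 1 ≤ n) {B : Finset (X k)} {P U M : Set (ZMod (2 * n + 1) → ℕ)}
    (h : JG n B P U M) {F : Set (Cyc k)} {g : DG k} {S : BinaryTree Unit}
    (ht : IsTri (.nil △ .nil) S .nil F g) {C : BinaryTree Unit} (hC : C ∈ cs S) (hE : EB C)
    (hx : ∀ j u D b, GD D → OddHC.cont (RR u D 0) = {n + 2} + Multiset.replicate b 2 →
      S ≠ app (b2 j) (app (RR u D 0) (.nil △ .nil) △ .nil)) : ∀ w ∈ B, w ∉ g.B := by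
  have hSn : S ≠ .nil := by
    rintro rfl
    simp at hC
  intro w hw hwE
  have hW : w.1 = w1 (.nil △ .nil) S .nil ∨ w.1 = w1 S .nil (.nil △ .nil) ∨
      w.1 = w1 .nil (.nil △ .nil) S := by
    rcases ht.words w hwE with h | ⟨_, h | h⟩
    · exact Or.inl h
    · exact Or.inr (Or.inl h)
    · exact Or.inr (Or.inr h)
  have hfl : cs S ≠ [] := by
    cases S with
    | nil => exact absurd rfl hSn
    | node _ _ _ => rw [cs_node']; simp
  have hCn : C ≠ .nil := by
    rintro rfl
    exact not_EB_nil hE
  -- the words other than the host have the component `C`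
  have hmem : (w.1 = w1 S .nil (.nil △ .nil) ∨ w.1 = w1 .nil (.nil △ .nil) S) → C ∈ cs w.1 := by
    rintro (e | e) <;> rw [e] <;> simp [w1, hC]
  have hhost : w.1 = w1 (.nil △ .nil) S .nil → cs w.1 = [nil, S] := by
    intro e
    rw [e]
    simp [w1]
  have key : (∀ X ∈ cs w.1, ¬ EB X) → w.1 = w1 (.nil △ .nil) S .nil := by
    intro h1
    rcases hW with h2 | h2
    · exact h2
    · exact absurd hE (h1 C (hmem h2))
  rcases h.cases hn hw with ⟨Φ, hΦ, p, q, D, hD, e, hcs⟩ | ⟨G, hG, p, q, D, hD, h0, e, hcs⟩ |
    ⟨Ψ, hΨ, t, u, D, hD, e, hcs⟩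
  · have hR : ∀ X ∈ cs (RR p D q), ¬ EB X := fun X hX => not_EB_RR hD hX
    obtain ⟨A2, Y2, f2, n2⟩ := RR_front p D q hD
    obtain ⟨A3, Y3, f3, n3⟩ := RR_back p D q hD
    have hRn' := RR_ne p D q
    have hlR : 1 ≤ (cs (RR p D q)).length := by rw [f2]; simp
    rcases hcs with e1 | e1 | e1 | e1 | e1 | e1 | e1 | e1
    · -- R()()
      have h1 := key (by
        intro X hX
        rw [e1, cs_app, List.mem_append] at hX
        rcases hX with hX | hX
        · exact hR X hX
        · simp only [cs_node, cs_nil, List.mem_cons, List.not_mem_nil, or_false, or_self] at hX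
          rw [hX]; exact not_EB_nil)
      have h2 := hhost h1
      rw [e1, cs_app, f2, List.cons_append] at h2
      exact n2 (List.cons.inj h2).1
    · -- ()R()
      have h1 := key (by
        intro X hX
        rw [e1, cs_node, cs_app, List.mem_cons, List.mem_append] at hX
        rcases hX with hX | hX | hX
        · rw [hX]; exact not_EB_nil
        · exact hR X hX
        · simp only [cs_node, cs_nil, List.mem_cons, List.not_mem_nil, or_false, or_self] at hX
          rw [hX]; exact not_EB_nil)
      have h2 := congrArg List.length (hhost h1)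
      rw [e1] at h2
      simp only [cs_node, cs_app, cs_nil, List.length_cons, List.length_append, List.length_nil] at h2
      omega
    · -- (R())
      rcases hW with h1 | h1 | h1 <;> have h2 := congrArg (fun t => (cs t).length) (e1.symm.trans h1)
      · simp [w1] at h2
      · simp [w1] at h2
      · simp [w1, hfl] at h2
    · -- ()()R
      have h1 := key (by
        intro X hX
        rw [e1, cs_node, cs_node, List.mem_cons, List.mem_cons] at hX
        rcases hX with hX | hX | hX
        · rw [hX]; exact not_EB_nil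
        · rw [hX]; exact not_EB_nil
        · exact hR X hX)
      have h2 := congrArg List.length (hhost h1)
      rw [e1] at h2
      simp only [cs_node, cs_app, cs_nil, List.length_cons, List.length_append, List.length_nil] at h2
      omega
    · -- (R)()
      have h1 := key (by
        intro X hX
        rw [e1, cs_node, cs_node, cs_nil, List.mem_cons, List.mem_singleton] at hX
        rcases hX with hX | hX
        · rw [hX]; exact not_EB f3 n3
        · rw [hX]; exact not_EB_nil)
      have h2 := hhost h1
      rw [e1, cs_node, cs_node, cs_nil] at h2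
      exact hRn' (List.cons.inj h2).1
    · -- (()R)
      rcases hW with h1 | h1 | h1 <;> have h2 := congrArg (fun t => (cs t).length) (e1.symm.trans h1)
      · simp [w1] at h2
      · simp [w1] at h2
      · simp [w1, hfl] at h2
    · -- ()(R)
      have h1 := key (by
        intro X hX
        rw [e1, cs_node, cs_node, cs_nil, List.mem_cons, List.mem_singleton] at hX
        rcases hX with hX | hX
        · rw [hX]; exact not_EB_nil
        · rw [hX]; exact not_EB f3 n3)
      have h2 := hhost h1
      rw [e1, cs_node, cs_node, cs_nil] at h2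
      have h3 : RR p D q = S := by simpa using h2
      rw [← h3] at hC
      exact hR C hC hE
    · -- ((R))
      rcases hW with h1 | h1 | h1 <;> have h2 := congrArg (fun t => (cs t).length) (e1.symm.trans h1)
      · simp [w1] at h2
      · simp [w1] at h2
      · simp [w1, hfl] at h2
  · have hR : ∀ X ∈ cs (RR p D q), ¬ EB X := fun X hX => not_EB_RR hD hX
    obtain ⟨A2, Y2, f2, n2⟩ := RR_front p D q hD
    have h1 := key (by rw [hcs]; exact hR)
    have h2 := hhost h1
    rw [hcs, f2] at h2
    exact n2 (List.cons.inj h2).1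
  · have hR : ∀ X ∈ cs (RR u D 0), ¬ EB X := fun X hX => not_EB_RR hD hX
    have hB : ∀ X ∈ cs (b2 (t + 1)), ¬ EB X := fun X hX => not_EB_b2 hX
    obtain ⟨A2, Y2, f2, n2⟩ := RR_front u D 0 hD
    have f3 := RR0_back u D
    have g2 := b2_front t
    have g3 := b2_back t
    have hDn := hD.nil_ne
    have hRn' := RR_ne u D 0
    have hb0 : b2 (t + 1) ≠ .nil := by
      intro h8
      have := congrArg cs h8
      simp [List.replicate_succ] at this
    have hlR : 1 ≤ (cs (RR u D 0)).length := by rw [f2]; simp
    have hlB : (cs (b2 (t + 1))).length = t + 1 := lenb2 _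
    have eS : ¬ EB (RR u D 0) := not_EB f3 hDn
    have eB : ¬ EB (b2 (t + 1)) := not_EB g3 (by simp)
    rcases hcs with e1 | e1 | e1 | e1 | e1 | e1 | e1 | e1 | e1
    · -- S'()()B'
      have h1 := key (by
        intro X hX
        rw [e1, cs_app, cs_node, cs_node, List.mem_append, List.mem_cons, List.mem_cons] at hX
        rcases hX with hX | hX | hX | hX
        · exact hR X hX
        · rw [hX]; exact not_EB_nil
        · rw [hX]; exact not_EB_nil
        · exact hB X hX)
      have h2 := hhost h1
      rw [e1, cs_app, f2, List.cons_append] at h2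
      exact n2 (List.cons.inj h2).1
    · -- ()B'(S')
      have h1 := key (by
        intro X hX
        rw [e1, cs_node, cs_app, List.mem_cons, List.mem_append, cs_node, cs_nil, List.mem_singleton] at hX
        rcases hX with hX | hX | hX
        · rw [hX]; exact not_EB_nil
        · exact hB X hX
        · rw [hX]; exact eS)
      have h2 := congrArg List.length (hhost h1)
      rw [e1] at h2
      simp only [cs_node, cs_app, cs_nil, List.length_cons, List.length_append, List.length_nil] at h2
      omega
    · -- (()B')S'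
      have h1 := key (by
        intro X hX
        rw [e1, cs_node, List.mem_cons] at hX
        rcases hX with hX | hX
        · rw [hX]
          refine not_EB (A := l1) (Y := List.replicate t l1 ++ [nil]) ?_ (by simp)
          rw [cs_node, List.reverse_cons, g3]
          rfl
        · exact hR X hX)
      have h2 := hhost h1
      rw [e1, cs_node] at h2
      simp at h2
    · -- B'(S'())
      rcases hW with h1 | h1 | h1
      · have h2 := hhost h1
        rw [e1, cs_app, g2, List.cons_append] at h2
        simp at h2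
      · have h2 := congrArg (fun t => (cs t).reverse) (e1.symm.trans h1)
        simp [w1] at h2
        have h3 := h2.1
        have h4 := congrArg (fun t => (cs t).length) h3
        simp at h4
      · obtain ⟨b, -, hb⟩ := cont_S' hn e
        apply hx t u D b hD hb
        have h2 : app (b2 (t + 1)) (app (RR u D 0) (.nil △ .nil) △ .nil) = l1 △ S := e1.symm.trans h1
        exact (node_inj' h2).2.symm
    · -- B'(S')()
      have h1 := key (by
        intro X hX
        rw [e1, cs_app, List.mem_append, cs_node, cs_node, cs_nil, List.mem_cons, List.mem_singleton] at hX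
        rcases hX with hX | hX | hX
        · exact hB X hX
        · rw [hX]; exact eS
        · rw [hX]; exact not_EB_nil)
      have h2 := hhost h1
      rw [e1, cs_app, g2, List.cons_append] at h2
      simp at h2
    · -- ()(B')S'
      have h1 := key (by
        intro X hX
        rw [e1, cs_node, cs_node, List.mem_cons, List.mem_cons] at hX
        rcases hX with hX | hX | hX
        · rw [hX]; exact not_EB_nil
        · rw [hX]; exact eB
        · exact hR X hX)
      have h2 := congrArg List.length (hhost h1)
      rw [e1] at h2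
      simp only [cs_node, cs_app, cs_nil, List.length_cons, List.length_append, List.length_nil] at h2
      omega
    · -- (B'(S'))
      rcases hW with h1 | h1 | h1 <;> have h2 := congrArg (fun t => (cs t).length) (e1.symm.trans h1)
      · simp [w1] at h2
      · simp [w1] at h2
      · simp [w1, hfl] at h2
    · -- (B')S'()
      have h1 := key (by
        intro X hX
        rw [e1, cs_node, List.mem_cons, cs_app, List.mem_append, cs_node, cs_nil, List.mem_singleton] at hX
        rcases hX with hX | hX | hX
        · rw [hX]; exact eB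
        · exact hR X hX
        · rw [hX]; exact not_EB_nil)
      have h2 := hhost h1
      rw [e1, cs_node] at h2
      exact hb0 (List.cons.inj h2).1
    · -- ((B')S')
      rcases hW with h1 | h1 | h1 <;> have h2 := congrArg (fun t => (cs t).length) (e1.symm.trans h1)
      · simp [w1] at h2
      · simp [w1] at h2
      · simp [w1, hfl] at h2

/-- **K, contents**: `S` is not one soliton with squares, or one soliton with squares and two parts 1 -/
theorem JG.nK_cont (hn : 1 ≤ n) {B : Finset (X k)} {P U M : Set (ZMod (2 * n + 1) → ℕ)}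
    (h : JG n B P U M) {F : Set (Cyc k)} {g : DG k} {S : BinaryTree Unit}
    (ht : IsTri .nil S (.nil △ .nil) F g) (hSn : S ≠ .nil)
    (hc : ∀ s b, 3 ≤ s → OddHC.cont S ≠ {s} + Multiset.replicate b 2 ∧
      OddHC.cont S ≠ {s} + Multiset.replicate b 2 + {1, 1}) : ∀ w ∈ B, w ∉ g.B := by
  refine h.nK hn ht hSn ?_ ?_ ?_
  · rintro p D q b - e rfl
    exact (hc _ _ (by omega)).1 e
  · rintro p D q b - e rfl
    refine (hc (n + 2) b (by omega)).2 ?_
    rw [cont_node, cont_node, raise_nil, e]
    change ({1} : Multiset ℕ) + ({1} + _) = _ + (({1} : Multiset ℕ) + {1})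
    abel
  · rintro u D j b - e rfl
    refine (hc (n + 2) (b + j) (by omega)).2 ?_
    rw [cont_app, e, cont_node, cont_node, raise_nil, cont_b2, Multiset.replicate_add]
    change _ + (({1} : Multiset ℕ) + ({1} + _)) = _ + (({1} : Multiset ℕ) + {1})
    abel

/-- **K', contents**: `S` has a component `(A())`, and is not one soliton with squares and one part 1 -/
theorem JG.nKm_cont (hn : 1 ≤ n) {B : Finset (X k)} {P U M : Set (ZMod (2 * n + 1) → ℕ)}
    (h : JG n B P U M) {F : Set (Cyc k)} {g : DG k} {S : BinaryTree Unit}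
    (ht : IsTri (.nil △ .nil) S .nil F g) {C : BinaryTree Unit} (hC : C ∈ cs S) (hE : EB C)
    (hc : ∀ s b, 3 ≤ s → OddHC.cont S ≠ {s} + Multiset.replicate b 2 + {1}) : ∀ w ∈ B, w ∉ g.B := by
  refine h.nKm hn ht hC hE ?_
  rintro j u D b - e rfl
  refine hc (n + 3) (b + j) (by omega) ?_
  have h1 : OddHC.cont (app (RR u D 0) (.nil △ .nil)) = {n + 2} + (Multiset.replicate b 2 + {1}) := by
    rw [cont_app, e, cont_node, raise_nil, cont_nil, add_zero, add_assoc]
  have h2 : raise (OddHC.cont (app (RR u D 0) (.nil △ .nil))) = {n + 3} + (Multiset.replicate b 2 + {1}) := by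
    rw [h1, Hole2.raise_top40]
    intro x hx
    rw [Multiset.mem_add, Multiset.mem_replicate, Multiset.mem_singleton] at hx
    omega
  rw [cont_app, cont_node, h2, cont_nil, cont_b2, Multiset.replicate_add]
  abel

/-- **Cl**, exact: the conditions are only needed for `c = 2` -/
theorem JG.nCl (hn : 1 ≤ n) {B : Finset (X k)} {P U M : Set (ZMod (2 * n + 1) → ℕ)}
    (h : JG n B P U M) {c : ℕ} {R : BinaryTree Unit} {F : Set (Cyc k)} {g : DG k}
    (hc : 2 ≤ c) (hR : c + 1 ≤ OddHC.ht R) (hev : Even c) (ht : TyC' c R F g)
    (hU : c = 2 → ∀ G ∈ U, Ring1.RF n G ≠ l1 △ (R △ .nil))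
    (hM : c = 2 → ∀ (u : ℕ) (D : BinaryTree Unit) (s b : ℕ), 3 ≤ s → GD D →
      OddHC.cont (RR u D 0) = {s} + Multiset.replicate b 2 → R ≠ app (RR u D 0) (.nil △ .nil)) :
    ∀ w ∈ B, w ∉ g.B := by
  have hRn := ht_ge_ne hR
  have hcc := cont_ch (show 1 ≤ c by omega)
  have hcc1 := cont_ch (show 1 ≤ c + 1 by omega)
  obtain ⟨N, hN⟩ := cont_top R hRn
  have hcs : cs (H1.ch c) = [H1.ch (c - 1)] := by
    rw [← comps_cs]; exact comps_ch' (by omega)
  intro w hw hwE
  have hW := ht.words w hwE
  by_cases hc4 : 4 ≤ c
  · rcases hW with e | ⟨-, e | e⟩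
    · refine h.n4 hn hw (OddHC.ht R + 1) c ((raise (OddHC.cont R)).erase (OddHC.ht R + 1))
        (by omega) hc4 ?_
      rw [e]
      change OddHC.cont (app (H1.ch c) (R △ .nil)) = _
      rw [cont_app, cont_node, cont_nil, add_zero, hcc]
      have h1 : OddHC.ht R + 1 ∈ raise (OddHC.cont R) := by
        unfold raise
        rw [← OddHC.ht_eq]
        exact Multiset.mem_cons_self _ _
      have h2 := Multiset.cons_erase h1
      rw [← Multiset.singleton_add] at h2
      conv_lhs => rw [← h2]
      abel
    · refine h.n4 hn hw (OddHC.ht R) c (N + {1}) (by omega) hc4 ?_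
      rw [e]
      change OddHC.cont (app R (.nil △ H1.ch c)) = _
      rw [cont_app, cont_node, raise_nil, hcc, hN]
      abel
    · refine h.n4 hn hw (OddHC.ht R) (c + 1) N (by omega) (by omega) ?_
      rw [e]
      change OddHC.cont (H1.ch c △ R) = _
      change OddHC.cont (app (H1.ch (c + 1)) R) = _
      rw [cont_app, hcc1, hN]
      abel
  · obtain rfl : c = 2 := by
      obtain ⟨x, hx⟩ := hev
      omega
    have hW' : w.1 = l1 △ (R △ .nil) ∨ w.1 = app R (.nil △ (l1 △ .nil)) ∨ w.1 = (l1 △ .nil) △ R := by
      rcases hW with h | ⟨_, h | h⟩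
      · exact Or.inl h
      · exact Or.inr (Or.inl h)
      · exact Or.inr (Or.inr h)
    have hfl : cs R ≠ [] := by
      cases R with
      | nil => exact absurd rfl hRn
      | node _ _ _ => rw [cs_node']; simp
    have hR1 : R ≠ l1 := by
      intro h
      rw [h] at hR
      change 3 ≤ 1 at hR
      omega
    rcases hW' with e0 | e0 | e0
    · -- host `[2](R)`
      rcases h.cases hn hw with ⟨Φ, hΦ, p, q, D, hD, e, hcs⟩ | ⟨G, hG, p, q, D, hD, h0, e, hcs⟩ |
        ⟨Ψ, hΨ, t, u, D, hD, e, hcs⟩
      · have hRn' := RR_ne p D q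
        have hl1 := RR_l1 p q hD
        rcases hcs with e1 | e1 | e1 | e1 | e1 | e1 | e1 | e1 <;> rw [e0] at e1 <;>
          obtain ⟨h5, h6, h7⟩ := cs_fb e1
        · simp [hRn] at h6
        · simp at h5
        · simp at h7
        · simp at h5
        · simp [hl1.symm] at h5
        · simp at h7
        · simp at h5
        · simp at h7
      · refine hU rfl G hG ?_
        rw [e, ← hcs, e0]
      · have hRn' := RR_ne u D 0
        have hl1 := RR_l1 u 0 hD
        have hb0 : b2 (t + 1) ≠ .nil := by
          intro h8
          have := congrArg cs h8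
          simp [List.replicate_succ] at this
        rcases hcs with e1 | e1 | e1 | e1 | e1 | e1 | e1 | e1 | e1 <;> rw [e0] at e1 <;>
          obtain ⟨h5, h6, h7⟩ := cs_fb e1
        · simp at h7
          omega
        · simp at h5
        · simp [hb0.symm] at h5
        · have ht0 : t = 0 := by
            simp at h7
            omega
          subst ht0
          simp [List.replicate_succ] at h5
          exact hM rfl u D _ _ (by omega) hD (cont_S' hn e).choose_spec.2 h5
        · simp [hRn] at h6
        · simp at h5
        · simp at h7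
        · simp [hRn] at h6
        · simp at h7
    · -- `R()[2]`
      have hlen : 1 ≤ (cs R).length := List.length_pos_iff.2 hfl
      rcases h.cases hn hw with ⟨Φ, hΦ, p, q, D, hD, e, hcs⟩ | ⟨G, hG, p, q, D, hD, h0, e, hcs⟩ |
        ⟨Ψ, hΨ, t, u, D, hD, e, hcs⟩
      · have hRn' := RR_ne p D q
        have hl1 := RR_l1 p q hD
        have hDn := hD.nil_ne
        have hDl := hD.ne
        rcases hcs with e1 | e1 | e1 | e1 | e1 | e1 | e1 | e1 <;> rw [e0] at e1 <;>
          obtain ⟨h5, h6, h7⟩ := cs_fb e1
        · simp at h6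
        · simp at h6
        · simp at h7
        · rcases q with _ | _ | q
          · simp [hDl.symm] at h6
          · simp [hDn.symm] at h6
          · simp [List.replicate_succ, rep_comm] at h6
        · simp at h6
        · simp at h7
        · simp [hl1.symm] at h6
        · simp at h7
      · have hDn := hD.nil_ne
        have hDl := hD.ne
        rw [e0] at hcs
        obtain ⟨h5, h6, h7⟩ := cs_fb hcs
        rcases q with _ | _ | q
        · simp [hDl.symm] at h6
        · simp [hDn.symm] at h6
        · simp [List.replicate_succ, rep_comm] at h6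
      · have hRn' := RR_ne u D 0
        have hl1 := RR_l1 u 0 hD
        have hDn := hD.nil_ne
        have hDl := hD.ne
        have h9 : app (RR u D 0) (.nil △ .nil) ≠ l1 := by
          intro h8
          have := congrArg (fun t => (cs t).length) h8
          simp at this
        rcases hcs with e1 | e1 | e1 | e1 | e1 | e1 | e1 | e1 | e1 <;> rw [e0] at e1 <;>
          obtain ⟨h5, h6, h7⟩ := cs_fb e1
        · rcases t with _ | t
          · refine hM rfl u D _ _ (by omega) hD (cont_S' hn e).choose_spec.2 ?_
            apply app_right (X := .nil △ (l1 △ .nil))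
            rw [e1]
            apply cs_inj
            simp
          · simp [List.replicate_succ, rep_comm] at h6
        · simp [hl1.symm] at h6
        · simp [hDl.symm] at h6
        · simp [h9.symm] at h6
        · simp at h6
        · simp [hDl.symm] at h6
        · simp at h7
        · simp at h6
        · simp at h7
    · -- `[3]R`
      have hcont : OddHC.cont w.1 = {3} + {OddHC.ht R} + N := by
        rw [e0]
        change OddHC.cont (app (H1.ch 3) R) = _
        rw [cont_app, cont_ch (by omega), hN]
        abel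
      have hN2 : 2 ≤ np3 (OddHC.cont w.1) := by
        rw [hcont, np3_add, np3_add, np3_one, np3_one, if_pos le_rfl, if_pos (by omega)]
        omega
      have hr2 : ∀ b, np3 (Multiset.replicate b 2) = 0 := by
        intro b
        unfold np3
        rw [Multiset.countP_eq_zero]
        intro x hx
        rw [Multiset.eq_of_mem_replicate hx]
        omega
      have h1' : np3 ({1} : Multiset ℕ) = 0 := rfl
      obtain ⟨s, b, hs3, h4⟩ := h.cases2 hn hw
      have hs1 : np3 ({s} : Multiset ℕ) ≤ 1 := by
        rw [np3_one]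
        split <;> omega
      rcases h4 with h4 | h4 | h4 | ⟨h4, t, u, D, hD, h5⟩ | ⟨h4, t, u, D, hD, h5⟩
      · rw [h4, np3_add, hr2] at hN2
        omega
      · rw [h4, np3_add, np3_add, hr2, h1'] at hN2
        omega
      · rw [h4, np3_add, np3_add, np3_add, hr2, h1'] at hN2
        omega
      · rcases h5 with h5 | h5 | h5
        · rw [e0] at h5
          have h6 := (node_inj' (node_inj' h5).1).1
          simp at h6
        · rw [e0] at h5
          have h6 := (node_inj' h5).1
          simp at h6
        · rw [e0] at h5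
          have h6 : l1 △ .nil = b2 (t + 1) := (node_inj' h5).1
          have h7 := congrArg (fun t => (cs t).length) h6
          simp at h7
          subst h7
          have h8 := (node_inj' h5).2
          rw [e0, h8] at h4
          have h9 : OddHC.cont (l1 △ .nil) = {2} := by rw [cont_l1', cont_nil, add_zero]
          have h10 : raise ({2} : Multiset ℕ) = {3} := rfl
          rw [cont_node, h9, h10, cont_app, cont_node, raise_nil, cont_nil, add_zero] at h4
          refine hM rfl u D s b hs3 hD ?_ h8
          have h11 : OddHC.cont (RR u D 0) + ({3} + {1}) = {s} + Multiset.replicate b 2 + ({3} + {1}) := by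
            calc OddHC.cont (RR u D 0) + ({3} + {1}) = {3} + (OddHC.cont (RR u D 0) + {1}) := by abel
              _ = _ := h4
              _ = _ := by abel
          exact add_right_cancel h11
      · rw [e0] at h5
        exact hRn (node_inj' h5).2

end J

end Pool.OddHC
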