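import Pool.Agent.Work.MP_8f87b2_h29.DnRows
import Pool.Agent.Work.MP_8f87b2_h40.HK

/-!
# MP_8f87b2_co: the one-soliton gadgets against the DOWN links (no condition)
-/

set_option autoImplicit false
set_option linter.unusedSimpArgs false

namespace Pool.OddHC

open Finset Equiv BinaryTree Pool.Agent.Work.MP_8f87b2_co

namespace J

variable {k n : ℕ}

/-- **Dn** : host `(U)[2]`, new `U[3]`, `[2]()U` -/
theorem JG.disj_Dn (hn : 1 ≤ n) {B : Finset (X k)} {P U M : Set (ZMod (2 * n + 1) → ℕ)}
    (h : JG n B P U M) {F : Set (Cyc k)} {g : DG k} {V : BinaryTree Unit} (hV : DnU V) (ht : TyC 2 V F g) :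
    ∀ w ∈ B, w ∉ g.B := by
  have hVn := hV.ne
  have hd : H1.gd (H1.t3hd V) := hV.hd
  obtain ⟨A, Y, rfl⟩ : ∃ A Y, V = A △ Y := by
    cases V with
    | nil => exact absurd rfl hVn
    | node _ A Y => exact ⟨A, Y, rfl⟩
  have hA : H1.gd A := hd
  have hAn : A ≠ .nil := H1.gd_ne hA
  have hAl : A ≠ l1 := by
    rintro rfl
    rcases hA with h1 | ⟨_, h1⟩
    · simp at h1
    · rcases h1.1 with h2 | ⟨h2, _⟩
      · simp at h2
      · exact h2 rfl
  have hAb : ∀ Z : BinaryTree Unit, A ≠ .nil △ Z := by
    rintro Z rfl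
    rcases hA with h1 | ⟨_, h1⟩
    · simp at h1
    · rcases h1.1 with h2 | ⟨h2, _⟩
      · simp at h2
      · exact h2 rfl
  have hYn : Y ≠ .nil := by
    rintro rfl
    exact hV.two A rfl
  have hYl : 1 ≤ (cs Y).length := by
    cases Y with
    | nil => exact absurd rfl hYn
    | node _ _ _ => rw [cs_node']; simp
  have hU1 : A △ Y ≠ l1 := by
    intro e
    exact hYn (node_inj' e).2
  intro w hw hwE
  have hW : w.1 = (A △ Y) △ (l1 △ .nil) ∨ w.1 = app (A △ Y) ((l1 △ .nil) △ .nil) ∨
      w.1 = l1 △ (.nil △ (A △ Y)) := by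
    rcases ht.words w hwE with h | ⟨_, h | h⟩
    · exact Or.inl h
    · exact Or.inr (Or.inl h)
    · exact Or.inr (Or.inr h)
  have hc0 : w.1 = (A △ Y) △ (l1 △ .nil) → ∀ G : ZMod (2 * n + 1) → ℕ, w.1 = Ring1.RF n G → False := by
    intro e G eG
    have h1 := Ring1.cont_RF hn G
    rw [← eG, e] at h1
    have h2 : OddHC.cont ((A △ Y) △ (l1 △ .nil)) = raise (OddHC.cont (A △ Y)) + {2} := by
      rw [cont_node, cont_l1', cont_nil, add_zero]
    have h3 : 3 ≤ OddHC.ht (A △ Y) := hV.h3
    have h4 : OddHC.ht (A △ Y) ∈ OddHC.cont (A △ Y) := by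
      rw [OddHC.ht_eq]
      refine sup_mem ?_
      intro h0
      rw [OddHC.ht_eq, h0] at h3
      simp at h3
    have h5 : raise (OddHC.cont (A △ Y)) = {OddHC.ht (A △ Y) + 1} +
        (OddHC.cont (A △ Y)).erase (OddHC.ht (A △ Y)) := by
      unfold raise
      rw [← OddHC.ht_eq]
      rfl
    rw [h2, h5] at h1
    -- the rest of the content is empty
    have h6 : ∀ x ∈ (OddHC.cont (A △ Y)).erase (OddHC.ht (A △ Y)), False := by
      intro x hx
      have hx1 : x ∈ ({n + 2} + Multiset.replicate (∑ z, G z) 2 : Multiset ℕ) := by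
        rw [← h1]
        exact Multiset.mem_add.2 (Or.inl (Multiset.mem_add.2 (Or.inr hx)))
      have hx0 := Multiset.mem_of_mem_erase hx
      have hx2 : x ≠ 2 := by
        rintro rfl
        exact (Multiset.count_eq_zero.1 hV.c2) hx0
      have hx3 : x = n + 2 := by
        rcases Multiset.mem_add.1 hx1 with h7 | h7
        · exact Multiset.mem_singleton.1 h7
        · exact absurd (Multiset.eq_of_mem_replicate h7) hx2
      have hx4 : OddHC.ht (A △ Y) + 1 = n + 2 ∨ OddHC.ht (A △ Y) + 1 = 2 := by
        have : OddHC.ht (A △ Y) + 1 ∈ ({n + 2} + Multiset.replicate (∑ z, G z) 2 : Multiset ℕ) := by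
          rw [← h1]
          exact Multiset.mem_add.2 (Or.inl (Multiset.mem_add.2 (Or.inl (Multiset.mem_singleton_self _))))
        rcases Multiset.mem_add.1 this with h7 | h7
        · exact Or.inl (Multiset.mem_singleton.1 h7)
        · exact Or.inr (Multiset.eq_of_mem_replicate h7)
      have hx5 : x ≤ OddHC.ht (A △ Y) := by
        rw [OddHC.ht_eq]
        exact Multiset.le_sup hx0
      omega
    have h7 : (OddHC.cont (A △ Y)).erase (OddHC.ht (A △ Y)) = 0 := Multiset.eq_zero_of_forall_notMem h6
    have h8 : OddHC.cont (A △ Y) = {OddHC.ht (A △ Y)} := by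
      rw [← Multiset.cons_erase h4, h7]
      rfl
    -- but there are two components
    have h9 := congrArg Multiset.card h8
    rw [cont_node, Multiset.card_add, Multiset.card_singleton] at h9
    have h10 : 1 ≤ Multiset.card (raise (OddHC.cont A)) := by
      unfold raise
      rw [Multiset.card_cons]
      omega
    have h11 : 1 ≤ Multiset.card (OddHC.cont Y) := by
      cases Y with
      | nil => exact absurd rfl hYn
      | node _ C D =>
        change 1 ≤ Multiset.card (OddHC.cont (C △ D))
        rw [cont_node, Multiset.card_add]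
        have : 1 ≤ Multiset.card (raise (OddHC.cont C)) := by
          unfold raise
          rw [Multiset.card_cons]
          omega
        omega
    omega
  rcases h.cases hn hw with ⟨Φ, hΦ, p, q, D, hD, e, hcs⟩ | ⟨G, hG, p, q, D, hD, h0, e, hcs⟩ |
    ⟨Ψ, hΨ, t, u, D, hD, e, hcs⟩
  · have hRn' := RR_ne p D q
    have hl1 := RR_l1 p q hD
    obtain ⟨A2, Y2, f2, n2⟩ := RR_front p D q hD
    obtain ⟨A3, Y3, f3, n3⟩ := RR_back p D q hD
    have hlen := lenRR p D q
    rcases hcs with e1 | e1 | e1 | e1 | e1 | e1 | e1 | e1 <;> rw [e1] at hW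
    · -- R()()
      rcases hW with e2 | e2 | e2 <;> obtain ⟨h5, h6, h7⟩ := cs_fb e2
      · simp at h6
      · simp at h6
      · -- `[2]()V`
        rcases p with _ | p
        · simp [hD.ne] at h5
        · rcases p with _ | p
          · simp [List.replicate_succ, hD.nil_ne] at h5
          · simp [List.replicate_succ] at h5
    · -- ()R()
      rcases hW with e2 | e2 | e2 <;> obtain ⟨h5, h6, h7⟩ := cs_fb e2
      · simp at h5
      · simp [hAn.symm] at h5
      · simp at h5
    · -- (R())
      rcases hW with e2 | e2 | e2 <;> obtain ⟨h5, h6, h7⟩ := cs_fb e2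
      · simp at h7
      · simp at h7
      · simp at h7
    · -- ()()R
      rcases hW with e2 | e2 | e2 <;> obtain ⟨h5, h6, h7⟩ := cs_fb e2
      · simp at h5
      · simp [hAn.symm] at h5
      · simp at h5
    · -- (R)()
      rcases hW with e2 | e2 | e2 <;> obtain ⟨h5, h6, h7⟩ := cs_fb e2
      · simp at h6
      · simp at h6
      · simp at h7
    · -- (()R)
      rcases hW with e2 | e2 | e2 <;> obtain ⟨h5, h6, h7⟩ := cs_fb e2
      · simp at h7
      · simp at h7
      · simp at h7
    · -- ()(R)
      rcases hW with e2 | e2 | e2 <;> obtain ⟨h5, h6, h7⟩ := cs_fb e2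
      · simp at h5
      · simp [hAn.symm] at h5
      · simp at h5
    · -- ((R))
      rcases hW with e2 | e2 | e2 <;> obtain ⟨h5, h6, h7⟩ := cs_fb e2
      · simp at h7
      · simp at h7
      · simp at h7
  · have hGw : w.1 = Ring1.RF n G := by rw [hcs, e]
    rcases hW with e2 | e2 | e2
    · exact hc0 e2 G hGw
    · rw [hcs] at e2
      obtain ⟨h5, h6, h7⟩ := cs_fb e2
      rcases p with _ | p
      · rcases q with _ | q
        · simp at h7
        · simp [List.replicate_succ', hD.ne] at h6
      · simp [List.replicate_succ, hAl.symm] at h5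
    · rw [hcs] at e2
      obtain ⟨h5, h6, h7⟩ := cs_fb e2
      have h8 : (nil : BinaryTree Unit) ∈ cs (RR p D q) := by
        rw [h5]
        simp
      rw [cs_RR, List.mem_append, List.mem_cons, List.mem_replicate, List.mem_replicate] at h8
      rcases h8 with ⟨_, h8⟩ | h8 | ⟨_, h8⟩
      · simp at h8
      · exact hD.nil_ne h8.symm
      · simp at h8
  · have hDn := hD.nil_ne
    have hDl := hD.ne
    have hRn' := RR_ne u D 0
    have hl1 := RR_l1 u 0 hD
    obtain ⟨A2, Y2, f2, n2⟩ := RR_front u D 0 hD
    have f3 := RR0_back u D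
    have g2 := b2_front t
    have g3 := b2_back t
    have hb2 : b2 (t + 1) ≠ l1 := by
      intro h
      have := congrArg cs h
      simp [List.replicate_succ] at this
    have hb0 : b2 (t + 1) ≠ .nil := by
      intro h8
      have := congrArg cs h8
      simp [List.replicate_succ] at this
    have h8 : app (RR u D 0) (.nil △ .nil) ≠ .nil := by
      intro h8
      have := congrArg cs h8
      simp at this
    have h9 : app (RR u D 0) (.nil △ .nil) ≠ l1 := by
      intro h8
      have := congrArg (fun t => (cs t).length) h8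
      simp at this
    have h10 : app (RR u D 0) (.nil △ .nil) ≠ l1 △ .nil := by
      intro h8
      have := congrArg (fun t => (cs t).length) h8
      simp at this
    rcases hcs with e1 | e1 | e1 | e1 | e1 | e1 | e1 | e1 | e1 <;> rw [e1] at hW
    · -- S'()()B'
      rcases hW with e2 | e2 | e2 <;> obtain ⟨h5, h6, h7⟩ := cs_fb e2
      · simp at h7
        omega
      · simp [List.replicate_succ'] at h6
      · rcases u with _ | u
        · simp [hDl] at h5
        · rcases u with _ | u
          · simp [List.replicate_succ, hDn] at h5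
          · simp [List.replicate_succ] at h5
    · -- ()B'(S')
      rcases hW with e2 | e2 | e2 <;> obtain ⟨h5, h6, h7⟩ := cs_fb e2
      · simp at h5
      · simp [hAn.symm] at h5
      · simp at h5
    · -- (()B')S'
      rcases hW with e2 | e2 | e2 <;> obtain ⟨h5, h6, h7⟩ := cs_fb e2
      · simp [f3, hDl] at h6
      · simp at h5
        exact hAb _ h5.1.symm
      · simp at h5
        exact hb0 h5.1
    · -- B'(S'())
      rcases hW with e2 | e2 | e2 <;> obtain ⟨h5, h6, h7⟩ := cs_fb e2
      · simp [h9] at h6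
      · simp [h10] at h6
      · rcases t with _ | t
        · simp [List.replicate_succ, h8] at h5
        · simp [List.replicate_succ] at h5
    · -- B'(S')()
      rcases hW with e2 | e2 | e2 <;> obtain ⟨h5, h6, h7⟩ := cs_fb e2
      · simp at h6
      · simp at h6
      · rcases t with _ | t
        · simp [List.replicate_succ, hRn'] at h5
        · simp [List.replicate_succ] at h5
    · -- ()(B')S'
      rcases hW with e2 | e2 | e2 <;> obtain ⟨h5, h6, h7⟩ := cs_fb e2
      · simp at h5
      · simp [hAn.symm] at h5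
      · simp at h5
    · -- (B'(S'))
      rcases hW with e2 | e2 | e2 <;> obtain ⟨h5, h6, h7⟩ := cs_fb e2
      · simp at h7
      · simp at h7
      · simp at h7
    · -- (B')S'()
      rcases hW with e2 | e2 | e2 <;> obtain ⟨h5, h6, h7⟩ := cs_fb e2
      · simp at h6
      · simp at h6
      · simp [hb2] at h5
    · -- ((B')S')
      rcases hW with e2 | e2 | e2 <;> obtain ⟨h5, h6, h7⟩ := cs_fb e2
      · simp at h7
      · simp at h7
      · simp at h7

end J

end Pool.OddHC
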