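import Pool.Agent.Work.MP_8f87b2_h40.HK
import Pool.Agent.Work.MP_8f87b2_h40.ShF

/-!
# MP_8f87b2_co: the shape of the words `RF n F`, two levels; `(())(R)` with `R = .. (())`
-/

set_option autoImplicit false

namespace Pool.OddHC

open Finset Equiv BinaryTree Pool.Agent.Work.MP_8f87b2_co

namespace Ring1

variable {n : ℕ}

/-- two levels: `F 0` squares, one component with inside `.. (D1) (())^(F (-2))`, `F (-1)` squares -/
theorem shape2 (hn : 2 ≤ n) (F : ZMod (2 * n + 1) → ℕ) : ∃ (x : ℕ) (D1 : BinaryTree Unit), D1 ≠ .nil ∧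
    RF n F = lv2 (F 0) (lv2 x (inf D1 △ lv2 (F (-2)) .nil) △ lv2 (F (-1)) .nil) := by
  obtain ⟨p, rfl⟩ : ∃ p, n = p + 2 := ⟨n - 2, by omega⟩
  obtain ⟨l, h0, h1, _⟩ := lf_snoc F
  obtain ⟨l', h2, _⟩ := lf_cons F
  obtain ⟨m, hm⟩ : ∃ m, l = F 0 :: m := by
    cases l with
    | nil => simp at h0
    | cons x m =>
      rw [h1, List.cons_append, List.cons.injEq] at h2
      exact ⟨m, by rw [h2.1]⟩
  rw [hm] at h0 h1
  have hml : m.length = 2 * (H1.ch (p + 1)).numNodes + 1 := by
    rw [List.length_cons] at h0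
    rw [ch_num]
    omega
  have hml' : m.length = 2 * p + 3 := by
    rw [ch_num] at hml
    omega
  -- the last letter of `m`
  have hlast : m.getD (2 * p + 2) 0 = F (-2) := by
    have e1 : (lf F).getD (2 * p + 3) 0 = F (-2) := by
      rw [List.getD_eq_getElem _ _ (by rw [lf_length]; omega), lf_getElem]
      congr 1
    rw [← e1, h1, List.cons_append, show 2 * p + 3 = (2 * p + 2) + 1 from rfl, List.getD_cons_succ,
      List.getD_append _ _ _ _ (by omega)]
  obtain ⟨x, m1, rfl⟩ : ∃ x m1, m = x :: m1 := by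
    cases m with
    | nil => simp at hml'
    | cons x m1 => exact ⟨x, m1, rfl⟩
  have hm1 : m1.length = 2 * p + 2 := by
    rw [List.length_cons] at hml'
    omega
  obtain ⟨m2, y, rfl⟩ : ∃ m2 y, m1 = m2 ++ [y] := by
    have h6 : m1 ≠ [] := by
      rintro rfl
      simp at hm1
    exact ⟨m1.dropLast, m1.getLast h6, (List.dropLast_append_getLast h6).symm⟩
  have hm2 : m2.length = 2 * (H1.ch p).numNodes + 1 := by
    rw [List.length_append, List.length_singleton] at hm1
    rw [ch_num]
    omega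
  have hy : y = F (-2) := by
    rw [← hlast, show 2 * p + 2 = (2 * p + 1) + 1 from rfl, List.getD_cons_succ]
    have h7 : m2.length = 2 * p + 1 := by
      rw [ch_num] at hm2
      exact hm2
    rw [← h7, List.getD_append_right _ _ _ _ le_rfl]
    simp
  subst hy
  refine ⟨x, ins (H1.ch p) (bump (H1.ch p) m2), ins_ne_nil _ _, ?_⟩
  unfold RF
  rw [h1]
  change inf (ins (H1.ch (p + 1) △ .nil) _) = _
  rw [ins]
  have e1 : (F 0 :: (x :: (m2 ++ [F (-2)])) ++ [F (-1)]).headD 0 = F 0 := rfl
  have e2 : (F 0 :: (x :: (m2 ++ [F (-2)])) ++ [F (-1)]).tail.take (2 * (H1.ch (p + 1)).numNodes + 1) =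
      x :: (m2 ++ [F (-2)]) := List.take_left' hml
  have e3 : (F 0 :: (x :: (m2 ++ [F (-2)])) ++ [F (-1)]).drop (2 * (H1.ch (p + 1)).numNodes + 2) = [F (-1)] := by
    change ((x :: (m2 ++ [F (-2)])) ++ [F (-1)]).drop (2 * (H1.ch (p + 1)).numNodes + 1) = _
    exact List.drop_left' hml
  rw [e1, e2, e3, inf_lv, inf_node, inf1_eq (ins_ne_nil _ _)]
  change lv2 (F 0) (inf (ins (H1.ch p △ .nil) (x :: (m2 ++ [F (-2)]))) △ inf (lv (F (-1)) .nil)) = _
  rw [inf_lp, ins]
  have g1 : (x :: (m2 ++ [F (-2)])).headD 0 = x := rfl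
  have g2 : (x :: (m2 ++ [F (-2)])).tail.take (2 * (H1.ch p).numNodes + 1) = m2 := List.take_left' hm2
  have g3 : (x :: (m2 ++ [F (-2)])).drop (2 * (H1.ch p).numNodes + 2) = [F (-2)] := by
    change (m2 ++ [F (-2)]).drop (2 * (H1.ch p).numNodes + 1) = _
    exact List.drop_left' hm2
  rw [g1, g2, g3, inf_lv, inf_node, inf1_eq (ins_ne_nil _ _)]
  change lv2 (F 0) (lv2 x (inf _ △ inf (lv (F (-2)) .nil)) △ lv2 (F (-1)) .nil) = _
  rw [inf_lp]

end Ring1

namespace J

variable {n : ℕ}

/-- **the host of a left content link with `c = 2`**: `RF n G = (())(R)`, `R = .. (())` of height at least 3 -/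
theorem RF_host (hn : 1 ≤ n) {G : ZMod (2 * n + 1) → ℕ} {R R0 : BinaryTree Unit}
    (e : Ring1.RF n G = l1 △ (R △ .nil)) (hR : 3 ≤ OddHC.ht R) (h : R = app R0 (l1 △ .nil)) :
    G (-1) = 0 ∧ G 0 = 1 ∧ 1 ≤ G (-2) := by
  have hRl : R ≠ l1 := by
    rintro rfl
    change 3 ≤ 1 at hR
    omega
  by_cases hn2 : 2 ≤ n
  · obtain ⟨x, D1, hD1, e1⟩ := Ring1.shape2 hn2 G
    have hI : GD (inf D1) := gd_inf hD1
    have e2 := congrArg cs (e.symm.trans e1)
    simp only [cs_node, cs_nil, cs_lv2] at e2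
    have hlen := congrArg List.length e2
    simp only [List.length_cons, List.length_append, List.length_replicate, List.length_nil] at hlen
    have hT : lv2 x (inf D1 △ lv2 (G (-2)) .nil) ≠ l1 := by
      intro h0
      have h1 := congrArg cs h0
      simp only [cs_lv2, cs_node, cs_nil, l1] at h1
      rcases x with _ | x
      · have h2 : inf D1 = .nil := by simpa using (List.cons.inj h1).1
        exact hI.nil_ne h2
      · simp [List.replicate_succ] at h1
    have h0 : G 0 = 1 ∧ G (-1) = 0 ∧ R = lv2 x (inf D1 △ lv2 (G (-2)) .nil) := by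
      rcases hG : G 0 with _ | _ | g
      · rw [hG] at e2
        exact absurd (by simpa using (List.cons.inj e2).1.symm) hT
      · rw [hG] at e2
        have h3 := (List.cons.inj e2).2
        have h4 := List.cons.inj h3
        refine ⟨rfl, ?_, h4.1⟩
        have h5 := congrArg List.length h4.2
        simpa using h5.symm
      · rw [hG] at hlen
        omega
    refine ⟨h0.2.1, h0.1, ?_⟩
    by_contra h6
    have h7 : G (-2) = 0 := by omega
    have h8 := h0.2.2
    rw [h7, h] at h8
    have h9 := congrArg (fun t => (cs t).reverse) h8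
    simp at h9
    exact hI.ne h9.1.symm
  · -- `n = 1`
    exfalso
    obtain rfl : n = 1 := by omega
    obtain ⟨D0, hD0, e1⟩ := Ring1.shape hn G
    have hI : GD (inf D0) := gd_inf hD0
    have e2 := congrArg cs (e.symm.trans e1)
    simp only [cs_node, cs_nil, cs_lv2] at e2
    have hmem : R ∈ List.replicate (G 0) l1 ++ inf D0 :: (List.replicate (G (-1)) l1 ++ []) := by
      rw [← e2]
      simp
    have hR2 : R = inf D0 := by
      rw [List.mem_append, List.mem_cons, List.append_nil, List.mem_replicate, List.mem_replicate] at hmem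
      rcases hmem with ⟨_, h1⟩ | h1 | ⟨_, h1⟩
      · exact absurd h1 hRl
      · exact h1
      · exact absurd h1 hRl
    have h3 : OddHC.ht (Ring1.RF 1 G) = 3 := by
      rw [OddHC.ht_eq, Ring1.cont_RF hn, Multiset.sup_add, Multiset.sup_singleton]
      apply sup_eq_left.2
      apply Multiset.sup_le.2
      intro z hz
      rw [Multiset.eq_of_mem_replicate hz]
      omega
    have h4 : OddHC.ht (Ring1.RF 1 G) = OddHC.ht (l1 △ (R △ .nil)) := by rw [e]
    have h5 : OddHC.ht (R △ .nil) = max (OddHC.ht R + 1) (OddHC.ht .nil) := ht_node _ _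
    have h6 : OddHC.ht (l1 △ (R △ .nil)) = max (OddHC.ht l1 + 1) (OddHC.ht (R △ .nil)) := ht_node _ _
    have h7 : OddHC.ht R + 1 ≤ OddHC.ht (R △ .nil) := by rw [h5]; exact le_max_left _ _
    have h8 : OddHC.ht (R △ .nil) ≤ OddHC.ht (l1 △ (R △ .nil)) := by rw [h6]; exact le_max_right _ _
    omega

end J

end Pool.OddHC
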