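import Pool.Agent.Work.MP_8f87b2_fin.MatR
import Pool.Agent.Work.MP_8f87b2_fin.MatS
import Pool.Agent.Work.MP_8f87b2_fin.MatJ
import Pool.Agent.Work.MP_8f87b2_h22.JE
import Pool.Agent.Work.MP_8f87b2_h22.JC
import Pool.Agent.Work.MP_8f87b2_h22.JT
import Pool.Agent.Work.MP_8f87b2_h84.JEW2
import Pool.Agent.Work.MP_8f87b2_h4.H3
import Pool.Agent.Work.MP_8f87b2_h59.RqJ
import Pool.Agent.Work.MP_8f87b2_h49.JVJ
import Pool.Agent.Work.MP_8f87b2_h16.MVK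
import Pool.Agent.Work.MP_8f87b2_h11.L1Rows
import Pool.Agent.Work.MP_8f87b2_h13.N3
import Pool.Agent.Work.MP_8f87b2_h40.HDn
import Pool.Agent.Work.MP_8f87b2_h40.Sh2
import Pool.Agent.Work.MP_8f87b2_h40.H2h

/-!
# MP_8f87b2_co: column H of the word matrix (groups of the one-soliton classes `(s, 2^a)`), words

`r_H_X (h : TyH F g) (h' : X F' g') (side) : NC g g'`.
-/

set_option autoImplicit false

namespace Pool.OddHC

open Finset Equiv BinaryTree Pool.Agent.Work.MP_8f87b2_co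

namespace Hole2

open J Runs

variable {k : ℕ} {F F' : Set (Cyc k)} {g g' : DG k}

/-- all data of a group of type H -/
theorem TyH.full (h : TyH F g) : ∃ n a, 1 ≤ n ∧ 1 ≤ a ∧ n + 2 + 2 * a = k ∧ (∀ c ∈ F, htc c = n + 2) ∧
    ∃ P U M : Set (ZMod (2 * n + 1) → ℕ), JG n g.B P U M ∧
      (∀ Φ ∈ P, ∑ z, Φ z + 1 = a) ∧ (∀ G ∈ U, ∑ z, G z = a) ∧ (∀ Ψ ∈ M, ∑ z, Ψ z + 1 = a) ∧
      (∀ Φ, Φ ∈ P ∨ Φ ∈ M → ∃ S g', TyH S g' ∧ Yc k n Φ ∈ S ∧ Zc k n Φ ∈ S) := by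
  obtain ⟨n, a, r, hn, ha, hk, d, hd, t, rfl, rfl, rfl⟩ := h
  refine ⟨n, a, hn, ha, hk, d.hole.ht t, _, _, _, d.hole.jg t, ?_, ?_, ?_, ?_⟩
  · intro Φ hΦ
    rw [PF_sum hΦ]
    exact d.hole.sum t
  · intro G hG
    rw [UF_sum hG]
    exact d.hole.sum t
  · intro Ψ hΨ
    rw [MF_sum hΨ]
    exact d.hole.sum t
  · have key : ∃ t', d.kd t' ≠ .jm ∧ Runs.Rot (d.F t) (d.F t') := by
      by_cases h1 : d.kd t = .jm
      · exact d.line t h1
      · exact ⟨t, h1, ⟨0, (sh_zero _).symm⟩⟩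
    obtain ⟨t', h1, h2⟩ := key
    intro Φ hΦ
    have h3 : Runs.Rot (d.F t) Φ := by
      rcases hΦ with hΦ | hΦ
      · exact PF_rot hΦ
      · exact MF_rot hΦ
    have hs : ∀ t, n + 4 + 2 * ∑ x, d.F t x = k := by
      intro t
      have := d.hole.sum t
      omega
    obtain ⟨c, rfl⟩ := h3
    obtain ⟨c', h4⟩ := h2
    refine ⟨_, _, ⟨n, a, _, hn, ha, hk, d, hd, t', rfl, rfl, rfl⟩, Or.inr ⟨h1, Or.inl ?_⟩,
      Or.inr ⟨h1, Or.inr ?_⟩⟩
    · change Yc k n (sh c (d.F t)) = Yc k n (d.F t')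
      have h5 : d.F t' = sh c' (d.F t) := h4
      rw [h5, Yc_sh hn (hs t), Yc_sh hn (hs t)]
    · change Zc k n (sh c (d.F t)) = Zc k n (d.F t')
      have h5 : d.F t' = sh c' (d.F t) := h4
      rw [h5, Zc_sh hn (hs t), Zc_sh hn (hs t)]

theorem zc_of {n : ℕ} {Φ : ZMod (2 * n + 1) → ℕ} {x : X k} (hx : x.1 = J.pw (Ring1.RF n Φ) 2) :
    cyc x = Zc k n Φ := by
  have e : x.1 = fbT n Φ := hx
  unfold Zc
  rw [← e, tcy_eq]

end Hole2

namespace MW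

open Hole2

variable {k : ℕ} {F F' : Set (Cyc k)} {g g' : DG k}

/-- at least three squares -/
def hA3 (F : Set (Cyc k)) : Prop := ∀ c ∈ F, htc c + 6 ≤ k

theorem a3_of (h : TyH F g) (hA : hA3 F) {n a : ℕ} (hk : n + 2 + 2 * a = k) (hF : ∀ c ∈ F, htc c = n + 2) :
    3 ≤ a := by
  obtain ⟨c, hc⟩ := h.ne
  have h1 := hA c hc
  have h2 := hF c hc
  omega

/-- E: at least three squares, and the E group is disjoint from the groups of type H -/
def sH_E (F F' : Set (Cyc k)) : Prop := hA3 F ∧ ∀ c ∈ F', c ∉ TYH k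

theorem r_H_E (h : TyH F g) (h' : TyE F' g') (hs : sH_E F F') : NC g g' := by
  obtain ⟨hA, hH⟩ := hs
  obtain ⟨n, a, hn, ha, hk, hF, P, U, M, hj, hP, hU, hM, hl⟩ := h.full
  have ha3 := a3_of h hA hk hF
  refine hj.disj_E hn (fun Φ hΦ => ?_) (fun Ψ hΨ => ?_) h' (fun Φ hΦ x hx hc => ?_)
  · have := hP Φ hΦ
    omega
  · have := hM Ψ hΨ
    omega
  · obtain ⟨S, g₁, h1, -, h2⟩ := hl Φ (Or.inl hΦ)
    refine hH _ hc ⟨S, g₁, h1, ?_⟩
    rw [zc_of hx]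
    exact h2

/-- L: the content of the L group is not `(s, 2^b, 1)` -/
def sH_L (F' : Set (Cyc k)) : Prop := ∀ c ∈ F', ∀ s b : ℕ, contc c ≠ {s} + Multiset.replicate b 2 + {1}

theorem r_H_L (h : TyH F g) (h' : TyL F' g') (hs : sH_L F') : NC g g' := by
  obtain ⟨n, hn, P, U, M, hj⟩ := h.jg
  exact hj.disj_L hn h' hs

/-- K: two parts `≥ 3`; or no part 2, and at least three squares in the class of `F` or not exactly two parts 1 -/
def sH_K (F F' : Set (Cyc k)) (g' : DG k) : Prop :=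
  ∃ S : BinaryTree Unit, 2 ≤ OddHC.ht S ∧ TyK S F' g' ∧ (2 ≤ np3 (cont S) ∨ ((cont S).count 2 = 0 ∧ hA3 F) ∨
    ((cont S).count 1 ≠ 0 ∧ (cont S).count 1 ≠ 2))

theorem np3_rep2 (b : ℕ) : np3 (Multiset.replicate b 2) = 0 := by
  unfold np3
  rw [Multiset.countP_eq_zero]
  intro x hx
  rw [Multiset.eq_of_mem_replicate hx]
  omega

theorem np3_s2 (s b : ℕ) : np3 ({s} + Multiset.replicate b 2) ≤ 1 := by
  rw [np3_add, np3_rep2, np3_one]
  split <;> omega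

theorem r_H_K (h : TyH F g) (hs : sH_K F F' g') : NC g g' := by
  obtain ⟨S, hS, h', hs⟩ := hs
  have hSn : S ≠ .nil := by
    rintro rfl
    rw [OddHC.ht] at hS
    omega
  obtain ⟨n, a, hn, ha, hk, hF, P, U, M, hj, hP, hU, hM, hl⟩ := h.full
  rcases hs with hs | ⟨h2, hA⟩ | ⟨h1, h2⟩
  · refine hj.nK_cont hn h' hSn (fun s b _ => ⟨fun e => ?_, fun e => ?_⟩)
    · have := np3_s2 s b
      rw [e] at hs
      omega
    · have h3 := np3_s2 s b
      rw [e, np3_add] at hs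
      have : np3 ({1, 1} : Multiset ℕ) = 0 := rfl
      omega
  · have ha3 := a3_of h hA hk hF
    refine hj.disj_K hn (fun Φ hΦ => ?_) (fun G hG => ?_) (fun Ψ hΨ => ?_) h' hS h2
    · have := hP Φ hΦ
      omega
    · have := hU G hG
      omega
    · have := hM Ψ hΨ
      omega
  · refine hj.nK_cont hn h' hSn (fun s b hs3 => ⟨fun e => ?_, fun e => ?_⟩)
    · apply h1
      rw [e, Multiset.count_add, Multiset.count_singleton, Multiset.count_replicate, if_neg (by omega),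
        if_neg (by omega)]
    · apply h2
      rw [e, Multiset.count_add, Multiset.count_add, Multiset.count_singleton, Multiset.count_replicate,
        if_neg (by omega), if_neg (by omega)]
      rfl

theorem mem_cs_app {A : BinaryTree Unit} (V Y : BinaryTree Unit) : A ∈ J.cs (app V (A △ Y)) := by
  rw [J.cs_app, J.cs_node]
  simp

/-- K': the content of `S` is not `(s, 2^b, 1)`; or no part 2, at least three squares -/
def sH_Km (F F' : Set (Cyc k)) (g' : DG k) : Prop :=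
  ∃ S : BinaryTree Unit, 2 ≤ OddHC.ht S ∧ TyK' S F' g' ∧
    ((KmSh S ∧ ∀ s b, 3 ≤ s → cont S ≠ {s} + Multiset.replicate b 2 + {1}) ∨ ((cont S).count 2 = 0 ∧ hA3 F))

theorem r_H_Km (h : TyH F g) (hs : sH_Km F F' g') : NC g g' := by
  obtain ⟨S, hS, h', hs⟩ := hs
  obtain ⟨n, a, hn, ha, hk, hF, P, U, M, hj, hP, hU, hM, hl⟩ := h.full
  rcases hs with ⟨⟨V, A, m, hA, rfl⟩, hc⟩ | ⟨h2, hA⟩
  · exact hj.nKm_cont hn h' (mem_cs_app V (lp m)) ⟨A, hA, rfl⟩ hc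
  · have ha3 := a3_of h hA hk hF
    refine hj.disj_Km hn (fun Φ hΦ => ?_) (fun G hG => ?_) (fun Ψ hΨ => ?_) h' hS h2
    · have := hP Φ hΦ
      omega
    · have := hU G hG
      omega
    · have := hM Ψ hΨ
      omega

theorem r_H_Cr (h : TyH F g) (h' : CrS F' g') : NC g g' := by
  obtain ⟨n, hn, P, U, M, hj⟩ := h.jg
  exact hj.disj_Cr hn h'.cr

theorem count_raise1 {R : BinaryTree Unit} (h : 3 ≤ OddHC.ht R) : (raise (cont R)).count 1 = (cont R).count 1 := by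
  rw [OddHC.ht_eq] at h
  exact count_raise 1 (by omega) (by omega)

/-- left content links: if `c = 2`, then `R` has two parts `≥ 3`, or two parts 1, or no part 1 and the last component `(())`,
or one part 1 and it is not `S'()` -/
def sH_Cl (F' : Set (Cyc k)) (g' : DG k) : Prop :=
  ∃ (c : ℕ) (R : BinaryTree Unit), 2 ≤ c ∧ c + 1 ≤ OddHC.ht R ∧ Even c ∧ TyC' c R F' g' ∧
    (c = 2 → 2 ≤ np3 (cont R) ∨ 2 ≤ (cont R).count 1 ∨
      ((cont R).count 1 = 0 ∧ ∃ R0, R = app R0 (H1.ch 2)) ∨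
      ((cont R).count 1 = 1 ∧ ∀ R0, R ≠ app R0 (.nil △ .nil)))

theorem r_H_Cl (h : TyH F g) (hs : sH_Cl F' g') : NC g g' := by
  obtain ⟨c, R, hc, hR, he, h', h2⟩ := hs
  obtain ⟨n, a, hn, -, -, -, P, U, M, hj, -, -, -, hfar⟩ := h.jgf
  have h1rep : ∀ b, (Multiset.replicate b 2).count 1 = 0 := by
    intro b
    rw [Multiset.count_replicate, if_neg (by omega)]
  have h1s : ∀ s, 3 ≤ s → ({s} : Multiset ℕ).count 1 = 0 := by
    intro s hs
    rw [Multiset.count_singleton, if_neg (by omega)]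
  refine hj.nCl hn hc hR he h' (fun hc2 G hG e => ?_) (fun hc2 u D s b hs3 hD e1 e => ?_)
  · subst hc2
    have hR3 : 3 ≤ OddHC.ht R := hR
    have hcR : cont (Ring1.RF n G) = {2} + raise (cont R) := by
      rw [e, J.cont_l1', cont_node, cont_nil, add_zero]
    rcases h2 rfl with h3 | h3 | ⟨h3, R0, h4⟩ | ⟨h3, _⟩
    · rw [Ring1.cont_RF hn] at hcR
      have h4 := congrArg np3 hcR
      rw [np3_add, np3_add] at h4
      have h5 := np3_s2 (n + 2) (∑ x, G x)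
      rw [np3_add] at h5
      have h6 := np3_raise_ge (cont R)
      omega
    · have h4 := congrArg (Multiset.count 1) hcR
      rw [(J.count_RF hn G).1, Multiset.count_add, count_raise1 hR3] at h4
      omega
    · exact hfar G hG (J.RF_host hn e hR3 h4)
    · have h4 := congrArg (Multiset.count 1) hcR
      rw [(J.count_RF hn G).1, Multiset.count_add, count_raise1 hR3] at h4
      omega
  · have hcR : cont R = {s} + Multiset.replicate b 2 + {1} := by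
      rw [e, cont_app, e1, cont_node, J.raise_nil, cont_nil, add_zero]
    rcases h2 hc2 with h3 | h3 | ⟨h3, _⟩ | ⟨_, h3⟩
    · rw [hcR, np3_add] at h3
      have h4 := np3_s2 s b
      have : np3 ({1} : Multiset ℕ) = 0 := rfl
      omega
    · rw [hcR, Multiset.count_add, Multiset.count_add, h1rep, h1s s hs3, Multiset.count_singleton_self] at h3
      omega
    · rw [hcR, Multiset.count_add, Multiset.count_singleton_self] at h3
      omega
    · exact h3 _ e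

theorem r_H_Dn (h : TyH F g) (h' : TyDn F' g') : NC g g' := by
  obtain ⟨U', hU', ht⟩ := h'
  obtain ⟨n, hn, P, U, M, hj⟩ := h.jg
  exact hj.disj_Dn hn hU' ht

theorem r_H_S5 (h : TyH F g) (h' : TyS5l F' g') : NC g g' := by
  obtain ⟨n, hn, P, U, M, hj⟩ := h.jg
  exact hj.disj_S5 hn h'.toS5 (s5_cnt h')

/-- A: every member of `F'` has a part 1 -/
def sH_A (F' : Set (Cyc k)) : Prop := ∀ c ∈ F', 1 ≤ (contc c).count 1

theorem r_H_A (h : TyH F g) (h' : TyA F' g') (hs : sH_A F') : NC g g' := by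
  obtain ⟨n, hn, P, U, M, hj⟩ := h.jg
  exact hj.disj_A hn h' hs

theorem r_H_T (h : TyH F g) (h' : TyT F' g') : NC g g' := by
  obtain ⟨n, hn, P, U, M, hj⟩ := h.jg
  exact hj.disj_T hn h'

theorem r_H_R3 (h : TyH F g) (h' : TyR3 F' g') : NC g g' := by
  obtain ⟨n, hn, P, U, M, hj⟩ := h.jg
  exact NC.symm (h'.dis_JG hn hj)

theorem r_H_S3 (h : TyH F g) (h' : TyS3 F' g') : NC g g' := by
  obtain ⟨n, hn, P, U, M, hj⟩ := h.jg
  exact NC.symm (h'.dis_JG hn hj)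

theorem r_H_Rq {q : ℕ} (h : TyH F g) (h' : TyRq q F' g') : NC g g' := by
  obtain ⟨n, hn, P, U, M, hj⟩ := h.jg
  exact NC.symm (h'.dis_JG hn hj)

theorem r_H_Sq {q : ℕ} (h : TyH F g) (h' : TySq q F' g') : NC g g' := by
  obtain ⟨n, hn, P, U, M, hj⟩ := h.jg
  exact NC.symm (h'.dis_JG hn hj)

theorem r_H_J1 (h : TyH F g) (h' : J1.TyJs F' g') : NC g g' := by
  obtain ⟨n, hn, P, U, M, hj⟩ := h.jg
  obtain ⟨s, hs, -, hw⟩ := js_isJ1 h'
  exact hj.disj_J1 hs le_rfl hn hw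

theorem r_H_J4 (h : TyH F g) (h' : J1.TyJt F' g') : NC g g' := by
  obtain ⟨n, hn, P, U, M, hj⟩ := h.jg
  obtain ⟨s, hs, -, hw⟩ := jt_isJ1M h'
  exact hj.disj_J1M (by omega) le_rfl hn hw

/-- J3V : height at least 4 and two parts larger than 2, or three parts larger than 2 -/
def sH_J3V (F' : Set (Cyc k)) : Prop :=
  ((∀ c ∈ F', 4 ≤ htc c) ∧ ∀ c ∈ F', 2 ≤ J.c3 (contc c)) ∨ ∀ c ∈ F', 3 ≤ J.c3 (contc c)

theorem r_H_J3V (h : TyH F g) (h' : TyJ3V F' g') (hs : sH_J3V F') : NC g g' := by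
  obtain ⟨n, hn, P, U, M, hj⟩ := h.jg
  rcases hs with ⟨h4, h2⟩ | h3
  · exact NC.symm (h'.dis_JG h4 h2 hn hj)
  · exact NC.symm (h'.dis_JG3 h3 hn hj)

/-- JE -/
def sH_JE (F' : Set (Cyc k)) (g' : DG k) : Prop :=
  ∃ R : BinaryTree Unit, TyJE R F' g' ∧ 4 ≤ OddHC.ht R ∧ 2 ≤ J.c3 (OddHC.cont R)

theorem r_H_JE (h : TyH F g) (hs : sH_JE F' g') : NC g g' := by
  obtain ⟨R, h', h4, h2⟩ := hs
  obtain ⟨n, hn, P, U, M, hj⟩ := h.jg
  exact NC.symm (h'.dis_JG h4 h2 hn hj)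

/-- JV -/
def sH_JV (F' : Set (Cyc k)) (g' : DG k) : Prop :=
  ∃ Z : BinaryTree Unit, (OddHC.cont Z).count 1 = 0 ∧ 3 ≤ OddHC.ht Z ∧ 2 ≤ p3 (OddHC.cont Z) ∧
    Is9 .nil .nil Z F' g'

theorem r_H_JV (h : TyH F g) (hs : sH_JV F' g') : NC g g' := by
  obtain ⟨Z, h0, h3, h2, h'⟩ := hs
  obtain ⟨n, hn, P, U, M, hj⟩ := h.jg
  exact hj.disj_JV hn h' h0 h3 h2

/-- JV, mirrored -/
def sH_JVm (F' : Set (Cyc k)) (g' : DG k) : Prop :=
  ∃ Z : BinaryTree Unit, (OddHC.cont Z).count 1 = 0 ∧ 3 ≤ OddHC.ht Z ∧ 2 ≤ p3 (OddHC.cont Z) ∧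
    Is9M .nil .nil Z F' g' ∧ (3 ∈ OddHC.cont Z → p3 (OddHC.cont Z) = 2 →
      ∀ (t u : ℕ) (D : BinaryTree Unit), J.GD D → xTM Z ≠ J.b2 (t + 1) △ J.RR u D 0)

theorem r_H_JVm (h : TyH F g) (hs : sH_JVm F' g') : NC g g' := by
  obtain ⟨Z, h1, h3, h2, h', hx⟩ := hs
  exact h.dis_JVm h' h1 h3 h2 hx

theorem r_H_L1 (hk : 9 ≤ k) (h : TyH F g) (h' : TyL1 F' g') : NC g g' := NC.symm (h'.disj_GJ hk h.gj)

theorem r_H_H (h : TyH F g) (h' : TyH F' g') (hd : ∀ c ∈ F, c ∉ F') : NC g g' := by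
  refine h.disj h' ?_
  rintro rfl
  obtain ⟨c, hc⟩ := h.ne
  exact hd c hc hc

end MW

end Pool.OddHC
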