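import Pool.Agent.Work.MP_8f87b2_h40.TyNM
import Pool.Agent.Work.MP_8f87b2_h40.TyJ4

/-!
# MP_8f87b2_co, one soliton, no beads: the old words of the pairs JM and of J3n, exact list

`exJMr`, `exNMr`: existence together with the list of the old words of the same height.
-/

set_option autoImplicit false

namespace Pool.OddHC

open Finset Equiv BinaryTree Pool.Agent.Work.MP_8f87b2_co

namespace J

variable {k n : ℕ}

/-- the old words of the height of the class -/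
def Olds (n : ℕ) (Φ : ZMod (2 * n + 1) → ℕ) (z y y' : Cyc k) (w : X k) : Prop :=
  htc z < htc (cyc w) ∨ cyc w = y ∨ cyc w = y' ∨
    (1 ≤ Φ 0 ∧ htc (cyc w) = htc z ∧ (contc (cyc w)).count 1 = 1) ∨
    (Φ 0 = 0 ∧ w.1 = Ring1.RF n (ad (fun z => Φ (z + 1)) 0))

variable {Φ : ZMod (2 * n + 1) → ℕ} {D D' : BinaryTree Unit}

theorem MD.vm (h : MD k n Φ D D') (w0 : X k) {i : ℕ} (hi : i < 10) :
    (jP Φ D D' w0 i).1 = pw (Ring1.RF n Φ) (mx i) := by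
  change Tsq.mir (jX _ _ _ _ _ w0 i).1 = _
  rw [h.sh.word_lo w0 hi, mir_pw _ hi, h.e, mir_RF, rf_rf]

theorem MD.vm' (h : MD k n Φ D D') (h0 : Φ 0 = 0) (w0 : X k) {i : ℕ} (hi : 10 ≤ i) (hi' : i < 20) :
    (jP Φ D D' w0 i).1 = pw (Ring1.RF n (fun z => Φ (z + 1))) (mx (ixp i)) := by
  have e' := h.e'
  rw [h0] at e'
  change Tsq.mir (jX _ _ _ _ _ w0 i).1 = _
  rw [h.sh.word_hi w0 hi hi', h0, mw_zero D' _ hi hi', mir_pw _ (ixp_lt i), e', mir_RF, rf_rf]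

/-- the list of the words -/
theorem MD.olds (hn : 1 ≤ n) (h : MD k n Φ D D') (w0 : X k) {y y' : X k}
    (hy : y.1 = app (Ring1.RF n Φ) (.nil △ (.nil △ .nil)))
    (hy' : y'.1 = .nil △ app (Ring1.RF n Φ) (.nil △ .nil)) : ∀ i < 20, i ≠ 5 →
      cyc (jP Φ D D' w0 i) = cyc (jP Φ D D' w0 0) ∨ cyc (jP Φ D D' w0 i) = cyc (jP Φ D D' w0 4) ∨
      Olds n Φ (cyc (jP Φ D D' w0 0)) (cyc y) (cyc y') (jP Φ D D' w0 i) := by
  have hz0 : htc (cyc (jP Φ D D' w0 0)) = ht (RR (Φ (-1)) D (Φ 0)) := by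
    rw [htc_cyc]
    change ht (jM _ D _ D' _ w0 0).1 = _
    rw [htM]
    have h1 := congrArg Multiset.sup (h.sh.cont0 w0)
    rw [← OddHC.ht_eq, sup_add', ← OddHC.ht_eq, Multiset.sup_singleton] at h1
    have h2 := ht_RR h.sh.gD (Φ (-1)) (Φ 0)
    have h3 := h.sh.gD.ht
    omega
  have c1 : cyc (jP Φ D D' w0 1) = cyc y := by
    have v1 : (jP Φ D D' w0 1).1 = .nil △ (.nil △ Ring1.RF n Φ) := h.vm w0 (by norm_num)
    refine (cyc_eq.2 (Ring1.same_bf hn Φ 0 hy (z := jP Φ D D' w0 1) ?_)).symm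
    rw [v1]
    simp only [add_zero]
  intro i hi h5
  have hr : i = 0 ∨ i = 4 ∨ i = 10 ∨ i = 1 ∨ i = 2 ∨ i = 11 ∨ i ∈ [13, 16, 18] ∨
      i ∈ [3, 6, 7, 8, 9, 12, 14, 15, 17, 19] := by
    simp only [List.mem_cons, List.not_mem_nil, or_false]
    omega
  rcases hr with rfl | rfl | rfl | rfl | rfl | rfl | h2 | h2
  · exact Or.inl rfl
  · exact Or.inr (Or.inl rfl)
  · exact Or.inl (h.sh.cyc10M w0)
  · exact Or.inr (Or.inr (Or.inr (Or.inl c1)))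
  · right; right; right; right; left
    have v2 : (jP Φ D D' w0 2).1 = .nil △ app (Ring1.RF n Φ) (.nil △ .nil) := h.vm w0 (by norm_num)
    exact congrArg cyc (Subtype.ext (v2.trans hy'.symm))
  · right; right; right; left
    rw [← c1]
    have h3 : TT (TT (jP Φ D D' w0 11)) = jP Φ D D' w0 1 := h.sh.linkM w0 (by simp)
    apply cyc_eq.2
    refine ⟨2, ?_⟩
    rw [show (2 : ℤ) = ((2 : ℕ) : ℤ) from rfl, zpow_natCast, pow_two, Perm.mul_apply, h3]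
  · right; right
    rcases Nat.eq_zero_or_pos (Φ 0) with h0 | h0
    · simp only [List.mem_cons, List.not_mem_nil, or_false] at h2
      rcases h2 with rfl | rfl | rfl
      · exact Or.inr (Or.inr (Or.inr (Or.inr ⟨h0, h.v13 h0 w0⟩)))
      · right; left
        have v : (jP Φ D D' w0 16).1 = .nil △ (.nil △ Ring1.RF n fun z => Φ (z + 1)) :=
          h.vm' h0 w0 (by norm_num) (by norm_num)
        exact (cyc_eq.2 (Ring1.same_bf hn Φ 1 hy v)).symm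
      · right; right; left
        have v : (jP Φ D D' w0 18).1 = .nil △ app (Ring1.RF n fun z => Φ (z + 1)) (.nil △ .nil) :=
          h.vm' h0 w0 (by norm_num) (by norm_num)
        exact (cyc_eq.2 (Ring1.same_mid hn Φ 1 hy' v)).symm
    · right; right; right; left
      refine ⟨h0, ?_, ?_⟩
      · rw [hz0, htc_cyc]
        change ht (jM _ D _ D' _ w0 i).1 = _
        rw [htM]
        exact h.sh.ht_eq' h0 w0 i (by simp at h2 ⊢; omega)
      · rw [contc_cyc]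
        change (OddHC.cont (jM _ D _ D' _ w0 i).1).count 1 = 1
        rw [h.sh.contM, h.sh.countM h0 w0 i h2]
  · right; right; left
    rw [hz0, htc_cyc]
    change _ < ht (jM _ D _ D' _ w0 i).1
    rw [htM]
    exact h.sh.ht_gt w0 i h2

/-- **existence of the mirrored pair gadget with the list of its old words** -/
theorem exJMr (hn : 1 ≤ n) (Φ : ZMod (2 * n + 1) → ℕ) (hk : n + 4 + 2 * ∑ x, Φ x = k)
    {z z' y y' : X k} (hz : z.1 = Ring1.RF n (ad Φ 0)) (hz' : z'.1 = Ring1.RF n (ad Φ (-1)))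
    (hy : y.1 = app (Ring1.RF n Φ) (.nil △ (.nil △ .nil)))
    (hy' : y'.1 = .nil △ app (Ring1.RF n Φ) (.nil △ .nil))
    (h10 : ad Φ 0 ≠ ad (fun z => Φ (z + 1)) (-1)) (h4 : cyc z ≠ cyc z')
    (h13 : Φ 0 = 0 → ∀ y : X k, y.1 = Ring1.RF n (ad (fun z => Φ (z + 1)) 0) →
      cyc y ≠ cyc z ∧ cyc y ≠ cyc z') :
    ∃ g : DG k, TyJM {cyc z, cyc z'} g ∧ JG n g.B (PM Φ) (UM Φ) (MM Φ) ∧
      ∀ w ∈ g.B, cyc w ∈ ({cyc z, cyc z'} : Set (Cyc k)) ∨ Olds n Φ (cyc z) (cyc y) (cyc y') w := by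
  obtain ⟨D, D', h⟩ := exMD (k := k) hn Φ hk
  have e0 : jP Φ D D' z 0 = z := Subtype.ext ((h.v0 z).trans hz.symm)
  have e4 : jP Φ D D' z 4 = z' := Subtype.ext ((h.v4 z).trans hz'.symm)
  refine ⟨gadJM (jP Φ D D' z), ⟨_, D, _, D', _, z, h.sh, ⟨?_, ?_, ?_⟩, ?_, rfl⟩, ?_, ?_⟩
  · intro e
    have e1 := congrArg Subtype.val e
    change (jP Φ D D' z 0).1 = (jP Φ D D' z 10).1 at e1
    rw [h.v0, h.v10] at e1
    exact h10 (Ring1.RF_inj e1)
  · change cyc (jP Φ D D' z 0) ≠ cyc (jP Φ D D' z 4)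
    rw [e0, e4]
    exact h4
  · intro ht
    change cyc (jP Φ D D' z 13) ≠ cyc (jP Φ D D' z 0) ∧ cyc (jP Φ D D' z 13) ≠ cyc (jP Φ D D' z 4)
    rw [e0, e4]
    exact h13 ht _ (h.v13 ht z)
  · change _ = {cyc (jP Φ D D' z 0), cyc (jP Φ D D' z 4)}
    rw [e0, e4]
  · apply h.jg z
    intro w hw
    obtain ⟨i, hi, _, rfl⟩ := mem_gadJM.1 hw
    exact ⟨i, hi, rfl⟩
  · intro w hw
    obtain ⟨i, hi, h5, rfl⟩ := mem_gadJM.1 hw
    have h1 := h.olds hn z hy hy' i hi h5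
    rw [e0, e4] at h1
    rcases h1 with h1 | h1 | h1
    · exact Or.inl (Or.inl h1)
    · exact Or.inl (Or.inr h1)
    · exact Or.inr h1

/-- **J3n (mirror) with the list of its old words**: higher, or on the T-cycle of the word 4 (`Φ + [-1]`), or content with
exactly one `1` -/
theorem exNMr (hn : 1 ≤ n) (Φ : ZMod (2 * n + 1) → ℕ) (hk : n + 4 + 2 * ∑ x, Φ x = k)
    (h0 : 1 ≤ Φ 0) {z z' y y' : X k} (hz : z.1 = Ring1.RF n (ad Φ 0))
    (hz' : z'.1 = Ring1.RF n (ad Φ (-1)))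
    (hy : y.1 = app (Ring1.RF n Φ) (.nil △ (.nil △ .nil)))
    (hy' : y'.1 = .nil △ app (Ring1.RF n Φ) (.nil △ .nil))
    (h10 : ad Φ 0 ≠ ad (fun z => Φ (z + 1)) (-1)) (h4 : cyc z ≠ cyc z') :
    ∃ g : DG k, TyNM {cyc z, cyc y, cyc y'} g ∧
      JG n g.B {Φ} (UN Φ) {fun z => Φ (z + 1)} ∧
      ∀ w ∈ g.B, cyc w ∈ ({cyc z, cyc y, cyc y'} : Set (Cyc k)) ∨ htc (cyc z) < htc (cyc w) ∨
        cyc w = cyc z' ∨ (htc (cyc w) = htc (cyc z) ∧ (contc (cyc w)).count 1 = 1) := by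
  classical
  have hyy := bb_ne_fb hn Φ Φ rfl hy hy'
  obtain ⟨D, D', h⟩ := exMD (k := k) hn Φ hk
  have e0 : jP Φ D D' z 0 = z := Subtype.ext ((h.v0 z).trans hz.symm)
  have e4 : jP Φ D D' z 4 = z' := Subtype.ext ((h.v4 z).trans hz'.symm)
  have v5 : (jP Φ D D' z 5).1 = app (Ring1.RF n Φ) (.nil △ (.nil △ .nil)) := h.vm z (by norm_num)
  have v1 : (jP Φ D D' z 1).1 = .nil △ (.nil △ Ring1.RF n Φ) := h.vm z (by norm_num)
  have v2 : (jP Φ D D' z 2).1 = .nil △ app (Ring1.RF n Φ) (.nil △ .nil) := h.vm z (by norm_num)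
  have e5 : jP Φ D D' z 5 = y := Subtype.ext (v5.trans hy.symm)
  have e2 : jP Φ D D' z 2 = y' := Subtype.ext (v2.trans hy'.symm)
  have hF : 1 ≤ ∑ x, Φ x := h0.trans (Finset.single_le_sum (f := Φ) (fun _ _ => Nat.zero_le _) (mem_univ 0))
  have hv : TT (TT (jP Φ D D' z 11)) = jP Φ D D' z 1 := h.sh.linkM z (by simp)
  obtain ⟨q1, q2, q3⟩ := Ring1.order_left hn Φ hF v5 v1 hv
  have c15 : cyc (jP Φ D D' z 1) = cyc y := by rw [← e5]; exact cyc_eq.2 q2.same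
  refine ⟨gadJNM (jP Φ D D' z), ⟨_, D, _, D', _, z, h.sh, ⟨h0, ?_, ?_, ?_, ?_, ?_, ?_⟩, ?_, rfl⟩,
    ?_, ?_⟩
  · intro e
    have e1 := congrArg Subtype.val e
    change (jP Φ D D' z 0).1 = (jP Φ D D' z 10).1 at e1
    rw [h.v0, h.v10] at e1
    exact h10 (Ring1.RF_inj e1)
  · change cyc (jP Φ D D' z 0) ≠ cyc (jP Φ D D' z 4)
    rw [e0, e4]
    exact h4
  · change cyc (jP Φ D D' z 1) ≠ cyc (jP Φ D D' z 2)
    rw [c15, e2]
    exact hyy
  · convert q1 <;> rfl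
  · convert q2 <;> rfl
  · convert q3 <;> rfl
  · change _ = {cyc (jP Φ D D' z 0), cyc (jP Φ D D' z 1), cyc (jP Φ D D' z 2)}
    rw [e0, c15, e2]
  · intro w hw
    obtain ⟨i, hi, rfl⟩ := mem_gadJNM_B.1 hw
    have hix : ∀ i ∈ ixJN, i < 20 := by decide
    rcases h.jg z (B := {jP Φ D D' z i}) (fun w hw => ⟨i, hix i hi, Finset.mem_singleton.1 hw⟩) _
      (Finset.mem_singleton_self _) with ⟨Ψ, h1, h2⟩ | ⟨G, h1, h2⟩ | ⟨Ψ, h1, h2⟩
    · rcases h1 with rfl | ⟨h1, _⟩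
      · exact Or.inl ⟨_, rfl, h2⟩
      · omega
    · rcases h1 with rfl | rfl | rfl | ⟨h1, _⟩
      · exact Or.inr (Or.inl ⟨_, Or.inl rfl, h2⟩)
      · exact Or.inr (Or.inl ⟨_, Or.inr (Or.inl rfl), h2⟩)
      · exact Or.inr (Or.inl ⟨_, Or.inr (Or.inr rfl), h2⟩)
      · omega
    · exact Or.inr (Or.inr ⟨Ψ, h1.2, h2⟩)
  · intro w hw
    obtain ⟨i, hi, rfl⟩ := mem_gadJNM_B.1 hw
    have hix : ∀ i ∈ ixJN, i < 20 := by decide
    by_cases h5 : i = 5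
    · subst h5
      left
      rw [e5]
      exact Or.inr (Or.inl rfl)
    · have h1 := h.olds hn z hy hy' i (hix i hi) h5
      rw [e0, e4] at h1
      rcases h1 with h1 | h1 | h1 | h1 | h1 | ⟨_, h1⟩ | ⟨h1, _⟩
      · exact Or.inl (Or.inl h1)
      · exact Or.inr (Or.inr (Or.inl h1))
      · exact Or.inr (Or.inl h1)
      · exact Or.inl (Or.inr (Or.inl h1))
      · exact Or.inl (Or.inr (Or.inr h1))
      · exact Or.inr (Or.inr (Or.inr h1))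
      · omega

end J

end Pool.OddHC
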