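import Pool.Agent.Work.MP_8f87b2_h35.GadJ2Y
import Pool.Agent.Work.MP_8f87b2_h40.TyJMr

/-!
# MP_8f87b2_co, one soliton, no beads: type TyJY = the pair JM merged with the E pair (mirror, 19 words, `1 ≤ Φ 0`)

New T-cycles: word 0 = `Φ + [0]`, word 4 = `Φ + [-1]`, word 1 = `()()R` (with `R()()` = word 5, and 11), word 2 = `()R()`. Old
words of the same height: 13, 16, 18 (content with exactly one `1`); all other old words are higher.
-/

set_option autoImplicit false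

namespace Pool.OddHC

open Finset Equiv BinaryTree Pool.Agent.Work.MP_8f87b2_co

namespace J

variable {k p t u : ℕ} {D D' : BinaryTree Unit}

/-- old words are on other T-cycles -/
theorem Sh.oldJY (h : Sh k p D t D' u) {w0 : X k} (hp : NMOK p D t D' u w0) :
    ∀ i ∈ [2, 4, 0, 1], ∀ j ∈ [3, 6, 7, 8, 12, 13, 14, 15, 16, 17, 18, 19],
      cyc (jM p D t D' u w0 i) ≠ cyc (jM p D t D' u w0 j) := by
  have hr : ∀ j ∈ [3, 6, 7, 8, 12, 13, 14, 15, 16, 17, 18, 19], j ∈ [13, 16, 18] ∨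
      j ∈ [3, 6, 7, 8, 9, 12, 14, 15, 17, 19] := by
    decide
  have hr2 : ∀ i ∈ [2, 4, 0, 1], i ∈ [0, 1, 2, 4, 13, 16, 18] := by decide
  have hr3 : ∀ i ∈ [2, 4, 0, 1], i = 0 ∨ i = 4 ∨ i ∈ [1, 2] := by decide
  intro i hi j hj e
  rcases hr j hj with h1 | h1
  · have h4 : (contc (cyc (jM p D t D' u w0 i))).count 1 = (contc (cyc (jM p D t D' u w0 j))).count 1 :=
      by rw [e]
    rw [contc_cyc, contc_cyc, h.contM, h.contM, h.countM hp.t1 w0 j h1] at h4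
    rcases hr3 i hi with rfl | rfl | h2
    · rw [h.cont0, Multiset.count_add, h.one] at h4
      exact absurd h4 (by decide)
    · rw [h.cont4, Multiset.count_add, h.one] at h4
      exact absurd h4 (by decide)
    · rw [h.count12 w0 i h2] at h4
      omega
  · have h4 : htc (cyc (jM p D t D' u w0 i)) = htc (cyc (jM p D t D' u w0 j)) := by rw [e]
    rw [htc_cyc, htc_cyc, htM, htM, h.ht_eq' hp.t1 w0 i (hr2 i hi)] at h4
    have := h.ht_gt w0 j h1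
    omega

theorem Sh.sepJY (h : Sh k p D t D' u) {w0 : X k} (hp : NMOK p D t D' u w0) :
    ∀ i ∈ [2, 4, 0, 1], ∀ j ∈ [2, 4, 0, 1],
      cyc (jM p D t D' u w0 i) = cyc (jM p D t D' u w0 j) → i = j := by
  have hr3 : ∀ i ∈ [2, 4, 0, 1], i ∈ [0, 4] ∨ i ∈ [1, 2] := by decide
  have key : ∀ i ∈ [0, 4], ∀ j ∈ [1, 2],
      cyc (jM p D t D' u w0 i) ≠ cyc (jM p D t D' u w0 j) := by
    intro i hi j h2 e
    have hc : OddHC.cont (jM p D t D' u w0 i).1 = OddHC.cont (RR p D t) + {2} := by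
      simp only [List.mem_cons, List.not_mem_nil, or_false] at hi
      rcases hi with rfl | rfl
      · exact h.cont0M w0
      · exact h.cont4M w0
    exact h.otherM w0 (i := j) (by simp at h2; omega) (by simp at h2; omega)
        (by simp at h2; omega) (by simp at h2; omega) (by simp at h2; omega) hc
        (cyc_eq.1 e)
  intro i hi j hj e
  rcases hr3 i hi with h1 | h1 <;> rcases hr3 j hj with h2 | h2
  · simp only [List.mem_cons, List.not_mem_nil, or_false] at h1 h2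
    rcases h1 with rfl | rfl <;> rcases h2 with rfl | rfl
    · rfl
    · exact absurd e hp.n4
    · exact absurd e.symm hp.n4
    · rfl
  · exact absurd e (key i h1 j h2)
  · exact absurd e.symm (key j h2 i h1)
  · simp only [List.mem_cons, List.not_mem_nil, or_false] at h1 h2
    rcases h1 with rfl | rfl <;> rcases h2 with rfl | rfl
    · rfl
    · exact absurd e hp.n12
    · exact absurd e.symm hp.n12
    · rfl

theorem Sh.absJY (h : Sh k p D t D' u) {w0 : X k} (hp : NMOK p D t D' u w0) :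
    (gadJ2Y (jM p D t D' u w0)).Abs := by
  classical
  have e := h.num
  have es := h.size
  have hix : ∀ i ∈ ixJ2Y, i < 20 := by decide
  have hnw : ∀ i ∈ nwJ2Y, i ∈ [2, 4, 0, 1] := by decide
  have hod : ∀ i ∈ odJ2Y, i ∈ [3, 6, 7, 8, 12, 13, 14, 15, 16, 17, 18, 19] := by decide
  apply gadJ2Y_abs (R := Tsq.mir (RR p D t)) (Q := .nil) (B := Tsq.mir (b2 t))
    (S := Tsq.mir (RR 0 D' u))
    (by rw [Tsq.mir_num]; change 0 + _ + 2 = k; omega)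
    (by rw [Tsq.mir_num, Tsq.mir_num]; change 0 + _ + _ + 2 = k; omega)
    (fun i hi => h.wordM' w0 (hix i hi))
    (fun i hi j hj => h.injM hp.pair i (hix i hi) j (hix j hj))
  · intro q hq
    simp only [prJ2Y, List.mem_cons, List.not_mem_nil, or_false] at hq
    subst hq
    exact h.same10M w0
  · intro q hq
    simp only [trJ2Y, List.mem_cons, List.not_mem_nil, or_false] at hq
    subst hq
    refine ⟨{jM p D t D' u w0 11, jM p D t D' u w0 1, jM p D t D' u w0 5}, by simp, ?_, ?_, ?_⟩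
    · convert hp.f1
    · convert hp.f5
    · convert hp.f11
  · exact fun i hi j hj hs => h.sepJY hp i (hnw i hi) j (hnw j hj) (cyc_eq.2 hs)
  · exact fun i hi j hj hs => h.oldJY hp i (hnw i hi) j (hod j hj) (cyc_eq.2 hs)

end J

open J

variable {k : ℕ} {F F' : Set (Cyc k)} {g g' : DG k}

/-- TYPE JY (JM merged with the E pair) -/
def TyJY (F : Set (Cyc k)) (g : DG k) : Prop :=
  ∃ (p : ℕ) (D : BinaryTree Unit) (t : ℕ) (D' : BinaryTree Unit) (u : ℕ) (w0 : X k),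
    Sh k p D t D' u ∧ NMOK p D t D' u w0 ∧
    F = {c | ∃ i ∈ [2, 4, 0, 1], c = cyc (jM p D t D' u w0 i)} ∧ g = gadJ2Y (jM p D t D' u w0)

theorem TyJY.hF (h : TyJY F g) : ∀ w, w ∈ g.F ↔ cyc w ∈ F := by
  obtain ⟨p, D, t, D', u, w0, h1, hp, rfl, rfl⟩ := h
  intro w
  change (∃ c ∈ nwJ2Y, TT.SameCycle (jM p D t D' u w0 c) w) ↔ _
  have hnw : ∀ i ∈ nwJ2Y, i ∈ [2, 4, 0, 1] := by decide
  have hnw' : ∀ i ∈ [2, 4, 0, 1], i ∈ nwJ2Y := by decide
  constructor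
  · rintro ⟨c, hc, hs⟩
    exact ⟨c, hnw c hc, (cyc_eq.2 hs).symm⟩
  · rintro ⟨c, hc, hs⟩
    exact ⟨c, hnw' c hc, cyc_eq.1 hs.symm⟩

theorem TyJY.new (h : TyJY F g) : ∀ c ∈ F, ∃ u ∈ g.B, cyc u = c := by
  obtain ⟨p, D, t, D', u, w0, h1, hp, rfl, rfl⟩ := h
  rintro c ⟨i, hi, rfl⟩
  have hix : ∀ i ∈ [2, 4, 0, 1], i ∈ ixJ2Y := by decide
  exact ⟨_, mem_gadOf_B.2 ⟨i, hix i hi, rfl⟩, rfl⟩

theorem TyJY.htp (h : TyJY F g) : ∀ c ∈ F, ∀ d ∈ F, htc c = htc d := by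
  obtain ⟨p, D, t, D', u, w0, h1, hp, rfl, rfl⟩ := h
  have key : ∀ i ∈ [2, 4, 0, 1], htc (cyc (jM p D t D' u w0 i)) = ht (RR p D t) := by
    intro i hi
    rw [htc_cyc, htM]
    exact h1.ht_eq' hp.t1 w0 i (by simp at hi ⊢; omega)
  rintro c ⟨i, hi, rfl⟩ d ⟨j, hj, rfl⟩
  rw [key i hi, key j hj]

/-- rank: the old words are higher, or of the same height with exactly one part `1` -/
theorem TyJY.rank (h : TyJY F g) : ∀ w ∈ g.B, cyc w ∈ F ∨ (∀ c ∈ F, htc c < htc (cyc w)) ∨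
    ((∀ c ∈ F, htc (cyc w) = htc c) ∧ (contc (cyc w)).count 1 = 1) := by
  obtain ⟨p, D, t, D', u, w0, h1, hp, rfl, rfl⟩ := h
  have key : ∀ i ∈ [0, 1, 2, 4, 13, 16, 18], htc (cyc (jM p D t D' u w0 i)) = ht (RR p D t) := by
    intro i hi
    rw [htc_cyc, htM]
    exact h1.ht_eq' hp.t1 w0 i hi
  have hr : ∀ i ∈ ixJ2Y, i ∈ [2, 4, 0, 1] ∨ i = 10 ∨ i = 11 ∨ i = 5 ∨ i ∈ [13, 16, 18] ∨
      i ∈ [3, 6, 7, 8, 9, 12, 14, 15, 17, 19] := by decide
  have hr2 : ∀ i ∈ [2, 4, 0, 1], i ∈ [0, 1, 2, 4, 13, 16, 18] := by decide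
  intro w hw
  obtain ⟨i, hi, rfl⟩ := mem_gadOf_B.1 hw
  rcases hr i hi with h2 | rfl | rfl | rfl | h2 | h2
  · exact Or.inl ⟨i, h2, rfl⟩
  · exact Or.inl ⟨0, by decide, h1.cyc10M w0⟩
  · exact Or.inl ⟨1, by decide, cyc_eq.2 hp.f11.same⟩
  · exact Or.inl ⟨1, by decide, (cyc_eq.2 hp.f1.same).symm⟩
  · right; right
    constructor
    · rintro c ⟨j, hj, rfl⟩
      rw [key i (by simp at h2 ⊢; omega), key j (hr2 j hj)]
    · rw [contc_cyc, h1.contM, h1.countM hp.t1 w0 i h2]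
  · right; left
    have h3 := h1.ht_gt w0 i h2
    rw [← htM, ← htc_cyc] at h3
    rintro c ⟨j, hj, rfl⟩
    rw [key j (hr2 j hj)]
    exact h3

theorem TyJY.old (h : TyJY F g) : ∃ u ∈ g.B, cyc u ∉ F := by
  obtain ⟨p, D, t, D', u, w0, h1, hp, rfl, rfl⟩ := h
  refine ⟨_, mem_gadOf_B.2 ⟨3, by decide, rfl⟩, ?_⟩
  rintro ⟨i, hi, e⟩
  exact h1.oldJY hp i hi 3 (by decide) e.symm

theorem TyJY.abs (h : TyJY F g) : g.Abs := by
  obtain ⟨p, D, t, D', u, w0, h1, hp, rfl, rfl⟩ := h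
  exact h1.absJY hp

theorem TyJY.path (h : TyJY F g) : ∀ a ∈ g.arcs, ∃ n : ℕ, (TT ^ (n + 1)) a.1 = a.2 ∧ a.1 ∈ g.B ∧
    ∀ i < n, (TT ^ (i + 1)) a.1 ∈ innA a := by
  obtain ⟨p, D, t, D', u, w0, h1, hp, rfl, rfl⟩ := h
  intro q hq
  have key : ∀ i j, (i, j) ∈ [(0, 10), (1, 11), (3, 12), (6, 15), (8, 14), (9, 17)] → j ∈ ixJ2Y →
      q = (jM p D t D' u w0 j, jM p D t D' u w0 i) →
      ∃ n : ℕ, (TT ^ (n + 1)) q.1 = q.2 ∧ q.1 ∈ (gadJ2Y (jM p D t D' u w0)).B ∧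
        ∀ i < n, (TT ^ (i + 1)) q.1 ∈ innA q := by
    rintro i j hij hj rfl
    refine ⟨1, ?_, mem_gadOf_B.2 ⟨j, hj, rfl⟩, ?_⟩
    · rw [pow_succ, pow_one, Perm.mul_apply]
      exact h1.linkM w0 hij
    · intro n hn
      obtain rfl : n = 0 := by omega
      rw [pow_one]
      rfl
  obtain ⟨r, hr, rfl⟩ := mem_gadOf_arcs.1 hq
  simp only [arJ2Y, List.mem_cons, List.not_mem_nil, or_false] at hr
  rcases hr with rfl | rfl | rfl
  · exact key 3 12 (by simp) (by decide) rfl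
  · exact key 6 15 (by simp) (by decide) rfl
  · exact key 8 14 (by simp) (by decide) rfl

namespace J

variable {n : ℕ}

/-- existence of JY over `Φ`, `1 ≤ Φ 0` -/
theorem exJY (hn : 1 ≤ n) (Φ : ZMod (2 * n + 1) → ℕ) (hk : n + 4 + 2 * ∑ x, Φ x = k)
    (h0 : 1 ≤ Φ 0) {z z' y y' : X k} (hz : z.1 = Ring1.RF n (ad Φ 0))
    (hz' : z'.1 = Ring1.RF n (ad Φ (-1)))
    (hy : y.1 = app (Ring1.RF n Φ) (.nil △ (.nil △ .nil)))
    (hy' : y'.1 = .nil △ app (Ring1.RF n Φ) (.nil △ .nil))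
    (h10 : ad Φ 0 ≠ ad (fun z => Φ (z + 1)) (-1)) (h4 : cyc z ≠ cyc z') :
    ∃ g : DG k, TyJY {cyc z, cyc z', cyc y, cyc y'} g ∧
      JG n g.B {Φ} (UN Φ) {fun z => Φ (z + 1)} := by
  classical
  have hyy := bb_ne_fb hn Φ Φ rfl hy hy'
  obtain ⟨D, D', h⟩ := exMD (k := k) hn Φ hk
  have e0 : jP Φ D D' z 0 = z := Subtype.ext ((h.v0 z).trans hz.symm)
  have e4 : jP Φ D D' z 4 = z' := Subtype.ext ((h.v4 z).trans hz'.symm)
  have v5 : (jP Φ D D' z 5).1 = app (Ring1.RF n Φ) (.nil △ (.nil △ .nil)) := h.vm z (by norm_num)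
  have v1 : (jP Φ D D' z 1).1 = .nil △ (.nil △ Ring1.RF n Φ) := h.vm z (by norm_num)
  have v2 : (jP Φ D D' z 2).1 = .nil △ app (Ring1.RF n Φ) (.nil △ .nil) := h.vm z (by norm_num)
  have e5 : jP Φ D D' z 5 = y := Subtype.ext (v5.trans hy.symm)
  have e2 : jP Φ D D' z 2 = y' := Subtype.ext (v2.trans hy'.symm)
  have hF : 1 ≤ ∑ x, Φ x := h0.trans (Finset.single_le_sum (f := Φ) (fun _ _ => Nat.zero_le _) (mem_univ 0))
  have hv : TT (TT (jP Φ D D' z 11)) = jP Φ D D' z 1 := h.sh.linkM z (by simp)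
  obtain ⟨q1, q2, q3⟩ := Ring1.order_left hn Φ hF v5 v1 hv
  have c15 : cyc (jP Φ D D' z 1) = cyc y := by rw [← e5]; exact cyc_eq.2 q2.same
  refine ⟨gadJ2Y (jP Φ D D' z), ⟨_, D, _, D', _, z, h.sh, ⟨h0, ?_, ?_, ?_, ?_, ?_, ?_⟩, ?_, rfl⟩, ?_⟩
  · intro e
    have e1 := congrArg Subtype.val e
    change (jP Φ D D' z 0).1 = (jP Φ D D' z 10).1 at e1
    rw [h.v0, h.v10] at e1
    exact h10 (Ring1.RF_inj e1)
  · change cyc (jP Φ D D' z 0) ≠ cyc (jP Φ D D' z 4)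
    rw [e0, e4]
    exact h4
  · change cyc (jP Φ D D' z 1) ≠ cyc (jP Φ D D' z 2)
    rw [c15, e2]
    exact hyy
  · convert q1 <;> rfl
  · convert q2 <;> rfl
  · convert q3 <;> rfl
  · ext c
    change _ ↔ ∃ i ∈ [2, 4, 0, 1], c = cyc (jP Φ D D' z i)
    simp only [List.mem_cons, List.not_mem_nil, or_false, exists_eq_or_imp,
      exists_eq_left, Set.mem_insert_iff, Set.mem_singleton_iff, e0, e4, c15, e2]
    tauto
  · intro w hw
    obtain ⟨i, hi, rfl⟩ := mem_gadOf_B.1 hw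
    have hix : ∀ i ∈ ixJ2Y, i < 20 := by decide
    rcases h.jg z (B := {jP Φ D D' z i}) (fun w hw => ⟨i, hix i hi, Finset.mem_singleton.1 hw⟩) _
      (Finset.mem_singleton_self _) with ⟨Ψ, h1, h2⟩ | ⟨G, h1, h2⟩ | ⟨Ψ, h1, h2⟩
    · rcases h1 with rfl | ⟨h1, _⟩
      · exact Or.inl ⟨_, rfl, h2⟩
      · omega
    · rcases h1 with rfl | rfl | rfl | ⟨h1, _⟩
      · exact Or.inr (Or.inl ⟨_, Or.inl rfl, h2⟩)
      · exact Or.inr (Or.inl ⟨_, Or.inr (Or.inl rfl), h2⟩)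
      · exact Or.inr (Or.inl ⟨_, Or.inr (Or.inr rfl), h2⟩)
      · omega
    · exact Or.inr (Or.inr ⟨Ψ, h1.2, h2⟩)

end J

end Pool.OddHC
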