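import Pool.Agent.Work.MP_8f87b2_h40.H2i

/-!
# MP_8f87b2_co, HOLE 2: words of an even level

`levTwo_of_list`: beads in the gaps `x`, `x + d`. `levTwo_gen`: the word `inf P () inf R () inf Q`, level `2 |R|`.
`levTwo_in`: the word `(inf P (()())) (()) ()`: level 4.
-/

set_option autoImplicit false

namespace Pool.OddHC

open Finset BinaryTree

variable {k j : ℕ}

namespace Hole2

/-- **two beads in the gaps `x`, `x + d`**, `d` even -/
theorem levTwo_of_list {u : X j} {w : X k} {e : List ℕ} (he : e.length = 2 * j + 1)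
    (hw : w.1 = ins u.1 e) (x d : ℕ) (hx : x + d < 2 * j + 1) (h2 : 2 ≤ d) (hd : d ≤ j) (hd2 : d % 2 = 0)
    (h : ∀ z, z < 2 * j + 1 → e.getD z 0 = (if z = x then 1 else 0) + if z = x + d then 1 else 0) :
    LevTwo (cyc w) := by
  obtain ⟨a, rfl⟩ := exists_lf he
  have ha : ∀ z, a z = (if z.val = x then 1 else 0) + if z.val = x + d then 1 else 0 := by
    intro z
    rw [← h z.val (ZMod.val_lt z), lf_getD]
  refine ⟨j, u, (x : ZMod (2 * j + 1)), d, w, h2, hd, hd2, rfl, ?_⟩
  rw [hw]
  congr 2
  funext z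
  rw [ha, ← Nat.cast_add]
  simp only [val_eq_iff z (show x < 2 * j + 1 by omega), val_eq_iff z hx]

theorem gen_getD (p r q z : ℕ) :
    (List.replicate (2 * p) 0 ++ 1 :: (List.replicate (2 * r + 1) 0 ++ 1 :: List.replicate (2 * q) 0)).getD z 0 =
      (if z = 2 * p then 1 else 0) + if z = 2 * p + (2 * r + 2) then 1 else 0 := by
  by_cases h : z < 2 * p
  · rw [List.getD_append _ _ _ _ (by simpa using h), List.getD_replicate _ h, if_neg (by omega),
      if_neg (by omega)]
  · rw [List.getD_append_right _ _ _ _ (by simp; omega), List.length_replicate]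
    obtain ⟨t, ht⟩ : ∃ t, z = 2 * p + t := ⟨z - 2 * p, by omega⟩
    subst ht
    rw [Nat.add_sub_cancel_left]
    rcases t with _ | t
    · simp
    · rw [List.getD_cons_succ, if_neg (by omega)]
      by_cases h2 : t < 2 * r + 1
      · rw [List.getD_append _ _ _ _ (by simpa using h2), List.getD_replicate _ h2, if_neg (by omega)]
      · rw [List.getD_append_right _ _ _ _ (by simp; omega), List.length_replicate]
        obtain ⟨s, hs⟩ : ∃ s, t = 2 * r + 1 + s := ⟨t - (2 * r + 1), by omega⟩
        subst hs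
        rw [Nat.add_sub_cancel_left]
        rcases s with _ | s
        · simp
        · rw [List.getD_cons_succ, if_neg (by omega)]
          by_cases h3 : s < 2 * q
          · rw [List.getD_replicate _ h3]
          · rw [List.getD_eq_default]
            simpa using h3

/-- **a word of level `2 |R|`** -/
theorem levTwo_gen (P R Q : BinaryTree Unit) {w : X k}
    (hw : w.1 = app (inf P) (.nil △ app (inf R) (.nil △ inf Q)))
    (hR : 1 ≤ R.numNodes) (h : R.numNodes ≤ P.numNodes + Q.numNodes) : LevTwo (cyc w) := by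
  obtain ⟨r, hr⟩ : ∃ r, R.numNodes = r + 1 := ⟨R.numNodes - 1, by omega⟩
  obtain ⟨j, hj⟩ : ∃ j, j = P.numNodes + R.numNodes + Q.numNodes := ⟨_, rfl⟩
  have hn : (app P (app R Q)).numNodes = j := by
    rw [num_app, num_app]
    omega
  obtain ⟨u, hu⟩ : ∃ u : X j, u.1 = app P (app R Q) := ⟨⟨_, mem_treesOfNumNodesEq.2 hn⟩, rfl⟩
  have he : (List.replicate (2 * P.numNodes) 0 ++ 1 :: (List.replicate (2 * r + 1) 0 ++
      1 :: List.replicate (2 * Q.numNodes) 0)).length = 2 * j + 1 := by
    simp only [List.length_append, List.length_cons, List.length_replicate]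
    omega
  have h1 : w.1 = ins u.1 (List.replicate (2 * P.numNodes) 0 ++ 1 :: (List.replicate (2 * r + 1) 0 ++
      1 :: List.replicate (2 * Q.numNodes) 0)) := by
    have e1 : List.replicate (2 * P.numNodes) 0 ++ 1 :: (List.replicate (2 * r + 1) 0 ++
        1 :: List.replicate (2 * Q.numNodes) 0) = (List.replicate (2 * P.numNodes) 0 ++ [1]) ++
          (List.replicate (2 * r + 1) 0 ++ 1 :: List.replicate (2 * Q.numNodes) 0) := by
      simp
    have e2 : 0 :: (List.replicate (2 * r + 1) 0 ++ 1 :: List.replicate (2 * Q.numNodes) 0) =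
        (List.replicate (2 * R.numNodes) 0 ++ [1]) ++ List.replicate (2 * Q.numNodes) 0 := by
      rw [hr, show 2 * (r + 1) = (2 * r + 1) + 1 by ring, List.replicate_succ (n := 2 * r + 1)]
      simp
    have e3 : ins Q (0 :: List.replicate (2 * Q.numNodes) 0) = inf Q := by
      rw [← List.replicate_succ]
      rfl
    rw [hw, hu, e1, ins_app _ _ _ _ (by simp), ins_end, app_assoc', e2, ins_app _ _ _ _ (by simp),
      ins_end, app_assoc', e3]
    rfl
  refine levTwo_of_list he h1 (2 * P.numNodes) (2 * r + 2) (by omega) (by omega) (by omega) (by omega)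
    fun z _ => gen_getD _ _ _ z

/-- the word `(P' (()())) (()) ()`, `P' = inf P`, `P` with at least two letters: level 4 -/
theorem levTwo_in (P : BinaryTree Unit) {w : X k}
    (hw : w.1 = (app (inf P) ((.nil △ (.nil △ .nil)) △ .nil)) △ ((.nil △ .nil) △ (.nil △ .nil)))
    (hP : 1 ≤ P.numNodes) : LevTwo (cyc w) := by
  obtain ⟨j, hj⟩ : ∃ j, j = P.numNodes + 3 := ⟨_, rfl⟩
  have hn : ((app P (.nil △ .nil)) △ (.nil △ .nil)).numNodes = j := by
    change (app P (.nil △ .nil)).numNodes + 1 + 1 = j
    rw [num_app]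
    change P.numNodes + 1 + 1 + 1 = j
    omega
  obtain ⟨u, hu⟩ : ∃ u : X j, u.1 = (app P (.nil △ .nil)) △ (.nil △ .nil) :=
    ⟨⟨_, mem_treesOfNumNodesEq.2 hn⟩, rfl⟩
  obtain ⟨e, he0⟩ : ∃ e, e = List.replicate (2 * (P.numNodes + 1)) 0 ++ 1 :: (List.replicate (2 * 1 + 1) 0 ++
      1 :: List.replicate (2 * 0) 0) := ⟨_, rfl⟩
  have he : e.length = 2 * j + 1 := by
    rw [he0]
    simp only [List.length_append, List.length_cons, List.length_replicate]
    omega
  have h1 : w.1 = ins u.1 e := by
    have e1 : e = 0 :: ((List.replicate (2 * P.numNodes + 1) 0 ++ [1, 0]) ++ [0, 0, 1]) := by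
      rw [he0, show 2 * (P.numNodes + 1) = (2 * P.numNodes + 1) + 1 by ring,
        List.replicate_succ (n := 2 * P.numNodes + 1)]
      simp [List.replicate_succ]
    have hl : (List.replicate (2 * P.numNodes + 1) 0 ++ [1, 0]).length =
        2 * (app P (.nil △ .nil)).numNodes + 1 := by
      rw [num_app, List.length_append, List.length_replicate]
      change 2 * P.numNodes + 1 + 2 = 2 * (P.numNodes + 1) + 1
      ring
    have e2 : List.take (2 * (app P (.nil △ .nil)).numNodes + 1) ((List.replicate (2 * P.numNodes + 1) 0 ++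
        [1, 0]) ++ [0, 0, 1]) = List.replicate (2 * P.numNodes + 1) 0 ++ [1, 0] :=
      List.take_left' hl
    have e3 : List.drop (2 * (app P (.nil △ .nil)).numNodes + 2) (0 :: ((List.replicate (2 * P.numNodes + 1) 0 ++
        [1, 0]) ++ [0, 0, 1])) = [0, 0, 1] := by
      rw [List.drop_succ_cons]
      exact List.drop_left' hl
    have e4 : ins (app P (.nil △ .nil)) (List.replicate (2 * P.numNodes + 1) 0 ++ [1, 0]) =
        app (inf P) ((.nil △ (.nil △ .nil)) △ .nil) := by
      rw [ins_app _ _ _ _ (by simp)]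
      rfl
    have e5 : bump (app P (.nil △ .nil)) (List.replicate (2 * P.numNodes + 1) 0 ++ [1, 0]) =
        List.replicate (2 * P.numNodes + 1) 0 ++ [1, 0] := by
      cases P with
      | nil => exact absurd hP (by change ¬ 1 ≤ 0; omega)
      | node _ A B => rfl
    rw [hw, hu, e1, ins, List.headD_cons, List.tail_cons, e2, e3, e5, e4]
    rfl
  refine levTwo_of_list he h1 (2 * (P.numNodes + 1)) (2 * 1 + 2) (by omega) (by omega) (by omega) (by omega)
    fun z _ => ?_
  rw [he0]
  exact gen_getD _ _ _ z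

end Hole2

end Pool.OddHC
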