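import Pool.Agent.Work.MP_8f87b2_h40.H2i
import Pool.Agent.Work.MP_8f87b2_fin.Frame

/-!
# MP_8f87b2_co: the classes `(n + 2, 2^a, 1^m)`, one soliton, `m ≥ 3`

`ClsOK.add`: more groups. `cls_dataM`: the class. `cls_m4`: `m ≥ 4`. `cls_m3`: `m = 3`, one explicit pair over every reduced
T-cycle (removal sets as hypothesis).
-/

set_option autoImplicit false

namespace Pool.OddHC

open Finset Equiv BinaryTree Multiset Pool.OddHop Pool.Agent.Work.MP_8f87b2_co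

variable {k n a b j m : ℕ}

section
variable {τp τw : Type} {Pp : τp → Set (Cyc k) → DG k → Prop} {Pw : τw → Set (Cyc k) → DG k → Prop}
  {AE : Cyc k → Cyc k → Prop}

/-- more groups in a class -/
theorem ClsOK.add {κ : RD × Multiset ℕ} {X : Set (Cyc k)} {Gp Gw G0 : Set (Set (Cyc k))}
    (h : ClsOK AE κ (X ∪ inG G0) Gp Gw Pp Pw) (ne : ∀ F ∈ G0, F.Nonempty)
    (sub : ∀ F ∈ G0, ∀ c ∈ F, cl c = κ ∧ c ∉ X)
    (one : ∀ F ∈ G0, ∀ F' ∈ G0, ∀ c, c ∈ F → c ∈ F' → F = F')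
    (ty : ∀ F ∈ G0, ∃ t g, Pp t F g) : ClsOK AE κ X (Gp ∪ G0) Gw Pp Pw := by
  have hdis : ∀ F ∈ Gp ∪ Gw, ∀ c ∈ F, ∀ F' ∈ G0, c ∉ F' := by
    intro F hF c hc F' hF' hc'
    exact (h.sub F hF c hc).2 (Or.inr ⟨F', hF', hc'⟩)
  have hcase : ∀ F, F ∈ (Gp ∪ G0) ∪ Gw → F ∈ Gp ∪ Gw ∨ F ∈ G0 := by
    rintro F ((hF | hF) | hF)
    · exact Or.inl (Or.inl hF)
    · exact Or.inr hF
    · exact Or.inl (Or.inr hF)
  refine ⟨?_, ?_, ?_, ?_, ?_, h.exw, ?_⟩
  · intro F hF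
    rcases hcase F hF with hF | hF
    · exact h.ne F hF
    · exact ne F hF
  · intro F hF c hc
    rcases hcase F hF with hF | hF
    · obtain ⟨h1, h2⟩ := h.sub F hF c hc
      exact ⟨h1, fun h3 => h2 (Or.inl h3)⟩
    · exact sub F hF c hc
  · intro F hF F' hF' c hc hc'
    rcases hcase F hF with hF | hF <;> rcases hcase F' hF' with hF' | hF'
    · exact h.one F hF F' hF' c hc hc'
    · exact absurd hc' (hdis F hF c hc F' hF')
    · exact absurd hc (hdis F' hF' c hc' F hF)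
    · exact one F hF F' hF' c hc hc'
  · rintro F (hF | hF) hw
    · exact h.pw F hF hw
    · obtain ⟨c, hc⟩ := ne F hF
      exact hdis F (Or.inr hw) c hc F hF hc
  · rintro F (hF | hF)
    · exact h.exp F hF
    · exact ty F hF
  · intro p hp
    refine (h.rem p hp).congr fun c _ => ?_
    constructor
    · rintro (⟨F, hF, hc⟩ | hc | ⟨F, hF, hc⟩)
      · left
        rcases hF with hF | hF
        · exact ⟨F, Or.inl (Or.inl hF), hc⟩
        · exact ⟨F, Or.inr hF, hc⟩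
      · exact Or.inr hc
      · exact Or.inl ⟨F, Or.inl (Or.inr hF), hc⟩
    · rintro (⟨F, hF, hc⟩ | hc)
      · rcases hcase F hF with hF | hF
        · exact Or.inl ⟨F, hF, hc⟩
        · exact Or.inr (Or.inr ⟨F, hF, hc⟩)
      · exact Or.inr (Or.inl hc)

end

namespace Hole2

open J Runs Ring1

/-- **the class `(n + 2, 2^a, 1^m)`** -/
theorem cls_dataM (hn : 1 ≤ n) {p : Cyc k}
    (hp : contc p = ({n + 2} + Multiset.replicate a 2) + Multiset.replicate m 1) :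
    n + 2 + 2 * a + m = k ∧ ∃ U : Cyc (n + 1 + a), Rd p = ⟨n + 1 + a, U⟩ ∧ Rd U = ⟨n, cyc (pwX n)⟩ ∧
      contc U = {n + 1} + Multiset.replicate a 1 := by
  have hs := contc_sum p
  rw [hp, Multiset.sum_add, Multiset.sum_add, Multiset.sum_singleton, Multiset.sum_replicate,
    Multiset.sum_replicate, smul_eq_mul, smul_eq_mul, mul_one] at hs
  refine ⟨by omega, ?_⟩
  obtain ⟨i, v, e, w, hw, he, hwe, hR, h1, h2, h3, h4⟩ := exists_over p
  have h5 : e.sum = m := by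
    rw [h3, hp, Multiset.count_add, Multiset.count_add, Multiset.count_singleton, Multiset.count_replicate,
      Multiset.count_replicate, if_neg (by omega), if_neg (by omega), if_pos rfl]
    omega
  have h6 : cont v.1 = {n + 1} + Multiset.replicate a 1 := by
    apply map_succ_inj
    rw [hp, h5] at h4
    have h7 := add_right_cancel h4
    rw [← h7, Multiset.map_add, Multiset.map_singleton, Multiset.map_replicate]
  have h8 : contc (cyc v) = {n + 1} + Multiset.replicate a 1 := h6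
  obtain ⟨h9, h10⟩ := red_data hn h8
  subst h9
  exact ⟨cyc v, hR, h10, h8⟩

/-- the class is determined by the content -/
theorem cl_oneM (hn : 1 ≤ n) {p q : Cyc k}
    (hp : contc p = ({n + 2} + Multiset.replicate a 2) + Multiset.replicate m 1)
    (hq : contc q = contc p) : cl q = cl p := by
  obtain ⟨_, U, h1, h2, _⟩ := cls_dataM hn hp
  obtain ⟨_, U', h1', h2', _⟩ := cls_dataM hn (hq.trans hp)
  unfold cl
  rw [hq, h1, h1']
  change (Rd U', _) = (Rd U, _)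
  rw [h2, h2']

/-- data of the class: sizes, families -/
theorem cls_fam (hn : 1 ≤ n) {U1 : Cyc (n + 1 + a)} (hU1 : Rd U1 = ⟨n, cyc (pwX n)⟩)
    (hcU1 : contc U1 = {n + 1} + Multiset.replicate a 1) {U : Cyc (n + 1 + a)} (hU : Rd U = Rd U1) :
    (contc U).count 1 = a ∧ (Rd U).1 = n ∧ ∃ (F : ZMod (2 * n + 1) → ℕ) (_ : ∑ x, F x = a)
      (hj : n + pkn (pwX n).1 + ∑ x, F x = n + 1 + a), U = cyc (phi (pwX n) F hj) := by
  have hpw := pk_pwX hn
  refine ⟨?_, by rw [hU, hU1], ?_⟩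
  · rw [Rd_contc hU, hcU1, Multiset.count_add, Multiset.count_singleton, if_neg (by omega),
      Multiset.count_replicate, if_pos rfl, zero_add]
  · obtain ⟨F, hj, rfl⟩ := exists_F U (hU.trans hU1)
    exact ⟨F, by omega, hj, rfl⟩

/-- a reduced T-cycle which is a possible leftover of the second level -/
theorem exists_U0 (hn : 1 ≤ n) {U1 : Cyc (n + 1 + a)} (hU1 : Rd U1 = ⟨n, cyc (pwX n)⟩) :
    ∃ U0 : Cyc (n + 1 + a), Rd U0 = Rd U1 ∧ (a = 2 → IsTwo U0) := by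
  have hpw := pk_pwX hn
  by_cases ha2 : a = 2
  · have hk2 : n + pkn (pwX n).1 + 2 = n + 1 + a := by omega
    obtain ⟨w, hw, hw'⟩ := tc_exists (pwX n) hk2 0 0
    refine ⟨cyc w, ?_, fun _ => ⟨n, pwX n, 0, 0, w, by omega, rfl, rfl, hw'⟩⟩
    rw [hw, Rd_tc, hU1]
  · exact ⟨U1, rfl, fun h => absurd h ha2⟩

section
variable {τp τw : Type} {Pp : τp → Set (Cyc k) → DG k → Prop} {Pw : τw → Set (Cyc k) → DG k → Prop}
  {AE : Cyc k → Cyc k → Prop}

theorem remA_mono' {A A' : Cyc k → Cyc k → Prop} {d : RD} {D : Set (Cyc k)} (h : RemA A d D)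
    (hA : ∀ p q, Rd p = d → Rd q = d → p ∉ D → q ∉ D → p ≠ q → A p q → A' p q) : RemA A' d D := by
  obtain ⟨ι, hι⟩ := h
  refine ⟨ι, fun p hp => ?_⟩
  obtain ⟨h1, h2, h3, h4⟩ := hι p hp
  refine ⟨h1, h2, ?_, h4⟩
  by_cases h5 : ι p = p
  · exact Or.inl h5
  · rcases h3 with h3 | h3
    · exact absurd h3 h5
    · refine Or.inr (hA p (ι p) hp h1 (fun h => h5 (h4.2 h)) (fun h => ?_) (fun h => h5 h.symm) h3)
      have h6 := ((hι (ι p) h1).2.2.2).2 h
      rw [h2] at h6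
      exact h5 h6.symm

/-- **the general step**: `Y` (in `X`) does not disturb the families, at most one guest `z`; `QL` : the members of the L pairs;
the hops are used outside `Y` only -/
theorem cls_gen (hn : 1 ≤ n) {p0 : Cyc k}
    (hp0 : contc p0 = ({n + 2} + Multiset.replicate a 2) + Multiset.replicate m 1)
    {QL : Cyc k → Prop} (X Y D : Set (Cyc k))
    (e : ∀ p q : Cyc k, cl p = cl p0 → cl q = cl p0 → p ∉ Y → q ∉ Y → p ≠ q → HopC p q → AE p q)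
    (hL : ∀ U U₂ : Cyc (n + 1 + a), Rd U = ⟨n, cyc (pwX n)⟩ → Rd U₂ = ⟨n, cyc (pwX n)⟩ → U ≠ U₂ →
      HopC U U₂ → ∃ p q : Cyc k, Rd p = ⟨n + 1 + a, U⟩ ∧ Rd q = ⟨n + 1 + a, U₂⟩ ∧ QL p ∧ QL q ∧
        Typd Pp Pw {p, q})
    (hX : ∀ c, cl c = cl p0 → (c ∈ X ↔ c ∈ Y ∨ c ∈ D))
    (hD : (D = ∅ ∧ ¬ (oddF n a ∧ oddF (n + 1 + a) m)) ∨
      ∃ z, D = {z} ∧ (oddF n a ∧ oddF (n + 1 + a) m) ∧ cl z = cl p0 ∧
        (a = 2 → ∀ U : Cyc (n + 1 + a), Rd z = ⟨n + 1 + a, U⟩ → IsTwo U) ∧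
        ∀ U : Cyc (n + 1 + a), Rd z = ⟨n + 1 + a, U⟩ → RemOK ⟨n + 1 + a, U⟩ ({z} ∪ Y))
    (he : ¬ oddF (n + 1 + a) m → ∀ U : Cyc (n + 1 + a), Rd U = ⟨n, cyc (pwX n)⟩ →
      RemOK ⟨n + 1 + a, U⟩ Y)
    (ho : oddF (n + 1 + a) m → ∀ (U : Cyc (n + 1 + a)) (p : Cyc k), Rd U = ⟨n, cyc (pwX n)⟩ →
      Rd p = ⟨n + 1 + a, U⟩ → QL p → p ∉ Y ∧ RemOK ⟨n + 1 + a, U⟩ ({p} ∪ Y)) :
    ∃ Gp Gw, ClsOK AE (cl p0) X Gp Gw Pp Pw := by
  obtain ⟨hk0, U1, hp1, hU1, hcU1⟩ := cls_dataM hn hp0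
  have fam : ∀ U : Cyc (n + 1 + a), Rd U = Rd U1 → (contc U).count 1 = a ∧ (Rd U).1 = n := by
    intro U hU
    obtain ⟨h1, h2, _⟩ := cls_fam hn hU1 hcU1 hU
    exact ⟨h1, h2⟩
  have hXU : ∀ U : Cyc (n + 1 + a), Rd U = Rd U1 → ∀ c : Cyc k, Rd c = ⟨n + 1 + a, U⟩ →
      (c ∈ X ↔ c ∈ Y ∨ c ∈ D) := fun U hU c hc => hX c (cl_same hp1 hc hU)
  have rem : ∀ U : Cyc (n + 1 + a), Rd U = Rd U1 → ∀ S : Set (Cyc k), (∀ c ∈ Y, c ∈ S) →
      RemOK ⟨n + 1 + a, U⟩ S → RemA AE ⟨n + 1 + a, U⟩ S := fun U hU S hS h =>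
    remA_mono' h.remA fun p q hp hq hpS hqS hne hop => e p q (cl_same hp1 hp hU) (cl_same hp1 hq hU)
      (fun h => hpS (hS p h)) (fun h => hqS (hS q h)) hne hop
  -- the reduced cycle of the leftover and its properties
  have main : ∀ U0 : Cyc (n + 1 + a), Rd U0 = Rd U1 → (a = 2 → oddF n 2 → IsTwo U0) →
      (oddF n a ∧ oddF (n + 1 + a) m → RemA AE ⟨n + 1 + a, U0⟩ X) →
      (∀ U : Cyc (n + 1 + a), Rd U = Rd U1 → (oddF n a → oddF (n + 1 + a) m → U ≠ U0) →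
        ∀ c : Cyc k, Rd c = ⟨n + 1 + a, U⟩ → c ∉ D) → ∃ Gp Gw, ClsOK AE (cl p0) X Gp Gw Pp Pw := by
    intro U0 hU0 h2 h0 hDU
    obtain ⟨I, hI⟩ := remOK_lo (Rd U0) U0 rfl (by
      intro h3 h4
      rw [(fam U0 hU0).1] at h3
      rw [(fam U0 hU0).2] at h4
      exact h2 h3 h4)
    rw [hU0] at hI
    have hfix : ∀ U, Rd U = Rd U1 → (I U = U ↔ U = U0 ∧ oddF n a) := by
      intro U hU
      rw [(hI U hU).2.2.2, Set.mem_ofPred_eq, ← hU0, (fam U0 hU0).1, (fam U0 hU0).2]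
    refine cls_of_inv' hp1 X I (fun U hU => ⟨(hI U hU).1, (hI U hU).2.1⟩) ?_ ?_
    · intro U hU hne
      obtain ⟨e1, e2, e3, _⟩ := hI U hU
      have hne' : I (I U) ≠ I U := by
        rw [e2]
        exact fun h => hne h.symm
      have hD1 : ∀ c : Cyc k, Rd c = ⟨n + 1 + a, U⟩ → c ∉ D := hDU U hU fun h1 _ h3 =>
        hne ((hfix U hU).2 ⟨h3, h1⟩)
      have hD2 : ∀ c : Cyc k, Rd c = ⟨n + 1 + a, I U⟩ → c ∉ D := hDU (I U) e1 fun h1 _ h3 =>
        hne' ((hfix (I U) e1).2 ⟨h3, h1⟩)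
      have side : ∀ W : Cyc (n + 1 + a), Rd W = Rd U1 → (∀ c : Cyc k, Rd c = ⟨n + 1 + a, W⟩ → c ∉ D) →
          (¬ oddF (n + 1 + a) m → RemA AE ⟨n + 1 + a, W⟩ X) ∧
          (oddF (n + 1 + a) m → ∀ p, Rd p = ⟨n + 1 + a, W⟩ → QL p →
            p ∉ X ∧ RemA AE ⟨n + 1 + a, W⟩ ({p} ∪ X)) := by
        intro W hW hDW
        constructor
        · intro h1
          refine (rem W hW _ (fun _ h => h) (he h1 W (hW.trans hU1))).congr fun c hc => ?_
          rw [hXU W hW c hc]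
          exact ⟨Or.inl, fun h => h.resolve_right (hDW c hc)⟩
        · intro h1 p hp hQ
          obtain ⟨h3, h4⟩ := ho h1 W p (hW.trans hU1) hp hQ
          refine ⟨?_, ?_⟩
          · rw [hXU W hW p hp]
            rintro (h | h)
            · exact h3 h
            · exact hDW p hp h
          · refine (rem W hW _ (fun _ h => Or.inr h) h4).congr fun c hc => ?_
            constructor
            · rintro (h | h)
              · exact Or.inl h
              · exact Or.inr ((hXU W hW c hc).2 (Or.inl h))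
            · rintro (h | h)
              · exact Or.inl h
              · exact Or.inr (((hXU W hW c hc).1 h).resolve_right (hDW c hc))
      have s1 := side U hU hD1
      have s2 := side (I U) e1 hD2
      by_cases h1 : oddF (n + 1 + a) m
      · right
        have hhop : HopC U (I U) := by
          rcases e3 with e3 | e3
          · exact absurd e3 hne
          · exact e3
        obtain ⟨p, q, hp, hq, hQp, hQq, ht⟩ := hL U (I U) (hU.trans hU1) (e1.trans hU1)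
          (fun h => hne h.symm) hhop
        obtain ⟨a1, a2⟩ := s1.2 h1 p hp hQp
        obtain ⟨b1, b2⟩ := s2.2 h1 q hq hQq
        exact ⟨p, q, hp, hq, a1, b1, ht, a2, b2⟩
      · exact Or.inl ⟨s1.1 h1, s2.1 h1⟩
    · intro U hU hf
      obtain ⟨rfl, h4⟩ := (hfix U hU).1 hf
      refine ⟨∅, fun F h => absurd h (Set.notMem_empty _), fun F h => absurd h (Set.notMem_empty _), ?_⟩
      rw [inG_empty', Set.empty_union]
      by_cases h1 : oddF (n + 1 + a) m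
      · exact h0 ⟨h4, h1⟩
      · refine (rem U hU _ (fun _ h => h) (he h1 U (hU.trans hU1))).congr fun c hc => ?_
        rw [hXU U hU c hc]
        exact ⟨Or.inl, fun h => h.resolve_right (hDU U hU (fun _ h5 => absurd h5 h1) c hc)⟩
  rcases hD with ⟨rfl, hb⟩ | ⟨z, rfl, hb, hz, hz2, hzr⟩
  · obtain ⟨U0, hU0, h2⟩ := exists_U0 (a := a) hn hU1
    exact main U0 hU0 (fun h _ => h2 h) (fun h => absurd h hb)
      (fun _ _ _ _ _ => Set.notMem_empty _)
  · obtain ⟨h1, h2⟩ := cl_iff.1 hz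
    rw [hp1] at h1 h2
    obtain ⟨U0, hU0⟩ : ∃ U0 : Cyc (n + 1 + a), Rd z = ⟨n + 1 + a, U0⟩ := by
      revert h1
      generalize Rd z = dz
      intro h1
      obtain ⟨i, U⟩ := dz
      change i = n + 1 + a at h1
      subst h1
      exact ⟨U, rfl⟩
    rw [hU0] at h2
    change Rd U0 = Rd U1 at h2
    refine main U0 h2 (fun h _ => hz2 h U0 hU0) (fun _ => ?_) ?_
    · refine (rem U0 h2 _ (fun _ h => Or.inr h) (hzr U0 hU0)).congr fun c hc => ?_
      rw [hXU U0 h2 c hc]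
      exact ⟨fun h => h.symm, fun h => h.symm⟩
    · intro U hU hne c hc h
      rw [Set.mem_singleton_iff] at h
      subst h
      rw [hU0] at hc
      exact hne hb.1 hb.2 (eq_of_heq (Sigma.mk.inj_iff.1 hc).2).symm

/-- **`m ≥ 4`** (in fact `m ≥ 3` if no pair has to be explicit) -/
theorem cls_m4 (hn : 1 ≤ n) (hm : 3 ≤ m) {p0 : Cyc k}
    (hp0 : contc p0 = ({n + 2} + Multiset.replicate a 2) + Multiset.replicate m 1)
    (hEnv : ClsEnv AE Pp Pw (cl p0)) (X D : Set (Cyc k)) (hX : ∀ c, cl c = cl p0 → (c ∈ X ↔ c ∈ D))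
    (hD : (D = ∅ ∧ ¬ (oddF n a ∧ oddF (n + 1 + a) m)) ∨
      ∃ z, D = {z} ∧ (oddF n a ∧ oddF (n + 1 + a) m) ∧ cl z = cl p0 ∧
        (a = 2 → ∀ U : Cyc (n + 1 + a), Rd z = ⟨n + 1 + a, U⟩ → IsTwo U)) :
    ∃ Gp Gw, ClsOK AE (cl p0) X Gp Gw Pp Pw := by
  obtain ⟨hk0, U1, hp1, hU1, hcU1⟩ := cls_dataM hn hp0
  have hpk : pkc U1 = a + 1 := by
    unfold pkc
    rw [hcU1, Multiset.card_add, Multiset.card_singleton, Multiset.card_replicate, add_comm]
  have hkU : n + 1 + a + pkc U1 + m = k := by omega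
  have hcnt : ∀ U : Cyc (n + 1 + a), Rd U = ⟨n, cyc (pwX n)⟩ → ∀ p : Cyc k, Rd p = ⟨n + 1 + a, U⟩ →
      (contc p).count 1 = m := fun U hU p hp => count_class hp1 hkU hp (hU.trans hU1.symm)
  refine cls_gen hn hp0 (QL := fun _ => True) X ∅ D (fun p q hp hq _ _ => hEnv.e p q hp hq) ?_ ?_ ?_ ?_ ?_
  · intro U U₂ hU hU₂ hne hop
    obtain ⟨p, q, g, hp, hq, _, hLg⟩ := tyL_top (k := k) hne hop (m := m) (by omega)
      (by rw [pkc_Rd (hU.trans hU1.symm)]; exact hkU)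
    exact ⟨p, q, hp, hq, trivial, trivial, hEnv.l p q g (cl_same hp1 hp (hU.trans hU1.symm))
      (cl_same hp1 hq (hU₂.trans hU1.symm)) hLg⟩
  · intro c hc
    rw [hX c hc]
    exact ⟨Or.inr, fun h => h.resolve_left (Set.notMem_empty _)⟩
  · rcases hD with h | ⟨z, h1, h2, h3, h4⟩
    · exact Or.inl h
    · refine Or.inr ⟨z, h1, h2, h3, h4, fun U hU => ?_⟩
      have h5 : Rd U = ⟨n, cyc (pwX n)⟩ := by
        have h6 := (cl_iff.1 h3).2
        rw [hU, hp1] at h6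
        exact h6.trans hU1
      have h6 := hcnt U h5 z hU
      refine (remOK_lo ⟨n + 1 + a, U⟩ z hU (fun h7 _ => by omega)).congr fun c _ => ?_
      rw [Set.mem_ofPred_eq, h6]
      constructor
      · rintro ⟨h, _⟩; exact Or.inl h
      · rintro (h | h)
        · exact ⟨h, h2.2⟩
        · exact absurd h (Set.notMem_empty _)
  · intro h U hU
    exact remOK_even ⟨n + 1 + a, U⟩ m (hcnt U hU) h
  · intro h U p hU hp _
    have h6 := hcnt U hU p hp
    refine ⟨Set.notMem_empty _, ?_⟩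
    refine (remOK_lo ⟨n + 1 + a, U⟩ p hp (fun h7 _ => by omega)).congr fun c _ => ?_
    rw [Set.mem_ofPred_eq, h6]
    constructor
    · rintro ⟨h, _⟩; exact Or.inl h
    · rintro (h' | h')
      · exact ⟨h', h⟩
      · exact absurd h' (Set.notMem_empty _)

end

end Hole2

end Pool.OddHC
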