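import Pool.Agent.Work.MP_8f87b2_h40.H3b
import Pool.Agent.Work.MP_8f87b2_h40.H2j
import Pool.Agent.Work.MP_8f87b2_h86.ClsL1b
import Pool.Agent.Work.MP_8f87b2_h86.LEx
import Pool.Agent.Work.MP_8f87b2_h20.S5X3

/-!
# MP_8f87b2_co: the guests of the classes `(s, 2^A, 1^m)`

Facts on `z = cyc b`, `b = S () (())`, `S` of a shape of section 5: `levTwo`, not in a pair `{C, C'}`, `IsTwo` of the reduced
T-cycle for `A = 2`, `NP` for `m = 1`.
-/

set_option autoImplicit false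

namespace Pool.OddHC

open Finset Equiv BinaryTree Multiset Pool.OddHop Pool.Agent.Work.MP_8f87b2_co

variable {k n a b i j m : ℕ}

namespace Hole2

open J Runs Ring1 Cor

/-! ### Tools -/

theorem cl_lf (j : ℕ) (M : Multiset ℕ) :
    L1.cl j M = lf (fun z : ZMod (2 * j + 1) => M.count z.val) := by
  unfold L1.cl lf
  apply List.map_congr_left
  intro i hi
  rw [List.mem_range] at hi
  change Multiset.count i M = Multiset.count (i : ZMod (2 * j + 1)).val M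
  rw [ZMod.val_natCast_of_lt hi]

theorem wd_word {r w : BinaryTree Unit} {M : Multiset ℕ} (h : L1.Wd r M w) {u : X j} (hu : u.1 = r) :
    w = ins u.1 (lf (fun z : ZMod (2 * j + 1) => M.count z.val)) := by
  have h1 : r.numNodes = j := by rw [← hu, X_num]
  rw [h.eq, ← cl_lf, h1, hu]

theorem wd_rd {r : BinaryTree Unit} {M : Multiset ℕ} {w : X k} (h : L1.Wd r M w.1) {u : X j} (hu : u.1 = r) :
    Rd (cyc w) = ⟨j, cyc u⟩ := Rd_ins (lf_length _) (wd_word h hu)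

/-- two beads in one gap -/
theorem wd_dbl {r : BinaryTree Unit} {M : Multiset ℕ} {w : X k} (h : L1.Wd r M w.1) {y : ℕ}
    (hy : 2 ≤ M.count y) : Dbl (cyc w) := by
  refine ⟨w, rfl, ?_⟩
  rw [h.eq, dblT_ins (L1.cl_length _ _)]
  refine ⟨M.count y, ?_, hy⟩
  have h1 : y ≤ 2 * r.numNodes := h.le y (Multiset.count_pos.1 (by omega))
  unfold L1.cl
  rw [List.mem_map]
  exact ⟨y, List.mem_range.2 (by omega), rfl⟩

theorem pair_count (x y z : ℕ) : ({x, y} : Multiset ℕ).count z =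
    (if z = x then 1 else 0) + if z = y then 1 else 0 := by
  rw [Multiset.insert_eq_cons, Multiset.count_cons, Multiset.count_singleton, add_comm]

/-- two beads at an even distance `≥ 2` -/
theorem wd_lev {r : BinaryTree Unit} {x d : ℕ} {w : X k} (h : L1.Wd r {x, x + d} w.1) (h2 : 2 ≤ d)
    (hd : d ≤ r.numNodes) (hd2 : d % 2 = 0) : LevTwo (cyc w) := by
  obtain ⟨u, hu⟩ : ∃ u : X r.numNodes, u.1 = r := ⟨⟨r, mem_treesOfNumNodesEq.2 rfl⟩, rfl⟩
  have hx := h.le (x + d) (by simp)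
  refine levTwo_of_list (u := u) (L1.cl_length r.numNodes {x, x + d}) (by rw [h.eq, hu]) x d (by omega) h2 hd hd2
    fun z hz => ?_
  have h3 : z < (L1.cl r.numNodes {x, x + d}).length := by rw [L1.cl_length]; exact hz
  rw [List.getD_eq_getElem _ _ h3, L1.cl_getElem, pair_count]

/-- two beads at an even distance -/
theorem wd_two {r : BinaryTree Unit} {x d : ℕ} {w : X k} (h : L1.Wd r {x, x + d} w.1)
    (hd : d ≤ r.numNodes) (hd2 : d % 2 = 0) : IsTwo (cyc w) := by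
  obtain ⟨u, hu⟩ : ∃ u : X r.numNodes, u.1 = r := ⟨⟨r, mem_treesOfNumNodesEq.2 rfl⟩, rfl⟩
  have hx := h.le (x + d) (by simp)
  refine ⟨_, u, (x : ZMod (2 * r.numNodes + 1)), d, w, hd, hd2, rfl, ?_⟩
  rw [wd_word h hu]
  congr 2
  funext z
  rw [pair_count, ← Nat.cast_add]
  simp only [val_eq_iff z (show x < 2 * r.numNodes + 1 by omega),
    val_eq_iff z (show x + d < 2 * r.numNodes + 1 by omega)]

/-- two words of a T-cycle: the beads are rotated -/
theorem rot_cyc {u u' : X j} {f f' : ZMod (2 * j + 1) → ℕ} {w w' : X k} (hw : w.1 = ins u.1 (lf f))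
    (hw' : w'.1 = ins u'.1 (lf f')) (h : cyc w = cyc w') : ∃ c, f' = fun x => f (x + c) := by
  obtain ⟨i, hi⟩ := sameCycle_nat (cyc_eq.1 h)
  have e1 : w = phi u f (word_phi hw) := Subtype.ext hw
  rw [e1, pow_phi] at hi
  have e2 := congrArg Subtype.val hi
  rw [hw'] at e2
  change ins ((TT ^ i) u).1 (lf _) = _ at e2
  obtain ⟨_, e3⟩ := ins_inj (by rw [lf_length, X_num]) (by rw [lf_length, X_num]) e2
  have e4 : (fun x => f (x + sp u i)) = f' := by
    funext z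
    rw [← lf_getD (fun x => f (x + sp u i)) z, e3, lf_getD]
  exact ⟨sp u i, e4.symm⟩

/-- **no member of a pair `{C, C'}`**: no two beads at the distance 2 -/
theorem not_cc_two {u : X j} {f : ZMod (2 * j + 1) → ℕ} {w : X k} (hw : w.1 = ins u.1 (lf f))
    (h : ∀ y, f y = 0 ∨ f (y + 2) = 0) : ∀ F ∈ CCg k n, cyc w ∉ F := by
  intro F hF hc
  obtain ⟨j', u', x, c, c', _, hw1, hw2, rfl⟩ := hF
  have key : ∀ (c1 : X k) (g : ZMod (2 * j' + 1) → ℕ), c1.1 = ins u'.1 (lf g) → cyc w = cyc c1 →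
      (∃ y, 1 ≤ g y ∧ 1 ≤ g (y + 2)) → False := by
    intro c1 g h1 h2 ⟨y, h3, h4⟩
    have h5 : Rd (cyc w) = ⟨j', cyc u'⟩ := by rw [h2]; exact Rd_ins (lf_length _) h1
    rw [Rd_ins (lf_length _) hw] at h5
    obtain ⟨rfl, _⟩ := Sigma.mk.inj_iff.1 h5
    obtain ⟨c, h6⟩ := rot_cyc hw h1 h2
    rw [h6] at h3 h4
    change 1 ≤ f (y + c) at h3
    change 1 ≤ f (y + 2 + c) at h4
    have h7 : y + 2 + c = y + c + 2 := by ring
    rw [h7] at h4
    rcases h (y + c) with h8 | h8 <;> omega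
  rcases hc with hc | hc
  · refine key c _ hw1 hc ⟨x, ?_, ?_⟩
    · rw [bd3_apply, if_pos rfl]; omega
    · rw [bd3_apply, if_pos (rfl : x + 2 = x + 2)]; omega
  · refine key c' _ hw2 hc ⟨x + 1, ?_, ?_⟩
    · rw [bd3_apply, if_pos (rfl : x + 1 = x + 1)]; omega
    · have e : x + 3 = x + 1 + 2 := by ring
      rw [bd3_apply, if_pos e]; omega

theorem dbl_not_cc {w : X k} {r : BinaryTree Unit} {M : Multiset ℕ} (h : L1.Wd r M w.1) {y : ℕ}
    (hy : 2 ≤ M.count y) (hr : 2 ≤ r.numNodes) : ∀ F ∈ CCg k n, cyc w ∉ F := by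
  intro F hF
  obtain ⟨u, hu⟩ : ∃ u : X r.numNodes, u.1 = r := ⟨⟨r, mem_treesOfNumNodesEq.2 rfl⟩, rfl⟩
  refine Dbl.not_cc (wd_dbl h hy) hF ?_
  rw [wd_rd h hu]
  exact hr

/-- three beads at the gaps `x < y < z`, no distance 2 -/
theorem wd_not_cc {w : X k} {r : BinaryTree Unit} {x y z : ℕ} (h : L1.Wd r {x, y, z} w.1) (h1 : x < y)
    (h2 : y < z) (d1 : y ≠ x + 2) (d2 : z ≠ y + 2) (d3 : z ≠ x + 2) (d4 : x + (2 * r.numNodes + 1) ≠ z + 2)
    (d5 : x + (2 * r.numNodes + 1) ≠ y + 2) (d6 : y + (2 * r.numNodes + 1) ≠ z + 2) (hr : 1 ≤ r.numNodes) :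
    ∀ F ∈ CCg k n, cyc w ∉ F := by
  obtain ⟨u, hu⟩ : ∃ u : X r.numNodes, u.1 = r := ⟨⟨r, mem_treesOfNumNodesEq.2 rfl⟩, rfl⟩
  have hz := h.le z (by simp)
  refine not_cc_two (wd_word h hu) fun t => ?_
  have hmem : ∀ v : ℕ, ({x, y, z} : Multiset ℕ).count v ≠ 0 → v = x ∨ v = y ∨ v = z := by
    intro v hv
    have := Multiset.count_ne_zero.1 hv
    simpa using this
  by_contra hc
  push Not at hc
  have m1 := hmem _ hc.1
  have m2 := hmem _ hc.2
  have ht := ZMod.val_lt t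
  have e2 : ((2 : ZMod (2 * r.numNodes + 1))).val = 2 := by
    have : ((2 : ℕ) : ZMod (2 * r.numNodes + 1)).val = 2 := ZMod.val_natCast_of_lt (by omega)
    exact_mod_cast this
  have e3 : (t + 2).val = t.val + 2 ∨ (t + 2).val + (2 * r.numNodes + 1) = t.val + 2 := by
    by_cases hlt : t.val + 2 < 2 * r.numNodes + 1
    · left
      rw [ZMod.val_add_of_lt (by rw [e2]; exact hlt), e2]
    · right
      have := ZMod.val_add_val_of_le (a := t) (b := 2) (by rw [e2]; omega)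
      rw [e2] at this
      omega
  omega

/-! ### The shapes -/

theorem wd_lp (m : ℕ) : L1.Wd .nil (Multiset.replicate m 0) (lp m) := by
  refine ⟨?_, ?_⟩
  · intro y hy
    rw [Multiset.eq_of_mem_replicate hy]
    exact Nat.zero_le _
  · have e1 : L1.cl 0 (Multiset.replicate m 0) = [m] := by
      unfold L1.cl
      simp
    change lp m = ins .nil (L1.cl 0 (Multiset.replicate m 0))
    rw [e1]
    rfl

theorem wd_sq (a : ℕ) : L1.Wd (lp a) 0 (S5.sq a) := by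
  have h := L1.Wd.inf (lp a)
  rw [S5.inf_sq0] at h
  exact h

theorem wd_ch (n : ℕ) : L1.Wd (pw (n + 1)) 0 (H1.ch (n + 2)) := by
  have h := L1.Wd.inf (pw (n + 1))
  rw [S5.inf_pw] at h
  exact h

theorem wd_ch' (hn : 1 ≤ n) : L1.Wd (pw n) 0 (H1.ch (n + 1)) := by
  obtain ⟨m, rfl⟩ : ∃ m, n = m + 1 := ⟨n - 1, by omega⟩
  exact wd_ch m

/-- the end `() (())` -/
theorem wd_end : L1.Wd (pw 1) {0} (.nil △ H1.ch 2) := by
  have h := L1.Wd.leaf.app L1.Wd.two
  rw [Multiset.map_zero, add_zero] at h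
  exact h

theorem pw_nn {n : ℕ} (hn : 1 ≤ n) : pw n ≠ .nil := by
  obtain ⟨m, rfl⟩ : ∃ m, n = m + 1 := ⟨n - 1, by omega⟩
  rw [pw_succ]
  simp

theorem app_nn {P Q : BinaryTree Unit} (h : P ≠ .nil) : app P Q ≠ .nil := by
  cases P with
  | nil => exact absurd rfl h
  | node _ A B => simp [app]

/-- beads behind a bead free word -/
theorem wd_beads {r w : BinaryTree Unit} {M : Multiset ℕ} (h : L1.Wd r M w) (m : ℕ) :
    L1.Wd r (M + Multiset.replicate m (2 * r.numNodes)) (app w (lp m)) := by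
  have h1 := h.app (wd_lp m)
  rw [H1.app_nil, Multiset.map_replicate, zero_add] at h1
  exact h1

theorem wd_free {r w s v : BinaryTree Unit} {M : Multiset ℕ} (h : L1.Wd r M w) (h' : L1.Wd s 0 v) :
    L1.Wd (app r s) M (app w v) := by
  have h1 := h.app h'
  rw [Multiset.map_zero, add_zero] at h1
  exact h1

theorem wd_tail {r w : BinaryTree Unit} {M : Multiset ℕ} (h : L1.Wd r M w) :
    L1.Wd (app r (pw 1)) (M + {2 * r.numNodes}) (app w (.nil △ H1.ch 2)) := by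
  have h1 := h.app wd_end
  rw [Multiset.map_singleton, zero_add] at h1
  exact h1

/-- `([s-2] ())`, `([s-1] (()))` -/
theorem wd_pk (hn : 1 ≤ n) : L1.Wd (app (pw n) (pw 1) △ .nil) 0 (app (H1.ch (n + 1)) (H1.ch 2) △ .nil) := by
  have h := wd_free (wd_ch' hn) (wd_ch 0)
  have h2 := h.wrap (app_nn (pw_nn hn))
  rw [Multiset.map_zero] at h2
  exact h2

/-- `([s-1] ())` -/
theorem wd_pb (hn : 1 ≤ n) : L1.Wd (pw (n + 1)) {2 * n + 1} (app (H1.ch (n + 1)) (lp 1) △ .nil) := by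
  have h := wd_beads (wd_ch' hn) 1
  rw [zero_add, Multiset.replicate_one, pw_num] at h
  have h2 := h.wrap (pw_nn hn)
  rw [Multiset.map_singleton, ← pw_succ] at h2
  exact h2

/-- `([s-1] (()()))` -/
theorem wd_p2 (hn : 1 ≤ n) : L1.Wd (app (pw n) (pw 1) △ .nil) {2 * n + 2}
    (app (H1.ch (n + 1)) (lp 2 △ .nil) △ .nil) := by
  have h0 : L1.Wd (pw 1) {1} (lp 2 △ .nil) := by
    refine ⟨?_, ?_⟩
    · intro y hy
      rw [Multiset.mem_singleton] at hy
      subst hy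
      decide
    · rfl
  have h := (wd_ch' hn).app h0
  rw [zero_add, Multiset.map_singleton, pw_num] at h
  have h2 := h.wrap (app_nn (pw_nn hn))
  rw [Multiset.map_singleton] at h2
  rw [show 1 + 2 * n + 1 = 2 * n + 2 by ring] at h2
  exact h2

/-- the reduced words -/
def rE (n a : ℕ) : BinaryTree Unit := app (app (pw (n + 1)) (lp a)) (pw 1)
def rO (n a : ℕ) : BinaryTree Unit := app (app (app (pw n) (pw 1) △ .nil) (lp (a - 1))) (pw 1)

theorem rE_num (n a : ℕ) : (rE n a).numNodes = n + a + 2 := by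
  unfold rE
  rw [num_app, num_app, pw_num, pw_num, lp_num]
  ring

theorem rO_num (n : ℕ) (ha : 1 ≤ a) : (rO n a).numNodes = n + a + 2 := by
  unfold rO
  rw [num_app, num_app, lp_num, pw_num]
  change (app (pw n) (pw 1)).numNodes + 0 + 1 + (a - 1) + 1 = _
  rw [num_app, pw_num, pw_num]
  omega

theorem wE (n a m : ℕ) : L1.Wd (rE n a) (Multiset.replicate (m + 1) (2 * (n + a + 1)))
    (app (S5.gE n a m) (.nil △ H1.ch 2)) := by
  have h := wd_tail (wd_beads (wd_free (wd_ch n) (wd_sq a)) m)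
  have e : 2 * (app (pw (n + 1)) (lp a)).numNodes = 2 * (n + a + 1) := by
    rw [num_app, pw_num, lp_num]
    ring
  rw [e, zero_add, ← Multiset.replicate_one, ← Multiset.replicate_add] at h
  exact h

theorem wO (hn : 1 ≤ n) (ha : 1 ≤ a) (m : ℕ) : L1.Wd (rO n a) (Multiset.replicate (m + 1) (2 * (n + a + 1)))
    (app (S5.gO n a m) (.nil △ H1.ch 2)) := by
  have h := wd_tail (wd_beads (wd_free (wd_pk hn) (wd_sq (a - 1))) m)
  have e : 2 * (app (app (pw n) (pw 1) △ .nil) (lp (a - 1))).numNodes = 2 * (n + a + 1) := by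
    rw [num_app, lp_num]
    change 2 * ((app (pw n) (pw 1)).numNodes + 0 + 1 + (a - 1)) = _
    rw [num_app, pw_num, pw_num]
    omega
  rw [e, zero_add, ← Multiset.replicate_one, ← Multiset.replicate_add] at h
  exact h

theorem wP (n a m : ℕ) : L1.Wd (rE n a) (Multiset.replicate m (2 * (n + 1)) + {2 * (n + a + 1)})
    (app (S5.gP n a m) (.nil △ H1.ch 2)) := by
  have h := wd_tail (wd_free (wd_beads (wd_ch n) m) (wd_sq a))
  have e : 2 * (app (pw (n + 1)) (lp a)).numNodes = 2 * (n + a + 1) := by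
    rw [num_app, pw_num, lp_num]
    ring
  rw [e, zero_add, pw_num] at h
  exact h

theorem wM (hn : 1 ≤ n) (a m : ℕ) : L1.Wd (rE n a) ({2 * n + 1} + Multiset.replicate (m - 1) (2 * (n + 1)) +
    {2 * (n + a + 1)}) (app (S5.gM n a m) (.nil △ H1.ch 2)) := by
  have h := wd_tail (wd_free (wd_beads (wd_pb hn) (m - 1)) (wd_sq a))
  have e : 2 * (app (pw (n + 1)) (lp a)).numNodes = 2 * (n + a + 1) := by
    rw [num_app, pw_num, lp_num]
    ring
  rw [e, pw_num] at h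
  exact h

theorem wY (n : ℕ) (ha : 1 ≤ a) (m : ℕ) : L1.Wd (rE n a) (Multiset.replicate (m - 1) (2 * (n + 1)) +
    {2 * n + 3} + {2 * (n + a + 1)}) (app (S5.gY n a m) (.nil △ H1.ch 2)) := by
  obtain ⟨a, rfl⟩ : ∃ a', a = a' + 1 := ⟨a - 1, by omega⟩
  have h0 : L1.Wd (pw 1) {1} (lp 2 △ .nil) := by
    refine ⟨?_, ?_⟩
    · intro y hy
      rw [Multiset.mem_singleton] at hy
      subst hy
      decide
    · rfl
  have h1 := wd_free h0 (wd_sq a)
  have h := wd_tail ((wd_beads (wd_ch n) (m - 1)).app h1)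
  have e0 : app (pw 1) (lp a) = lp (a + 1) := rfl
  have e : 2 * (app (pw (n + 1)) (app (pw 1) (lp a))).numNodes = 2 * (n + (a + 1) + 1) := by
    rw [num_app, e0, pw_num, lp_num]
    ring
  rw [e, e0, zero_add, Multiset.map_singleton, pw_num, show 1 + 2 * (n + 1) = 2 * n + 3 by ring] at h
  exact h

theorem lp_app (a b : ℕ) : app (lp a) (lp b) = lp (a + b) := by
  unfold lp
  rw [← lv_app, lv_add]

theorem wE1 (n : ℕ) (ha : 2 ≤ a) : L1.Wd (rE n a) {2 * (n + a - 1), 2 * (n + a - 1) + 4}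
    (app (S5.gE1 n a) (.nil △ H1.ch 2)) := by
  obtain ⟨a, rfl⟩ : ∃ a', a = a' + 2 := ⟨a - 2, by omega⟩
  have h := wd_tail (wd_free (wd_beads (wd_free (wd_ch n) (wd_sq a)) 1) (wd_sq 2))
  have e0 : app (app (pw (n + 1)) (lp a)) (lp 2) = app (pw (n + 1)) (lp (a + 2)) := by
    rw [app_assoc', lp_app]
  have e : 2 * (app (pw (n + 1)) (lp (a + 2))).numNodes = 2 * (n + (a + 2) - 1) + 4 := by
    rw [num_app, pw_num, lp_num]
    omega
  have e1 : 2 * (app (pw (n + 1)) (lp a)).numNodes = 2 * (n + (a + 2) - 1) := by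
    rw [num_app, pw_num, lp_num]
    omega
  rw [e0, e, e1, zero_add, Multiset.replicate_one] at h
  exact h

theorem wO1 (hn : 1 ≤ n) (ha : 3 ≤ a) : L1.Wd (rO n a) {2 * (n + a - 1), 2 * (n + a - 1) + 4}
    (app (S5.gO1 n a) (.nil △ H1.ch 2)) := by
  obtain ⟨a, rfl⟩ : ∃ a', a = a' + 3 := ⟨a - 3, by omega⟩
  have h := wd_tail (wd_free (wd_beads (wd_free (wd_pk hn) (wd_sq a)) 1) (wd_sq 2))
  have e0 : app (app (app (pw n) (pw 1) △ .nil) (lp a)) (lp 2) =
      app (app (pw n) (pw 1) △ .nil) (lp (a + 3 - 1)) := by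
    rw [app_assoc', lp_app]
    rfl
  have e2 : (app (pw n) (pw 1) △ BinaryTree.nil).numNodes = n + 2 := by
    change (app (pw n) (pw 1)).numNodes + 0 + 1 = _
    rw [num_app, pw_num, pw_num]
  have e : 2 * (app (app (pw n) (pw 1) △ .nil) (lp (a + 3 - 1))).numNodes = 2 * (n + (a + 3) - 1) + 4 := by
    rw [num_app, lp_num, e2]
    omega
  have e1 : 2 * (app (app (pw n) (pw 1) △ .nil) (lp a)).numNodes = 2 * (n + (a + 3) - 1) := by
    rw [num_app, lp_num, e2]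
    omega
  rw [e0, e, e1, zero_add, Multiset.replicate_one] at h
  exact h

theorem wO2 (hn : 1 ≤ n) : L1.Wd (rO n 2) {2 * n + 2, 2 * n + 2 + 4} (app (S5.gO2 n) (.nil △ H1.ch 2)) := by
  have h := wd_tail (wd_free (wd_p2 hn) (wd_sq 1))
  have e2 : (app (pw n) (pw 1) △ BinaryTree.nil).numNodes = n + 2 := by
    change (app (pw n) (pw 1)).numNodes + 0 + 1 = _
    rw [num_app, pw_num, pw_num]
  have e : 2 * (app (app (pw n) (pw 1) △ .nil) (lp 1)).numNodes = 2 * n + 2 + 4 := by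
    rw [num_app, lp_num, e2]
    omega
  rw [e] at h
  exact h

/-! ### The facts on the guests -/

/-- the reduced T-cycle of a word -/
theorem rd_eq {r : BinaryTree Unit} {M : Multiset ℕ} {w : X k} (h : L1.Wd r M w.1) {U : Cyc j}
    (hU : Rd (cyc w) = ⟨j, U⟩) : ∃ u : X j, u.1 = r ∧ U = cyc u := by
  obtain ⟨u, hu⟩ : ∃ u : X r.numNodes, u.1 = r := ⟨⟨r, mem_treesOfNumNodesEq.2 rfl⟩, rfl⟩
  rw [wd_rd h hu] at hU
  obtain ⟨h1, h2⟩ := Sigma.mk.inj_iff.1 hU
  subst h1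
  exact ⟨u, hu, (eq_of_heq h2).symm⟩

theorem rE_wd (hn : 1 ≤ n) (a : ℕ) : L1.Wd (pw n) (Multiset.replicate (a + 1) (2 * n)) (rE n a) := by
  have h := wd_beads (wd_beads (wd_ch' hn) a) 1
  rw [zero_add, pw_num, ← Multiset.replicate_add, ch_eq] at h
  exact h

theorem rO_wd (hn : 1 ≤ n) (ha : 1 ≤ a) :
    L1.Wd (pw n) ({2 * n - 1} + Multiset.replicate a (2 * n)) (rO n a) := by
  obtain ⟨a, rfl⟩ : ∃ a', a = a' + 1 := ⟨a - 1, by omega⟩
  have h0 : L1.Wd (pw n) {2 * n - 1} (app (pw n) (pw 1) △ .nil) := by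
    obtain ⟨n, rfl⟩ : ∃ n', n = n' + 1 := ⟨n - 1, by omega⟩
    rcases n with _ | n
    · refine ⟨?_, ?_⟩
      · intro y hy
        rw [Multiset.mem_singleton] at hy
        subst hy
        decide
      · rfl
    · have h := wd_pb (n := n + 1) (by omega)
      rw [ch_eq] at h
      exact h
  have h := wd_beads (wd_beads h0 a) 1
  rw [pw_num, add_assoc, ← Multiset.replicate_add] at h
  exact h

/-- **`A = 2`** : the reduced T-cycle is a pile -/
theorem two_E (hn : 1 ≤ n) {M : Multiset ℕ} {w : X k} (h : L1.Wd (rE n 1) M w.1) {U : Cyc j}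
    (hU : Rd (cyc w) = ⟨j, U⟩) : IsTwo U := by
  obtain ⟨u, hu, rfl⟩ := rd_eq h hU
  have h1 := rE_wd hn 1
  rw [← hu] at h1
  exact wd_two (x := 2 * n) (d := 0) h1 (Nat.zero_le _) rfl

theorem val_last {n : ℕ} (z : ZMod (2 * n + 1)) : z.val = 2 * n ↔ z = -1 := by
  rw [val_eq_iff z (show 2 * n < 2 * n + 1 by omega)]
  have : ((2 * n : ℕ) : ZMod (2 * n + 1)) = -1 := by
    have h := ZMod.natCast_self (2 * n + 1)
    push_cast at h ⊢
    linear_combination h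
  rw [this]

theorem val_last2 {n : ℕ} (hn : 1 ≤ n) (z : ZMod (2 * n + 1)) : z.val = 2 * n - 1 ↔ z = -1 - 1 := by
  rw [val_eq_iff z (show 2 * n - 1 < 2 * n + 1 by omega)]
  have : ((2 * n - 1 : ℕ) : ZMod (2 * n + 1)) = -1 - 1 := by
    have h := ZMod.natCast_self (2 * n + 1)
    rw [Nat.cast_sub (by omega)]
    push_cast at h ⊢
    linear_combination h
  rw [this]

theorem np_of {r : BinaryTree Unit} {M : Multiset ℕ} {u : X j} (h : L1.Wd (pw n) M r) (hu : u.1 = r)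
    {G : ZMod (2 * n + 1) → ℕ} (hG : ∀ z, M.count z.val = G z) {c : ℕ} {y : ZMod (2 * n + 1)}
    (hc : G = L1.pil c y ∨ G = L1.adj (L1.pil c y) (y - 1)) : L1.NP n (cyc u) := by
  have h1 := wd_word h (u := pwX n) rfl
  have e1 : (fun z : ZMod (2 * n + 1) => M.count z.val) = G := funext hG
  rw [e1, ← hu] at h1
  exact ⟨G, word_phi h1, c, y, hc, congrArg cyc (Subtype.ext h1)⟩

/-- **`m = 1`**, pile -/
theorem np_E (hn : 1 ≤ n) {M : Multiset ℕ} {w : X k} (h : L1.Wd (rE n a) M w.1) {U : Cyc j}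
    (hU : Rd (cyc w) = ⟨j, U⟩) : L1.NP n U := by
  obtain ⟨u, hu, rfl⟩ := rd_eq h hU
  refine np_of (rE_wd hn a) hu (G := L1.pil (a + 1) (-1)) (fun z => ?_) (c := a + 1) (y := -1) (Or.inl rfl)
  change _ = if z = -1 then a + 1 else 0
  rw [Multiset.count_replicate]
  simp only [← val_last z, eq_comm]

/-- **`m = 1`**, near pile -/
theorem np_O (hn : 1 ≤ n) (ha : 1 ≤ a) {M : Multiset ℕ} {w : X k} (h : L1.Wd (rO n a) M w.1) {U : Cyc j}
    (hU : Rd (cyc w) = ⟨j, U⟩) : L1.NP n U := by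
  obtain ⟨u, hu, rfl⟩ := rd_eq h hU
  refine np_of (rO_wd hn ha) hu (G := L1.adj (L1.pil a (-1)) (-1 - 1)) (fun z => ?_) (c := a) (y := -1)
    (Or.inr rfl)
  change _ = (if z = -1 then a else 0) + if z = -1 - 1 then 1 else 0
  rw [Multiset.count_add, Multiset.count_singleton, Multiset.count_replicate, add_comm]
  simp only [← val_last z, ← val_last2 hn z, eq_comm]

/-- the shapes of the guests of the class `(n + 2, 2^(a+1), 1^(m+1))` -/
def ShC (n a m : ℕ) (S : BinaryTree Unit) : Prop :=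
  (S5.ShX n a m S ∨ (m = 0 ∧ (S = S5.gE n a 0 ∨ S = S5.gO n a 0))) ∧ (a = 1 → S ≠ S5.gO n 1 m) ∧
    (a = 1 → m = 2 → S = S5.gE n 1 2 ∨ S = S5.gP n 1 2)

theorem ShC.cont {S : BinaryTree Unit} (hn : 1 ≤ n) (ha : 1 ≤ a) (h : ShC n a m S) :
    OddHC.cont S = {n + 2} + Multiset.replicate a 2 + Multiset.replicate m 1 := by
  obtain ⟨h | ⟨rfl, rfl | rfl⟩, _, _⟩ := h
  · exact h.cont hn ha
  · exact S5.c_gE n a 0
  · exact S5.c_gO hn ha

variable {S : BinaryTree Unit} {w : X k}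

/-- `a = 1` -/
theorem ShC.two (hn : 1 ≤ n) (h : ShC n 1 m S) (hw : w.1 = app S (.nil △ H1.ch 2)) {U : Cyc j}
    (hU : Rd (cyc w) = ⟨j, U⟩) : IsTwo U := by
  obtain ⟨h | ⟨rfl, rfl | rfl⟩, h1, _⟩ := h
  · rcases h with ⟨hm, rfl | rfl | (rfl | rfl | rfl)⟩ | ⟨rfl, h2, _⟩
    · exact two_E hn (hw ▸ wE n 1 m) hU
    · exact absurd rfl (h1 rfl)
    · exact two_E hn (hw ▸ wP n 1 m) hU
    · exact two_E hn (hw ▸ wM hn 1 m) hU
    · exact two_E hn (hw ▸ wY n le_rfl m) hU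
    · omega
  · exact two_E hn (hw ▸ wE n 1 0) hU
  · exact absurd rfl (h1 rfl)

/-- `m = 0` -/
theorem ShC.np (hn : 1 ≤ n) (ha : 1 ≤ a) (h : ShC n a 0 S) (hw : w.1 = app S (.nil △ H1.ch 2)) {U : Cyc j}
    (hU : Rd (cyc w) = ⟨j, U⟩) : L1.NP n U := by
  obtain ⟨h | ⟨_, rfl | rfl⟩, h1, _⟩ := h
  · rcases h with ⟨hm, _⟩ | ⟨h2, _⟩
    · omega
    · omega
  · exact np_E hn (hw ▸ wE n a 0) hU
  · exact np_O hn ha (hw ▸ wO hn ha 0) hU

/-- `m = 1` -/
theorem ShC.lev (hn : 1 ≤ n) (ha : 1 ≤ a) (h : ShC n a 1 S) (hw : w.1 = app S (.nil △ H1.ch 2)) :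
    LevTwo (cyc w) := by
  obtain ⟨h | ⟨h, _⟩, h1, _⟩ := h
  · rcases h with ⟨hm, _⟩ | ⟨_, h2, rfl | ⟨h3, rfl⟩ | ⟨rfl, rfl⟩⟩
    · omega
    · exact wd_lev (hw ▸ wE1 n h2) (by omega) (by rw [rE_num]; omega) rfl
    · exact wd_lev (hw ▸ wO1 hn h3) (by omega) (by rw [rO_num n ha]; omega) rfl
    · exact wd_lev (hw ▸ wO2 hn) (by omega) (by rw [rO_num n ha]; omega) rfl
  · omega

/-- `m = 2` -/
theorem ShC.ncc (hn : 1 ≤ n) (ha : 1 ≤ a) (h : ShC n a 2 S) (hw : w.1 = app S (.nil △ H1.ch 2)) (n' : ℕ) :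
    ∀ F ∈ CCg k n', cyc w ∉ F := by
  have c3 : ∀ x : ℕ, 2 ≤ (Multiset.replicate (2 + 1) x).count x := by
    intro x
    rw [Multiset.count_replicate_self]
    omega
  by_cases ha1 : a = 1
  · subst ha1
    rcases h.2.2 rfl rfl with rfl | rfl
    · exact dbl_not_cc (hw ▸ wE n 1 2) (c3 _) (by rw [rE_num]; omega)
    · refine dbl_not_cc (hw ▸ wP n 1 2) (y := 2 * (n + 1)) ?_ (by rw [rE_num]; omega)
      rw [Multiset.count_add, Multiset.count_replicate_self]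
      omega
  have ha2 : 2 ≤ a := by omega
  obtain ⟨h | ⟨h, _⟩, h1, h2⟩ := h
  · rcases h with ⟨hm, rfl | rfl | (rfl | rfl | rfl)⟩ | ⟨h3, _⟩
    · exact dbl_not_cc (hw ▸ wE n a 2) (c3 _) (by rw [rE_num]; omega)
    · exact dbl_not_cc (hw ▸ wO hn ha 2) (c3 _) (by rw [rO_num n ha]; omega)
    · refine dbl_not_cc (hw ▸ wP n a 2) (y := 2 * (n + 1)) ?_ (by rw [rE_num]; omega)
      rw [Multiset.count_add, Multiset.count_replicate_self]
      omega
    · refine wd_not_cc (x := 2 * n + 1) (y := 2 * (n + 1)) (z := 2 * (n + a + 1)) (hw ▸ wM hn a 2) ?_ ?_ ?_ ?_ ?_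
        ?_ ?_ ?_ ?_ <;> (try rw [rE_num]) <;> omega
    · refine wd_not_cc (x := 2 * (n + 1)) (y := 2 * n + 3) (z := 2 * (n + a + 1)) (hw ▸ wY n ha 2) ?_ ?_ ?_ ?_ ?_
        ?_ ?_ ?_ ?_ <;> (try rw [rE_num]) <;> omega
    · omega
  · omega

/-! ### The classes -/

/-- the content of the class -/
def cC (n a m : ℕ) : Multiset ℕ := ({n + 2} + Multiset.replicate a 2) + Multiset.replicate m 1

section
variable {τp τw : Type} {Pp : τp → Set (Cyc k) → DG k → Prop} {Pw : τw → Set (Cyc k) → DG k → Prop}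
  {AE : Cyc k → Cyc k → Prop}

/-- L pairs with at least three beads are never bad -/
theorem tyLG_of {p q : Cyc k} {g : DG k} (h : TyL {p, q} g) (hp : contc p = cC n a m) (hm : m ≠ 2) :
    TyLG {p, q} g := by
  refine ⟨h, ?_⟩
  intro Z hZ hB
  obtain ⟨n', b', hn', hb', hc, -⟩ := hB
  obtain ⟨x, y, z, hx, hy, hz, h1, h2, h3, h4, rfl⟩ := hZ
  have hpm : p ∈ ({cyc y, cyc z} : Set (Cyc k)) := by
    rw [← h4]
    exact Or.inl rfl
  have f0 : OddHC.cont (lp 1) = {1} := rfl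
  have f1 : raise (OddHC.cont (lp 1)) = {2} := rfl
  have e1 : (OddHC.cont Z).count 1 + 1 = m := by
    have e2 : (contc p).count 1 = m := by
      rw [hp]
      unfold cC
      rw [Multiset.count_add, Multiset.count_add, Multiset.count_singleton, if_neg (by omega),
        Multiset.count_replicate, if_neg (by omega), Multiset.count_replicate_self]
      omega
    have f2 : ({2} : Multiset ℕ).count 1 = 0 := rfl
    have f3 : ({1} : Multiset ℕ).count 1 = 1 := rfl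
    rcases hpm with e | e
    · have e3 : contc p = OddHC.cont Z + ({2} + {1}) := by
        rw [e]
        change OddHC.cont y.1 = _
        rw [hy, w1, cont_app, cont_node, f1, f0]
      rw [e3, Multiset.count_add, Multiset.count_add, f2, f3] at e2
      omega
    · have e3 : contc p = {1} + ({2} + OddHC.cont Z) := by
        rw [e]
        change OddHC.cont z.1 = _
        rw [hz, w1, cont_app, cont_node, f1, f0]
      rw [e3, Multiset.count_add, Multiset.count_add, f2, f3] at e2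
      omega
  have e4 : (OddHC.cont Z).count 1 = 1 := by
    rw [hc, Multiset.count_add, Multiset.count_add, Multiset.count_singleton, if_neg (by omega),
      Multiset.count_replicate, if_neg (by omega), Multiset.count_singleton_self]
  omega

/-- **what the types give** in the classes `(n + 2, 2^a, 1^m)` -/
structure CEnv (n : ℕ) (AE : Cyc k → Cyc k → Prop) (Pp : τp → Set (Cyc k) → DG k → Prop)
    (Pw : τw → Set (Cyc k) → DG k → Prop) : Prop where
  e : ∀ (a m : ℕ) (p q : Cyc k), contc p = cC n a m → contc q = cC n a m →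
    (m = 3 → ∀ F ∈ CCg k n, p ∉ F ∧ q ∉ F) → p ≠ q → HopC p q → AE p q
  l : ∀ (a m : ℕ) (p q : Cyc k) (g : DG k), contc p = cC n a m → contc q = cC n a m →
    (m = 3 → ∀ F ∈ CCg k n, p ∉ F ∧ q ∉ F) → TyLG {p, q} g → Typd Pp Pw {p, q}
  c : ∀ (a : ℕ), ∀ F ∈ CCg k n, (∀ c ∈ F, contc c = cC n a 3) → ∃ t g, Pp t F g
  l1 : ∀ F g, TyL1 F g → Typd Pp Pw F

theorem CEnv.cls (h : CEnv n AE Pp Pw) {p0 : Cyc k} (hp0 : contc p0 = cC n a m) (hm : m ≠ 3) (hm2 : m ≠ 2) :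
    ClsEnv AE Pp Pw (cl p0) :=
  ⟨fun p q hp hq => h.e a m p q ((cl_contc hp).trans hp0) ((cl_contc hq).trans hp0) (fun h => absurd h hm),
    fun p q g hp hq hL => h.l a m p q g ((cl_contc hp).trans hp0) ((cl_contc hq).trans hp0) (fun h => absurd h hm)
      (tyLG_of hL ((cl_contc hp).trans hp0) hm2)⟩

/-- **THE CLASS `(n + 2, 2^a, 1^m)`**, `a ≥ 2`, every `m` -/
theorem cls_C (hk13 : 13 ≤ k) (hn : 1 ≤ n) (ha : 2 ≤ a) {p0 : Cyc k} (hp0 : contc p0 = cC n a m)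
    (hE : CEnv n AE Pp Pw) (X D : Set (Cyc k))
    (hX : ∀ c, cl c = cl p0 → (c ∈ X ↔ (c ∈ TYH k ∧ (m = 0 ∨ m = 2)) ∨ c ∈ D))
    (hD : (D = ∅ ∧ (1 ≤ m → ¬ (oddF n a ∧ oddF (n + 1 + a) m))) ∨
      ∃ z, D = {z} ∧ 1 ≤ m ∧ (oddF n a ∧ oddF (n + 1 + a) m) ∧ cl z = cl p0 ∧
        (a = 2 → ∀ U : Cyc (n + 1 + a), Rd z = ⟨n + 1 + a, U⟩ → IsTwo U) ∧
        (m = 1 → 3 ≤ a → ∀ U : Cyc (n + 1 + a), Rd z = ⟨n + 1 + a, U⟩ → L1.NP n U) ∧
        (m = 2 → LevTwo z) ∧ (m = 3 → ∀ F ∈ CCg k n, z ∉ F)) :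
    ∃ Gp Gw, ClsOK AE (cl p0) X Gp Gw Pp Pw := by
  have hk := (cls_dataM hn hp0).1
  have hXo : m ≠ 0 → m ≠ 2 → ∀ c, cl c = cl p0 → (c ∈ X ↔ c ∈ D) := by
    intro h0 h2 c hc
    rw [hX c hc]
    constructor
    · rintro (⟨_, h | h⟩ | h)
      · exact absurd h h0
      · exact absurd h h2
      · exact h
    · exact Or.inr
  by_cases m0 : m = 0
  · subst m0
    have hp0' : contc p0 = {n + 2} + Multiset.replicate a 2 := by
      rw [hp0]
      unfold cC
      rw [Multiset.replicate_zero, add_zero]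
    refine ⟨∅, ∅, cls_all p0 X fun c hc => ?_⟩
    obtain ⟨S, g, hS, hcS⟩ := TyH.cover' (k := k) hn ha (by omega) ((cl_contc hc).trans hp0')
    exact (hX c hc).2 (Or.inl ⟨⟨S, g, hS, hcS⟩, Or.inl rfl⟩)
  by_cases m1 : m = 1
  · subst m1
    refine cls_L1 hn ha hp0 hE.l1 X D (hXo (by omega) (by omega)) ?_
    have ho : oddF (n + 1 + a) 1 := by
      have h1 : Nat.card (Ms (2 * (n + 1 + a) + 1) 1) = 2 * (n + 1 + a) + 1 := by
        have e1 : Nat.card (Ms (2 * (n + 1 + a) + 1) 1) = Nat.card (Sym (ZMod (2 * (n + 1 + a) + 1)) 1) :=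
          (Nat.card_congr (Sym.equivNatSumOfFintype (ZMod (2 * (n + 1 + a) + 1)) 1)).symm
        rw [e1, Nat.card_eq_fintype_card, Sym.card_sym_eq_choose, ZMod.card, Nat.choose_one_right]
        omega
      unfold oddF
      rw [h1]
      exact ⟨n + 1 + a, rfl⟩
    rcases hD with ⟨h1, h2⟩ | ⟨z, h1, _, h2, h3, h4, h5, _, _⟩
    · exact Or.inl ⟨h1, fun h => h2 le_rfl ⟨h, ho⟩⟩
    · exact Or.inr ⟨z, h1, h2.1, h3, h4, h5 rfl⟩
  by_cases m2 : m = 2
  · subst m2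
    have hc : ∀ p : Cyc k, cl p = cl p0 → contc p = cC n a 2 := fun p hp => (cl_contc hp).trans hp0
    refine cls_m2L hn (by omega : 1 ≤ a) hp0 (by omega)
      (fun p q hp hq => hE.e a 2 p q (hc p hp) (hc q hq) (fun h => absurd h (by omega)))
      (fun p q g hp hq => hE.l a 2 p q g (hc p hp) (hc q hq) (fun h => absurd h (by omega))) X D
      (fun c hc => ?_) ?_
    · rw [hX c hc]
      constructor
      · rintro (h | h)
        · exact Or.inl h.1
        · exact Or.inr h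
      · rintro (h | h)
        · exact Or.inl ⟨h, Or.inr rfl⟩
        · exact Or.inr h
    · rcases hD with ⟨h1, h2⟩ | ⟨z, h1, _, h2, h3, _, _, h6, _⟩
      · exact Or.inl ⟨h1, h2 (by omega)⟩
      · exact Or.inr ⟨z, h1, h2, h3, h6 rfl⟩
  by_cases m3 : m = 3
  · subst m3
    have hc : ∀ p : Cyc k, cl p = cl p0 → contc p = cC n a 3 := fun p hp => (cl_contc hp).trans hp0
    refine cls_m3 hn (by omega) hp0 (fun p q hp hq h => hE.e a 3 p q (hc p hp) (hc q hq) (fun _ => h))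
      (fun p q g hp hq h hL => hE.l a 3 p q g (hc p hp) (hc q hq) (fun _ => h)
        (tyLG_of hL (hc p hp) (by omega)))
      (fun F hF h => hE.c a F hF fun c hcF => hc c (h c hcF)) X D (hXo (by omega) (by omega)) ?_
    rcases hD with ⟨h1, h2⟩ | ⟨z, h1, _, h2, h3, h4, _, _, h7⟩
    · exact Or.inl ⟨h1, h2 (by omega)⟩
    · exact Or.inr ⟨z, h1, h2, h3, h7 rfl, h4⟩
  · refine cls_m4 hn (by omega) hp0 (hE.cls hp0 m3 m2) X D (hXo m0 m2) ?_
    rcases hD with ⟨h1, h2⟩ | ⟨z, h1, _, h2, h3, h4, _, _, _⟩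
    · exact Or.inl ⟨h1, h2 (by omega)⟩
    · exact Or.inr ⟨z, h1, h2, h3, h4⟩

/-- **C_plain** -/
theorem C_plain (hk13 : 13 ≤ k) (hn : 1 ≤ n) (ha : 2 ≤ a) {p0 : Cyc k} (hp0 : contc p0 = cC n a m)
    (hE : CEnv n AE Pp Pw) (X : Set (Cyc k))
    (hX : ∀ c, cl c = cl p0 → (c ∈ X ↔ c ∈ TYH k ∧ (m = 0 ∨ m = 2)))
    (ho : 1 ≤ m → ¬ (oddF n a ∧ oddF (n + 1 + a) m)) : ∃ Gp Gw, ClsOK AE (cl p0) X Gp Gw Pp Pw :=
  cls_C hk13 hn ha hp0 hE X ∅ (fun c hc => by
    rw [hX c hc]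
    exact ⟨Or.inl, fun h => h.resolve_right (Set.notMem_empty _)⟩) (Or.inl ⟨rfl, ho⟩)

/-- **C_guest**: `z = cyc b`, `b = S () (())`, class `(n + 2, 2^(a+1), 1^(m+1))` -/
theorem C_guest (hk13 : 13 ≤ k) (hn : 1 ≤ n) (ha : 1 ≤ a) {S : BinaryTree Unit} (hS : ShC n a m S) {b : X k}
    (hb : b.1 = app S (.nil △ H1.ch 2)) {p0 : Cyc k} (hp0 : contc p0 = cC n (a + 1) (m + 1))
    (hE : CEnv n AE Pp Pw) (X : Set (Cyc k))
    (hX : ∀ c, cl c = cl p0 → (c ∈ X ↔ (c ∈ TYH k ∧ m = 1) ∨ c = cyc b))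
    (ho : oddF n (a + 1) ∧ oddF (n + 1 + (a + 1)) (m + 1)) : ∃ Gp Gw, ClsOK AE (cl p0) X Gp Gw Pp Pw := by
  have hcb : contc (cyc b) = cC n (a + 1) (m + 1) := by
    change OddHC.cont b.1 = _
    rw [hb, cont_app, hS.cont hn ha, cont_node, cont_nil, raise_zero, H1.ch_cont 1]
    unfold cC
    rw [Multiset.replicate_add, Multiset.replicate_add, Multiset.replicate_one, Multiset.replicate_one]
    abel
  have hcl : cl (cyc b) = cl p0 := cl_oneM hn hp0 (hcb.trans hp0.symm)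
  refine cls_C hk13 hn (by omega) hp0 hE X {cyc b} (fun c hc => ?_) (Or.inr ⟨cyc b, rfl, by omega, ho, hcl, ?_,
    ?_, ?_, ?_⟩)
  · rw [hX c hc]
    constructor
    · rintro (⟨h1, h2⟩ | h)
      · exact Or.inl ⟨h1, Or.inr (by omega)⟩
      · exact Or.inr h
    · rintro (⟨h1, h2⟩ | h)
      · exact Or.inl ⟨h1, by omega⟩
      · exact Or.inr h
  · intro h1 U hU
    obtain rfl : a = 1 := by omega
    exact hS.two hn hb hU
  · intro h1 _ U hU
    obtain rfl : m = 0 := by omega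
    exact hS.np hn ha hb hU
  · intro h1
    obtain rfl : m = 1 := by omega
    exact hS.lev hn ha hb
  · intro h1
    obtain rfl : m = 2 := by omega
    exact hS.ncc hn ha hb n

end

end Hole2

end Pool.OddHC
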