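import Pool.Agent.Work.MP_8f87b2_h40.HInn
import Pool.Agent.Work.MP_8f87b2_h40.H3c

/-!
# MP_8f87b2_co: H against the left content links of section 5 and against K' over `([s-1](()))()`

`Sb A t`: `A` is the inside of a vertex of `t` (or `t`). `Tm t`: a component with a part 1 inside a vertex has the greatest height
in this vertex. Every inner word of a one soliton gadget is `Tm` (`InJ.tm`).
-/

set_option autoImplicit false
set_option linter.unusedSimpArgs false

namespace Pool.OddHC

open Finset Equiv BinaryTree Pool.Agent.Work.MP_8f87b2_co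

namespace J

variable {k n : ℕ} {F F' : Set (Cyc k)} {g g' : DG k}

/-- `A` is `t` or the inside of a vertex of `t` -/
inductive Sb : BinaryTree Unit → BinaryTree Unit → Prop
  | refl (t) : Sb t t
  | step {A C t} : C ∈ cs t → Sb A C → Sb A t

/-- a component with a part 1 has the greatest height -/
def Tm (t : BinaryTree Unit) : Prop :=
  ∀ A, Sb A t → ∀ C ∈ cs A, 1 ∈ OddHC.cont (C △ .nil) → OddHC.ht C + 1 = OddHC.ht A ∨ OddHC.ht A ≤ 2

theorem Tm.sub {t C : BinaryTree Unit} (h : Tm t) (hC : C ∈ cs t) : Tm C :=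
  fun A hA => h A (.step hC hA)

theorem Tm.mk {t : BinaryTree Unit} (h : ∀ C ∈ cs t,
    (1 ∈ OddHC.cont (C △ .nil) → OddHC.ht C + 1 = OddHC.ht t ∨ OddHC.ht t ≤ 2) ∧ Tm C) : Tm t := by
  intro A hA
  cases hA with
  | refl => exact fun C hC => (h C hC).1
  | step hC hA => exact (h _ hC).2 A hA

theorem cont_cs {C t : BinaryTree Unit} (h : C ∈ cs t) : ∀ x ∈ OddHC.cont (C △ .nil), x ∈ OddHC.cont t := by
  induction t with
  | nil => simp at h
  | node _ A B _ ih =>
    intro x hx
    rw [cs_node', List.mem_cons] at h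
    change x ∈ OddHC.cont (A △ B)
    rw [cont_node, Multiset.mem_add]
    rcases h with rfl | h
    · left
      rw [cont_node, cont_nil, add_zero] at hx
      exact hx
    · exact Or.inr (ih h x hx)

/-- no part 1 below, or `()` -/
def N1 (t : BinaryTree Unit) : Prop := 1 ∉ OddHC.cont t ∨ t = l1

theorem N1.inside {A B : BinaryTree Unit} (h : 1 ∉ OddHC.cont (A △ B)) (hA : A ≠ .nil) : N1 A := by
  by_cases h1 : 1 ∈ OddHC.cont A
  · right
    have h2 : 1 ∉ raise (OddHC.cont A) := fun h2 => h (by rw [cont_node, Multiset.mem_add]; exact Or.inl h2)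
    unfold raise at h2
    rw [Multiset.mem_cons, not_or] at h2
    have h3 : (OddHC.cont A).sup = 1 := by
      by_contra h3
      apply h2.2
      exact (Multiset.mem_erase_of_ne (Ne.symm h3)).2 h1
    have h4 : OddHC.cont A = {1} := by
      obtain ⟨M, hM⟩ := Multiset.exists_cons_of_mem h1
      have h5 : (OddHC.cont A).erase 1 = M := by rw [hM, Multiset.erase_cons_head]
      rw [h3, h5] at h2
      have h6 : M = 0 := by
        rw [Multiset.eq_zero_iff_forall_notMem]
        intro x hx
        have h7 : x ∈ OddHC.cont A := by rw [hM]; exact Multiset.mem_cons_of_mem hx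
        have h8 := Multiset.le_sup h7
        have h9 := cont_pos _ _ h7
        have h10 : x = 1 := by omega
        exact h2.2 (h10 ▸ hx)
      rw [hM, h6]
      rfl
    cases A with
    | nil => exact absurd rfl hA
    | node _ D E =>
      change OddHC.cont (D △ E) = {1} at h4
      change D △ E = l1
      rw [cont_node] at h4
      have h5 := congrArg Multiset.card h4
      rw [Multiset.card_add, Multiset.card_singleton] at h5
      unfold raise at h5
      rw [Multiset.card_cons] at h5
      have hE : OddHC.cont E = 0 := Multiset.card_eq_zero.1 (by omega)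
      have hE' : E = .nil := by
        cases E with
        | nil => rfl
        | node _ G H =>
          change OddHC.cont (G △ H) = 0 at hE
          rw [cont_node] at hE
          have := congrArg Multiset.card hE
          rw [Multiset.card_add, Multiset.card_zero] at this
          unfold raise at this
          rw [Multiset.card_cons] at this
          omega
      subst hE'
      rw [cont_nil, add_zero] at h4
      unfold raise at h4
      have hD : (OddHC.cont D).sup = 0 := by
        have h7 : (OddHC.cont D).sup + 1 ∈ ((OddHC.cont D).sup + 1) ::ₘ (OddHC.cont D).erase (OddHC.cont D).sup :=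
          Multiset.mem_cons_self _ _
        rw [h4, Multiset.mem_singleton] at h7
        omega
      have hD' : D = .nil := by
        cases D with
        | nil => rfl
        | node _ G H =>
          exfalso
          have h8 : OddHC.ht (G △ H) = 0 := by rw [OddHC.ht_eq]; exact hD
          rw [OddHC.ht_node] at h8
          omega
      rw [hD']
  · exact Or.inl h1

theorem num_cs {C t : BinaryTree Unit} (h : C ∈ cs t) : C.numNodes < t.numNodes := by
  induction t with
  | nil => simp at h
  | node _ A B _ ih =>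
    rw [cs_node', List.mem_cons] at h
    rcases h with rfl | h
    · simp only [BinaryTree.numNodes]
      omega
    · have := ih h
      simp only [BinaryTree.numNodes]
      omega

theorem N1.tm {t : BinaryTree Unit} (h : N1 t) : Tm t := by
  induction t using WellFounded.induction (measure BinaryTree.numNodes).wf with
  | _ t ih =>
  apply Tm.mk
  intro C hC
  rcases h with h | rfl
  · refine ⟨fun h1 => absurd (cont_cs hC 1 h1) h, ?_⟩
    have h1 : 1 ∉ OddHC.cont (C △ .nil) := fun h1 => h (cont_cs hC 1 h1)
    have hCn : C ≠ .nil := by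
      rintro rfl
      exact h1 (by rw [cont_node, cont_nil, add_zero, ← cont_nil, raise_nil]; exact Multiset.mem_singleton_self _)
    exact ih C (num_cs hC) (N1.inside h1 hCn)
  · have : C = .nil := by simpa using hC
    subst this
    refine ⟨fun _ => Or.inl rfl, ?_⟩
    apply Tm.mk
    intro C hC
    simp at hC

theorem Tm_nil : Tm .nil := by
  apply Tm.mk
  intro C hC
  simp at hC

theorem N1.left {A X : BinaryTree Unit} (h : N1 (A △ X)) (hA : A ≠ .nil) : N1 A := by
  rcases h with h | h
  · exact N1.inside h hA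
  · exact absurd (node_inj' h).1 hA

theorem N1.no {A X : BinaryTree Unit} (h : N1 (A △ X)) (hA : A ≠ .nil ∨ X ≠ .nil) : 1 ∉ OddHC.cont (A △ X) := by
  rcases h with h | h
  · exact h
  · obtain ⟨h1, h2⟩ := node_inj' h
    rcases hA with h3 | h3
    · exact absurd h1 h3
    · exact absurd h2 h3

/-- **tameness of the inner words** -/
theorem tm_fm {Z : BinaryTree Unit} (hZ : Tm Z) (hZ1 : 1 ≤ OddHC.ht Z) : ∀ t : BinaryTree Unit, t ≠ .nil → N1 t →
    Tm (fm t Z) ∧ OddHC.ht t ≤ OddHC.ht (fm t Z) := by
  intro t
  induction t with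
  | nil => intro h; exact absurd rfl h
  | node _ A X ihA ihX =>
    intro _ hN
    change N1 (A △ X) at hN
    change Tm (fm (A △ X) Z) ∧ OddHC.ht (A △ X) ≤ OddHC.ht (fm (A △ X) Z)
    by_cases h : Tsq.ht X ≤ Tsq.ht A + 1
    · by_cases hA : A = .nil
      · subst hA
        have hX : X = .nil := by
          by_contra hX
          apply hN.no (Or.inr hX)
          rw [cont_node, raise_nil]
          exact Multiset.mem_add.2 (Or.inl (Multiset.mem_singleton_self _))
        subst hX
        rw [fm_nil Z (by rw [Tsq.ht]; omega)]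
        have e : app Z .nil = Z := H1.app_nil Z
        rw [e]
        exact ⟨hZ, hZ1⟩
      · obtain ⟨h1, h2⟩ := ihA hA (hN.left hA)
        rw [fm_hi Z h hA]
        rw [H1.ht_eq, H1.ht_eq] at h
        have h3 : OddHC.ht (fm A Z △ X) = OddHC.ht (fm A Z) + 1 := by
          rw [ht_node]
          omega
        refine ⟨Tm.mk fun C hC => ?_, ?_⟩
        · rw [cs_node, List.mem_cons] at hC
          rcases hC with rfl | hC
          · exact ⟨fun _ => Or.inl h3.symm, h1⟩
          · have hX : 1 ∉ OddHC.cont X := fun h4 => hN.no (Or.inl hA) (by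
              rw [cont_node, Multiset.mem_add]; exact Or.inr h4)
            exact ⟨fun h4 => absurd (cont_cs hC 1 h4) hX, (N1.tm (Or.inl hX)).sub hC⟩
        · rw [h3, ht_node]
          omega
    · have hX : X ≠ .nil := by
        rintro rfl
        rw [Tsq.ht] at h
        omega
      have hX1 : 1 ∉ OddHC.cont X := fun h4 => hN.no (Or.inr hX) (by
        rw [cont_node, Multiset.mem_add]; exact Or.inr h4)
      obtain ⟨h1, h2⟩ := ihX hX (Or.inl hX1)
      rw [fm_lo Z (by omega)]
      rw [H1.ht_eq, H1.ht_eq] at h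
      have h3 : OddHC.ht (A △ fm X Z) = OddHC.ht (fm X Z) := by
        rw [ht_node]
        omega
      have hA : A ≠ .nil → N1 A := fun hA => hN.left hA
      refine ⟨Tm.mk fun C hC => ?_, ?_⟩
      · rw [cs_node, List.mem_cons] at hC
        rcases hC with rfl | hC
        · refine ⟨fun h4 => ?_, ?_⟩
          · exfalso
            apply hN.no (Or.inr hX)
            rw [cont_node, cont_nil, add_zero] at h4
            rw [cont_node, Multiset.mem_add]
            exact Or.inl h4
          · by_cases hC : C = .nil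
            · subst hC; exact Tm_nil
            · exact (hA hC).tm
        · refine ⟨fun h4 => ?_, h1.sub hC⟩
          rw [h3]
          exact h1 _ (.refl _) C hC h4
      · rw [h3, ht_node]
        omega

theorem tm_Zt (i : ℕ) : Tm (Zt i) := by
  have h1 : Tm l1 := N1.tm (Or.inr rfl)
  unfold Zt
  split
  · apply Tm.mk
    intro C hC
    have : C = .nil := by simpa using hC
    subst this
    exact ⟨fun _ => Or.inl rfl, Tm_nil⟩
  · apply Tm.mk
    intro C hC
    have : C = l1 ∨ C = .nil := by simpa using hC
    rcases this with rfl | rfl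
    · exact ⟨fun _ => Or.inl rfl, h1⟩
    · exact ⟨fun _ => Or.inr (by decide), Tm_nil⟩
  · apply Tm.mk
    intro C hC
    have : C = .nil △ (.nil △ .nil) := by simpa using hC
    subst this
    refine ⟨fun _ => Or.inl rfl, ?_⟩
    apply Tm.mk
    intro C hC
    have : C = .nil := by simpa using hC
    subst this
    exact ⟨fun _ => Or.inl rfl, Tm_nil⟩
  · apply Tm.mk
    intro C hC
    have : C = .nil ∨ C = l1 := by simpa using hC
    rcases this with rfl | rfl
    · exact ⟨fun _ => Or.inr (by decide), Tm_nil⟩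
    · exact ⟨fun _ => Or.inl rfl, h1⟩

theorem mem_cs_mir {C t : BinaryTree Unit} (h : C ∈ cs t) : Tsq.mir C ∈ cs (Tsq.mir t) := by
  rw [cs_mirx, List.mem_reverse]
  exact List.mem_map_of_mem h

theorem Sb.mir {A t : BinaryTree Unit} (h : Sb A t) : Sb (Tsq.mir A) (Tsq.mir t) := by
  induction h with
  | refl => exact .refl _
  | step h _ ih => exact .step (mem_cs_mir h) ih

theorem Tm.of_mir {t : BinaryTree Unit} (h : Tm (Tsq.mir t)) : Tm t := by
  intro A hA C hC h1
  have h2 := h _ hA.mir _ (mem_cs_mir hC) (by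
    have e : Tsq.mir (C △ .nil) = Tsq.mir C △ .nil := rfl
    rw [← e, HM.cont_mir]
    exact h1)
  have e : ∀ s : BinaryTree Unit, OddHC.ht (Tsq.mir s) = OddHC.ht s := by
    intro s
    rw [OddHC.ht_eq, OddHC.ht_eq, HM.cont_mir]
  rw [e, e] at h2
  exact h2

theorem InnJ.tm {w : BinaryTree Unit} (h : InnJ k n w) : Tm w := by
  obtain ⟨Φ, i, x, hn, hi, hx, rfl⟩ := h
  obtain ⟨G, -, e⟩ := mir_TT_RF hn Φ hi hx
  rw [e]
  have hZ1 : 1 ≤ OddHC.ht (Zt i) := by
    rw [← H1.ht_eq]
    exact ht_Zt i
  refine (tm_fm (tm_Zt i) hZ1 _ ?_ (Or.inl ?_)).1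
  · intro h1
    have h2 := Ring1.cont_RF hn G
    rw [h1, cont_nil] at h2
    have := congrArg Multiset.card h2
    simp at this
  · rw [Ring1.cont_RF hn, Multiset.mem_add, Multiset.mem_singleton, Multiset.mem_replicate]
    omega

/-- **the inner words are tame** -/
theorem InJ.tm {w : BinaryTree Unit} (h : InJ k w) : Tm w := by
  obtain ⟨n, h | h⟩ := h
  · exact h.tm
  · exact h.tm.of_mir

/-- **the host of a content link, exact** -/
theorem InJ.host2 {w : BinaryTree Unit} (h : InJ k w) {c : ℕ} {R : BinaryTree Unit} (hc : 2 ≤ c)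
    (hR : 3 ≤ OddHC.ht R) (h2 : c = 2 → 1 ∉ OddHC.cont R ∨ ¬ J.nn R ∨ ¬ Tm R)
    (e : w = R △ H1.ch c ∨ w = app (H1.ch c) (R △ .nil)) : False := by
  by_cases h3 : c = 2 → 1 ∉ OddHC.cont R ∨ ¬ J.nn R
  · exact h.host hc hR h3 e
  · push Not at h3
    obtain ⟨rfl, h4, h5⟩ := h3
    rcases h2 rfl with h6 | h6 | h6
    · exact h6 h4
    · exact h6 h5
    · apply h6
      refine h.tm.sub ?_
      rcases e with e | e
      · rw [e, cs_node]; exact List.mem_cons_self
      · rw [e, cs_app, cs_node]; exact List.mem_append_right _ List.mem_cons_self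

/-- **Cl** -/
theorem InJ.not_Cl2 {w : X k} {c : ℕ} {R : BinaryTree Unit} (h : InJ k w.1) (h' : TyC' c R F' g') (hc : 2 ≤ c)
    (hR : 3 ≤ OddHC.ht R) (h2 : c = 2 → 1 ∉ OddHC.cont R ∨ ¬ J.nn R ∨ ¬ Tm R) : w ∉ g'.B := by
  intro hw
  rcases IsTri.words h' w hw with e1 | ⟨_, e1 | e1⟩ <;> rw [e1] at h
  · exact h.host2 hc hR h2 (Or.inr rfl)
  · exact h.no_N nil_mem_app
  · refine h.two (u := [H1.ch c]) (v := cs R) ?_ ⟨_, List.mem_cons_self, ch_ne_l1 hc⟩ (ex_ne_l1 hR)
    rfl

/-- a vertex with a component `C` which has a part 1 and is not of the greatest height -/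
theorem not_tm {t A C : BinaryTree Unit} (hA : Sb A t) (hC : C ∈ cs A) (h1 : 1 ∈ OddHC.cont (C △ .nil))
    (h2 : OddHC.ht C + 1 < OddHC.ht A) (h3 : 3 ≤ OddHC.ht A) : ¬ Tm t := by
  intro h
  rcases h A hA C hC h1 with h4 | h4 <;> omega

/-- **K' over `V()`** (one bead), `V` ends with `(())` inside -/
theorem JG.nKm1 (hn : 1 ≤ n) {B : Finset (X k)} {P U M : Set (ZMod (2 * n + 1) → ℕ)}
    (h : JG n B P U M) {F : Set (Cyc k)} {g : DG k} {V : BinaryTree Unit} {Y : List (BinaryTree Unit)}
    (hV : (cs V).reverse = l1 :: Y) (ht : IsTri (.nil △ .nil) (V △ (.nil △ .nil)) .nil F g) :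
    ∀ w ∈ B, w ∉ g.B := by
  have hVn : V ≠ .nil := by
    rintro rfl
    simp at hV
  intro w hw hwE
  have hW : cs w.1 = [nil, V △ (.nil △ .nil)] ∨ cs w.1 = [V, nil, nil, nil] ∨ cs w.1 = [l1, V, nil] := by
    rcases ht.words w hwE with h | ⟨_, h | h⟩
    · left
      rw [h]
      simp [w1]
    · right; left
      rw [h]
      simp [w1]
    · right; right
      rw [h]
      simp [w1]
  clear ht
  have hW2 : (cs w.1).reverse = [V △ (.nil △ .nil), nil] ∨ (cs w.1).reverse = [nil, nil, nil, V] ∨
      (cs w.1).reverse = [nil, V, l1] := by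
    rcases hW with h | h | h <;> rw [h] <;> simp
  rcases h.cases hn hw with ⟨Φ, hΦ, p, q, D, hD, e, hcs⟩ | ⟨G, hG, p, q, D, hD, h0, e, hcs⟩ |
    ⟨Ψ, hΨ, t, u, D, hD, e, hcs⟩
  · have hRn' := RR_ne p D q
    obtain ⟨A2, Y2, f2, n2⟩ := RR_front p D q hD
    obtain ⟨A3, Y3, f3, n3⟩ := RR_back p D q hD
    have hlen := lenRR p D q
    rcases hcs with e1 | e1 | e1 | e1 | e1 | e1 | e1 | e1 <;> rw [e1] at hW hW2
    · rcases hW2 with h5 | h5 | h5
      · simp only [cs_app, cs_node, cs_nil, List.reverse_append, f3] at h5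
        simp at h5
      · simp only [cs_app, cs_node, cs_nil, List.reverse_append, f3] at h5
        simp [n3] at h5
      · simp only [cs_app, cs_node, cs_nil, List.reverse_append, f3] at h5
        simp [hVn.symm] at h5
    · rcases hW with h5 | h5 | h5
      · have h6 := congrArg List.length h5
        simp only [cs_app, cs_node, cs_nil, List.length_append, List.length_cons, List.length_nil] at h6
        omega
      · simp [hVn.symm] at h5
      · simp at h5
    · rcases hW with h5 | h5 | h5 <;> simp at h5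
    · rcases hW with h5 | h5 | h5
      · simp at h5
      · simp [hVn.symm] at h5
      · simp at h5
    · rcases hW with h5 | h5 | h5
      · simp [hRn'] at h5
      · simp at h5
      · simp at h5
    · rcases hW with h5 | h5 | h5 <;> simp at h5
    · rcases hW with h5 | h5 | h5
      · have h6 : RR p D q = V △ (.nil △ .nil) := by simpa using h5
        have h7 := nn_RR (p := p) (t := q) hD nil (by rw [h6]; simp)
        simp [isN] at h7
      · simp at h5
      · simp at h5
    · rcases hW with h5 | h5 | h5 <;> simp at h5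
  · have h6 := nn_RR (p := p) (t := q) hD
    have h7 : nil ∈ cs w.1 := by
      rcases hW with h5 | h5 | h5 <;> rw [h5] <;> simp
    rw [hcs] at h7
    have := h6 _ h7
    simp [isN] at this
  · have hDn := hD.nil_ne
    have hDl := hD.ne
    have hRn' := RR_ne u D 0
    obtain ⟨A2, Y2, f2, n2⟩ := RR_front u D 0 hD
    have f3 := RR0_back u D
    have g2 := b2_front t
    have g3 := b2_back t
    have hlen := lenRR u D 0
    have hlb := lenb2 (t + 1)
    have hb2 : b2 (t + 1) ≠ l1 := by
      intro h
      have := congrArg cs h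
      simp [List.replicate_succ] at this
    have hb0 : b2 (t + 1) ≠ .nil := by
      intro h8
      have := congrArg cs h8
      simp [List.replicate_succ] at this
    rcases hcs with e1 | e1 | e1 | e1 | e1 | e1 | e1 | e1 | e1 <;> rw [e1] at hW hW2
    · -- S'()()B'
      rcases hW2 with h5 | h5 | h5
      · have h6 := congrArg List.length h5
        simp only [cs_app, cs_node, List.length_reverse, List.length_append, List.length_cons, List.length_nil] at h6
        omega
      · simp only [cs_app, cs_node, cs_nil, List.reverse_append, List.reverse_cons, g3] at h5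
        simp at h5
      · simp only [cs_app, cs_node, cs_nil, List.reverse_append, List.reverse_cons, g3] at h5
        simp at h5
    · -- ()B'(S')
      rcases hW with h5 | h5 | h5
      · have h6 := congrArg List.length h5
        simp only [cs_app, cs_node, cs_nil, List.length_append, List.length_cons, List.length_nil] at h6
        omega
      · simp [hVn.symm] at h5
      · simp at h5
    · -- (()B')S'
      rcases hW2 with h5 | h5 | h5
      · have h6 := (congrArg List.reverse h5)
        simp at h6
      · simp only [cs_node, List.reverse_cons, f3] at h5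
        simp [hDn] at h5
      · simp only [cs_node, List.reverse_cons, f3] at h5
        simp [hDn] at h5
    · -- B'(S'())
      rcases hW with h5 | h5 | h5
      · simp only [cs_app, g2, List.cons_append] at h5
        simp at h5
      · have h6 := congrArg List.reverse h5
        simp only [cs_app, cs_node, cs_nil, List.reverse_append] at h6
        have h7 : app (RR u D 0) (.nil △ .nil) = BinaryTree.nil := by
          simpa using (List.cons.inj h6).1
        have h8 := congrArg cs h7
        simp at h8
      · have h6 := congrArg List.reverse h5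
        simp only [cs_app, cs_node, cs_nil, List.reverse_append] at h6
        have h7 : app (RR u D 0) (.nil △ .nil) = BinaryTree.nil := by
          simpa using (List.cons.inj h6).1
        have h8 := congrArg cs h7
        simp at h8
    · -- B'(S')()
      rcases hW2 with h5 | h5 | h5
      · simp only [cs_app, cs_node, cs_nil, List.reverse_append, List.reverse_cons, g3] at h5
        simp at h5
      · simp only [cs_app, cs_node, cs_nil, List.reverse_append, List.reverse_cons, g3] at h5
        simp [hRn'] at h5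
      · simp only [cs_app, cs_node, cs_nil, List.reverse_append, List.reverse_cons, g3] at h5
        have h6 : RR u D 0 = V := by
          simp at h5
          exact h5.1
        rw [← h6, f3] at hV
        exact hDl (List.cons.inj hV).1
    · -- ()(B')S'
      rcases hW with h5 | h5 | h5
      · have h6 := congrArg List.length h5
        simp only [cs_app, cs_node, cs_nil, List.length_append, List.length_cons, List.length_nil] at h6
        omega
      · simp [hVn.symm] at h5
      · simp at h5
    · -- (B'(S'))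
      rcases hW with h5 | h5 | h5 <;> simp at h5
    · -- (B')S'()
      rcases hW2 with h5 | h5 | h5
      · simp only [cs_app, cs_node, cs_nil, List.reverse_append, List.reverse_cons, f3] at h5
        simp at h5
      · simp only [cs_app, cs_node, cs_nil, List.reverse_append, List.reverse_cons, f3] at h5
        simp [hDn] at h5
      · have h6 := congrArg List.reverse h5
        simp only [List.reverse_reverse, cs_node] at h6
        exact hb2 (by simpa using (List.cons.inj h6).1)
    · -- ((B')S')
      rcases hW with h5 | h5 | h5 <;> simp at h5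

end J

namespace MW

open Hole2

variable {k : ℕ} {F F' : Set (Cyc k)} {g g' : DG k}

/-- left content links, wider -/
def siH_Cl2 (F' : Set (Cyc k)) (g' : DG k) : Prop :=
  ∃ (c : ℕ) (R : BinaryTree Unit), 2 ≤ c ∧ 3 ≤ OddHC.ht R ∧ TyC' c R F' g' ∧
    (c = 2 → 1 ∉ OddHC.cont R ∨ ¬ J.nn R ∨ ¬ J.Tm R)

theorem i_H_Cl2 (h : TyH F g) (hs : siH_Cl2 F' g') : NI g g' := by
  obtain ⟨c, R, h1, h2, h3, h4⟩ := hs
  exact fun p hp w hw => (h.innJ p hp w hw).not_Cl2 h3 h1 h2 h4

theorem ht_le_cont {R : BinaryTree Unit} {x : ℕ} (h : x ∈ OddHC.cont R) : x ≤ OddHC.ht R := by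
  rw [OddHC.ht_eq]
  exact Multiset.le_sup h

/-- the shapes of section 5 -/
theorem shC_htR {n a m : ℕ} (hn : 1 ≤ n) (ha : 1 ≤ a) {S : BinaryTree Unit} (h : ShC n a m S) :
    n + 2 ≤ OddHC.ht S := by
  apply ht_le_cont
  rw [h.cont hn ha, Multiset.mem_add, Multiset.mem_add, Multiset.mem_singleton]
  exact Or.inl (Or.inl rfl)

theorem cs_ch2 : J.cs (H1.ch 2) = [J.l1] := rfl

theorem cs_sqs (a : ℕ) : J.cs (S5.sq a) = List.replicate a J.l1 := by
  unfold S5.sq
  rw [J.cs_lv2, J.cs_nil, List.append_nil]

theorem cs_lps (m : ℕ) : J.cs (lp m) = List.replicate m BinaryTree.nil := by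
  induction m with
  | zero => rfl
  | succ m ih =>
    change J.cs (.nil △ lp m) = _
    rw [J.cs_node, ih, List.replicate_succ]

theorem not_nn {R : BinaryTree Unit} (h : BinaryTree.nil ∈ J.cs R) : ¬ J.nn R := by
  intro h1
  have := h1 _ h
  simp [J.isN] at this

theorem last_sq {R : BinaryTree Unit} {Y : List (BinaryTree Unit)} (h : J.cs R = Y ++ [J.l1]) :
    ∀ R0, R ≠ app R0 (.nil △ .nil) := by
  rintro R0 rfl
  have h1 := congrArg List.reverse h
  rw [J.cs_app, J.cs_node, J.cs_nil, List.reverse_append, List.reverse_append] at h1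
  simp at h1

theorem cl_of_sh {n a m : ℕ} (hn : 2 ≤ n) (ha : 1 ≤ a) {S : BinaryTree Unit} (h : ShC n a m S) :
    (2 ≤ (OddHC.cont S).count 1 ∨ ((OddHC.cont S).count 1 = 0 ∧ ∃ R0, S = app R0 (H1.ch 2)) ∨
      ((OddHC.cont S).count 1 = 1 ∧ ∀ R0, S ≠ app R0 (.nil △ .nil))) ∧
    (1 ∉ OddHC.cont S ∨ ¬ J.nn S ∨ ¬ J.Tm S) := by
  have hc : (OddHC.cont S).count 1 = m := by
    rw [h.cont (by omega) ha, Multiset.count_add, Multiset.count_add, Multiset.count_singleton,
      Multiset.count_replicate, Multiset.count_replicate_self, if_neg (by omega), if_neg (by omega), zero_add,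
      zero_add]
  obtain ⟨h, h1, _⟩ := h
  rcases h with (⟨hm, h⟩ | ⟨rfl, h2, h⟩) | ⟨rfl, h⟩
  · refine ⟨Or.inl (by omega), Or.inr (Or.inl (not_nn ?_))⟩
    obtain ⟨m, rfl⟩ : ∃ r, m = r + 2 := ⟨m - 2, by omega⟩
    have hl : ∀ r, BinaryTree.nil ∈ J.cs (lp (r + 1)) := fun r => J.nil_mem_lp r
    rcases h with rfl | rfl | rfl | rfl | rfl
    · unfold S5.gE
      rw [J.cs_app]
      exact List.mem_append_right _ (hl _)
    · unfold S5.gO
      rw [J.cs_app]
      exact List.mem_append_right _ (hl _)
    · unfold S5.gP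
      rw [J.cs_app, J.cs_app]
      exact List.mem_append_left _ (List.mem_append_right _ (hl _))
    · unfold S5.gM
      rw [J.cs_app, J.cs_node]
      exact List.mem_append_left _ (List.mem_cons_of_mem _ (hl m))
    · unfold S5.gY
      rw [J.cs_app, J.cs_app]
      exact List.mem_append_left _ (List.mem_append_right _ (hl m))
  · refine ⟨Or.inr (Or.inr ⟨hc, ?_⟩), ?_⟩
    · rcases h with rfl | ⟨h3, rfl⟩ | ⟨rfl, rfl⟩
      · apply last_sq (Y := J.cs (app (app (H1.ch (n + 2)) (S5.sq (a - 2))) (lp 1)) ++ [J.l1])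
        unfold S5.gE1
        rw [J.cs_app, cs_sqs, List.append_assoc]
        rfl
      · apply last_sq (Y := J.cs (app (app (H1.ch (n + 1)) (H1.ch 2) △ S5.sq (a - 3)) (lp 1)) ++ [J.l1])
        unfold S5.gO1
        rw [J.cs_app, cs_sqs, List.append_assoc]
        rfl
      · apply last_sq (Y := [app (H1.ch (n + 1)) (lp 2 △ .nil)])
        unfold S5.gO2
        rw [J.cs_node, cs_sqs]
        rfl
    · rcases h with rfl | ⟨h3, rfl⟩ | ⟨rfl, rfl⟩
      · refine Or.inr (Or.inl (not_nn ?_))
        unfold S5.gE1
        rw [J.cs_app, J.cs_app]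
        exact List.mem_append_left _ (List.mem_append_right _ (J.nil_mem_lp 0))
      · refine Or.inr (Or.inl (not_nn ?_))
        unfold S5.gO1
        rw [J.cs_app, J.cs_app]
        exact List.mem_append_left _ (List.mem_append_right _ (J.nil_mem_lp 0))
      · refine Or.inr (Or.inr (J.not_tm (A := app (H1.ch (n + 1)) (lp 2 △ .nil)) (C := lp 2) ?_ ?_ ?_ ?_ ?_))
        · refine .step ?_ (.refl _)
          unfold S5.gO2
          rw [J.cs_node]
          exact List.mem_cons_self
        · rw [J.cs_app, J.cs_node]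
          exact List.mem_append_right _ List.mem_cons_self
        · decide
        · have h4 : n + 1 ≤ OddHC.ht (app (H1.ch (n + 1)) (lp 2 △ .nil)) := by
            apply ht_le_cont
            rw [cont_app, S5.c_ch (by omega)]
            exact Multiset.mem_add.2 (Or.inl (Multiset.mem_singleton_self _))
          have h5 : OddHC.ht (lp 2) = 1 := rfl
          omega
        · have h4 : n + 1 ≤ OddHC.ht (app (H1.ch (n + 1)) (lp 2 △ .nil)) := by
            apply ht_le_cont
            rw [cont_app, S5.c_ch (by omega)]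
            exact Multiset.mem_add.2 (Or.inl (Multiset.mem_singleton_self _))
          omega
  · have h0 : 1 ∉ OddHC.cont S := by
      intro h2
      rw [← Multiset.count_pos, hc] at h2
      omega
    refine ⟨Or.inr (Or.inl ⟨hc, ?_⟩), Or.inl h0⟩
    rcases h with rfl | rfl
    · refine ⟨app (H1.ch (n + 2)) (S5.sq (a - 1)), ?_⟩
      apply J.cs_inj
      obtain ⟨a, rfl⟩ : ∃ b, a = b + 1 := ⟨a - 1, by omega⟩
      unfold S5.gE
      rw [J.cs_app, J.cs_app, J.cs_app, J.cs_app, cs_sqs, cs_sqs, cs_ch2, J.rep_snoc]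
      change _ ++ [] = _
      simp
    · have ha2 : 2 ≤ a := by
        rcases Nat.lt_or_ge a 2 with h3 | h3
        · obtain rfl : a = 1 := by omega
          exact absurd rfl (h1 rfl)
        · exact h3
      obtain ⟨a, rfl⟩ : ∃ b, a = b + 2 := ⟨a - 2, by omega⟩
      refine ⟨app (H1.ch (n + 1)) (H1.ch 2) △ S5.sq a, ?_⟩
      apply J.cs_inj
      unfold S5.gO
      rw [J.cs_app, J.cs_app, J.cs_node, J.cs_node, cs_sqs, cs_sqs, cs_ch2]
      change _ ++ [] = _
      rw [show a + 2 - 1 = a + 1 from rfl, J.rep_snoc]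
      simp

/-- **the links of section 5 against H** -/
theorem shC_H {n a m : ℕ} (hn : 2 ≤ n) (ha : 1 ≤ a) {S : BinaryTree Unit} (h : ShC n a m S)
    (h' : TyC' 2 S F' g') : sH_Cl F' g' ∧ siH_Cl2 F' g' := by
  have hh := shC_htR (by omega) ha h
  obtain ⟨h1, h2⟩ := cl_of_sh hn ha h
  exact ⟨⟨2, S, le_rfl, by omega, ⟨1, rfl⟩, h', fun _ => Or.inr h1⟩, ⟨2, S, le_rfl, by omega, h', fun _ => h2⟩⟩

/-- **the links over `([s-1]()^q)` against H** -/
theorem shM_H {n q : ℕ} (hn : 2 ≤ n) (hq : 2 ≤ q) (h' : TyC' 2 (app (H1.ch (n + 1)) (lp q) △ .nil) F' g') :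
    sH_Cl F' g' ∧ siH_Cl2 F' g' := by
  have hc : OddHC.cont (app (H1.ch (n + 1)) (lp q) △ .nil) = {n + 2} + Multiset.replicate q 1 := by
    rw [cont_node, cont_nil, add_zero, cont_app, S5.c_ch (by omega), S5.c_lp]
    have h3 := raise_top40 (s := n + 1) (M := Multiset.replicate q 1)
    rw [h3]
    intro x hx
    rw [Multiset.eq_of_mem_replicate hx]
    omega
  have hh : n + 2 ≤ OddHC.ht (app (H1.ch (n + 1)) (lp q) △ .nil) := by
    apply ht_le_cont
    rw [hc]
    exact Multiset.mem_add.2 (Or.inl (Multiset.mem_singleton_self _))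
  have h4 : n + 1 ≤ OddHC.ht (app (H1.ch (n + 1)) (lp q)) := by
    apply ht_le_cont
    rw [cont_app, S5.c_ch (by omega)]
    exact Multiset.mem_add.2 (Or.inl (Multiset.mem_singleton_self _))
  refine ⟨⟨2, _, le_rfl, by omega, ⟨1, rfl⟩, h', fun _ => Or.inr (Or.inl ?_)⟩, ⟨2, _, le_rfl, by omega, h', fun _ => ?_⟩⟩
  · rw [hc, Multiset.count_add, Multiset.count_singleton, if_neg (by omega), Multiset.count_replicate_self]
    omega
  · refine Or.inr (Or.inr (J.not_tm (A := app (H1.ch (n + 1)) (lp q)) (C := .nil) ?_ ?_ ?_ ?_ (by omega)))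
    · refine .step ?_ (.refl _)
      rw [J.cs_node]
      exact List.mem_cons_self
    · obtain ⟨q, rfl⟩ : ∃ r, q = r + 1 := ⟨q - 1, by omega⟩
      rw [J.cs_app]
      exact List.mem_append_right _ (J.nil_mem_lp q)
    · decide
    · have : OddHC.ht .nil = 0 := rfl
      omega

/-- **K' over `([s-1](()))()`** (`t = 5`), words and inner words -/
theorem kmN_H {n : ℕ} (h : TyH F g) (h' : TyK' (app (H1.ch (n + 1)) (H1.ch 2) △ lp 1) F' g') :
    NC g g' ∧ NI g g' := by
  constructor
  · obtain ⟨n', hn, P, U, M, hj⟩ := h.jg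
    refine hj.nKm1 hn (V := app (H1.ch (n + 1)) (H1.ch 2)) (Y := (J.cs (H1.ch (n + 1))).reverse) ?_ h'
    rw [J.cs_app, List.reverse_append, cs_ch2]
    rfl
  · refine i_H_Kp h h' (Or.inl ?_)
    rw [J.cs_node]
    exact List.mem_cons_of_mem _ (J.nil_mem_lp 0)

end MW

end Pool.OddHC
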