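import Pool.Agent.Work.MP_8f87b2_h40.HRow
import Pool.Agent.Work.MP_8f87b2_fin.MatN
import Pool.Agent.Work.MP_8f87b2_h57.J3Rows2
import Pool.Agent.Work.MP_8f87b2_h57.J5three
import Pool.Agent.Work.MP_8f87b2_h21.JVi
import Pool.Agent.Work.MP_8f87b2_h54.JVmj
import Pool.Agent.Work.MP_8f87b2_h25.JEIn2
import Pool.Agent.Work.MP_8f87b2_h25.JEOut
import Pool.Agent.Work.MP_8f87b2_h34.J3VJ3
import Pool.Agent.Work.MP_8f87b2_h68.JI
import Pool.Agent.Work.MP_8f87b2_h41.InAJ
import Pool.Agent.Work.MP_8f87b2_h84.Inn2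
import Pool.Agent.Work.MP_8f87b2_h10.EdJ
import Pool.Agent.Work.MP_8f87b2_h3.A0T2

/-!
# MP_8f87b2_co: column H of the inner matrix

`i_H_X` : no inner word of a group of type H is a word of a group of type X; `i_X_H` : the converse.
-/

set_option autoImplicit false

namespace Pool.OddHC

open Finset Equiv BinaryTree Pool.Agent.Work.MP_8f87b2_co

namespace J

variable {k : ℕ} {F F' : Set (Cyc k)} {g g' : DG k}

theorem InJ.no_EB {w : BinaryTree Unit} (h : InJ k w) {C : BinaryTree Unit} (hC : C ∈ cs w) : ¬ EB C := by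
  obtain ⟨p, E, t, hE, e⟩ := h.shape
  rw [e] at hC
  exact not_EB_RR hE hC

/-- **K**: `S` has a bead component, or a component `A()`, or no bead at all -/
theorem InJ.not_K2 {w : X k} {S : BinaryTree Unit} (h : InJ k w.1) (h' : TyK S F' g')
    (hS : nil ∈ cs S ∨ (∃ C ∈ cs S, EB C) ∨ 1 ∉ OddHC.cont S) : w ∉ g'.B := by
  intro hw
  rcases IsTri.words h' w hw with e1 | ⟨_, e1 | e1⟩ <;> rw [e1] at h
  · exact h.no_N (nil_mem_node (P := .nil) (A := S))
  · rcases hS with h1 | ⟨C, h1, h2⟩ | h1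
    · exact h.no_N (by rw [w1, cs_app]; exact List.mem_append_left _ h1)
    · exact h.no_EB (by rw [w1, cs_app]; exact List.mem_append_left _ h1) h2
    · have h2 := h.one
      have h3 : OddHC.cont (w1 S (.nil △ .nil) .nil) = OddHC.cont S + {2} := by
        change OddHC.cont (app S (l1 △ .nil)) = _
        rw [cont_app, cont_l1', cont_nil, add_zero]
      rw [h3, Multiset.mem_add, Multiset.mem_singleton] at h2
      rcases h2 with h2 | h2
      · exact h1 h2
      · omega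
  · exact h.no_N nil_mem_cons

/-- **K'** -/
theorem InJ.not_Km2 {w : X k} {S : BinaryTree Unit} (h : InJ k w.1) (h' : TyK' S F' g')
    (hS : nil ∈ cs S ∨ (∃ C ∈ cs S, EB C) ∨ 1 ∉ OddHC.cont S) : w ∉ g'.B := by
  intro hw
  rcases IsTri.words h' w hw with e1 | ⟨_, e1 | e1⟩ <;> rw [e1] at h
  · exact h.no_N nil_mem_cons
  · exact h.no_N nil_mem_app
  · rcases hS with h1 | ⟨C, h1, h2⟩ | h1
    · exact h.no_N (by change nil ∈ cs (l1 △ S); rw [cs_node]; exact List.mem_cons_of_mem _ h1)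
    · exact h.no_EB (by change C ∈ cs (l1 △ S); rw [cs_node]; exact List.mem_cons_of_mem _ h1) h2
    · have h2 := h.one
      have h3 : OddHC.cont (w1 .nil (.nil △ .nil) S) = {2} + OddHC.cont S := cont_l1' S
      rw [h3, Multiset.mem_add, Multiset.mem_singleton] at h2
      rcases h2 with h2 | h2
      · omega
      · exact h1 h2

theorem nil_mem_lp (m : ℕ) : nil ∈ cs (lp (m + 1)) := by
  change nil ∈ cs (.nil △ lp m)
  rw [cs_node]
  exact List.mem_cons_self

/-- the right K links -/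
theorem khp_cs {S : BinaryTree Unit} (h : KHp S) : 2 ≤ h3c S ∨ nil ∈ cs S ∨ 1 ∉ OddHC.cont S := by
  have hv1 : ∀ {S1 : BinaryTree Unit}, H1.hv S1 → 1 ∉ OddHC.cont S1 := by
    intro S1 h1 h2
    have := hv_part h1 1 h2
    omega
  rcases h with ⟨S1, q, rfl, h1, h2, h3⟩ | ⟨S1, q, rfl, h1, h2⟩ | ⟨S1, m, rfl, h1, h2⟩ | ⟨S1, q, rfl, h1, h2⟩ |
    ⟨S1, A, m, rfl, h1, h3⟩ | ⟨S1, a, rfl, h1, h2⟩
  · right; right
    intro h4
    have := h3 1 h4
    omega
  · right; left
    rw [cs_app, cs_node]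
    exact List.mem_append_right _ List.mem_cons_self
  · right; left
    rw [cs_app]
    exact List.mem_append_right _ (nil_mem_lp _)
  · right; left
    rw [cs_app, cs_node]
    exact List.mem_append_right _ List.mem_cons_self
  · right; left
    rw [cs_app, cs_node]
    exact List.mem_append_right _ (List.mem_cons_of_mem _ (nil_mem_lp _))
  · right; right
    rw [cont_app, Multiset.mem_add]
    rintro (h4 | h4)
    · exact hv1 h1 h4
    · rw [cont_lv2, cont_nil, add_zero, Multiset.mem_replicate] at h4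
      omega

/-- a part `≥ 3` in a component without part 1, 2 -/
theorem dnu_cs {V : BinaryTree Unit} (h : DnU V) : 2 ≤ h3c V ∨ nil ∈ cs V := by
  by_cases hn : nil ∈ cs V
  · exact Or.inr hn
  left
  have hVn := h.ne
  obtain ⟨A, Y, rfl⟩ : ∃ A Y, V = A △ Y := by
    cases V with
    | nil => exact absurd rfl hVn
    | node _ A Y => exact ⟨A, Y, rfl⟩
  have hYn : Y ≠ .nil := by
    rintro rfl
    exact h.two A rfl
  obtain ⟨C, Z, rfl⟩ : ∃ C Z, Y = C △ Z := by
    cases Y with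
    | nil => exact absurd rfl hYn
    | node _ C Z => exact ⟨C, Z, rfl⟩
  have hA : A ≠ .nil := by
    rintro rfl
    exact hn (by rw [cs_node]; exact List.mem_cons_self)
  have hC : C ≠ .nil := by
    rintro rfl
    exact hn (by rw [cs_node, cs_node]; exact List.mem_cons_of_mem _ List.mem_cons_self)
  have key : ∀ {C : BinaryTree Unit}, C ≠ .nil → (raise (OddHC.cont C)).count 2 = 0 →
      1 ≤ (raise (OddHC.cont C)).countP (3 ≤ ·) := by
    intro C hC h2
    rw [Nat.one_le_iff_ne_zero, ← Nat.pos_iff_ne_zero, Multiset.countP_pos]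
    have h3 : OddHC.cont C ≠ 0 := by
      cases C with
      | nil => exact absurd rfl hC
      | node _ D E =>
        change OddHC.cont (D △ E) ≠ 0
        rw [cont_node]
        intro h4
        have h5 := congrArg Multiset.card h4
        rw [Multiset.card_add, Multiset.card_zero] at h5
        unfold raise at h5
        rw [Multiset.card_cons] at h5
        omega
    refine ⟨(OddHC.cont C).sup + 1, Multiset.mem_cons_self _ _, ?_⟩
    have h6 : 1 ≤ (OddHC.cont C).sup := by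
      have := cont_pos _ _ (sup_mem h3)
      omega
    have h7 : (OddHC.cont C).sup ≠ 1 := by
      intro h8
      have h9 : 2 ∈ raise (OddHC.cont C) := by
        unfold raise
        rw [h8]
        exact Multiset.mem_cons_self _ _
      exact (Multiset.count_eq_zero.1 h2) h9
    omega
  have hc2 := h.c2
  rw [cont_node, cont_node, Multiset.count_add, Multiset.count_add] at hc2
  have h1 := key hA (by omega)
  have h2 := key hC (by omega)
  unfold h3c
  rw [cont_node, cont_node, Multiset.countP_add, Multiset.countP_add]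
  omega

/-- **DOWN** -/
theorem InJ.not_Dn {w : X k} {V : BinaryTree Unit} (h : InJ k w.1) (hV : DnU V) (h' : TyC 2 V F' g') :
    w ∉ g'.B := by
  intro hw
  have e3 := h.c3
  rcases IsTri.words h' w hw with e1 | ⟨_, e1 | e1⟩ <;> rw [e1] at h e3
  · -- host `(V)[2]`
    rcases dnu_cs hV with h1 | h1
    · have h2 : h3c (w1 .nil V (H1.ch 2)) = (raise (OddHC.cont V)).countP (3 ≤ ·) + (OddHC.cont (H1.ch 2)).countP (3 ≤ ·) := by
        unfold h3c
        change (OddHC.cont (V △ H1.ch 2)).countP (3 ≤ ·) = _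
        rw [cont_node, Multiset.countP_add]
      have h3 := countP_raise (OddHC.cont V)
      unfold h3c at h1
      omega
    · -- a bead of `V` : the inside of the component
      obtain ⟨p, E, t, hE, e⟩ := h.shape
      have h2 : V ∈ cs (RR p E t) := by
        rw [← e]
        change V ∈ cs (V △ H1.ch 2)
        rw [cs_node]
        exact List.mem_cons_self
      rw [cs_RR, List.mem_append, List.mem_cons, List.mem_replicate, List.mem_replicate] at h2
      rcases h2 with ⟨_, h2⟩ | h2 | ⟨_, h2⟩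
      · have := hV.h3
        rw [h2] at this
        change 3 ≤ 1 at this
        omega
      · rw [h2] at h1
        have := hE.nn _ h1
        simp at this
      · have := hV.h3
        rw [h2] at this
        change 3 ≤ 1 at this
        omega
  · -- `V[3]`
    rcases dnu_cs hV with h1 | h1
    · have h2 : h3c (w1 V (H1.ch 2) .nil) = h3c V + h3c (H1.ch 2 △ .nil) := by
        change h3c (app V (H1.ch 2 △ .nil)) = _
        rw [h3c_app]
      omega
    · exact h.no_N (by rw [w1, cs_app]; exact List.mem_append_left _ h1)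
  · exact h.no_N (by
      change nil ∈ cs (app (H1.ch 2) (.nil △ V))
      rw [cs_app, cs_node]
      exact List.mem_append_right _ List.mem_cons_self)

end J

namespace MW

open Hole2

variable {k : ℕ} {F F' : Set (Cyc k)} {g g' : DG k}

theorem np3_h3c (S : BinaryTree Unit) : np3 (cont S) = J.h3c S := rfl

/-! ### Out of H -/

theorem i_H_L (h : TyH F g) (h' : TyL F' g') : NI g g' := h.inner_L h'

theorem i_H_K (h : TyH F g) (h' : TyKh F' g') : NI g g' := by
  obtain ⟨S, h1, h2⟩ := h'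
  intro p hp w hw
  rcases J.khp_cs h1 with h3 | h3 | h3
  · exact (h.innJ p hp w hw).not_K h2 h3
  · exact (h.innJ p hp w hw).not_K2 h2 (Or.inl h3)
  · exact (h.innJ p hp w hw).not_K2 h2 (Or.inr (Or.inr h3))

theorem i_H_Km (h : TyH F g) (h' : KmS F' g') : NI g g' := by
  obtain ⟨S, _, _, _, _, ⟨V, A, m, hA, rfl⟩, h2⟩ := h'
  intro p hp w hw
  exact (h.innJ p hp w hw).not_Km2 h2 (Or.inr (Or.inl ⟨_, mem_cs_app V (lp m), A, hA, rfl⟩))

/-- K' over any `S` with a component `()` or `A()`, `A ≠ e` -/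
theorem i_H_Kp (h : TyH F g) {S : BinaryTree Unit} (h' : TyK' S F' g')
    (hS : nil ∈ J.cs S ∨ (∃ C ∈ J.cs S, J.EB C) ∨ 1 ∉ OddHC.cont S) : NI g g' :=
  fun p hp w hw => (h.innJ p hp w hw).not_Km2 h' hS

theorem i_H_Cr (h : TyH F g) (h' : CrS F' g') : NI g g' := h.inner_Cr h'.cr

/-- left content links -/
def siH_Cl (F' : Set (Cyc k)) (g' : DG k) : Prop :=
  ∃ (c : ℕ) (R : BinaryTree Unit), 2 ≤ c ∧ 3 ≤ OddHC.ht R ∧ TyC' c R F' g' ∧
    (c = 2 → 1 ∉ OddHC.cont R ∨ ¬ J.nn R)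

theorem i_H_Cl (h : TyH F g) (hs : siH_Cl F' g') : NI g g' := by
  obtain ⟨c, R, h1, h2, h3, h4⟩ := hs
  exact h.inner_C' h3 h1 h2 h4

theorem i_H_Dn (h : TyH F g) (h' : TyDn F' g') : NI g g' := by
  obtain ⟨V, h1, h2⟩ := h'
  exact fun p hp w hw => (h.innJ p hp w hw).not_Dn h1 h2

theorem i_H_S5 (h : TyH F g) (h' : TyS5l F' g') : NI g g' := by
  obtain ⟨n, hn, P, U, M, hj⟩ := h.jg
  exact J.JG.inner_S5 hn h.path hj h'.toS5 (s5_cnt h')

theorem i_H_A (hk : 10 ≤ k) (h : TyH F g) (h' : TyA F' g') : NI g g' := h.inner_A h' hk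

theorem i_H_T (h : TyH F g) (h' : TyT F' g') : NI g g' := h.inner_T h'

theorem i_H_Rq {q : ℕ} (h : TyH F g) (h' : TyRq q F' g' ∨ TySq q F' g') : NI g g' := by
  intro a ha w hw hw'
  have h1 : J.t3 w.1 = 1 := (h.innJ a ha w hw).c3
  obtain ⟨R, B, S, w0, i, h2, hi, rfl⟩ : ∃ (R B S : BinaryTree Unit) (w0 : X k) (i : ℕ),
      HM.NodeM k q R B S ∧ i < 20 ∧ w = H1.wX R B S q w0 i := by
    rcases h' with h' | h'
    · obtain ⟨R, B, S, w0, i, h2, hi, e, -⟩ := h'.words w hw'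
      exact ⟨R, B, S, w0, i, h2, hi, e⟩
    · obtain ⟨R, B, S, w0, i, h2, hi, e, -⟩ := h'.words' w hw'
      exact ⟨R, B, S, w0, i, h2, hi, e⟩
  rcases Nat.eq_zero_or_pos q with rfl | hq
  · rw [H1.wX_eq h2.dat h2.size w0 hi] at h1
    have := J59.w_t3 h2 hi
    omega
  · obtain ⟨h3, h4⟩ := J59.t4_N h2 hq (J59.card_N h2)
    have h5 := J59.w_t4 (Q := H1.ch (q + 1)) h3 h4 hi
    rw [← H1.wX_eq h2.dat h2.size w0 hi] at h5
    have := J59.t4_le_t3 (H1.wX R B S q w0 i).1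
    omega

theorem i_H_J1 (h : TyH F g) (h' : J1.TyJs F' g') : NI g g' := by
  intro a ha w hw hw'
  obtain ⟨s, hs, -, h2⟩ := js_isJ1 h'
  have h1 : J.t3 w.1 = 1 := (h.innJ a ha w hw).c3
  have h3 := (h2 w hw').t3 (by omega) le_rfl
  omega

theorem i_H_J4 (h : TyH F g) (h' : J1.TyJt F' g') : NI g g' := by
  intro a ha w hw hw'
  obtain ⟨s, hs, -, h2⟩ := jt_isJ1M h'
  have h1 : J.t3 w.1 = 1 := (h.innJ a ha w hw).c3
  have h3 := (h2 w hw').t3 (by omega) (by omega)
  rw [J.t3_mir] at h3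
  omega

theorem i_H_J3V (h : TyH F g) (h' : TyJ3V F' g') : NI g g' := h.inner_J3V h'

theorem i_H_JE {R : BinaryTree Unit} (h : TyH F g) (h' : TyJE R F' g') : NI g g' := h.inner_JE h'

theorem i_H_JV {S : BinaryTree Unit} (h : TyH F g) (h' : Is9 .nil .nil S F' g' ∨ Is9M .nil .nil S F' g')
    (h3 : 3 ≤ OddHC.ht S) (h1 : (OddHC.cont S).count 1 = 0) : NI g g' := h.inner_JV h' h3 h1

theorem i_H_L1 (hk : 9 ≤ k) (h : TyH F g) (h' : TyL1 F' g') : NI g g' := h.inner_L1 hk h'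

theorem i_H_H (h : TyH F g) (h' : TyH F' g') : NI g g' := h.inner_H h'

theorem i_H_E (hk : 6 ≤ k) (h : TyH F g) (h' : TyE F' g') (hle : ∀ d ∈ F, ∀ c ∈ F', htc d ≤ htc c)
    (he : (∀ d ∈ F, htc d = 3) ∨ (∃ c ∈ F', ¬ H1.FarC c) ∨ ∃ c ∈ F', ∀ d ∈ F, ∀ a,
      contc c ≠ {htc d} + (Multiset.replicate a 2 + {1} + {1})) : NI g g' := h.inner_E' hk h' hle he

theorem i_H_Ed (h : TyH F g) (h' : TyEd F' g') (h4 : ∀ c ∈ F, 4 ≤ htc c ∧ htc c + 4 ≤ k) : NI g g' := by
  obtain ⟨n, a, hn, ha, hk, hF, P, U, M, hj, hP, hU, hM, hl⟩ := h.full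
  obtain ⟨c, hc⟩ := h.ne
  have h5 := h4 c hc
  have h6 := hF c hc
  exact J.JG.inner_Ed (by omega) hj (fun Φ hΦ => by have := hP Φ hΦ; omega)
    (fun a ha => by obtain ⟨n, _, h7, _⟩ := h.path a ha; exact h7) h'

/-! ### Into H -/

theorem i_A_H (hk : 10 ≤ k) (h : TyA F g) (h' : TyH F' g') (hs : sH_A F) : NI g g' := by
  obtain ⟨n, hn, P, U, M, hj⟩ := h'.jg
  exact fun a ha w hw => h.inner_JG hk hs hn hj ha hw

theorem i_T_H (h : TyT F g) (h' : TyH F' g') : NI g g' := by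
  obtain ⟨n, hn, P, U, M, hj⟩ := h'.jg
  exact h.inner_JG hn hj

theorem i_Rq_H {q : ℕ} (h : TyRq q F g ∨ TySq q F g) (hc : q = 0 → ClJ g) (h' : TyH F' g') : NI g g' := by
  obtain ⟨n, hn, P, U, M, hj⟩ := h'.jg
  exact TyRq.inner_JG h hc hn hj

theorem i_J1_H (hk : 10 ≤ k) (h : J1.TyJs F g) (h' : TyH F' g') : NI g g' := by
  obtain ⟨n, hn, P, U, M, hj⟩ := h'.jg
  obtain ⟨m, w0, h1, h2, h3, rfl, rfl⟩ := h
  have hk' := h2.num
  change (app (H1.ch (m + 1)) (H1.ch 3)).numNodes + 2 = k at hk'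
  rw [num_app, Ring1.ch_num, Ring1.ch_num] at hk'
  exact J.J1.inner_J (s := m + 1) (c := 3) hn le_rfl (by omega) (by omega)
    (J1_data h2 w0 rfl rfl rfl).2 hj

theorem i_J3V_H (h : TyJ3V F g) (h' : TyH F' g') : NI g g' := h.inner_H h'

theorem i_JE_H {R : BinaryTree Unit} (h : TyJE R F g) (h2 : 2 ≤ J.c3 (OddHC.cont R)) (hT : JVI.TE R)
    (h' : TyH F' g') : NI g g' := h.inner_H_te h2 hT h'

theorem i_JV_H {S : BinaryTree Unit} (h : Is9 .nil .nil S F g) (h3 : 3 ≤ OddHC.ht S)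
    (h1 : (OddHC.cont S).count 1 = 0) (h2 : 2 ≤ J.c3 (OddHC.cont S)) (hT : JVI.TE S)
    (h' : TyH F' g') : NI g g' := h.inner_H_te h3 h1 h2 hT h'

/-- JV without part 3 in `S` -/
theorem i_JV_H5 {S : BinaryTree Unit} (h : Is9 .nil .nil S F g) (h3 : 3 ≤ OddHC.ht S)
    (h1 : (OddHC.cont S).count 1 = 0) (h2 : 2 ≤ J.c3 (OddHC.cont S)) (h5 : 3 ∉ OddHC.cont S)
    (h' : TyH F' g') : NI g g' := by
  obtain ⟨n, hn, P, U, M, hj⟩ := h'.jg
  exact h.inner_JG h3 h1 h2 (fun h6 => absurd h6 h5) hn hj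

theorem i_JVm_H5 {S : BinaryTree Unit} (h : Is9M .nil .nil S F g) (h3 : 3 ≤ OddHC.ht S)
    (h1 : (OddHC.cont S).count 1 = 0) (h2 : 2 ≤ J.c3 (OddHC.cont S)) (h5 : 3 ∉ OddHC.cont S)
    (h' : TyH F' g') : NI g g' := h.inner_H5 h3 h1 h2 h5 h'

theorem i_L1_H (hk : 9 ≤ k) (h : TyL1 F g) (h' : TyH F' g') : NI g g' := h.inner_GJ hk h'.gj

end MW

end Pool.OddHC
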