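import Pool.Agent.Work.MP_8f87b2_h40.H2j
import Pool.Agent.Work.MP_8f87b2_h26.L1b
import Pool.Agent.Work.MP_8f87b2_h62.W3c

/-!
# MP_8f87b2_co: windows against the T-cycles of type H

`tyH_far`: two beads at a cyclic distance `≥ 2` on both sides: not in a group of type H. `excl_W`: the words of the height of
`z` of a window `R[3]` with `Q = ()`, `B = nil`, one part `1` in `R`. `excl_A`: `R = ((())^a ()[n+1])`. `excl_T`: height 3.
-/

set_option autoImplicit false

namespace Pool.OddHC

open Finset Equiv BinaryTree Multiset Pool.OddHop Pool.Agent.Work.MP_8f87b2_co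

variable {k j n a : ℕ}

namespace Hole2

open J Runs Ring1

/-- members have no part 1 or two parts 1 -/
theorem TYH.count {c : Cyc k} (h : c ∈ TYH k) : (contc c).count 1 = 0 ∨ (contc c).count 1 = 2 := by
  obtain ⟨S, g, hS, hc⟩ := h
  obtain ⟨n, a, hn, ha, hk, h1⟩ := hS.cls
  rcases h1 c hc with h2 | ⟨f, h3, h4, _⟩
  · left
    rw [h2, Multiset.count_add, Multiset.count_singleton, if_neg (by omega), Multiset.count_replicate,
      if_neg (by omega)]
  · right
    rcases h4 with rfl | rfl
    · exact count_Yc hn (by omega)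
    · exact count_Zc hn (by omega)

/-- **two beads far from each other: not in a group of type H** -/
theorem tyH_far {u : X j} {w : X k} {e : List ℕ} (he : e.length = 2 * j + 1) (hw : w.1 = ins u.1 e)
    (x d : ℕ) (hx : x + d < 2 * j + 1) (h2 : 2 ≤ d) (h3 : d + 2 ≤ 2 * j + 1)
    (h : ∀ z, z < 2 * j + 1 → e.getD z 0 = (if z = x then 1 else 0) + if z = x + d then 1 else 0) :
    cyc w ∉ TYH k := by
  have hj1 : 1 ≤ j := by omega
  obtain ⟨b, rfl⟩ := exists_lf he
  have hb : b = fun z => (if z = (x : ZMod (2 * j + 1)) then 1 else 0) +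
      if z = (x : ZMod (2 * j + 1)) + (d : ZMod (2 * j + 1)) then 1 else 0 := by
    funext z
    have h4 := h z.val (ZMod.val_lt z)
    rw [lf_getD] at h4
    rw [h4, ← Nat.cast_add]
    simp only [val_eq_iff z (show x < 2 * j + 1 by omega), val_eq_iff z hx]
  -- the smaller distance
  obtain ⟨x', d', hd2, hdj, hb'⟩ : ∃ (x' : ZMod (2 * j + 1)) (d' : ℕ), 2 ≤ d' ∧ d' ≤ j ∧
      b = fun z => (if z = x' then 1 else 0) + if z = x' + (d' : ZMod (2 * j + 1)) then 1 else 0 := by
    by_cases hd : d ≤ j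
    · exact ⟨_, d, h2, hd, hb⟩
    · refine ⟨(x : ZMod (2 * j + 1)) + (d : ZMod (2 * j + 1)), 2 * j + 1 - d, by omega, by omega, ?_⟩
      have e1 : (x : ZMod (2 * j + 1)) + (d : ZMod (2 * j + 1)) + ((2 * j + 1 - d : ℕ) : ZMod (2 * j + 1)) =
          (x : ZMod (2 * j + 1)) := by
        rw [add_assoc, ← Nat.cast_add, show d + (2 * j + 1 - d) = 2 * j + 1 by omega,
          ZMod.natCast_self, add_zero]
      rw [hb, e1]
      funext z
      rw [add_comm]
  have hcount : (contc (cyc w)).count 1 = 2 := by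
    have h4 := word_phi hw
    have h5 := Rd_size (cyc w)
    rw [Rd_ins (lf_length _) hw] at h5
    change j + pkc (cyc u) + _ = k at h5
    rw [pkc_cyc] at h5
    have h6 : ∑ z, b z = 2 := by
      rw [hb', Finset.sum_add_distrib]
      simp
    omega
  rintro ⟨S, g, hS, hc⟩
  obtain ⟨n, a, hn, ha, hk, h1⟩ := hS.cls
  rcases h1 _ hc with h2 | ⟨f, hf, h4, _⟩
  · rw [h2, Multiset.count_add, Multiset.count_singleton, if_neg (by omega), Multiset.count_replicate,
      if_neg (by omega)] at hcount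
    omega
  · obtain ⟨i, hi⟩ : ∃ i, n + pkn (pwX n).1 + ∑ z, f z = i := ⟨_, rfl⟩
    have hk' : i + pkn (phi (pwX n) f hi).1 + 2 = k := k_of' hn f hi (by omega)
    have key : ∃ t, t ≤ 1 ∧ cyc w = tc (phi (pwX n) f hi) hk' 0 t := by
      rcases h4 with h4 | h4
      · exact ⟨0, by omega, by rw [h4, Yc_tc hn f hi hk' 0]⟩
      · exact ⟨1, le_rfl, by rw [h4, Zc_tc hn f hi hk' 0]⟩
    obtain ⟨t, ht, h5⟩ := key
    have h6 : Rd (cyc w) = ⟨i, cyc (phi (pwX n) f hi)⟩ := by
      rw [h5]
      exact Rd_tc _ hk' 0 t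
    obtain ⟨e0, x2, h7⟩ := lev_over (w := w) (u' := u) (x := x') (d := d') hk' h6 rfl (by rw [hw, hb'])
    subst e0
    obtain ⟨_, hF2, _, _⟩ := two_family (by omega) (phi (pwX n) f hi) hk'
    have h8 := hF2 _ _ _ _ hdj (by omega) (h7.symm.trans h5)
    omega

theorem two_getD' (p r q z : ℕ) :
    (List.replicate p 0 ++ 1 :: (List.replicate r 0 ++ 1 :: List.replicate q 0)).getD z 0 =
      (if z = p then 1 else 0) + if z = p + (r + 1) then 1 else 0 := by
  by_cases h : z < p
  · rw [List.getD_append _ _ _ _ (by simpa using h), List.getD_replicate _ h, if_neg (by omega),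
      if_neg (by omega)]
  · rw [List.getD_append_right _ _ _ _ (by simp; omega), List.length_replicate]
    obtain ⟨t, ht⟩ : ∃ t, z = p + t := ⟨z - p, by omega⟩
    subst ht
    rw [Nat.add_sub_cancel_left]
    rcases t with _ | t
    · simp
    · rw [List.getD_cons_succ, if_neg (by omega)]
      by_cases h2 : t < r
      · rw [List.getD_append _ _ _ _ (by simpa using h2), List.getD_replicate _ h2, if_neg (by omega)]
      · rw [List.getD_append_right _ _ _ _ (by simp; omega), List.length_replicate]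
        obtain ⟨s, hs⟩ : ∃ s, t = r + s := ⟨t - r, by omega⟩
        subst hs
        rw [Nat.add_sub_cancel_left]
        rcases s with _ | s
        · simp
        · rw [List.getD_cons_succ, if_neg (by omega)]
          by_cases h3 : s < q
          · rw [List.getD_replicate _ h3]
          · rw [List.getD_eq_default]
            simpa using h3

theorem tyH_far' {t : BinaryTree Unit} {w : X k} {p r q : ℕ} (hl : p + r + q + 2 = 2 * t.numNodes + 1)
    (hw : w.1 = ins t (List.replicate p 0 ++ 1 :: (List.replicate r 0 ++ 1 :: List.replicate q 0)))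
    (h1 : 1 ≤ r) (h2 : 1 ≤ p + q) : cyc w ∉ TYH k := by
  obtain ⟨u, hu⟩ : ∃ u : X t.numNodes, u.1 = t := ⟨⟨t, mem_treesOfNumNodesEq.2 rfl⟩, rfl⟩
  refine tyH_far (u := u) ?_ (by rw [hu]; exact hw) p (r + 1) (by omega) (by omega) (by omega)
    fun z _ => two_getD' p r q z
  simp only [List.length_append, List.length_cons, List.length_replicate]
  omega

section
variable {R S r s : BinaryTree Unit} {x y x' y' : ℕ}

/-- one bead in a word -/
def OneB (R r : BinaryTree Unit) (x y : ℕ) : Prop :=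
  R = ins r (List.replicate x 0 ++ 1 :: List.replicate y 0) ∧ x + y = 2 * r.numNodes

/-- the four words -/
theorem excl4 (hR : OneB R r x y) (hS : OneB S s x' y') (hx : 2 ≤ x) (hy : 2 ≤ y') {w : X k} :
    (w.1 = H1.W R (H1.ch 1) .nil S 4 → cyc w ∉ TYH k) ∧ (w.1 = H1.W R (H1.ch 1) .nil S 5 → cyc w ∉ TYH k) ∧
    (w.1 = H1.W R (H1.ch 1) .nil S 13 → cyc w ∉ TYH k) ∧
    (w.1 = H1.W R (H1.ch 1) .nil S 16 → cyc w ∉ TYH k) := by
  obtain ⟨hR, hRn⟩ := hR
  obtain ⟨hS, hSn⟩ := hS
  have n1 : (BinaryTree.nil △ r).numNodes = r.numNodes + 1 := by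
    change 0 + r.numNodes + 1 = _
    omega
  have n2 : (app s (.nil △ .nil)).numNodes = s.numNodes + 1 := by
    rw [num_app]
    rfl
  refine ⟨?_, ?_, ?_, ?_⟩
  · intro h
    refine tyH_far' (t := .nil △ r) (p := 1) (r := x) (q := y) (by rw [n1]; omega) ?_ (by omega) (by omega)
    rw [h]
    change app (H1.ch 1) (.nil △ .nil) △ R = _
    rw [hR]
    rfl
  · intro h
    obtain ⟨x1, rfl⟩ : ∃ x1, x = x1 + 1 := ⟨x - 1, by omega⟩
    refine tyH_far' (t := .nil △ r) (p := 2) (r := x1) (q := y) (by rw [n1]; omega) ?_ (by omega) (by omega)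
    rw [h]
    change (H1.ch 1) △ (.nil △ R) = _
    have e1 : ins (.nil △ r) (List.replicate 2 0 ++ 1 :: (List.replicate x1 0 ++ 1 :: List.replicate y 0)) =
        (.nil △ .nil) △ ins r (1 :: (List.replicate x1 0 ++ 1 :: List.replicate y 0)) := rfl
    rw [e1, ins_lv, hR, List.replicate_succ]
    rfl
  · intro h
    refine tyH_far' (t := app s (.nil △ .nil)) (p := x') (r := y') (q := 1) (by rw [n2]; omega) ?_
      (by omega) (by omega)
    rw [h]
    change app S (app .nil (.nil △ H1.ch 1) △ .nil) = _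
    have e1 : List.replicate x' 0 ++ 1 :: (List.replicate y' 0 ++ 1 :: List.replicate 1 0) =
        (List.replicate x' 0 ++ 1 :: List.replicate y' 0) ++ [1, 0] := by simp
    rw [e1, ins_app _ _ _ _ (by simp; omega), hS]
    rfl
  · intro h
    obtain ⟨y1, rfl⟩ : ∃ y1, y' = y1 + 1 := ⟨y' - 1, by omega⟩
    refine tyH_far' (t := app s (.nil △ .nil)) (p := x') (r := y1) (q := 2) (by rw [n2]; omega) ?_
      (by omega) (by omega)
    rw [h]
    change app S (.nil △ (H1.ch 1 △ .nil)) = _
    have e1 : List.replicate x' 0 ++ 1 :: (List.replicate y1 0 ++ 1 :: List.replicate 2 0) =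
        (List.replicate x' 0 ++ 1 :: (List.replicate y1 0 ++ [1])) ++ [0, 0] := by simp
    have e2 : List.replicate x' 0 ++ 1 :: (List.replicate y1 0 ++ [1]) =
        L1.addLast 1 (List.replicate x' 0 ++ 1 :: List.replicate (y1 + 1) 0) := by
      have e3 : List.replicate x' 0 ++ 1 :: List.replicate (y1 + 1) 0 =
          (List.replicate x' 0 ++ 1 :: List.replicate y1 0) ++ [0] := by
        rw [List.replicate_succ']
        simp
      rw [e3, L1.addLast_append _ _ (by simp)]
      simp [L1.addLast]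
    rw [e1, ins_app _ _ _ _ (by simp; omega), hS, e2, L1.ins_addLast _ _ _ (by simp; omega), app_assoc']
    rfl

/-- **the words of the height of `z`**, `Q = ()`, `B = nil`, one part 1 in `R` -/
theorem excl_W (h : H1.Dat 0 R .nil S) (hc : (OddHC.cont R).count 1 = 1) (hR : OneB R r x y)
    (hS : OneB S s x' y') (hx : 2 ≤ x) (hy : 2 ≤ y') {w : X k} {i : ℕ} (hi : i < 20)
    (hw : w.1 = H1.W R (H1.ch 1) .nil S i) (hh : OddHC.ht w.1 = OddHC.ht R) : cyc w ∉ TYH k := by
  obtain ⟨w4, w5, w13, w16⟩ := excl4 (k := k) hR hS hx hy (w := w)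
  have hSc : (OddHC.cont S).count 1 = 1 := by
    have h1 := h.cont
    rw [OddHC.cont_nil, zero_add] at h1
    rw [h1]
    exact hc
  have hSh := h.htS
  have hb := h.big
  have h00 : OddHC.ht (BinaryTree.nil : BinaryTree Unit) = 0 := rfl
  have hQ : OddHC.ht (H1.ch 1) = 1 := rfl
  have cQ : OddHC.cont (H1.ch 1) = {1} := by
    change raise (OddHC.cont .nil) + OddHC.cont .nil = _
    rw [OddHC.cont_nil, raise_zero, add_zero]
  have c0 : OddHC.cont (BinaryTree.nil : BinaryTree Unit) = 0 := rfl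
  have e1 : raise (0 : Multiset ℕ) = {1} := raise_zero
  have e3 : raise (raise ({1} : Multiset ℕ)) = {3} := by rfl
  have cnt : ∀ m, (OddHC.cont w.1).count 1 = m → m ≠ 0 → m ≠ 2 → cyc w ∉ TYH k := by
    rintro m h1 h2 h3 h4
    have h5 : (contc (cyc w)).count 1 = m := h1
    rcases TYH.count h4 with h6 | h6 <;> omega
  have s1 : ({1} : Multiset ℕ).count 1 = 1 := by simp
  have s3 : ({3} : Multiset ℕ).count 1 = 0 := by decide
  rw [hw] at hh cnt
  interval_cases i
  · refine cnt 1 ?_ (by omega) (by omega)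
    simp only [H1.W, OddHC.cont_app, OddHC.cont_node, c0, add_zero, cQ, e3, Multiset.count_add, hc, s3]
  · refine cnt 4 ?_ (by omega) (by omega)
    simp only [H1.W, OddHC.cont_app, OddHC.cont_node, c0, add_zero, cQ, e1, Multiset.count_add, hc, s1]
  · refine cnt 4 ?_ (by omega) (by omega)
    simp only [H1.W, OddHC.cont_app, OddHC.cont_node, c0, add_zero, cQ, e1, Multiset.count_add, hc, s1]
  · exfalso
    simp only [H1.W, OddHC.ht_app, OddHC.ht_node, hQ, h00] at hh; omega
  · exact w4 hw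
  · exact w5 hw
  · exfalso
    simp only [H1.W, OddHC.ht_app, OddHC.ht_node, hQ, h00] at hh; omega
  · exfalso
    simp only [H1.W, OddHC.ht_app, OddHC.ht_node, hQ, h00] at hh; omega
  · exfalso
    simp only [H1.W, OddHC.ht_app, OddHC.ht_node, hQ, h00] at hh; omega
  · exfalso
    simp only [H1.W, OddHC.ht_app, OddHC.ht_node, hQ, h00] at hh; omega
  · refine cnt 1 ?_ (by omega) (by omega)
    simp only [H1.W, OddHC.cont_app, OddHC.cont_node, c0, zero_add, add_zero, cQ, e3, Multiset.count_add, hSc, s3]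
  · refine cnt 4 ?_ (by omega) (by omega)
    simp only [H1.W, OddHC.cont_app, OddHC.cont_node, c0, zero_add, cQ, e1, Multiset.count_add, hSc, s1]
  · exfalso
    simp only [H1.W, OddHC.ht_app, OddHC.ht_node, hQ, h00] at hh; omega
  · exact w13 hw
  · exfalso
    simp only [H1.W, OddHC.ht_app, OddHC.ht_node, hQ, h00] at hh; omega
  · exfalso
    simp only [H1.W, OddHC.ht_app, OddHC.ht_node, hQ, h00] at hh; omega
  · exact w16 hw
  · exfalso
    simp only [H1.W, OddHC.ht_app, OddHC.ht_node, hQ, h00] at hh; omega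
  · refine cnt 4 ?_ (by omega) (by omega)
    simp only [H1.W, OddHC.cont_app, OddHC.cont_node, c0, zero_add, add_zero, cQ, e1, Multiset.count_add, hSc, s1]
  · exfalso
    simp only [H1.W, OddHC.ht_app, OddHC.ht_node, hQ, h00] at hh; omega

/-! ### The words with one bead -/

theorem lvI (a : ℕ) (X : BinaryTree Unit) (f : List ℕ) :
    ins (lv a X) (List.replicate (2 * a) 0 ++ f) = lv2 a (ins X f) := by
  induction a with
  | zero => rfl
  | succ a ih =>
    have e1 : List.replicate (2 * (a + 1)) 0 ++ f = 0 :: 0 :: (List.replicate (2 * a) 0 ++ f) := by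
      rw [show 2 * (a + 1) = 2 * a + 1 + 1 by ring, List.replicate_succ, List.replicate_succ]
      rfl
    rw [e1]
    change (.nil △ .nil) △ ins (lv a X) (List.replicate (2 * a) 0 ++ f) = _
    rw [ih]
    rfl

theorem OneB.len (h : OneB R r x y) :
    (List.replicate x 0 ++ 1 :: List.replicate y 0).length = 2 * r.numNodes + 1 := by
  rw [List.length_append, List.length_cons, List.length_replicate, List.length_replicate]
  have := h.2
  omega

theorem OneB.wrap (h : OneB R r x y) (hr : r ≠ .nil) : OneB (R △ .nil) (r △ .nil) (x + 1) (y + 1) := by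
  refine ⟨?_, ?_⟩
  · have e1 : List.replicate (x + 1) 0 ++ 1 :: List.replicate (y + 1) 0 =
        0 :: ((List.replicate x 0 ++ 1 :: List.replicate y 0) ++ [0]) := by
      rw [List.replicate_succ, List.replicate_succ']
      simp
    have e2 : bump r (List.replicate x 0 ++ 1 :: List.replicate y 0) =
        List.replicate x 0 ++ 1 :: List.replicate y 0 := by
      cases r with
      | nil => exact absurd rfl hr
      | node _ A B => rfl
    have e3 : List.take (2 * r.numNodes + 1) ((List.replicate x 0 ++ 1 :: List.replicate y 0) ++ [0]) =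
        List.replicate x 0 ++ 1 :: List.replicate y 0 := List.take_left' h.len
    have e4 : List.drop (2 * r.numNodes + 2) (0 :: ((List.replicate x 0 ++ 1 :: List.replicate y 0) ++ [0])) =
        [0] := by
      rw [List.drop_succ_cons]
      exact List.drop_left' h.len
    rw [e1, ins, List.headD_cons, List.tail_cons, e3, e4, e2, ← h.1]
    rfl
  · have := h.2
    change x + 1 + (y + 1) = 2 * (r.numNodes + 0 + 1)
    omega

theorem oneB_ch (a : ℕ) (hn : 1 ≤ n) : OneB (lv2 a (.nil △ H1.ch (n + 1))) (lv a (H1.ch n)) (2 * a) (2 * n) := by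
  refine ⟨?_, ?_⟩
  · rw [lvI, ins_lv]
    have e1 : ins (H1.ch n) (0 :: List.replicate (2 * n) 0) = inf (H1.ch n) := by
      unfold inf
      rw [ch_num, ← List.replicate_succ]
    have e2 : inf (H1.ch n) = H1.ch (n + 1) := by
      have e5 : ∀ m, H1.ch m = pc m := by
        intro m
        induction m with
        | zero => rfl
        | succ m ih =>
          change H1.ch m △ .nil = pc m △ .nil
          rw [ih]
      rw [e5, e5]
      exact inf_pc hn
    change _ = lv2 a (.nil △ ins (H1.ch n) (0 :: List.replicate (2 * n) 0))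
    rw [e1, e2]
  · rw [lv_num, ch_num]
    ring

theorem oneB_sq (b a : ℕ) : OneB (lv2 b (.nil △ lv2 a .nil)) (lv b (lv a .nil)) (2 * b) (2 * a) := by
  refine ⟨?_, ?_⟩
  · rw [lvI, ins_lv]
    have e1 : 0 :: List.replicate (2 * a) 0 = List.replicate (2 * a) 0 ++ [0] := by
      rw [← List.replicate_succ, List.replicate_succ']
    change _ = lv2 b (.nil △ ins (lv a .nil) (0 :: List.replicate (2 * a) 0))
    rw [e1, lvI]
    rfl
  · rw [lv_num, lv_num]
    change 2 * b + 2 * a = 2 * (b + (a + 0))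
    ring

theorem lv_ne {a : ℕ} {X : BinaryTree Unit} (h : X ≠ .nil ∨ 1 ≤ a) : lv a X ≠ .nil := by
  cases a with
  | zero =>
    rcases h with h | h
    · exact h
    · omega
  | succ a =>
    rw [lv]
    simp

end

/-- `R = ((())^a () [n+1])` -/
theorem oneB_R (a : ℕ) (hn : 1 ≤ n) : OneB (lv2 a (.nil △ H1.ch (n + 1)) △ .nil) (lv a (H1.ch n) △ .nil)
    (2 * a + 1) (2 * n + 1) :=
  (oneB_ch a hn).wrap (lv_ne (Or.inl (by
    obtain ⟨m, rfl⟩ : ∃ m, n = m + 1 := ⟨n - 1, by omega⟩
    change H1.ch m △ .nil ≠ .nil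
    simp)))

/-- `S = (((())^a () [n+1]))` -/
theorem oneB_S (a : ℕ) (hn : 1 ≤ n) : OneB ((lv2 a (.nil △ H1.ch (n + 1)) △ .nil) △ .nil)
    ((lv a (H1.ch n) △ .nil) △ .nil) (2 * a + 2) (2 * n + 2) :=
  (oneB_R a hn).wrap (by simp)

/-- `R3`, `b = 0`, one bead -/
theorem oneB_R3 (a : ℕ) : OneB (H1.R3 0 1 a) ((.nil △ lv a .nil) △ .nil) 3 (2 * a + 1) :=
  (oneB_sq 1 a).wrap (lv_ne (Or.inr le_rfl))

theorem oneB_S3 (a : ℕ) : OneB (H1.S3 1 a) ((.nil △ .nil) △ lv a .nil) 4 (2 * a) := by
  refine ⟨?_, ?_⟩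
  · have h1 := (oneB_sq 0 a).1
    change .nil △ lv2 a .nil = ins (lv a .nil) (1 :: List.replicate (2 * a) 0) at h1
    change ((.nil △ .nil) △ .nil) △ (.nil △ lv2 a .nil) = _
    rw [h1]
    rfl
  · change 4 + 2 * a = 2 * (1 + (lv a .nil).numNodes + 1)
    rw [lv_num]
    change 4 + 2 * a = 2 * (1 + (a + 0) + 1)
    ring

end Hole2

end Pool.OddHC
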