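import Pool.Agent.Work.MP_8f87b2_h47.Runs1
import Pool.Agent.Work.MP_8f87b2_h40.TyJY

/-!
# MP_8f87b2_co, HOLE 2: the gadgets over a line `f`

`tcy k t` = the T-cycle of the word `t`. `Kc G` = the T-cycle of `RF n G`, `Yc f`, `Zc f` = the T-cycles of `R()()`, `()R()`.
`ex_jm`, `ex_jy`, `ex_j5`, `ex_nm`: the gadgets over the line `f` at the gap `x`.
-/

set_option autoImplicit false

namespace Pool.OddHC

open Finset Equiv BinaryTree Pool.Agent.Work.MP_8f87b2_co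

namespace Hole2

open J Runs

/-- the T-cycle of a word -/
noncomputable def tcy (k : ℕ) (t : BinaryTree Unit) : Cyc k := by
  classical
  exact if h : t.numNodes = k then cyc ⟨t, mem_treesOfNumNodesEq.2 h⟩
    else cyc ⟨H1.ch k, mem_treesOfNumNodesEq.2 (Ring1.ch_num k)⟩

variable {k n : ℕ}

theorem tcy_eq (x : X k) : tcy k x.1 = cyc x := by
  unfold tcy
  rw [dif_pos (X_num x)]

theorem tcy_pos {t : BinaryTree Unit} (h : t.numNodes = k) :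
    tcy k t = cyc (⟨t, mem_treesOfNumNodesEq.2 h⟩ : X k) := by
  unfold tcy
  rw [dif_pos h]

/-- class T-cycle -/
noncomputable def Kc (k n : ℕ) (G : ZMod (2 * n + 1) → ℕ) : Cyc k := tcy k (Ring1.RF n G)

/-- `R()()` -/
noncomputable def bbT (n : ℕ) (f : ZMod (2 * n + 1) → ℕ) : BinaryTree Unit :=
  app (Ring1.RF n f) (.nil △ (.nil △ .nil))

/-- `()R()` -/
noncomputable def fbT (n : ℕ) (f : ZMod (2 * n + 1) → ℕ) : BinaryTree Unit :=
  .nil △ app (Ring1.RF n f) (.nil △ .nil)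

noncomputable def Yc (k n : ℕ) (f : ZMod (2 * n + 1) → ℕ) : Cyc k := tcy k (bbT n f)

noncomputable def Zc (k n : ℕ) (f : ZMod (2 * n + 1) → ℕ) : Cyc k := tcy k (fbT n f)

theorem bbT_num (hn : 1 ≤ n) (f : ZMod (2 * n + 1) → ℕ) :
    (bbT n f).numNodes = n + 4 + 2 * ∑ x, f x := by
  have h := Ring1.RF_num hn f
  have hl : ∀ A C : BinaryTree Unit, (A △ C).numNodes = A.numNodes + C.numNodes + 1 := fun _ _ => rfl
  have h0 : (BinaryTree.nil : BinaryTree Unit).numNodes = 0 := rfl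
  unfold bbT
  rw [num_app, hl, hl, h0, h]
  ring

theorem fbT_num (hn : 1 ≤ n) (f : ZMod (2 * n + 1) → ℕ) :
    (fbT n f).numNodes = n + 4 + 2 * ∑ x, f x := by
  have h := Ring1.RF_num hn f
  have hl : ∀ A C : BinaryTree Unit, (A △ C).numNodes = A.numNodes + C.numNodes + 1 := fun _ _ => rfl
  have h0 : (BinaryTree.nil : BinaryTree Unit).numNodes = 0 := rfl
  unfold fbT
  rw [hl, num_app, hl, h0, h]
  ring

/-- words as elements of `X k` -/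
theorem exK (hn : 1 ≤ n) {G : ZMod (2 * n + 1) → ℕ} (h : n + 2 + 2 * ∑ x, G x = k) :
    ∃ z : X k, z.1 = Ring1.RF n G ∧ cyc z = Kc k n G := by
  refine ⟨⟨Ring1.RF n G, mem_treesOfNumNodesEq.2 ((Ring1.RF_num hn G).trans h)⟩, rfl, ?_⟩
  exact (tcy_eq _).symm

theorem exY (hn : 1 ≤ n) {f : ZMod (2 * n + 1) → ℕ} (h : n + 4 + 2 * ∑ x, f x = k) :
    ∃ z : X k, z.1 = app (Ring1.RF n f) (.nil △ (.nil △ .nil)) ∧ cyc z = Yc k n f := by
  refine ⟨⟨bbT n f, mem_treesOfNumNodesEq.2 ((bbT_num hn f).trans h)⟩, rfl, ?_⟩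
  exact (tcy_eq _).symm

theorem exZ (hn : 1 ≤ n) {f : ZMod (2 * n + 1) → ℕ} (h : n + 4 + 2 * ∑ x, f x = k) :
    ∃ z : X k, z.1 = .nil △ app (Ring1.RF n f) (.nil △ .nil) ∧ cyc z = Zc k n f := by
  refine ⟨⟨fbT n f, mem_treesOfNumNodesEq.2 ((fbT_num hn f).trans h)⟩, rfl, ?_⟩
  exact (tcy_eq _).symm

/-- rotations -/
def Rot {N : ℕ} (G G' : ZMod N → ℕ) : Prop := ∃ c : ZMod N, G' = sh c G

theorem Rot.symm {N : ℕ} {G G' : ZMod N → ℕ} (h : Rot G G') : Rot G' G := by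
  obtain ⟨c, rfl⟩ := h
  exact ⟨-c, by rw [sh_sh, neg_add_cancel, sh_zero]⟩

theorem Kc_rot (hn : 1 ≤ n) {G G' : ZMod (2 * n + 1) → ℕ} (h : n + 2 + 2 * ∑ x, G x = k)
    (h' : n + 2 + 2 * ∑ x, G' x = k) : Kc k n G = Kc k n G' ↔ Rot G G' := by
  have h1 := Ring1.cyc_wa hn G G' h h'
  have e : ∀ (G : ZMod (2 * n + 1) → ℕ) (h : n + 2 + 2 * ∑ x, G x = k),
      Kc k n G = cyc (Ring1.wa hn G h) := fun G h => tcy_eq (Ring1.wa hn G h)
  rw [e G h, e G' h', h1]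
  rfl

theorem Kc_sh (hn : 1 ≤ n) {G : ZMod (2 * n + 1) → ℕ} (h : n + 2 + 2 * ∑ x, G x = k)
    (c : ZMod (2 * n + 1)) : Kc k n (sh c G) = Kc k n G :=
  ((Kc_rot hn h (by rw [sh_sum]; exact h)).2 ⟨c, rfl⟩).symm

theorem Yc_sh (hn : 1 ≤ n) {f : ZMod (2 * n + 1) → ℕ} (h : n + 4 + 2 * ∑ x, f x = k)
    (c : ZMod (2 * n + 1)) : Yc k n (sh c f) = Yc k n f := by
  obtain ⟨y, hy, e⟩ := exY hn h
  obtain ⟨y', hy', e'⟩ := exY (k := k) hn (f := sh c f) (by rw [sh_sum]; exact h)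
  rw [← e, ← e']
  exact (cyc_eq.2 (Ring1.same_bb hn f c hy hy')).symm

theorem Zc_sh (hn : 1 ≤ n) {f : ZMod (2 * n + 1) → ℕ} (h : n + 4 + 2 * ∑ x, f x = k)
    (c : ZMod (2 * n + 1)) : Zc k n (sh c f) = Zc k n f := by
  obtain ⟨y, hy, e⟩ := exZ hn h
  obtain ⟨y', hy', e'⟩ := exZ (k := k) hn (f := sh c f) (by rw [sh_sum]; exact h)
  rw [← e, ← e']
  exact (cyc_eq.2 (Ring1.same_mid hn f c hy hy')).symm

/-- `ad` of a rotation -/
theorem jad_sh {N : ℕ} (f : ZMod N → ℕ) (c y : ZMod N) : J.ad (sh c f) y = sh c (Runs.ad f (y + c)) := by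
  rw [sh_ad, add_sub_cancel_right]
  rfl

/-- constant functions -/
def Cst {N : ℕ} (G : ZMod N → ℕ) : Prop := sh 1 G = G

section

variable {f : ZMod (2 * n + 1) → ℕ}

/-- **pair JM** over the line `f`, gaps `x`, `x + 1` -/
theorem ex_jm (hn : 1 ≤ n) (hk : n + 4 + 2 * ∑ x, f x = k) (x : ZMod (2 * n + 1))
    (hc : ¬ Cst (Runs.ad f (x + 1))) (h4 : ¬ Rot (Runs.ad f x) (Runs.ad f (x + 1)))
    (h13 : f (x + 1) = 0 → ¬ Rot (Runs.ad f (x + 2)) (Runs.ad f x) ∧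
      ¬ Rot (Runs.ad f (x + 2)) (Runs.ad f (x + 1))) :
    ∃ g : DG k, TyJM {Kc k n (Runs.ad f (x + 1)), Kc k n (Runs.ad f x)} g ∧
      JG n g.B (PM (sh (x + 1) f)) (UM (sh (x + 1) f)) (MM (sh (x + 1) f)) ∧
      ∀ w ∈ g.B, cyc w ∈ ({Kc k n (Runs.ad f (x + 1)), Kc k n (Runs.ad f x)} : Set (Cyc k)) ∨
        htc (Kc k n (Runs.ad f x)) < htc (cyc w) ∨ cyc w = Yc k n f ∨ cyc w = Zc k n f ∨
        (htc (cyc w) = htc (Kc k n (Runs.ad f x)) ∧ (contc (cyc w)).count 1 = 1) ∨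
        (f (x + 1) = 0 ∧ cyc w = Kc k n (Runs.ad f (x + 2))) := by
  have hs : ∀ y, n + 2 + 2 * ∑ x, Runs.ad f y x = k := by
    intro y
    rw [Runs.ad_sum]
    omega
  have hs' : n + 4 + 2 * ∑ y, sh (x + 1) f y = k := by rw [sh_sum]; exact hk
  have a0 : J.ad (sh (x + 1) f) 0 = sh (x + 1) (Runs.ad f (x + 1)) := by rw [jad_sh, zero_add]
  have a1 : J.ad (sh (x + 1) f) (-1) = sh (x + 1) (Runs.ad f x) := by
    rw [jad_sh]
    congr 2
    ring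
  have e2 : (fun z => sh (x + 1) f (z + 1)) = sh (x + 2) f := by
    funext z
    simp only [sh_apply]
    congr 1
    ring
  have a2 : J.ad (sh (x + 2) f) 0 = sh (x + 2) (Runs.ad f (x + 2)) := by rw [jad_sh, zero_add]
  have a3 : J.ad (sh (x + 2) f) (-1) = sh (x + 2) (Runs.ad f (x + 1)) := by
    rw [jad_sh]
    congr 2
    ring
  have f0 : sh (x + 1) f 0 = f (x + 1) := by rw [sh_apply, zero_add]
  obtain ⟨z, hz, cz⟩ := exK (k := k) hn (G := J.ad (sh (x + 1) f) 0) (by rw [a0, sh_sum]; exact hs _)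
  obtain ⟨z', hz', cz'⟩ := exK (k := k) hn (G := J.ad (sh (x + 1) f) (-1))
    (by rw [a1, sh_sum]; exact hs _)
  obtain ⟨y, hy, cy⟩ := exY hn hs'
  obtain ⟨y', hy', cy'⟩ := exZ hn hs'
  rw [a0, Kc_sh hn (hs _)] at cz
  rw [a1, Kc_sh hn (hs _)] at cz'
  rw [Yc_sh hn hk] at cy
  rw [Zc_sh hn hk] at cy'
  obtain ⟨g, g1, g2, g3⟩ := exJMr hn (sh (x + 1) f) hs' hz hz' hy hy'
    (by
      rw [e2, a0, a3]
      intro h
      apply hc
      have h2 := congrArg (sh (-(x + 1))) h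
      rw [sh_sh, sh_sh, neg_add_cancel, sh_zero, show -(x + 1) + (x + 2) = 1 by ring] at h2
      exact h2.symm)
    (by
      rw [cz, cz']
      intro h
      exact h4 ((Kc_rot hn (hs _) (hs _)).1 h.symm))
    (by
      intro h0 u hu
      rw [f0] at h0
      rw [e2, a2] at hu
      have cu : cyc u = Kc k n (Runs.ad f (x + 2)) := by
        rw [← Kc_sh hn (hs _) (x + 2), ← tcy_eq u, hu]
        rfl
      rw [cu, cz, cz']
      exact ⟨fun h => (h13 h0).2 ((Kc_rot hn (hs _) (hs _)).1 h),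
        fun h => (h13 h0).1 ((Kc_rot hn (hs _) (hs _)).1 h)⟩)
  rw [cz, cz'] at g1
  refine ⟨g, g1, g2, ?_⟩
  have hh : htc (Kc k n (Runs.ad f (x + 1))) = htc (Kc k n (Runs.ad f x)) := by
    have h5 := g1.cont _ (Or.inl rfl) _ (Or.inr rfl)
    unfold htc
    rw [h5]
  intro w hw
  rcases g3 w hw with h | h | h | h | ⟨_, h⟩ | ⟨h, h'⟩
  · rw [cz, cz'] at h
    exact Or.inl h
  · rw [cz, hh] at h
    exact Or.inr (Or.inl h)
  · rw [cy] at h
    exact Or.inr (Or.inr (Or.inl h))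
  · rw [cy'] at h
    exact Or.inr (Or.inr (Or.inr (Or.inl h)))
  · rw [cz, hh] at h
    exact Or.inr (Or.inr (Or.inr (Or.inr (Or.inl h))))
  · right; right; right; right; right
    rw [f0] at h
    refine ⟨h, ?_⟩
    rw [e2, a2] at h'
    rw [← Kc_sh hn (hs _) (x + 2), ← tcy_eq w, h']
    rfl

/-- **pair JY** over the line `f`, gaps `x`, `x + 1`, `1 ≤ f (x + 1)` -/
theorem ex_jy (hn : 1 ≤ n) (hk : n + 4 + 2 * ∑ x, f x = k) (x : ZMod (2 * n + 1))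
    (h0 : 1 ≤ f (x + 1)) (hc : ¬ Cst (Runs.ad f (x + 1)))
    (h4 : ¬ Rot (Runs.ad f x) (Runs.ad f (x + 1))) :
    ∃ g : DG k, TyJY {Kc k n (Runs.ad f (x + 1)), Kc k n (Runs.ad f x), Yc k n f, Zc k n f} g ∧
      JG n g.B {sh (x + 1) f} (UN (sh (x + 1) f)) {sh (x + 2) f} := by
  have hs : ∀ y, n + 2 + 2 * ∑ x, Runs.ad f y x = k := by
    intro y
    rw [Runs.ad_sum]
    omega
  have hs' : n + 4 + 2 * ∑ y, sh (x + 1) f y = k := by rw [sh_sum]; exact hk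
  have a0 : J.ad (sh (x + 1) f) 0 = sh (x + 1) (Runs.ad f (x + 1)) := by rw [jad_sh, zero_add]
  have a1 : J.ad (sh (x + 1) f) (-1) = sh (x + 1) (Runs.ad f x) := by
    rw [jad_sh]
    congr 2
    ring
  have e2 : (fun z => sh (x + 1) f (z + 1)) = sh (x + 2) f := by
    funext z
    simp only [sh_apply]
    congr 1
    ring
  have a3 : J.ad (sh (x + 2) f) (-1) = sh (x + 2) (Runs.ad f (x + 1)) := by
    rw [jad_sh]
    congr 2
    ring
  have f0 : sh (x + 1) f 0 = f (x + 1) := by rw [sh_apply, zero_add]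
  obtain ⟨z, hz, cz⟩ := exK (k := k) hn (G := J.ad (sh (x + 1) f) 0) (by rw [a0, sh_sum]; exact hs _)
  obtain ⟨z', hz', cz'⟩ := exK (k := k) hn (G := J.ad (sh (x + 1) f) (-1))
    (by rw [a1, sh_sum]; exact hs _)
  obtain ⟨y, hy, cy⟩ := exY hn hs'
  obtain ⟨y', hy', cy'⟩ := exZ hn hs'
  rw [a0, Kc_sh hn (hs _)] at cz
  rw [a1, Kc_sh hn (hs _)] at cz'
  rw [Yc_sh hn hk] at cy
  rw [Zc_sh hn hk] at cy'
  obtain ⟨g, g1, g2⟩ := exJY hn (sh (x + 1) f) hs' (by rw [f0]; exact h0) hz hz' hy hy'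
    (by
      rw [e2, a0, a3]
      intro h
      apply hc
      have h2 := congrArg (sh (-(x + 1))) h
      rw [sh_sh, sh_sh, neg_add_cancel, sh_zero, show -(x + 1) + (x + 2) = 1 by ring] at h2
      exact h2.symm)
    (by
      rw [cz, cz']
      intro h
      exact h4 ((Kc_rot hn (hs _) (hs _)).1 h.symm))
  rw [cz, cz', cy, cy'] at g1
  rw [e2] at g2
  exact ⟨g, g1, g2⟩

/-- **J5** over the line `f`, gaps `x`, `x + 1`, `x + 2`, `f (x + 1) = 0` -/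
theorem ex_j5 (hn : 1 ≤ n) (hk : n + 4 + 2 * ∑ x, f x = k) (x : ZMod (2 * n + 1))
    (h0 : f (x + 1) = 0) (h01 : ¬ Rot (Runs.ad f x) (Runs.ad f (x + 1)))
    (h02 : ¬ Rot (Runs.ad f x) (Runs.ad f (x + 2)))
    (h12 : ¬ Rot (Runs.ad f (x + 1)) (Runs.ad f (x + 2))) :
    ∃ g : DG k, TyJ5 {Kc k n (Runs.ad f (x + 1)), Kc k n (Runs.ad f (x + 2)), Kc k n (Runs.ad f x),
        Yc k n f, Zc k n f} g ∧
      JG n g.B (P5 (sh (x + 2) f)) (U5 (sh (x + 2) f)) ∅ := by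
  have hs : ∀ y, n + 2 + 2 * ∑ x, Runs.ad f y x = k := by
    intro y
    rw [Runs.ad_sum]
    omega
  have hs' : n + 4 + 2 * ∑ y, sh (x + 2) f y = k := by rw [sh_sum]; exact hk
  have a0 : J.ad (sh (x + 2) f) 0 = sh (x + 2) (Runs.ad f (x + 2)) := by rw [jad_sh, zero_add]
  have a1 : J.ad (sh (x + 2) f) (-1) = sh (x + 2) (Runs.ad f (x + 1)) := by
    rw [jad_sh]
    congr 2
    ring
  have e2 : (fun z => sh (x + 2) f (z - 1)) = sh (x + 1) f := by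
    funext z
    simp only [sh_apply]
    congr 1
    ring
  have a3 : J.ad (sh (x + 1) f) (-1) = sh (x + 1) (Runs.ad f x) := by
    rw [jad_sh]
    congr 2
    ring
  have f0 : sh (x + 2) f (-1) = f (x + 1) := by
    rw [sh_apply]
    congr 1
    ring
  obtain ⟨z1, hz1, cz1⟩ := exK (k := k) hn (G := J.ad (sh (x + 2) f) (-1))
    (by rw [a1, sh_sum]; exact hs _)
  obtain ⟨z2, hz2, cz2⟩ := exK (k := k) hn (G := J.ad (sh (x + 2) f) 0) (by rw [a0, sh_sum]; exact hs _)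
  obtain ⟨z3, hz3, cz3⟩ := exK (k := k) hn (G := J.ad (sh (x + 1) f) (-1))
    (by rw [a3, sh_sum]; exact hs _)
  obtain ⟨y, hy, cy⟩ := exY hn hs'
  obtain ⟨y', hy', cy'⟩ := exZ hn hs'
  rw [a0, Kc_sh hn (hs _)] at cz2
  rw [a1, Kc_sh hn (hs _)] at cz1
  rw [a3, Kc_sh hn (hs _)] at cz3
  rw [Yc_sh hn hk] at cy
  rw [Zc_sh hn hk] at cy'
  obtain ⟨g, g1, g2⟩ := exJ5 hn (sh (x + 2) f) hs' (by rw [f0]; exact h0) hz1 hz2
    (by rw [e2]; exact hz3) hy hy'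
    (by
      rw [cz1, cz2]
      intro h
      exact h12 ((Kc_rot hn (hs _) (hs _)).1 h))
    (by
      rw [cz3, cz1]
      intro h
      exact h01 ((Kc_rot hn (hs _) (hs _)).1 h))
    (by
      rw [cz3, cz2]
      intro h
      exact h02 ((Kc_rot hn (hs _) (hs _)).1 h))
    (bb_ne_fb hn _ _ rfl hy hy')
  rw [cz1, cz2, cz3, cy, cy'] at g1
  exact ⟨g, g1, g2⟩

/-- **J3n** over the line `f`, gap `x`, `1 ≤ f x` -/
theorem ex_nm (hn : 1 ≤ n) (hk : n + 4 + 2 * ∑ x, f x = k) (x : ZMod (2 * n + 1))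
    (h0 : 1 ≤ f x) (hc : ¬ Cst (Runs.ad f x))
    (h4 : ¬ Rot (Runs.ad f (x - 1)) (Runs.ad f x)) :
    ∃ g : DG k, TyNM {Kc k n (Runs.ad f x), Yc k n f, Zc k n f} g ∧
      JG n g.B {sh x f} (UN (sh x f)) {sh (x + 1) f} ∧
      ∀ w ∈ g.B, cyc w ∈ ({Kc k n (Runs.ad f x), Yc k n f, Zc k n f} : Set (Cyc k)) ∨
        htc (Kc k n (Runs.ad f x)) < htc (cyc w) ∨ cyc w = Kc k n (Runs.ad f (x - 1)) ∨
        (htc (cyc w) = htc (Kc k n (Runs.ad f x)) ∧ (contc (cyc w)).count 1 = 1) := by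
  have hs : ∀ y, n + 2 + 2 * ∑ x, Runs.ad f y x = k := by
    intro y
    rw [Runs.ad_sum]
    omega
  have hs' : n + 4 + 2 * ∑ y, sh x f y = k := by rw [sh_sum]; exact hk
  have a0 : J.ad (sh x f) 0 = sh x (Runs.ad f x) := by rw [jad_sh, zero_add]
  have a1 : J.ad (sh x f) (-1) = sh x (Runs.ad f (x - 1)) := by
    rw [jad_sh]
    congr 2
    ring
  have e2 : (fun z => sh x f (z + 1)) = sh (x + 1) f := by
    funext z
    simp only [sh_apply]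
    congr 1
    ring
  have a3 : J.ad (sh (x + 1) f) (-1) = sh (x + 1) (Runs.ad f x) := by
    rw [jad_sh]
    congr 2
    ring
  have f0 : sh x f 0 = f x := by rw [sh_apply, zero_add]
  obtain ⟨z, hz, cz⟩ := exK (k := k) hn (G := J.ad (sh x f) 0) (by rw [a0, sh_sum]; exact hs _)
  obtain ⟨z', hz', cz'⟩ := exK (k := k) hn (G := J.ad (sh x f) (-1))
    (by rw [a1, sh_sum]; exact hs _)
  obtain ⟨y, hy, cy⟩ := exY hn hs'
  obtain ⟨y', hy', cy'⟩ := exZ hn hs'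
  rw [a0, Kc_sh hn (hs _)] at cz
  rw [a1, Kc_sh hn (hs _)] at cz'
  rw [Yc_sh hn hk] at cy
  rw [Zc_sh hn hk] at cy'
  obtain ⟨g, g1, g2, g3⟩ := exNMr hn (sh x f) hs' (by rw [f0]; exact h0) hz hz' hy hy'
    (by
      rw [e2, a0, a3]
      intro h
      apply hc
      have h2 := congrArg (sh (-x)) h
      rw [sh_sh, sh_sh, neg_add_cancel, sh_zero, show -x + (x + 1) = 1 by ring] at h2
      exact h2.symm)
    (by
      rw [cz, cz']
      intro h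
      exact h4 ((Kc_rot hn (hs _) (hs _)).1 h.symm))
  rw [cz, cy, cy'] at g1 g3
  rw [cz'] at g3
  rw [e2] at g2
  exact ⟨g, g1, g2, g3⟩

end

end Hole2

end Pool.OddHC
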