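import Pool.Agent.Work.MP_8f87b2_h47.Runs2
import Pool.Agent.Work.MP_8f87b2_h40.H2a

/-!
# MP_8f87b2_co, HOLE 2: the gadget of every element of the list `InS`

`FS k n g` = the T-cycles of the gadget, `TyK` = its type, `gad_ex` = existence with the words (`PS`, `own`, `old`, `MS`) and
the list of the old words.
-/

set_option autoImplicit false

namespace Pool.OddHC

open Finset Equiv BinaryTree Pool.Agent.Work.MP_8f87b2_co

namespace Hole2

open J Runs

variable {k n : ℕ}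

/-! ### Rotations -/

theorem sum_sq_ad {N : ℕ} [NeZero N] (f : ZMod N → ℕ) (x : ZMod N) :
    ∑ z, (Runs.ad f x z) ^ 2 = ∑ z, f z ^ 2 + 2 * f x + 1 := by
  have h : ∀ z, (Runs.ad f x z) ^ 2 = f z ^ 2 + if z = x then 2 * f x + 1 else 0 := by
    intro z
    unfold Runs.ad
    by_cases hz : z = x
    · subst hz
      rw [if_pos rfl, if_pos rfl]
      ring
    · rw [if_neg hz, if_neg hz]
      ring
  rw [sum_congr rfl fun z _ => h z, sum_add_distrib, Finset.sum_ite_eq' univ x, if_pos (mem_univ _)]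
  ring

theorem Rot.sum_sq {N : ℕ} [NeZero N] {G G' : ZMod N → ℕ} (h : Rot G G') :
    ∑ z, G z ^ 2 = ∑ z, G' z ^ 2 := by
  obtain ⟨c, rfl⟩ := h
  exact (Fintype.sum_equiv (Equiv.addRight c) _ _ (fun _ => rfl)).symm

/-- `f + δ_x` and `f + δ_y` rotations of each other: `f x = f y` -/
theorem sq_rot {N : ℕ} [NeZero N] {f : ZMod N → ℕ} {x y : ZMod N}
    (h : Rot (Runs.ad f x) (Runs.ad f y)) : f x = f y := by
  have h1 := h.sum_sq
  rw [sum_sq_ad, sum_sq_ad] at h1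
  omega

theorem can_rot {N : ℕ} {G G' : ZMod N → ℕ} (h : Can G) (h' : Can G') (hr : Rot G G') : G = G' := by
  obtain ⟨c, hc⟩ := hr
  exact h.eq h' hc

theorem Cst.nat {N : ℕ} {G : ZMod N → ℕ} (h : Cst G) (i : ℕ) : G (i : ZMod N) = G 0 := by
  induction i with
  | zero => rw [Nat.cast_zero]
  | succ i ih =>
    rw [← ih]
    have := congrFun h (i : ZMod N)
    rw [sh_apply] at this
    rw [Nat.cast_succ]
    exact this

/-- different canonical functions over one line -/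
theorem not_rot_nat {N : ℕ} [NeZero N] {f : ZMod N → ℕ} {i j : ℕ} (hi : i < N) (hj : j < N)
    (hij : i ≠ j) (h : Can (Runs.ad f (i : ZMod N))) (h' : Can (Runs.ad f (j : ZMod N))) :
    ¬ Rot (Runs.ad f (i : ZMod N)) (Runs.ad f (j : ZMod N)) := by
  intro hr
  have e := can_rot h h' hr
  have h1 := congrFun e (i : ZMod N)
  rw [Runs.ad_self, ad_ne' _ hj hi hij] at h1
  omega

/-! ### Heights -/

theorem htc_Kc (hn : 1 ≤ n) {G : ZMod (2 * n + 1) → ℕ} (h : n + 2 + 2 * ∑ x, G x = k) :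
    htc (Kc k n G) = n + 2 := by
  obtain ⟨z, hz, cz⟩ := exK hn h
  rw [← cz]
  change (cont z.1).sup = _
  rw [hz, Ring1.cont_RF hn, Multiset.sup_add, Multiset.sup_singleton]
  apply max_eq_left
  apply Multiset.sup_le.2
  intro b hb
  rw [Multiset.eq_of_mem_replicate hb]
  omega

theorem contc_Yc (hn : 1 ≤ n) {f : ZMod (2 * n + 1) → ℕ} (h : n + 4 + 2 * ∑ x, f x = k) :
    contc (Yc k n f) = ({n + 2} + Multiset.replicate (∑ x, f x) 2) + {1, 1} := by
  obtain ⟨y, hy, cy⟩ := exY hn h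
  rw [← cy]
  change cont y.1 = _
  rw [hy, cont_app, Ring1.cont_RF hn]
  rfl

theorem contc_Zc (hn : 1 ≤ n) {f : ZMod (2 * n + 1) → ℕ} (h : n + 4 + 2 * ∑ x, f x = k) :
    contc (Zc k n f) = ({n + 2} + Multiset.replicate (∑ x, f x) 2) + {1, 1} := by
  obtain ⟨y, hy, cy⟩ := exZ hn h
  rw [← cy]
  change cont y.1 = _
  have c1 : cont (BinaryTree.nil △ BinaryTree.nil) = {1} := J.cont_l1
  have c2 : ∀ A : BinaryTree Unit, cont (BinaryTree.nil △ A) = {1} + cont A := by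
    intro A
    rw [cont_node, J.raise_nil]
  rw [hy, c2, cont_app, Ring1.cont_RF hn, c1, add_comm, add_assoc]
  rfl

theorem sup_two (hn : 1 ≤ n) (m : ℕ) :
    (({n + 2} + Multiset.replicate m 2) + {1, 1} : Multiset ℕ).sup = n + 2 := by
  rw [Multiset.sup_add, Multiset.sup_add, Multiset.sup_singleton]
  apply le_antisymm
  · apply max_le
    · apply max_le le_rfl
      apply Multiset.sup_le.2
      intro b hb
      rw [Multiset.eq_of_mem_replicate hb]
      omega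
    · apply Multiset.sup_le.2
      intro b hb
      simp only [Multiset.insert_eq_cons, Multiset.mem_cons, Multiset.mem_singleton, or_self] at hb
      omega
  · exact le_max_of_le_left (le_max_left _ _)

theorem htc_Yc (hn : 1 ≤ n) {f : ZMod (2 * n + 1) → ℕ} (h : n + 4 + 2 * ∑ x, f x = k) :
    htc (Yc k n f) = n + 2 := by
  unfold htc
  rw [contc_Yc hn h, sup_two hn]

theorem htc_Zc (hn : 1 ≤ n) {f : ZMod (2 * n + 1) → ℕ} (h : n + 4 + 2 * ∑ x, f x = k) :
    htc (Zc k n f) = n + 2 := by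
  unfold htc
  rw [contc_Zc hn h, sup_two hn]

/-! ### The gadgets -/

/-- the T-cycles of the gadget -/
def FS (k n : ℕ) (g : Gd (2 * n + 1)) : Set (Cyc k) :=
  {c | (∃ K ∈ Runs.nc g, c = Kc k n K) ∨ (g.kd ≠ .jm ∧ (c = Yc k n g.f ∨ c = Zc k n g.f))}

/-- the type -/
def TyK : Kd → Set (Cyc k) → DG k → Prop
  | .jm => TyJM
  | .jy => TyJY
  | .j5 => TyJ5
  | .nm => TyNM

/-- the old words -/
def OldW (k n : ℕ) (g : Gd (2 * n + 1)) (w : X k) : Prop :=
  n + 2 < htc (cyc w) ∨ (htc (cyc w) = n + 2 ∧ (contc (cyc w)).count 1 = 1) ∨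
  (g.kd = .jm ∧ (cyc w = Yc k n g.f ∨ cyc w = Zc k n g.f)) ∨
  (g.kd = .jm ∧ g.f ((g.p + 1 : ℕ) : ZMod (2 * n + 1)) = 0 ∧
    cyc w = Kc k n (Runs.ad g.f ((g.p + 2 : ℕ) : ZMod (2 * n + 1)))) ∨
  (g.kd = .nm ∧ cyc w = Kc k n (Runs.ad g.f ((g.p : ZMod (2 * n + 1)) - 1)))

/-- the statement on one gadget -/
def GadOK (k n : ℕ) (g : Gd (2 * n + 1)) : Prop :=
  ∃ γ : DG k, TyK g.kd (FS k n g) γ ∧ JG n γ.B (PS g) {G | own g G ∨ old g G} (MS g) ∧
    ∀ w ∈ γ.B, cyc w ∈ FS k n g ∨ OldW k n g w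

theorem FS_ht (hn : 1 ≤ n) {g : Gd (2 * n + 1)} (hk : n + 4 + 2 * ∑ x, g.f x = k) :
    ∀ c ∈ FS k n g, htc c = n + 2 := by
  rintro c (⟨K, ⟨j, _, rfl⟩, rfl⟩ | ⟨_, rfl | rfl⟩)
  · apply htc_Kc hn
    rw [Runs.ad_sum]
    omega
  · exact htc_Yc hn hk
  · exact htc_Zc hn hk

theorem JG.mono {k : ℕ} {B : Finset (X k)} {P U M P' U' M' : Set (ZMod (2 * n + 1) → ℕ)}
    (h : JG n B P U M) (hP : ∀ Φ ∈ P, Φ ∈ P') (hU : ∀ Φ ∈ U, Φ ∈ U') (hM : ∀ Φ ∈ M, Φ ∈ M') :
    JG n B P' U' M' := by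
  intro w hw
  rcases h w hw with ⟨Φ, h1, h2⟩ | ⟨Φ, h1, h2⟩ | ⟨Φ, h1, h2⟩
  · exact Or.inl ⟨Φ, hP _ h1, h2⟩
  · exact Or.inr (Or.inl ⟨Φ, hU _ h1, h2⟩)
  · exact Or.inr (Or.inr ⟨Φ, hM _ h1, h2⟩)

theorem jad0 {N : ℕ} (f : ZMod N → ℕ) {c x : ZMod N} (h : x = c) :
    J.ad (sh c f) 0 = sh c (Runs.ad f x) := by
  rw [jad_sh, zero_add, h]

theorem jad1 {N : ℕ} (f : ZMod N → ℕ) {c x : ZMod N} (h : x = c - 1) :
    J.ad (sh c f) (-1) = sh c (Runs.ad f x) := by
  rw [jad_sh, h]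
  congr 2
  ring

theorem sh1 {N : ℕ} (f : ZMod N → ℕ) {c x : ZMod N} (h : x = c + 1) :
    (fun z => sh c f (z + 1)) = sh x f := by
  funext z
  simp only [sh_apply]
  rw [h]
  congr 1
  ring

theorem shm {N : ℕ} (f : ZMod N → ℕ) {c x : ZMod N} (h : x = c - 1) :
    (fun z => sh c f (z - 1)) = sh x f := by
  funext z
  simp only [sh_apply]
  rw [h]
  congr 1
  ring

/-- JM -/
theorem gad_jm (hn : 1 ≤ n) {f : ZMod (2 * n + 1) → ℕ} (hk : n + 4 + 2 * ∑ x, f x = k) {p r : ℕ}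
    (hc : ¬ Cst (Runs.ad f ((p + 1 : ℕ) : ZMod (2 * n + 1))))
    (h4 : ¬ Rot (Runs.ad f (p : ZMod (2 * n + 1))) (Runs.ad f ((p + 1 : ℕ) : ZMod (2 * n + 1))))
    (h13 : f ((p + 1 : ℕ) : ZMod (2 * n + 1)) = 0 →
      ¬ Rot (Runs.ad f ((p + 2 : ℕ) : ZMod (2 * n + 1))) (Runs.ad f (p : ZMod (2 * n + 1))) ∧
      ¬ Rot (Runs.ad f ((p + 2 : ℕ) : ZMod (2 * n + 1)))
        (Runs.ad f ((p + 1 : ℕ) : ZMod (2 * n + 1)))) :
    GadOK k n ⟨.jm, f, p, r⟩ := by
  have c1 : ((p + 1 : ℕ) : ZMod (2 * n + 1)) = (p : ZMod (2 * n + 1)) + 1 := by push_cast; rfl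
  have c2 : ((p + 2 : ℕ) : ZMod (2 * n + 1)) = (p : ZMod (2 * n + 1)) + 2 := by push_cast; rfl
  have hs : ∀ y, n + 2 + 2 * ∑ x, Runs.ad f y x = k := by
    intro y
    rw [Runs.ad_sum]
    omega
  rw [c1] at hc h4 h13
  rw [c2] at h13
  obtain ⟨γ, g1, g2, g3⟩ := ex_jm hn hk (p : ZMod (2 * n + 1)) hc h4 h13
  have hF : FS k n ⟨.jm, f, p, r⟩ = {Kc k n (Runs.ad f ((p : ZMod (2 * n + 1)) + 1)),
      Kc k n (Runs.ad f (p : ZMod (2 * n + 1)))} := by
    ext c
    constructor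
    · rintro (⟨K, ⟨j, hj, rfl⟩, rfl⟩ | ⟨h, _⟩)
      · have hj' : j = p ∨ j = p + 1 := hj
        rcases hj' with rfl | rfl
        · exact Or.inr rfl
        · left
          rw [c1]
      · exact absurd rfl h
    · rintro (rfl | rfl)
      · left
        refine ⟨_, ⟨p + 1, Or.inr rfl, rfl⟩, ?_⟩
        rw [c1]
      · exact Or.inl ⟨_, ⟨p, Or.inl rfl, rfl⟩, rfl⟩
  refine ⟨γ, ?_, ?_, ?_⟩
  · rw [hF]; exact g1
  · apply JG.mono g2
    · rintro Ψ (rfl | ⟨h, rfl⟩)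
      · exact ⟨p + 1, Or.inl rfl, by rw [c1]⟩
      · rw [sh_apply, zero_add] at h
        refine ⟨p + 2, Or.inr ⟨by rw [c1]; exact h, rfl⟩, ?_⟩
        rw [c2]
        exact sh1 f (by ring)
    · rintro Ψ (rfl | rfl | rfl | ⟨h, rfl⟩)
      · refine Or.inl ⟨p + 1, p + 1, Or.inl ⟨rfl, rfl⟩, ?_⟩
        rw [c1]
        exact jad0 f rfl
      · refine Or.inl ⟨p, p + 1, Or.inr (Or.inl ⟨rfl, rfl⟩), ?_⟩
        rw [c1]
        exact jad1 f (by ring)
      · refine Or.inl ⟨p + 1, p + 2, Or.inr (Or.inr ⟨rfl, rfl⟩), ?_⟩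
        rw [c1, c2, sh1 f (x := (p : ZMod (2 * n + 1)) + 2) (by ring)]
        exact jad1 f (by ring)
      · rw [sh_apply, zero_add] at h
        right
        refine ⟨by rw [c1]; exact h, ?_⟩
        rw [c2, sh1 f (x := (p : ZMod (2 * n + 1)) + 2) (by ring)]
        exact jad0 f rfl
    · rintro Ψ ⟨h, rfl⟩
      rw [sh_apply, zero_add] at h
      refine ⟨p + 2, ⟨?_, rfl⟩, ?_⟩
      · change ¬ f ((p + 1 : ℕ) : ZMod (2 * n + 1)) = 0
        rw [c1]; omega
      · rw [c2]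
        exact sh1 f (by ring)
  · intro w hw
    rcases g3 w hw with h | h | h | h | h | h
    · left
      rw [hF]
      exact h
    · right; left
      rw [htc_Kc hn (hs _)] at h
      exact h
    · exact Or.inr (Or.inr (Or.inr (Or.inl ⟨rfl, Or.inl h⟩)))
    · exact Or.inr (Or.inr (Or.inr (Or.inl ⟨rfl, Or.inr h⟩)))
    · right; right; left
      rw [htc_Kc hn (hs _)] at h
      exact h
    · right; right; right; right; left
      refine ⟨rfl, ?_, ?_⟩
      · rw [c1]; exact h.1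
      · rw [c2]; exact h.2

/-- JY -/
theorem gad_jy (hn : 1 ≤ n) {f : ZMod (2 * n + 1) → ℕ} (hk : n + 4 + 2 * ∑ x, f x = k) {p r : ℕ}
    (h0 : 1 ≤ f ((p + 1 : ℕ) : ZMod (2 * n + 1)))
    (hc : ¬ Cst (Runs.ad f ((p + 1 : ℕ) : ZMod (2 * n + 1))))
    (h4 : ¬ Rot (Runs.ad f (p : ZMod (2 * n + 1))) (Runs.ad f ((p + 1 : ℕ) : ZMod (2 * n + 1)))) :
    GadOK k n ⟨.jy, f, p, r⟩ := by
  have c1 : ((p + 1 : ℕ) : ZMod (2 * n + 1)) = (p : ZMod (2 * n + 1)) + 1 := by push_cast; rfl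
  have c2 : ((p + 2 : ℕ) : ZMod (2 * n + 1)) = (p : ZMod (2 * n + 1)) + 2 := by push_cast; rfl
  have hs : ∀ y, n + 2 + 2 * ∑ x, Runs.ad f y x = k := by
    intro y
    rw [Runs.ad_sum]
    omega
  rw [c1] at h0 hc h4
  obtain ⟨γ, g1, g2⟩ := ex_jy hn hk (p : ZMod (2 * n + 1)) h0 hc h4
  have hF : FS k n ⟨.jy, f, p, r⟩ = {Kc k n (Runs.ad f ((p : ZMod (2 * n + 1)) + 1)),
      Kc k n (Runs.ad f (p : ZMod (2 * n + 1))), Yc k n f, Zc k n f} := by
    ext c
    constructor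
    · rintro (⟨K, ⟨j, hj, rfl⟩, rfl⟩ | ⟨_, h | h⟩)
      · have hj' : j = p ∨ j = p + 1 := hj
        rcases hj' with rfl | rfl
        · exact Or.inr (Or.inl rfl)
        · left
          rw [c1]
      · exact Or.inr (Or.inr (Or.inl h))
      · exact Or.inr (Or.inr (Or.inr h))
    · rintro (rfl | rfl | rfl | rfl)
      · left
        refine ⟨_, ⟨p + 1, Or.inr rfl, rfl⟩, ?_⟩
        rw [c1]
      · exact Or.inl ⟨_, ⟨p, Or.inl rfl, rfl⟩, rfl⟩
      · exact Or.inr ⟨by simp, Or.inl rfl⟩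
      · exact Or.inr ⟨by simp, Or.inr rfl⟩
  rw [← hF] at g1
  have hh := FS_ht (g := ⟨.jy, f, p, r⟩) hn hk
  have hne : Kc k n (Runs.ad f (p : ZMod (2 * n + 1))) ∈ FS k n ⟨.jy, f, p, r⟩ := by
    rw [hF]; exact Or.inr (Or.inl rfl)
  refine ⟨γ, g1, ?_, ?_⟩
  · apply JG.mono g2
    · rintro Ψ rfl
      exact ⟨p + 1, rfl, by rw [c1]⟩
    · rintro Ψ (rfl | rfl | rfl)
      · refine Or.inl ⟨p + 1, p + 1, Or.inl ⟨rfl, rfl⟩, ?_⟩
        rw [c1]
        exact jad0 f rfl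
      · refine Or.inl ⟨p, p + 1, Or.inr (Or.inl ⟨rfl, rfl⟩), ?_⟩
        rw [c1]
        exact jad1 f (by ring)
      · refine Or.inl ⟨p + 1, p + 2, Or.inr (Or.inr ⟨rfl, rfl⟩), ?_⟩
        rw [c1, c2, sh1 f (x := (p : ZMod (2 * n + 1)) + 2) (by ring)]
        exact jad1 f (by ring)
    · rintro Ψ rfl
      exact ⟨p + 2, rfl, by rw [c2]⟩
  · intro w hw
    rcases g1.rank w hw with h | h | ⟨h, h'⟩
    · exact Or.inl h
    · right; left
      have := h _ hne
      rw [hh _ hne] at this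
      exact this
    · right; right; left
      have := h _ hne
      rw [hh _ hne] at this
      exact ⟨this, h'⟩

/-- J5 -/
theorem gad_j5 (hn : 1 ≤ n) {f : ZMod (2 * n + 1) → ℕ} (hk : n + 4 + 2 * ∑ x, f x = k) {p r : ℕ}
    (h0 : f ((p + 1 : ℕ) : ZMod (2 * n + 1)) = 0)
    (h01 : ¬ Rot (Runs.ad f (p : ZMod (2 * n + 1))) (Runs.ad f ((p + 1 : ℕ) : ZMod (2 * n + 1))))
    (h02 : ¬ Rot (Runs.ad f (p : ZMod (2 * n + 1))) (Runs.ad f ((p + 2 : ℕ) : ZMod (2 * n + 1))))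
    (h12 : ¬ Rot (Runs.ad f ((p + 1 : ℕ) : ZMod (2 * n + 1)))
      (Runs.ad f ((p + 2 : ℕ) : ZMod (2 * n + 1)))) :
    GadOK k n ⟨.j5, f, p, r⟩ := by
  have c1 : ((p + 1 : ℕ) : ZMod (2 * n + 1)) = (p : ZMod (2 * n + 1)) + 1 := by push_cast; rfl
  have c2 : ((p + 2 : ℕ) : ZMod (2 * n + 1)) = (p : ZMod (2 * n + 1)) + 2 := by push_cast; rfl
  rw [c1] at h0 h01 h12
  rw [c2] at h02 h12
  obtain ⟨γ, g1, g2⟩ := ex_j5 hn hk (p : ZMod (2 * n + 1)) h0 h01 h02 h12
  have hF : FS k n ⟨.j5, f, p, r⟩ = {Kc k n (Runs.ad f ((p : ZMod (2 * n + 1)) + 1)),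
      Kc k n (Runs.ad f ((p : ZMod (2 * n + 1)) + 2)),
      Kc k n (Runs.ad f (p : ZMod (2 * n + 1))), Yc k n f, Zc k n f} := by
    ext c
    constructor
    · rintro (⟨K, ⟨j, hj, rfl⟩, rfl⟩ | ⟨_, h | h⟩)
      · have hj' : j = p ∨ j = p + 1 ∨ j = p + 2 := hj
        rcases hj' with rfl | rfl | rfl
        · exact Or.inr (Or.inr (Or.inl rfl))
        · left
          rw [c1]
        · right; left
          rw [c2]
      · exact Or.inr (Or.inr (Or.inr (Or.inl h)))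
      · exact Or.inr (Or.inr (Or.inr (Or.inr h)))
    · rintro (rfl | rfl | rfl | rfl | rfl)
      · left
        refine ⟨_, ⟨p + 1, Or.inr (Or.inl rfl), rfl⟩, ?_⟩
        rw [c1]
      · left
        refine ⟨_, ⟨p + 2, Or.inr (Or.inr rfl), rfl⟩, ?_⟩
        rw [c2]
      · exact Or.inl ⟨_, ⟨p, Or.inl rfl, rfl⟩, rfl⟩
      · exact Or.inr ⟨by simp, Or.inl rfl⟩
      · exact Or.inr ⟨by simp, Or.inr rfl⟩
  rw [← hF] at g1
  have hh := FS_ht (g := ⟨.j5, f, p, r⟩) hn hk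
  have hne : Kc k n (Runs.ad f (p : ZMod (2 * n + 1))) ∈ FS k n ⟨.j5, f, p, r⟩ := by
    rw [hF]; exact Or.inr (Or.inr (Or.inl rfl))
  have e2 : (fun z => sh ((p : ZMod (2 * n + 1)) + 2) f (z - 1)) =
      sh ((p : ZMod (2 * n + 1)) + 1) f := shm f (by ring)
  refine ⟨γ, g1, ?_, ?_⟩
  · apply JG.mono g2
    · rintro Ψ (rfl | rfl)
      · exact ⟨p + 2, Or.inr rfl, by rw [c2]⟩
      · refine ⟨p + 1, Or.inl rfl, ?_⟩
        rw [c1]
        exact e2
    · rintro Ψ (rfl | rfl | rfl)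
      · refine Or.inl ⟨p + 1, p + 2, Or.inl ⟨rfl, rfl⟩, ?_⟩
        rw [c1, c2]
        exact jad1 f (by ring)
      · refine Or.inl ⟨p + 2, p + 2, Or.inr (Or.inl ⟨rfl, rfl⟩), ?_⟩
        rw [c2]
        exact jad0 f rfl
      · refine Or.inl ⟨p, p + 1, Or.inr (Or.inr ⟨rfl, rfl⟩), ?_⟩
        rw [c1, e2]
        exact jad1 f (by ring)
    · rintro Ψ h
      exact absurd h (Set.notMem_empty _)
  · intro w hw
    rcases g1.rank w hw with h | h
    · exact Or.inl h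
    · right; left
      have := h _ hne
      rw [hh _ hne] at this
      exact this

/-- NM -/
theorem gad_nm (hn : 1 ≤ n) {f : ZMod (2 * n + 1) → ℕ} (hk : n + 4 + 2 * ∑ x, f x = k) {p r : ℕ}
    (h0 : 1 ≤ f (p : ZMod (2 * n + 1))) (hc : ¬ Cst (Runs.ad f (p : ZMod (2 * n + 1))))
    (h4 : ¬ Rot (Runs.ad f ((p : ZMod (2 * n + 1)) - 1)) (Runs.ad f (p : ZMod (2 * n + 1)))) :
    GadOK k n ⟨.nm, f, p, r⟩ := by
  have c1 : ((p + 1 : ℕ) : ZMod (2 * n + 1)) = (p : ZMod (2 * n + 1)) + 1 := by push_cast; rfl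
  have hs : ∀ y, n + 2 + 2 * ∑ x, Runs.ad f y x = k := by
    intro y
    rw [Runs.ad_sum]
    omega
  obtain ⟨γ, g1, g2, g3⟩ := ex_nm hn hk (p : ZMod (2 * n + 1)) h0 hc h4
  have hF : FS k n ⟨.nm, f, p, r⟩ = {Kc k n (Runs.ad f (p : ZMod (2 * n + 1))),
      Yc k n f, Zc k n f} := by
    ext c
    constructor
    · rintro (⟨K, ⟨j, hj, rfl⟩, rfl⟩ | ⟨_, h | h⟩)
      · have hj' : j = p := hj
        subst hj'
        exact Or.inl rfl
      · exact Or.inr (Or.inl h)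
      · exact Or.inr (Or.inr h)
    · rintro (rfl | rfl | rfl)
      · exact Or.inl ⟨_, ⟨p, rfl, rfl⟩, rfl⟩
      · exact Or.inr ⟨by simp, Or.inl rfl⟩
      · exact Or.inr ⟨by simp, Or.inr rfl⟩
  rw [← hF] at g1 g3
  refine ⟨γ, g1, ?_, ?_⟩
  · apply JG.mono g2
    · rintro Ψ rfl
      exact ⟨p, rfl, rfl⟩
    · rintro Ψ (rfl | rfl | rfl)
      · refine Or.inl ⟨p, p, Or.inl ⟨rfl, rfl⟩, ?_⟩
        exact jad0 f rfl
      · right
        exact jad1 f rfl
      · refine Or.inl ⟨p, p + 1, Or.inr ⟨rfl, rfl⟩, ?_⟩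
        rw [c1, sh1 f (x := (p : ZMod (2 * n + 1)) + 1) rfl]
        exact jad1 f (by ring)
    · rintro Ψ rfl
      exact ⟨p + 1, rfl, by rw [c1]⟩
  · intro w hw
    rcases g3 w hw with h | h | h | h
    · exact Or.inl h
    · right; left
      rw [htc_Kc hn (hs _)] at h
      exact h
    · exact Or.inr (Or.inr (Or.inr (Or.inr (Or.inr ⟨rfl, h⟩))))
    · right; right; left
      rw [htc_Kc hn (hs _)] at h
      exact h

/-! ### The list `InS` -/

theorem not_cst_of {N : ℕ} {G : ZMod N → ℕ} {i : ℕ} (h : G (i : ZMod N) ≠ G 0) : ¬ Cst G :=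
  fun h1 => h (h1.nat i)

theorem gad_InS (hn : 1 ≤ n) {g : Gd (2 * n + 1)} (hk : n + 4 + 2 * ∑ x, g.f x = k) (hg : InS g)
    (hS : g.kd = .nm → g.p = 0 → ¬ Cst (Runs.ad g.f 0)) : GadOK k n g := by
  have hN : 2 ≤ 2 * n + 1 := by omega
  have one0 : (1 : ZMod (2 * n + 1)) ≠ 0 := one_ne hN
  cases hg with
  | zy f h h0 he =>
    have h1 : Can (Runs.ad f 1) := zt_can1 hN h0
    have e1 : ((0 + 1 : ℕ) : ZMod (2 * n + 1)) = 1 := by rw [zero_add, Nat.cast_one]
    have e0 : ((0 : ℕ) : ZMod (2 * n + 1)) = 0 := Nat.cast_zero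
    have h2 := zt_gt h0 one0
    apply gad_jy hn hk
    · rw [e1]
      change 1 ≤ f 1
      omega
    · apply not_cst_of (i := 1)
      rw [e1, Runs.ad_self, Runs.ad_ne _ one0.symm]
      change f 1 + 1 ≠ f 0
      omega
    · apply not_rot_nat (by omega) (by omega) (by omega)
      · rw [e0]; exact h0
      · rw [e1]; exact h1
  | zn f h h0 ho hp =>
    have e0 : ((0 : ℕ) : ZMod (2 * n + 1)) = 0 := Nat.cast_zero
    apply gad_nm hn hk
    · rw [e0]
      change 1 ≤ f 0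
      omega
    · rw [e0]
      exact hS rfl rfl
    · intro hr
      have h1 := sq_rot hr
      rw [e0, zero_sub] at h1
      change f (-1) = f 0 at h1
      have h2 := zt_gt h0 (z := -1) (by simpa using one0)
      omega
  | run _ q l h hg =>
    obtain ⟨kd, f, p, r⟩ := g
    have hq := h.fst
    have hql := h.lq
    have hl1 := h.l1
    have hqN := hq.lt
    simp only at hq hk
    have f0 : f 0 = 0 := by
      have := hq.zero 0 (by omega)
      rwa [Nat.cast_zero] at this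
    have can : ∀ p, l ≤ p → p ≤ q → Can (Runs.ad f (p : ZMod (2 * n + 1))) := fun p h1 h2 => h.canp h1 h2
    have ncst : ∀ p, l ≤ p → p ≤ q → ¬ Cst (Runs.ad f (p : ZMod (2 * n + 1))) := by
      intro p h1 h2
      apply not_cst_of (i := p)
      have h3 := ad_ne' f (x := p) (z := 0) (by omega) (by omega) (by omega)
      rw [Nat.cast_zero] at h3
      rw [Runs.ad_self, h3, f0]
      omega
    cases kd with
    | jm =>
      simp only [RG] at hg
      obtain ⟨g1, g2, g3, g4, g5⟩ := hg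
      apply gad_jm hn hk
      · exact ncst _ (by omega) (by omega)
      · exact not_rot_nat (by omega) (by omega) (by omega) (can _ (by omega) (by omega))
          (can _ (by omega) (by omega))
      · intro h6
        have h7 : p + 2 ≤ q := by
          by_contra h8
          have h9 : p + 1 = q := by omega
          rw [h9] at h6
          have := hq.pos
          omega
        exact ⟨not_rot_nat (by omega) (by omega) (by omega) (can _ (by omega) (by omega))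
          (can _ (by omega) (by omega)), not_rot_nat (by omega) (by omega) (by omega)
          (can _ (by omega) (by omega)) (can _ (by omega) (by omega))⟩
    | jy =>
      simp only [RG] at hg
      obtain ⟨g1, g2, g3⟩ := hg
      apply gad_jy hn hk
      · rw [g1]; exact hq.pos
      · exact ncst _ (by omega) (by omega)
      · exact not_rot_nat (by omega) (by omega) (by omega) (can _ (by omega) (by omega))
          (can _ (by omega) (by omega))
    | j5 =>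
      simp only [RG] at hg
      obtain ⟨g1, g2, g3, g4⟩ := hg
      apply gad_j5 hn hk
      · exact hq.zero _ (by omega)
      · exact not_rot_nat (by omega) (by omega) (by omega) (can _ (by omega) (by omega))
          (can _ (by omega) (by omega))
      · exact not_rot_nat (by omega) (by omega) (by omega) (can _ (by omega) (by omega))
          (can _ (by omega) (by omega))
      · exact not_rot_nat (by omega) (by omega) (by omega) (can _ (by omega) (by omega))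
          (can _ (by omega) (by omega))
    | nm =>
      simp only [RG] at hg
      obtain ⟨g1, g2, g3⟩ := hg
      subst g1
      apply gad_nm hn hk
      · exact hq.pos
      · exact ncst _ (by omega) (by omega)
      · intro hr
        have h1 := sq_rot hr
        have h2 : ((p : ZMod (2 * n + 1)) - 1) = ((p - 1 : ℕ) : ZMod (2 * n + 1)) := by
          rw [Nat.cast_sub (by omega), Nat.cast_one]
        rw [h2, hq.zero _ (by omega)] at h1
        have := hq.pos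
        omega

end Hole2

end Pool.OddHC
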