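import Pool.Agent.Work.MP_8f87b2_h47.Runs4
import Pool.Agent.Work.MP_8f87b2_h40.H2b

/-!
# MP_8f87b2_co, HOLE 2: from the scheme `Runs.Sch` to T-cycles

`FT k n κ Φ` = the T-cycles of the gadget `(κ, Φ)`. `gadT` = existence. `Yc_rot`, `Zc_rot`: different lines, different T-cycles.
`Hole`: the final structure, `hole_of_sch`.
-/

set_option autoImplicit false

namespace Pool.OddHC

open Finset Equiv BinaryTree Pool.Agent.Work.MP_8f87b2_co

namespace Hole2

open J Runs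

variable {k n : ℕ}

/-- the T-cycles of the gadget -/
def FT (k n : ℕ) (κ : Kd) (Φ : ZMod (2 * n + 1) → ℕ) : Set (Cyc k) :=
  {c | (∃ G ∈ NF κ Φ, c = Kc k n G) ∨ (κ ≠ .jm ∧ (c = Yc k n Φ ∨ c = Zc k n Φ))}

/-- the old words -/
def OldT (k n : ℕ) (κ : Kd) (Φ : ZMod (2 * n + 1) → ℕ) (w : X k) : Prop :=
  n + 2 < htc (cyc w) ∨ (htc (cyc w) = n + 2 ∧ (contc (cyc w)).count 1 = 1) ∨
  (κ = .jm ∧ (cyc w = Yc k n Φ ∨ cyc w = Zc k n Φ)) ∨ ∃ G ∈ UF κ Φ, cyc w = Kc k n G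

theorem Kc_rot' (hn : 1 ≤ n) {G G' : ZMod (2 * n + 1) → ℕ} (h : n + 2 + 2 * ∑ x, G x = k)
    (h' : n + 2 + 2 * ∑ x, G' x = k) : Kc k n G = Kc k n G' ↔ Runs.Rot G G' := Kc_rot hn h h'

theorem NF_sum {κ : Kd} {Φ G : ZMod (2 * n + 1) → ℕ} (h : G ∈ NF κ Φ) :
    ∑ z, G z = ∑ z, Φ z + 1 := by
  have hd : ∑ z, dn Φ z = ∑ z, Φ z := Fintype.sum_equiv (Equiv.subRight 1) _ _ (fun _ => rfl)
  cases κ
  · rcases h with rfl | rfl <;> exact Runs.ad_sum _ _
  · rcases h with rfl | rfl <;> exact Runs.ad_sum _ _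
  · rcases h with rfl | rfl | rfl
    · exact Runs.ad_sum _ _
    · exact Runs.ad_sum _ _
    · rw [Runs.ad_sum, hd]
  · rcases h with rfl
    exact Runs.ad_sum _ _

theorem UF_sum {κ : Kd} {Φ G : ZMod (2 * n + 1) → ℕ} (h : G ∈ UF κ Φ) :
    ∑ z, G z = ∑ z, Φ z + 1 := by
  have hd : ∑ z, dn Φ z = ∑ z, Φ z := Fintype.sum_equiv (Equiv.subRight 1) _ _ (fun _ => rfl)
  have hu : ∑ z, up Φ z = ∑ z, Φ z := Fintype.sum_equiv (Equiv.addRight 1) _ _ (fun _ => rfl)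
  cases κ
  · rcases h with rfl | rfl | rfl | ⟨_, rfl⟩
    · exact Runs.ad_sum _ _
    · exact Runs.ad_sum _ _
    · rw [Runs.ad_sum, hu]
    · rw [Runs.ad_sum, hu]
  · rcases h with rfl | rfl | rfl
    · exact Runs.ad_sum _ _
    · exact Runs.ad_sum _ _
    · rw [Runs.ad_sum, hu]
  · rcases h with rfl | rfl | rfl
    · exact Runs.ad_sum _ _
    · exact Runs.ad_sum _ _
    · rw [Runs.ad_sum, hd]
  · rcases h with rfl | rfl | rfl
    · exact Runs.ad_sum _ _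
    · exact Runs.ad_sum _ _
    · rw [Runs.ad_sum, hu]

theorem FT_ht (hn : 1 ≤ n) {κ : Kd} {Φ : ZMod (2 * n + 1) → ℕ} (hk : n + 4 + 2 * ∑ x, Φ x = k) :
    ∀ c ∈ FT k n κ Φ, htc c = n + 2 := by
  rintro c (⟨K, hK, rfl⟩ | ⟨_, rfl | rfl⟩)
  · apply htc_Kc hn
    rw [NF_sum hK]
    omega
  · exact htc_Yc hn hk
  · exact htc_Zc hn hk

/-- **existence of the gadget** -/
theorem gadT (hn : 1 ≤ n) {κ : Kd} {Φ : ZMod (2 * n + 1) → ℕ} (hk : n + 4 + 2 * ∑ x, Φ x = k)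
    (hc : CF κ Φ) : ∃ γ : DG k, TyK κ (FT k n κ Φ) γ ∧ JG n γ.B (PF κ Φ) (UF κ Φ) (MF κ Φ) ∧
      ∀ w ∈ γ.B, cyc w ∈ FT k n κ Φ ∨ OldT k n κ Φ w := by
  have hd : ∑ z, dn Φ z = ∑ z, Φ z := Fintype.sum_equiv (Equiv.subRight 1) _ _ (fun _ => rfl)
  have hu : ∑ z, up Φ z = ∑ z, Φ z := Fintype.sum_equiv (Equiv.addRight 1) _ _ (fun _ => rfl)
  have hs0 : n + 2 + 2 * ∑ z, Runs.ad Φ 0 z = k := by rw [Runs.ad_sum]; omega
  have hs1 : n + 2 + 2 * ∑ z, Runs.ad Φ (-1) z = k := by rw [Runs.ad_sum]; omega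
  have hs2 : n + 2 + 2 * ∑ z, Runs.ad (dn Φ) (-1) z = k := by rw [Runs.ad_sum, hd]; omega
  have hs3 : n + 2 + 2 * ∑ z, Runs.ad (up Φ) 0 z = k := by rw [Runs.ad_sum, hu]; omega
  obtain ⟨y, hy, cy⟩ := exY hn hk
  obtain ⟨y', hy', cy'⟩ := exZ hn hk
  obtain ⟨z, hz, cz⟩ := exK hn hs0
  obtain ⟨z', hz', cz'⟩ := exK hn hs1
  have hh := FT_ht (κ := κ) hn hk
  cases κ with
  | jm =>
    obtain ⟨c1, c2, c3⟩ := hc
    obtain ⟨γ, g1, g2, g3⟩ := exJMr hn Φ hk hz hz' hy hy' c1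
      (by rw [cz, cz']; exact fun h => c2 ((Kc_rot' hn hs0 hs1).1 h))
      (by
        intro h0 u hu'
        have cu : cyc u = Kc k n (Runs.ad (up Φ) 0) := by
          rw [← tcy_eq u, hu']
          rfl
        rw [cu, cz, cz']
        exact ⟨fun h => (c3 h0).1 ((Kc_rot' hn hs3 hs0).1 h),
          fun h => (c3 h0).2 ((Kc_rot' hn hs3 hs1).1 h)⟩)
    have hF : FT k n .jm Φ = {cyc z, cyc z'} := by
      ext c
      constructor
      · rintro (⟨K, rfl | rfl, rfl⟩ | ⟨h, _⟩)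
        · exact Or.inl cz.symm
        · exact Or.inr cz'.symm
        · exact absurd rfl h
      · rintro (rfl | rfl)
        · exact Or.inl ⟨_, Or.inl rfl, cz⟩
        · exact Or.inl ⟨_, Or.inr rfl, cz'⟩
    refine ⟨γ, ?_, g2, ?_⟩
    · rw [hF]; exact g1
    · intro w hw
      rcases g3 w hw with h | h | h | h | ⟨_, h⟩ | ⟨h, h'⟩
      · left; rw [hF]; exact h
      · right; left
        rw [cz, htc_Kc hn hs0] at h
        exact h
      · exact Or.inr (Or.inr (Or.inr (Or.inl ⟨rfl, Or.inl (h.trans cy)⟩)))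
      · exact Or.inr (Or.inr (Or.inr (Or.inl ⟨rfl, Or.inr (h.trans cy')⟩)))
      · right; right; left
        rw [cz, htc_Kc hn hs0] at h
        exact h
      · right; right; right; right
        refine ⟨_, Or.inr (Or.inr (Or.inr ⟨h, rfl⟩)), ?_⟩
        rw [← tcy_eq w, h']
        rfl
  | jy =>
    obtain ⟨c1, c2, c3⟩ := hc
    obtain ⟨γ, g1, g2⟩ := exJY hn Φ hk c1 hz hz' hy hy' c2
      (by rw [cz, cz']; exact fun h => c3 ((Kc_rot' hn hs0 hs1).1 h))
    have hF : FT k n .jy Φ = {cyc z, cyc z', cyc y, cyc y'} := by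
      ext c
      constructor
      · rintro (⟨K, rfl | rfl, rfl⟩ | ⟨_, rfl | rfl⟩)
        · exact Or.inl cz.symm
        · exact Or.inr (Or.inl cz'.symm)
        · exact Or.inr (Or.inr (Or.inl cy.symm))
        · exact Or.inr (Or.inr (Or.inr cy'.symm))
      · rintro (rfl | rfl | rfl | rfl)
        · exact Or.inl ⟨_, Or.inl rfl, cz⟩
        · exact Or.inl ⟨_, Or.inr rfl, cz'⟩
        · exact Or.inr ⟨by simp, Or.inl cy⟩
        · exact Or.inr ⟨by simp, Or.inr cy'⟩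
    rw [← hF] at g1
    have hne : Kc k n (Runs.ad Φ 0) ∈ FT k n .jy Φ := Or.inl ⟨_, Or.inl rfl, rfl⟩
    refine ⟨γ, g1, ?_, ?_⟩
    · apply JG.mono g2
      · rintro Ψ rfl; exact rfl
      · rintro Ψ (rfl | rfl | rfl)
        · exact Or.inl rfl
        · exact Or.inr (Or.inl rfl)
        · exact Or.inr (Or.inr rfl)
      · rintro Ψ rfl; exact rfl
    · intro w hw
      rcases g1.rank w hw with h | h | ⟨h, h'⟩
      · exact Or.inl h
      · right; left
        have := h _ hne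
        rw [hh _ hne] at this
        exact this
      · right; right; left
        have := h _ hne
        rw [hh _ hne] at this
        exact ⟨this, h'⟩
  | j5 =>
    obtain ⟨c1, c2, c3, c4⟩ := hc
    obtain ⟨z3, hz3, cz3⟩ := exK hn hs2
    obtain ⟨γ, g1, g2⟩ := exJ5 hn Φ hk c1 hz' hz hz3 hy hy'
      (by rw [cz, cz']; exact fun h => c2 ((Kc_rot' hn hs1 hs0).1 h))
      (by rw [cz3, cz']; exact fun h => c3 ((Kc_rot' hn hs2 hs1).1 h).symm)
      (by rw [cz3, cz]; exact fun h => c4 ((Kc_rot' hn hs2 hs0).1 h).symm)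
      (bb_ne_fb hn _ _ rfl hy hy')
    have hF : FT k n .j5 Φ = {cyc z', cyc z, cyc z3, cyc y, cyc y'} := by
      ext c
      constructor
      · rintro (⟨K, rfl | rfl | rfl, rfl⟩ | ⟨_, rfl | rfl⟩)
        · exact Or.inl cz'.symm
        · exact Or.inr (Or.inl cz.symm)
        · exact Or.inr (Or.inr (Or.inl cz3.symm))
        · exact Or.inr (Or.inr (Or.inr (Or.inl cy.symm)))
        · exact Or.inr (Or.inr (Or.inr (Or.inr cy'.symm)))
      · rintro (rfl | rfl | rfl | rfl | rfl)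
        · exact Or.inl ⟨_, Or.inl rfl, cz'⟩
        · exact Or.inl ⟨_, Or.inr (Or.inl rfl), cz⟩
        · exact Or.inl ⟨_, Or.inr (Or.inr rfl), cz3⟩
        · exact Or.inr ⟨by simp, Or.inl cy⟩
        · exact Or.inr ⟨by simp, Or.inr cy'⟩
    rw [← hF] at g1
    have hne : Kc k n (Runs.ad Φ 0) ∈ FT k n .j5 Φ := Or.inl ⟨_, Or.inr (Or.inl rfl), rfl⟩
    refine ⟨γ, g1, ?_, ?_⟩
    · apply JG.mono g2
      · rintro Ψ (rfl | rfl)
        · exact Or.inl rfl
        · exact Or.inr rfl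
      · rintro Ψ (rfl | rfl | rfl)
        · exact Or.inl rfl
        · exact Or.inr (Or.inl rfl)
        · exact Or.inr (Or.inr rfl)
      · intro Ψ h
        exact absurd h (Set.notMem_empty _)
    · intro w hw
      rcases g1.rank w hw with h | h
      · exact Or.inl h
      · right; left
        have := h _ hne
        rw [hh _ hne] at this
        exact this
  | nm =>
    obtain ⟨c1, c2, c3⟩ := hc
    obtain ⟨γ, g1, g2, g3⟩ := exNMr hn Φ hk c1 hz hz' hy hy' c2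
      (by rw [cz, cz']; exact fun h => c3 ((Kc_rot' hn hs0 hs1).1 h))
    have hF : FT k n .nm Φ = {cyc z, cyc y, cyc y'} := by
      ext c
      constructor
      · rintro (⟨K, rfl, rfl⟩ | ⟨_, rfl | rfl⟩)
        · exact Or.inl cz.symm
        · exact Or.inr (Or.inl cy.symm)
        · exact Or.inr (Or.inr cy'.symm)
      · rintro (rfl | rfl | rfl)
        · exact Or.inl ⟨_, rfl, cz⟩
        · exact Or.inr ⟨by simp, Or.inl cy⟩
        · exact Or.inr ⟨by simp, Or.inr cy'⟩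
    rw [← hF] at g1 g3
    refine ⟨γ, g1, ?_, ?_⟩
    · apply JG.mono g2
      · rintro Ψ rfl; exact rfl
      · rintro Ψ (rfl | rfl | rfl)
        · exact Or.inl rfl
        · exact Or.inr (Or.inl rfl)
        · exact Or.inr (Or.inr rfl)
      · rintro Ψ rfl; exact rfl
    · intro w hw
      rcases g3 w hw with h | h | h | h
      · exact Or.inl h
      · right; left
        rw [cz, htc_Kc hn hs0] at h
        exact h
      · right; right; right; right
        exact ⟨_, Or.inr (Or.inl rfl), h.trans cz'⟩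
      · right; right; left
        rw [cz, htc_Kc hn hs0] at h
        exact h

/-! ### Different T-cycles -/

/-- words over one T-cycle of the reduced level -/
theorem rot_of_same (hn : 1 ≤ n) {j : ℕ} {F F' : ZMod (2 * n + 1) → ℕ}
    (hj : n + pkn (pwX n).1 + ∑ x, F x = j) (hj' : n + pkn (pwX n).1 + ∑ x, F' x = j)
    {b b' : ZMod (2 * j + 1) → ℕ} {y y' : X k}
    (hy : y.1 = ins (phi (pwX n) F hj).1 (lf b)) (hy' : y'.1 = ins (phi (pwX n) F' hj').1 (lf b'))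
    (he : cyc y = cyc y') : Runs.Rot F F' := by
  obtain ⟨h1, rfl⟩ := Ring1.eq_phi F hj b hy
  obtain ⟨h2, rfl⟩ := Ring1.eq_phi F' hj' b' hy'
  obtain ⟨i, hi⟩ := sameCycle_nat (cyc_eq.1 he)
  rw [pow_phi] at hi
  have h3 := (phi_inj hi).1
  rw [pow_phi] at h3
  exact ⟨_, (phi_inj h3).2.symm⟩

theorem Yc_rot (hn : 1 ≤ n) {f f' : ZMod (2 * n + 1) → ℕ} (h : n + 4 + 2 * ∑ x, f x = k)
    (h' : n + 4 + 2 * ∑ x, f' x = k) (he : Yc k n f = Yc k n f') : Runs.Rot f f' := by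
  obtain ⟨y, hy, cy⟩ := exY hn h
  obtain ⟨y', hy', cy'⟩ := exY hn h'
  have hj := Ring1.hj_of hn f
  have hj' : n + pkn (pwX n).1 + ∑ x, f' x = n + 1 + ∑ x, f x := by
    have := Ring1.hj_of hn f'
    omega
  rw [Ring1.RF_bb f hj] at hy
  rw [Ring1.RF_bb f' hj'] at hy'
  exact rot_of_same hn hj hj' hy hy' (by rw [cy, cy', he])

theorem Zc_rot (hn : 1 ≤ n) {f f' : ZMod (2 * n + 1) → ℕ} (h : n + 4 + 2 * ∑ x, f x = k)
    (h' : n + 4 + 2 * ∑ x, f' x = k) (he : Zc k n f = Zc k n f') : Runs.Rot f f' := by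
  obtain ⟨y, hy, cy⟩ := exZ hn h
  obtain ⟨y', hy', cy'⟩ := exZ hn h'
  have hj := Ring1.hj_of hn f
  have hj' : n + pkn (pwX n).1 + ∑ x, f' x = n + 1 + ∑ x, f x := by
    have := Ring1.hj_of hn f'
    omega
  rw [Ring1.RF_fb f hj] at hy
  rw [Ring1.RF_fb f' hj'] at hy'
  exact rot_of_same hn hj hj' hy hy' (by rw [cy, cy', he])

theorem Yc_ne_Zc (hn : 1 ≤ n) {f f' : ZMod (2 * n + 1) → ℕ} (h : n + 4 + 2 * ∑ x, f x = k)
    (h' : n + 4 + 2 * ∑ x, f' x = k) : Yc k n f ≠ Zc k n f' := by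
  obtain ⟨y, hy, cy⟩ := exY hn h
  obtain ⟨y', hy', cy'⟩ := exZ hn h'
  rw [← cy, ← cy']
  exact bb_ne_fb hn f f' (by omega) hy hy'

theorem contc_Kc (hn : 1 ≤ n) {G : ZMod (2 * n + 1) → ℕ} (h : n + 2 + 2 * ∑ x, G x = k) :
    contc (Kc k n G) = {n + 2} + Multiset.replicate (∑ x, G x) 2 := by
  obtain ⟨z, hz, cz⟩ := exK hn h
  rw [← cz]
  change cont z.1 = _
  rw [hz, Ring1.cont_RF hn]

theorem count_Kc (hn : 1 ≤ n) {G : ZMod (2 * n + 1) → ℕ} (h : n + 2 + 2 * ∑ x, G x = k) :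
    (contc (Kc k n G)).count 1 = 0 := by
  rw [contc_Kc hn h, Multiset.count_add, Multiset.count_singleton, if_neg (by omega),
    Multiset.count_replicate, if_neg (by omega)]

theorem count_Yc (hn : 1 ≤ n) {f : ZMod (2 * n + 1) → ℕ} (h : n + 4 + 2 * ∑ x, f x = k) :
    (contc (Yc k n f)).count 1 = 2 := by
  rw [contc_Yc hn h, Multiset.count_add, Multiset.count_add, Multiset.count_singleton,
    if_neg (by omega), Multiset.count_replicate, if_neg (by omega)]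
  rfl

theorem count_Zc (hn : 1 ≤ n) {f : ZMod (2 * n + 1) → ℕ} (h : n + 4 + 2 * ∑ x, f x = k) :
    (contc (Zc k n f)).count 1 = 2 := by
  rw [contc_Zc hn h, Multiset.count_add, Multiset.count_add, Multiset.count_singleton,
    if_neg (by omega), Multiset.count_replicate, if_neg (by omega)]
  rfl

end Hole2

end Pool.OddHC
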