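import Pool.Agent.Work.MP_8f87b2_h40.H2c

/-!
# MP_8f87b2_co, HOLE 2: the final theorem

`Hole k n a kd grp gd rk`: groups `grp t` with gadgets `gd t` which cover the class `(n+2, 2^a)`; `hole_of_sch`.
-/

set_option autoImplicit false

namespace Pool.OddHC

open Finset Equiv BinaryTree Pool.Agent.Work.MP_8f87b2_co

namespace Hole2

open J Runs

variable {k n : ℕ}

/-- the groups of HOLE 2 for the class `(n + 2, 2 ^ a)` -/
structure Hole (k n a : ℕ) {T : Type} (kd : T → Kd) (F : T → ZMod (2 * n + 1) → ℕ) (rk : T → ℕ)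
    (gd : T → DG k) : Prop where
  sum : ∀ t, ∑ z, F t z + 1 = a
  rkb : ∀ t, rk t < 2 * (2 * n + 1) + 1
  ty : ∀ t, TyK (kd t) (FT k n (kd t) (F t)) (gd t)
  jg : ∀ t, JG n (gd t).B (PF (kd t) (F t)) (UF (kd t) (F t)) (MF (kd t) (F t))
  /-- heights -/
  ht : ∀ t, ∀ c ∈ FT k n (kd t) (F t), htc c = n + 2
  /-- contents -/
  cls : ∀ t, ∀ c ∈ FT k n (kd t) (F t), contc c = {n + 2} + Multiset.replicate a 2 ∨
    (kd t ≠ .jm ∧ (c = Yc k n (F t) ∨ c = Zc k n (F t)))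
  /-- the groups are disjoint -/
  disj : ∀ t t', t ≠ t' → ∀ c ∈ FT k n (kd t) (F t), c ∉ FT k n (kd t') (F t')
  /-- the words are different -/
  words : ∀ t t', t ≠ t' → ∀ w ∈ (gd t).B, w ∉ (gd t').B
  /-- the groups cover the class -/
  cover : ∀ c : Cyc k, contc c = {n + 2} + Multiset.replicate a 2 → ∃ t, c ∈ FT k n (kd t) (F t)
  /-- old words -/
  old : ∀ t, ∀ w ∈ (gd t).B, cyc w ∈ FT k n (kd t) (F t) ∨ n + 2 < htc (cyc w) ∨
    (htc (cyc w) = n + 2 ∧ (contc (cyc w)).count 1 = 1) ∨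
    ∃ t', rk t' < rk t ∧ cyc w ∈ FT k n (kd t') (F t')

/-- **from the scheme** -/
theorem hole_of_sch (hn : 1 ≤ n) {a : ℕ} (hk : n + 2 + 2 * a = k) {T : Type} {kd : T → Kd}
    {F : T → ZMod (2 * n + 1) → ℕ} {rk : T → ℕ} (hS : Sch a kd F rk) :
    ∃ gd : T → DG k, Hole k n a kd F rk gd := by
  have hs : ∀ t, n + 4 + 2 * ∑ x, F t x = k := by
    intro t
    have := hS.sum t
    omega
  have hNF : ∀ t, ∀ G ∈ NF (kd t) (F t), n + 2 + 2 * ∑ x, G x = k := by
    intro t G hG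
    rw [NF_sum hG]
    have := hs t
    omega
  have hUF : ∀ t, ∀ G ∈ UF (kd t) (F t), n + 2 + 2 * ∑ x, G x = k := by
    intro t G hG
    rw [UF_sum hG]
    have := hs t
    omega
  choose gd g1 g2 g3 using fun t => gadT hn (hs t) (hS.cond t)
  have disj : ∀ t t', t ≠ t' → ∀ c ∈ FT k n (kd t) (F t), c ∉ FT k n (kd t') (F t') := by
    rintro t t' hne c (⟨G, hG, rfl⟩ | ⟨h1, h2⟩) (⟨G', hG', e⟩ | ⟨h3, h4⟩)
    · exact hne (hS.uniq t t' G hG G' hG' ((Kc_rot' hn (hNF t G hG) (hNF t' G' hG')).1 e))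
    · have c0 := count_Kc hn (hNF t G hG)
      rcases h4 with h4 | h4
      · rw [h4, count_Yc hn (hs t')] at c0
        omega
      · rw [h4, count_Zc hn (hs t')] at c0
        omega
    · have c0 := count_Kc hn (hNF t' G' hG')
      rcases h2 with h2 | h2
      · rw [← e, h2, count_Yc hn (hs t)] at c0
        omega
      · rw [← e, h2, count_Zc hn (hs t)] at c0
        omega
    · rcases h2 with h2 | h2 <;> rcases h4 with h4 | h4
      · exact hne (hS.lineu t t' h1 h3 (Yc_rot hn (hs t) (hs t') (h2.symm.trans h4)))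
      · exact Yc_ne_Zc hn (hs t) (hs t') (h2.symm.trans h4)
      · exact Yc_ne_Zc hn (hs t') (hs t) (h4.symm.trans h2)
      · exact hne (hS.lineu t t' h1 h3 (Zc_rot hn (hs t) (hs t') (h2.symm.trans h4)))
  refine ⟨gd, hS.sum, hS.rkb, g1, g2, fun t => FT_ht hn (hs t), ?_, disj, ?_, ?_, ?_⟩
  · rintro t c (⟨G, hG, rfl⟩ | h)
    · left
      rw [contc_Kc hn (hNF t G hG), NF_sum hG, hS.sum t]
    · exact Or.inr h
  · intro t t' hne
    exact JG.disj hn (g2 t) (g2 t') (hS.P t t' hne) (hS.U t t' hne) (hS.M t t' hne)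
  · intro c hc
    obtain ⟨G, hG, e⟩ := Ring1.exists_wa hn hk c hc
    obtain ⟨t, G', hG', hr⟩ := hS.cover G hG
    refine ⟨t, Or.inl ⟨G', hG', ?_⟩⟩
    have e1 : c = Kc k n G := by
      rw [e]
      exact (tcy_eq (Ring1.wa hn G _)).symm
    rw [e1]
    exact (Kc_rot' hn (by rw [hG]; exact hk) (hNF t G' hG')).2 hr
  · intro t w hw
    rcases g3 t w hw with h | h | h | ⟨h, h'⟩ | ⟨G, hG, h⟩
    · exact Or.inl h
    · exact Or.inr (Or.inl h)
    · exact Or.inr (Or.inr (Or.inl h))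
    · right; right; right
      obtain ⟨t', h1, h2, h3⟩ := hS.line t h
      refine ⟨t', h3, Or.inr ⟨h1, ?_⟩⟩
      obtain ⟨c, hc⟩ := h2
      have hc' : F t' = sh c (F t) := hc
      rcases h' with h' | h'
      · left
        rw [h', hc', Yc_sh hn (hs t)]
      · right
        rw [h', hc', Zc_sh hn (hs t)]
    · rcases hS.old t G hG with ⟨G', hG', hr⟩ | ⟨t', h1, G', hG', hr⟩
      · left
        refine Or.inl ⟨G', hG', ?_⟩
        rw [h]
        exact (Kc_rot' hn (hUF t G hG) (hNF t G' hG')).2 hr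
      · right; right; right
        refine ⟨t', h1, Or.inl ⟨G', hG', ?_⟩⟩
        rw [h]
        exact (Kc_rot' hn (hUF t G hG) (hNF t' G' hG')).2 hr

/-! ### Fields of the types, all kinds together -/

theorem TyK.hF {κ : Kd} {F : Set (Cyc k)} {g : DG k} (h : TyK κ F g) : ∀ w, w ∈ g.F ↔ cyc w ∈ F := by
  cases κ
  · exact TyJM.hF h
  · exact TyJY.hF h
  · exact TyJ5.hF h
  · exact TyNM.hF h

theorem TyK.new {κ : Kd} {F : Set (Cyc k)} {g : DG k} (h : TyK κ F g) :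
    ∀ c ∈ F, ∃ u ∈ g.B, cyc u = c := by
  cases κ
  · exact TyJM.new h
  · exact TyJY.new h
  · exact TyJ5.new h
  · exact TyNM.new h

theorem TyK.old {κ : Kd} {F : Set (Cyc k)} {g : DG k} (h : TyK κ F g) : ∃ u ∈ g.B, cyc u ∉ F := by
  cases κ
  · exact TyJM.old h
  · exact TyJY.old h
  · exact TyJ5.old h
  · exact TyNM.old h

theorem TyK.abs {κ : Kd} {F : Set (Cyc k)} {g : DG k} (h : TyK κ F g) : g.Abs := by
  cases κ
  · exact TyJM.abs h
  · exact TyJY.abs h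
  · exact TyJ5.abs h
  · exact TyNM.abs h

theorem TyK.path {κ : Kd} {F : Set (Cyc k)} {g : DG k} (h : TyK κ F g) :
    ∀ a ∈ g.arcs, ∃ n : ℕ, (TT ^ (n + 1)) a.1 = a.2 ∧ a.1 ∈ g.B ∧
      ∀ i < n, (TT ^ (i + 1)) a.1 ∈ innA a := by
  cases κ
  · exact TyJM.path h
  · exact TyJY.path h
  · exact TyJ5.path h
  · exact TyNM.path h

end Hole2

end Pool.OddHC
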