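import Pool.Agent.Work.MP_8f87b2_h40.H2e
import Pool.Agent.Work.MP_8f87b2_h47.Runs6

/-!
# MP_8f87b2_co, HOLE 2: the cover without hypothesis

`TyH.cover'` : every T-cycle with contents `(n + 2, 2^a)`, `n ≥ 1`, `a ≥ 2`, lies in a group of type H.
-/

set_option autoImplicit false

namespace Pool.OddHC

open Finset Equiv BinaryTree Pool.Agent.Work.MP_8f87b2_co

namespace Hole2

open J Runs

variable {k n a : ℕ}

/-- **COVER** -/
theorem TyH.cover' (hn : 1 ≤ n) (ha : 2 ≤ a) (hk : n + 2 + 2 * a = k) {c : Cyc k}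
    (hc : contc c = {n + 2} + Multiset.replicate a 2) : ∃ F g, TyH F g ∧ c ∈ F :=
  TyH.cover hn (by omega) hk (exists_sch_far (N := 2 * n + 1) (by omega) ha) hc

end Hole2

end Pool.OddHC
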