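import Pool.Agent.Work.MP_8f87b2_h40.H2f
import Pool.Agent.Work.MP_8f87b2_fin.R1

/-!
# MP_8f87b2_co, HOLE 2: the families with two beads over one soliton

`tc_indep`: over `(ch n, F)` a T-cycle with two beads depends only on the level. `Yc_tc`, `Zc_tc`: `Yc F`, `Zc F` are the
levels 0, 1. `cls_data`: the class `(n + 2, 2^b, 1, 1)`. `TyH.pair`: the members of the groups in this class.
-/

set_option autoImplicit false

namespace Pool.OddHC

open Finset Equiv BinaryTree Multiset Pool.OddHop Pool.Agent.Work.MP_8f87b2_co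

namespace Hole2

open J Runs Ring1

variable {k n b j : ℕ}

/-- the T-cycles with two beads over `(ch n, F)` depend only on the level -/
theorem tc_indep (hn : 1 ≤ n) (F : ZMod (2 * n + 1) → ℕ) (hj : n + pkn (pwX n).1 + ∑ x, F x = j)
    (hk : j + pkn (phi (pwX n) F hj).1 + 2 = k) (x x' : ZMod (2 * j + 1)) (d : ℕ) :
    tc (phi (pwX n) F hj) hk x d = tc (phi (pwX n) F hj) hk x' d := by
  have hb : j + pkn (phi (pwX n) F hj).1 + ∑ z, (two x (x + (d : ZMod (2 * j + 1)))).1 z = k := by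
    rw [(two x (x + d)).2, hk]
  have h := same_rot hn F hj (two x (x + d)).1 hb (x - x')
  refine (cyc_eq.2 h).trans ?_
  unfold tc
  congr 1
  apply phi_congr rfl
  funext z
  rw [two_apply, two_apply]
  have e1 : z + (x - x') = x ↔ z = x' := by
    constructor
    · intro h; linear_combination h
    · intro h; linear_combination h
  have e2 : z + (x - x') = x + d ↔ z = x' + d := by
    constructor
    · intro h; linear_combination h
    · intro h; linear_combination h
  simp only [e1, e2]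

theorem k_of (hn : 1 ≤ n) (F : ZMod (2 * n + 1) → ℕ) (hj : n + pkn (pwX n).1 + ∑ x, F x = j)
    (hk : j + pkn (phi (pwX n) F hj).1 + 2 = k) : n + 4 + 2 * ∑ x, F x = k := by
  have h1 := pkn_phi_pw hn F hj
  have h2 := pk_pwX hn
  omega

theorem k_of' (hn : 1 ≤ n) (F : ZMod (2 * n + 1) → ℕ) (hj : n + pkn (pwX n).1 + ∑ x, F x = j)
    (h : n + 4 + 2 * ∑ x, F x = k) : j + pkn (phi (pwX n) F hj).1 + 2 = k := by
  have h1 := pkn_phi_pw hn F hj
  have h2 := pk_pwX hn
  omega

theorem Yc_tc (hn : 1 ≤ n) (F : ZMod (2 * n + 1) → ℕ) (hj : n + pkn (pwX n).1 + ∑ x, F x = j)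
    (hk : j + pkn (phi (pwX n) F hj).1 + 2 = k) (x : ZMod (2 * j + 1)) :
    Yc k n F = tc (phi (pwX n) F hj) hk x 0 := by
  obtain ⟨y, hy, e⟩ := exY hn (k_of hn F hj hk)
  rw [RF_bb F hj] at hy
  rw [← e, tc_indep hn F hj hk x (-1) 0]
  apply tc_word
  rw [hy]
  congr 2
  funext z
  rw [Nat.cast_zero, add_zero]
  split_ifs <;> rfl

theorem Zc_tc (hn : 1 ≤ n) (F : ZMod (2 * n + 1) → ℕ) (hj : n + pkn (pwX n).1 + ∑ x, F x = j)
    (hk : j + pkn (phi (pwX n) F hj).1 + 2 = k) (x : ZMod (2 * j + 1)) :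
    Zc k n F = tc (phi (pwX n) F hj) hk x 1 := by
  obtain ⟨y, hy, e⟩ := exZ hn (k_of hn F hj hk)
  rw [RF_fb F hj] at hy
  rw [← e, tc_indep hn F hj hk x (-1) 1]
  apply tc_word
  rw [hy]
  congr 2
  funext z
  have h0 : (-1 : ZMod (2 * j + 1)) + ((1 : ℕ) : ZMod (2 * j + 1)) = 0 := by push_cast; ring
  rw [h0, zero_add]

/-- transport of a word with two beads to another word of the reduced T-cycle -/
theorem lev_tc {u u' : X j} (hk : j + pkn u.1 + 2 = k) (h : cyc u' = cyc u) {x : ZMod (2 * j + 1)} {d : ℕ}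
    {w : X k} (hw : w.1 = ins u'.1 (lf (fun z => (if z = x then 1 else 0) +
      if z = x + (d : ZMod (2 * j + 1)) then 1 else 0))) : ∃ x', cyc w = tc u hk x' d := by
  obtain ⟨i, rfl⟩ := sameCycle_nat (cyc_eq.1 h.symm)
  have e : (fun z : ZMod (2 * j + 1) => (if z - sp u i = x then 1 else 0) +
      if z - sp u i = x + (d : ZMod (2 * j + 1)) then 1 else 0) = (two (x + sp u i) (x + sp u i + d)).1 := by
    funext z
    rw [two_apply]
    have e1 : z - sp u i = x ↔ z = x + sp u i := by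
      constructor
      · intro h; linear_combination h
      · intro h; linear_combination h
    have e2 : z - sp u i = x + d ↔ z = x + sp u i + d := by
      constructor
      · intro h; linear_combination h
      · intro h; linear_combination h
    simp only [e1, e2]
  have hs : j + pkn u.1 + ∑ z : ZMod (2 * j + 1), ((if z - sp u i = x then 1 else 0) +
      if z - sp u i = x + (d : ZMod (2 * j + 1)) then 1 else 0) = k := by
    rw [Finset.sum_congr rfl (fun z _ => congrFun e z), (two (x + sp u i) (x + sp u i + d)).2]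
    exact hk
  refine ⟨x + sp u i, ?_⟩
  rw [cyc_transport u i _ hw hs]
  unfold tc
  congr 1
  exact phi_congr rfl e _ _

/-- the T-cycles `Yc`, `Zc` depend only on the reduced T-cycle -/
theorem same_line (hn : 1 ≤ n) (F F' : ZMod (2 * n + 1) → ℕ) (hj : n + pkn (pwX n).1 + ∑ x, F x = j)
    (hj' : n + pkn (pwX n).1 + ∑ x, F' x = j) (hk : j + pkn (phi (pwX n) F hj).1 + 2 = k)
    (h : cyc (phi (pwX n) F' hj') = cyc (phi (pwX n) F hj)) :
    Yc k n F' = Yc k n F ∧ Zc k n F' = Zc k n F := by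
  have hk' : j + pkn (phi (pwX n) F' hj').1 + 2 = k := by
    have h1 := pkc_cyc (phi (pwX n) F hj)
    have h2 := pkc_cyc (phi (pwX n) F' hj')
    rw [h] at h2
    omega
  constructor
  · obtain ⟨w, hw, hw'⟩ := tc_exists (phi (pwX n) F' hj') hk' 0 0
    obtain ⟨x', e⟩ := lev_tc hk h hw'
    rw [Yc_tc hn F' hj' hk' 0, Yc_tc hn F hj hk x', ← hw, e]
  · obtain ⟨w, hw, hw'⟩ := tc_exists (phi (pwX n) F' hj') hk' 0 1
    obtain ⟨x', e⟩ := lev_tc hk h hw'
    rw [Zc_tc hn F' hj' hk' 0, Zc_tc hn F hj hk x', ← hw, e]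

theorem exists_F (U : Cyc j) (hU : Rd U = ⟨n, cyc (pwX n)⟩) :
    ∃ (F : ZMod (2 * n + 1) → ℕ) (hj : n + pkn (pwX n).1 + ∑ x, F x = j), U = cyc (phi (pwX n) F hj) := by
  obtain ⟨a, h, h1, _⟩ := exists_phi (pwX n) hU
  exact ⟨a, h, h1.symm⟩

/-- a T-cycle with content `(n + 1, 1^b)` -/
theorem red_data (hn : 1 ≤ n) {U : Cyc j} (hU : contc U = {n + 1} + Multiset.replicate b 1) :
    j = n + 1 + b ∧ Rd U = ⟨n, cyc (pwX n)⟩ := by
  have hs := contc_sum U
  rw [hU, Multiset.sum_add, Multiset.sum_singleton, Multiset.sum_replicate, smul_eq_mul, mul_one] at hs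
  refine ⟨hs.symm, ?_⟩
  obtain ⟨i, v, e, w, hw, he, hwe, hR, h1, h2, h3, h4⟩ := exists_over U
  have h5 : e.sum = b := by
    rw [h3, hU, Multiset.count_add, Multiset.count_singleton, Multiset.count_replicate,
      if_neg (by omega), if_pos rfl, zero_add]
  rw [hU, h5] at h4
  have h6 : cont v.1 = {n} := by
    apply map_succ_inj
    rw [Multiset.map_singleton]
    exact (add_right_cancel h4).symm
  have vn : v.1.numNodes = n := by rw [← cont_sum, h6, Multiset.sum_singleton]
  have vi : i = n := by rw [← X_num v, vn]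
  subst vi
  have vh : ht v.1 = v.1.numNodes := by rw [ht_eq, h6, Multiset.sup_singleton, vn]
  have v1 : v = pwX i := by
    apply Subtype.ext
    rw [ht_full vh, vn]
    rfl
  rw [hR, v1]

/-- **the class `(n + 2, 2^b, 1, 1)`** -/
theorem cls_data (hn : 1 ≤ n) {p : Cyc k} (hp : contc p = ({n + 2} + Multiset.replicate b 2) + {1, 1}) :
    n + 4 + 2 * b = k ∧ ∃ U : Cyc (n + 1 + b), Rd p = ⟨n + 1 + b, U⟩ ∧ Rd U = ⟨n, cyc (pwX n)⟩ ∧
      contc U = {n + 1} + Multiset.replicate b 1 := by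
  have hs := contc_sum p
  rw [hp, Multiset.sum_add, Multiset.sum_add, Multiset.sum_singleton, Multiset.sum_replicate,
    smul_eq_mul] at hs
  have h11 : (({1, 1} : Multiset ℕ)).sum = 2 := rfl
  rw [h11] at hs
  refine ⟨by omega, ?_⟩
  obtain ⟨i, v, e, w, hw, he, hwe, hR, h1, h2, h3, h4⟩ := exists_over p
  have h5 : e.sum = 2 := by
    rw [h3, hp, Multiset.count_add, Multiset.count_add, Multiset.count_singleton, Multiset.count_replicate,
      if_neg (by omega), if_neg (by omega)]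
    rfl
  have h6 : cont v.1 = {n + 1} + Multiset.replicate b 1 := by
    apply map_succ_inj
    rw [hp, h5] at h4
    have h7 := add_right_cancel h4
    rw [← h7, Multiset.map_add, Multiset.map_singleton, Multiset.map_replicate]
  have h8 : contc (cyc v) = {n + 1} + Multiset.replicate b 1 := h6
  obtain ⟨h9, h10⟩ := red_data hn h8
  subst h9
  exact ⟨cyc v, hR, h10, h8⟩

/-- the class of one soliton is determined by the content -/
theorem cl_one (hn : 1 ≤ n) {p q : Cyc k} (hp : contc p = ({n + 2} + Multiset.replicate b 2) + {1, 1})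
    (hq : contc q = contc p) : cl q = cl p := by
  obtain ⟨_, U, h1, h2, _⟩ := cls_data hn hp
  obtain ⟨_, U', h1', h2', _⟩ := cls_data hn (hq.trans hp)
  unfold cl
  rw [hq, h1, h1']
  change (Rd U', _) = (Rd U, _)
  rw [h2, h2']

theorem cl_contc {p q : Cyc k} (h : cl q = cl p) : contc q = contc p := congrArg Prod.snd h

/-- the members of the groups in the class `(n + 2, 2^b, 1, 1)` -/
theorem TyH.pair (hn : 1 ≤ n) {F : Set (Cyc k)} {g : DG k} (h : TyH F g) {c : Cyc k} (hc : c ∈ F)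
    (h2 : contc c = ({n + 2} + Multiset.replicate b 2) + {1, 1}) :
    ∃ f : ZMod (2 * n + 1) → ℕ, ∑ z, f z = b ∧ (c = Yc k n f ∨ c = Zc k n f) ∧
      Yc k n f ∈ F ∧ Zc k n f ∈ F := by
  have hk := (cls_data hn h2).1
  have hht : htc c = n + 2 := by
    unfold htc
    rw [h2, sup_two hn]
  obtain ⟨n', a', hn', ha', hk', h3⟩ := h.cls
  rcases h3 c hc with h4 | ⟨f, h4, h5, h6, h7⟩
  · have h8 := congrArg (Multiset.count 1) h4
    rw [h2, Multiset.count_add, Multiset.count_add, Multiset.count_add, Multiset.count_singleton,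
      Multiset.count_singleton, Multiset.count_replicate, Multiset.count_replicate,
      if_neg (by omega), if_neg (by omega), if_neg (by omega), if_neg (by omega)] at h8
    exact absurd h8 (by decide)
  · have hkf : n' + 4 + 2 * ∑ z, f z = k := by omega
    have h8 : htc c = n' + 2 := by
      rcases h5 with rfl | rfl
      · exact htc_Yc hn' hkf
      · exact htc_Zc hn' hkf
    have h9 : n' = n := by omega
    subst h9
    exact ⟨f, by omega, h5, h6, h7⟩

/-- what the groups take from one family -/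
theorem TyH.fam (hn : 1 ≤ n) (F : ZMod (2 * n + 1) → ℕ) (hF : ∑ x, F x = b)
    (hj : n + pkn (pwX n).1 + ∑ x, F x = j)
    (hk : j + pkn (phi (pwX n) F hj).1 + 2 = k) :
    (∀ c : Cyc k, Rd c = ⟨j, cyc (phi (pwX n) F hj)⟩ → ¬ ∃ S g, TyH S g ∧ c ∈ S) ∨
    ∀ c : Cyc k, Rd c = ⟨j, cyc (phi (pwX n) F hj)⟩ →
      ((∃ S g, TyH S g ∧ c ∈ S) ↔ c = Yc k n F ∨ c = Zc k n F) := by
  have hY : Rd (Yc k n F) = ⟨j, cyc (phi (pwX n) F hj)⟩ := by
    rw [Yc_tc hn F hj hk 0]
    exact Rd_tc _ hk 0 0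
  have hkF := k_of hn F hj hk
  have hcY := contc_Yc hn hkF
  -- a member in a group
  have key : ∀ c : Cyc k, Rd c = ⟨j, cyc (phi (pwX n) F hj)⟩ → ∀ S g, TyH S g → c ∈ S →
      (c = Yc k n F ∨ c = Zc k n F) ∧ Yc k n F ∈ S ∧ Zc k n F ∈ S := by
    intro c hc S g hS hcS
    have h1 : contc c = ({n + 2} + Multiset.replicate b 2) + {1, 1} := by
      rw [Rd_contc (hc.trans hY.symm), hcY, hF]
    obtain ⟨f, f1, f2, f3, f4⟩ := hS.pair hn hcS h1
    have hj' : n + pkn (pwX n).1 + ∑ x, f x = j := by rw [f1, ← hF]; exact hj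
    have hk' : j + pkn (phi (pwX n) f hj').1 + 2 = k := k_of' hn f hj' (by rw [f1, ← hF]; exact hkF)
    have h3 : Rd c = ⟨j, cyc (phi (pwX n) f hj')⟩ := by
      rcases f2 with rfl | rfl
      · rw [Yc_tc hn f hj' hk' 0]
        exact Rd_tc _ hk' 0 0
      · rw [Zc_tc hn f hj' hk' 0]
        exact Rd_tc _ hk' 0 1
    rw [hc] at h3
    have h4 : cyc (phi (pwX n) f hj') = cyc (phi (pwX n) F hj) :=
      (eq_of_heq (Sigma.mk.inj_iff.1 h3).2).symm
    obtain ⟨e1, e2⟩ := same_line hn F f hj hj' hk h4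
    rw [e1] at f2 f3
    rw [e2] at f2 f4
    exact ⟨f2, f3, f4⟩
  by_cases h : ∃ S g, TyH S g ∧ Yc k n F ∈ S
  · right
    obtain ⟨S, g, hS, hYS⟩ := h
    obtain ⟨_, _, hZS⟩ := key _ hY S g hS hYS
    intro c hc
    constructor
    · rintro ⟨S', g', hS', hc'⟩
      exact (key c hc S' g' hS' hc').1
    · rintro (rfl | rfl)
      · exact ⟨S, g, hS, hYS⟩
      · exact ⟨S, g, hS, hZS⟩
  · left
    rintro c hc ⟨S, g, hS, hcS⟩
    exact h ⟨S, g, hS, (key c hc S g hS hcS).2.1⟩

end Hole2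

end Pool.OddHC
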