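import Pool.Agent.Work.MP_8f87b2_h40.H2h

/-!
# MP_8f87b2_co, HOLE 2: a word of level 2

`levTwo_of`: the T-cycle of the word `inf P () (()) () inf Q` has two beads at the distance 2.
-/

set_option autoImplicit false

namespace Pool.OddHC

open Finset BinaryTree

variable {k : ℕ}

namespace Hole2

theorem two_getD (p q z : ℕ) :
    (List.replicate (2 * p) 0 ++ 1 :: 0 :: 1 :: List.replicate (2 * q) 0).getD z 0 =
      (if z = 2 * p then 1 else 0) + if z = 2 * p + 2 then 1 else 0 := by
  by_cases h : z < 2 * p
  · rw [List.getD_append _ _ _ _ (by simpa using h), List.getD_replicate _ h, if_neg (by omega),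
      if_neg (by omega)]
  · rw [List.getD_append_right _ _ _ _ (by simp; omega), List.length_replicate]
    obtain ⟨t, ht⟩ : ∃ t, z = 2 * p + t := ⟨z - 2 * p, by omega⟩
    subst ht
    rw [Nat.add_sub_cancel_left]
    rcases t with _ | _ | _ | t
    · simp
    · simp
    · simp
    · rw [List.getD_cons_succ, List.getD_cons_succ, List.getD_cons_succ, if_neg (by omega),
        if_neg (by omega)]
      by_cases h2 : t < 2 * q
      · rw [List.getD_replicate _ h2]
      · rw [List.getD_eq_default]
        simpa using h2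

/-- beads in the last gap -/
theorem ins_end (m : ℕ) (P : BinaryTree Unit) :
    ins P (List.replicate (2 * P.numNodes) 0 ++ [m]) = app (inf P) (lv m .nil) := by
  induction P with
  | nil => rfl
  | node _ A B _ ih =>
    have e1 : (BinaryTree.node () A B).numNodes = A.numNodes + B.numNodes + 1 := rfl
    have e2 : List.replicate (2 * (BinaryTree.node () A B).numNodes) 0 ++ [m] =
        0 :: (List.replicate (2 * A.numNodes + 1) 0 ++ (List.replicate (2 * B.numNodes) 0 ++ [m])) := by
      rw [← List.append_assoc, List.replicate_append_replicate, e1, ← List.cons_append,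
        ← List.replicate_succ]
      congr 2
      ring
    rw [e2, ins, List.headD_cons, List.tail_cons, List.take_left' List.length_replicate]
    have e3 : List.drop (2 * A.numNodes + 2) (0 :: (List.replicate (2 * A.numNodes + 1) 0 ++
        (List.replicate (2 * B.numNodes) 0 ++ [m]))) = List.replicate (2 * B.numNodes) 0 ++ [m] := by
      rw [List.drop_succ_cons, List.drop_left' List.length_replicate]
    rw [e3, ih]
    have e4 := ins_bump A 0
    rw [lv] at e4
    rw [List.replicate_succ (n := 2 * A.numNodes), e4, lv]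
    change _ = app (inf (A △ B)) (lv m .nil)
    rw [inf_node]
    rfl

/-- **a word of level 2** -/
theorem levTwo_of (P Q : BinaryTree Unit) {w : X k}
    (hw : w.1 = app (inf P) (.nil △ ((.nil △ .nil) △ (.nil △ inf Q))))
    (h : 1 ≤ P.numNodes + Q.numNodes) : LevTwo (cyc w) := by
  obtain ⟨j, hj⟩ : ∃ j, j = P.numNodes + 1 + Q.numNodes := ⟨_, rfl⟩
  have hn : (app P (.nil △ Q)).numNodes = j := by
    rw [num_app]
    change P.numNodes + (0 + Q.numNodes + 1) = j
    omega
  obtain ⟨u, hu⟩ : ∃ u : X j, u.1 = app P (.nil △ Q) := ⟨⟨_, mem_treesOfNumNodesEq.2 hn⟩, rfl⟩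
  have he : (List.replicate (2 * P.numNodes) 0 ++ 1 :: 0 :: 1 :: List.replicate (2 * Q.numNodes) 0).length
      = 2 * j + 1 := by
    rw [List.length_append, List.length_cons, List.length_cons, List.length_cons, List.length_replicate,
      List.length_replicate]
    omega
  have h1 : w.1 = ins u.1 (List.replicate (2 * P.numNodes) 0 ++ 1 :: 0 :: 1 ::
      List.replicate (2 * Q.numNodes) 0) := by
    have e1 : List.replicate (2 * P.numNodes) 0 ++ 1 :: 0 :: 1 :: List.replicate (2 * Q.numNodes) 0 =
        (List.replicate (2 * P.numNodes) 0 ++ [1]) ++ (0 :: 1 :: List.replicate (2 * Q.numNodes) 0) := by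
      simp
    have e3 : ins Q (1 :: List.replicate (2 * Q.numNodes) 0) = .nil △ inf Q := by
      rw [ins_lv]
      rfl
    have e4 : ins (.nil △ Q) (0 :: (0 :: 1 :: List.replicate (2 * Q.numNodes) 0)) =
        (.nil △ .nil) △ ins Q (1 :: List.replicate (2 * Q.numNodes) 0) := rfl
    rw [hw, hu, e1, ins_app _ _ _ _ (by simp), ins_end, app_assoc', e4, e3]
    rfl
  refine ⟨j, u, ((2 * P.numNodes : ℕ) : ZMod (2 * j + 1)), 2, w, le_rfl, by omega, rfl, rfl, ?_⟩
  rw [h1]
  congr 1
  apply lf_of_getD he
  intro z
  rw [two_getD]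
  have e5 : ((2 * P.numNodes : ℕ) : ZMod (2 * j + 1)) + ((2 : ℕ) : ZMod (2 * j + 1)) =
      ((2 * P.numNodes + 2 : ℕ) : ZMod (2 * j + 1)) := by push_cast; ring
  rw [e5]
  simp only [val_eq_iff z (show 2 * P.numNodes < 2 * j + 1 by omega),
    val_eq_iff z (show 2 * P.numNodes + 2 < 2 * j + 1 by omega)]

end Hole2

end Pool.OddHC
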