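import Pool.Agent.Work.MP_8f87b2_h40.H3a
import Pool.Agent.Work.MP_8f87b2_h86.RemCC
import Pool.Agent.Work.MP_8f87b2_h58.Late2

/-!
# MP_8f87b2_co: the classes `(n + 2, 2^a, 1^3)`, one soliton

`CCg k n`: the pairs `{C, C'}`, `C = {x, x+1, x+2}`, `C' = {x, x+1, x+3}`. `tyL_dbl`: an L pair whose members have two beads
in one gap. `cls_m3`: the class, the pairs `{C, C'}` are groups, at most one guest, which is no `C`, `C'`.
-/

set_option autoImplicit false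

namespace Pool.OddHC

open Finset Equiv BinaryTree Multiset Pool.OddHop Pool.Agent.Work.MP_8f87b2_co

variable {k n a b i j m : ℕ}

/-- two beads in one gap -/
def Dbl (p : Cyc k) : Prop := ∃ w : X k, cyc w = p ∧ H1.DblT w.1

theorem dblT_ins {t : BinaryTree Unit} {e : List ℕ} (he : e.length = 2 * t.numNodes + 1) :
    H1.DblT (ins t e) ↔ ∃ x ∈ e, 2 ≤ x := by
  unfold H1.DblT
  rw [red_ins t e he]

/-- **L-PAIR** over a hop of the reduced cycles, `m ≥ 3`, with two beads in one gap -/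
theorem EData.l_pair_dbl {U U₂ : Cyc j} (hne : U ≠ U₂) {r : X i} {f : ZMod (2 * i + 1) → ℕ}
    (hE : EData U U₂ i r f) {m : ℕ} (hk : j + pkc U + m = k) {e : List ℕ}
    (he : e.length = 2 * (ins r.1 (lf f)).numNodes + 1) (hs : e.sum + 1 = m)
    (h2 : ∃ x ∈ e, 2 ≤ x) :
    ∃ (p q : Cyc k) (g : DG k), Rd p = ⟨j, U⟩ ∧ Rd q = ⟨j, U₂⟩ ∧ Dbl p ∧ Dbl q ∧
      IsTri (lp 1) (ins (ins r.1 (lf f)) e) (lp 1) {p, q} g := by
  obtain ⟨R, hR⟩ : ∃ R, R = ins r.1 (lf f) := ⟨_, rfl⟩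
  have hw := hE.words
  rw [← hR] at hw he ⊢
  have hnum : R.numNodes + 1 = j := by
    have h1 := (ins_num r.1 (lf f) (by rw [lf_length, X_num])).1
    rw [← hR, lf_sum, X_num] at h1
    have := hE.size
    omega
  have hRn : R ≠ .nil := by
    rintro h0
    rw [h0] at hnum
    have h1 := hE.size
    have h2 := hE.hj
    change 0 + 1 = j at hnum
    omega
  obtain ⟨v, hv⟩ : ∃ v : X j, v.1 = .nil △ R := ⟨⟨_, mem_treesOfNumNodesEq.2 (by
    change 0 + R.numNodes + 1 = j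
    omega)⟩, rfl⟩
  obtain ⟨v', hv'⟩ : ∃ v' : X j, v'.1 = app R (.nil △ .nil) := ⟨⟨_, mem_treesOfNumNodesEq.2 (by
    rw [num_app]
    change R.numNodes + 1 = j
    omega)⟩, rfl⟩
  have hcvv : (cyc v = U ∧ cyc v' = U₂) ∨ (cyc v = U₂ ∧ cyc v' = U) := by
    rcases hw with hw | hw
    · exact Or.inl (hw v v' hv hv')
    · exact Or.inr (hw v v' hv hv')
  have hpk : pkn v.1 = pkc U := by
    have h4 : pkn v.1 = pkn v'.1 := by
      rw [← cont_card, ← cont_card, hv, hv', cont_app, cont_node]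
      rw [cont_node, cont_nil, add_zero, add_comm]
    rcases hcvv with ⟨h5, _⟩ | ⟨_, h5⟩
    · rw [← pkc_cyc, h5]
    · rw [h4, ← pkc_cyc, h5]
  obtain ⟨a, b, c, ha, hb, hc, hbe, hce, hb1, hc1, _, _⟩ := lw_words (k := k) hv hv' he
    (p := 1) (q := 1) le_rfl le_rfl (by rw [hpk]; omega)
  have hcb : cyc b ≠ cyc c := by
    intro h
    rw [h, hc1] at hb1
    have h5 := eq_of_heq (Sigma.mk.inj_iff.1 hb1).2
    rcases hcvv with ⟨h6, h7⟩ | ⟨h6, h7⟩
    · rw [h6, h7] at h5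
      exact hne h5
    · rw [h6, h7] at h5
      exact hne h5.symm
  have hhR := ht_ins_ge R e hRn
  have hlp : ht (lp 1) = 1 := rfl
  have hb2 : htc (cyc b) = ht (ins R e) := by
    rw [htc_cyc, hb, ht_w1, hlp]
    omega
  have hc2 : htc (cyc c) = ht (ins R e) := by
    rw [htc_cyc, hc, ht_w1, hlp]
    omega
  have ha2 : htc (cyc a) = ht (ins R e) + 1 := by
    rw [htc_cyc, ha, ht_w1, hlp]
    omega
  have htri : IsTri (lp 1) (ins R e) (lp 1) {cyc b, cyc c} (pDG {a, b, c} (cyc b) (cyc c) ∅) :=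
    ⟨a, b, c, ha, hb, hc, hcb, by rw [hb2, hc2], by rw [hb2, ha2]; omega, rfl, rfl⟩
  obtain ⟨x, hx, hx2⟩ := h2
  have hdb : Dbl (cyc b) := by
    refine ⟨b, rfl, ?_⟩
    rw [hbe]
    refine (dblT_ins ?_).2 ⟨x, List.mem_append_left _ hx, hx2⟩
    rw [X_num, List.length_append, he]
    simp
    omega
  have hdc : Dbl (cyc c) := by
    refine ⟨c, rfl, ?_⟩
    rw [hce]
    refine (dblT_ins ?_).2 ⟨x, List.mem_cons_of_mem _ (List.mem_cons_of_mem _ hx), hx2⟩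
    rw [X_num, List.length_cons, List.length_cons, he]
    omega
  rcases hcvv with ⟨h6, h7⟩ | ⟨h6, h7⟩
  · refine ⟨cyc c, cyc b, pDG {a, b, c} (cyc b) (cyc c) ∅, by rw [hc1, h6], by rw [hb1, h7],
      hdc, hdb, ?_⟩
    rw [Set.pair_comm]
    exact htri
  · exact ⟨cyc b, cyc c, _, by rw [hb1, h7], by rw [hc1, h6], hdb, hdc, htri⟩

/-- **TYPE L EXISTS**, `m ≥ 3`, both members have two beads in one gap -/
theorem tyL_dbl {U U₂ : Cyc j} (hne : U ≠ U₂) (h : HopC U U₂) {m : ℕ} (hm : 3 ≤ m)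
    (hk : j + pkc U + m = k) : ∃ (p q : Cyc k) (g : DG k), Rd p = ⟨j, U⟩ ∧ Rd q = ⟨j, U₂⟩ ∧
      Dbl p ∧ Dbl q ∧ TyL {p, q} g := by
  obtain ⟨i, r, f, hE, -⟩ := h.edata'
  obtain ⟨p, q, g, h1, h2, h3, h3', h4⟩ := hE.l_pair_dbl hne hk
    (e := midL (ins r.1 (lf f)).numNodes (m - 1))
    (midL_length _ _) (by rw [midL_sum]; omega)
    ⟨m - 1, by unfold midL; simp, by omega⟩
  have hnum : (ins r.1 (lf f)).numNodes + 1 = j := by
    have h1 := (ins_num r.1 (lf f) (by rw [lf_length, X_num])).1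
    rw [lf_sum, X_num] at h1
    have := hE.size
    omega
  have hRn : ins r.1 (lf f) ≠ .nil := by
    rintro h0
    rw [h0] at hnum
    have h1 := hE.size
    have h2 := hE.hj
    change 0 + 1 = j at hnum
    omega
  obtain ⟨n, hn⟩ : ∃ n, (ins r.1 (lf f)).numNodes = n + 1 := by
    have h1 := hE.size
    have h2 := hE.hj
    exact ⟨(ins r.1 (lf f)).numNodes - 1, by omega⟩
  refine ⟨p, q, g, h1, h2, h3, h3', _, _, hRn, midL_length _ _, ?_, ?_, h4⟩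
  · apply H1.fb_lv0 hRn (midL_length _ _)
    rw [hn]
    rfl
  · apply H1.lastB_ins hRn (midL_length _ _)
    rw [hn]
    unfold midL
    rw [List.replicate_succ' (n := n)]
    rw [← List.cons_append, ← List.append_assoc, List.getLastD_concat]

namespace Hole2

open J Runs Ring1 Cor

/-- the pairs `{C, C'}` -/
def CCg (k n : ℕ) : Set (Set (Cyc k)) :=
  {F | ∃ (j : ℕ) (u : X j) (x : ZMod (2 * j + 1)) (w w' : X k), Rd (cyc u) = ⟨n, cyc (pwX n)⟩ ∧
    w.1 = ins u.1 (lf (bd3 x (x + 1) (x + 2)).1) ∧ w'.1 = ins u.1 (lf (bd3 x (x + 1) (x + 3)).1) ∧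
    F = {cyc w, cyc w'}}

theorem lf_mem {N : ℕ} [NeZero N] {f : ZMod N → ℕ} {y : ℕ} (h : y ∈ lf f) : ∃ z, f z = y := by
  unfold lf at h
  rw [List.mem_map] at h
  obtain ⟨i, _, rfl⟩ := h
  exact ⟨_, rfl⟩

theorem bd3_le (hj : 2 ≤ j) (x : ZMod (2 * j + 1)) {d : ℕ} (h1 : 2 ≤ d) (h2 : d ≤ 3)
    (z : ZMod (2 * j + 1)) : (bd3 x (x + 1) (x + (d : ZMod (2 * j + 1)))).1 z ≤ 1 := by
  have key : ∀ e : ℕ, 1 ≤ e → e ≤ 3 → (e : ZMod (2 * j + 1)) ≠ 0 := by
    intro e he he' h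
    rw [ZMod.natCast_eq_zero_iff] at h
    have := Nat.le_of_dvd (by omega) h
    omega
  rw [bd3_apply]
  by_cases hx : x = z
  · subst hx
    have e1 : ¬ x + 1 = x := by
      intro h
      apply key 1 le_rfl (by omega)
      push_cast
      linear_combination h
    have e2 : ¬ x + (d : ZMod (2 * j + 1)) = x := by
      intro h
      apply key d (by omega) h2
      linear_combination h
    rw [if_neg e1, if_neg e2, if_pos rfl]
  · rw [if_neg hx]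
    by_cases hy : x + 1 = z
    · have e2 : ¬ x + (d : ZMod (2 * j + 1)) = z := by
        intro h
        obtain ⟨d', rfl⟩ : ∃ d', d = d' + 1 := ⟨d - 1, by omega⟩
        apply key d' (by omega) (by omega)
        push_cast at h
        linear_combination h - hy
      rw [if_neg e2, if_pos hy]
    · rw [if_neg hy]
      split_ifs <;> omega

theorem not_dbl (hj : 2 ≤ j) {u : X j} {x : ZMod (2 * j + 1)} {d : ℕ} (h1 : 2 ≤ d) (h2 : d ≤ 3)
    {w : X k} (hw : w.1 = ins u.1 (lf (bd3 x (x + 1) (x + (d : ZMod (2 * j + 1)))).1)) :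
    ¬ Dbl (cyc w) := by
  rintro ⟨w', h3, h4⟩
  have h5 := H1.dbl_cyc h3 h4
  rw [hw, dblT_ins (by rw [lf_length, X_num])] at h5
  obtain ⟨y, hy, hy2⟩ := h5
  obtain ⟨z, rfl⟩ := lf_mem hy
  have := bd3_le hj x h1 h2 z
  omega

/-- members with two beads in one gap are not in the pairs -/
theorem Dbl.not_cc {c : Cyc k} (h : Dbl c) {F : Set (Cyc k)} (hF : F ∈ CCg k n)
    (hc : 2 ≤ (Rd c).1) : c ∉ F := by
  obtain ⟨j, u, x, w, w', hu, hw, hw', rfl⟩ := hF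
  rintro (rfl | rfl)
  · rw [Rd_ins (lf_length _) hw] at hc
    change 2 ≤ j at hc
    refine not_dbl (k := k) (j := j) hc (u := u) (d := 2) le_rfl (by omega) (x := x) ?_ h
    rw [hw]
    push_cast
    rfl
  · rw [Rd_ins (lf_length _) hw'] at hc
    change 2 ≤ j at hc
    refine not_dbl (k := k) (j := j) hc (u := u) (d := 3) (by omega) le_rfl (x := x) ?_ h
    rw [hw']
    push_cast
    rfl

/-- a word over a reduced T-cycle of one soliton, all phases and all rotations -/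
theorem word_indep (hn : 1 ≤ n) (F : ZMod (2 * n + 1) → ℕ) (hj : n + pkn (pwX n).1 + ∑ x, F x = j)
    {u' : X j} (hu : cyc u' = cyc (phi (pwX n) F hj)) {g : ZMod (2 * j + 1) → ℕ} {w w₂ : X k}
    (hw : w.1 = ins u'.1 (lf g)) (c : ZMod (2 * j + 1))
    (hw₂ : w₂.1 = ins (phi (pwX n) F hj).1 (lf fun z => g (z + c))) : cyc w = cyc w₂ := by
  obtain ⟨i, rfl⟩ := sameCycle_nat (cyc_eq.1 hu.symm)
  have h1 := word_phi hw₂
  have h2 : j + pkn (phi (pwX n) F hj).1 + ∑ z, g (z - sp (phi (pwX n) F hj) i) = k := by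
    have e1 := sum_shift g (-sp (phi (pwX n) F hj) i)
    have e2 := sum_shift g c
    simp only [← sub_eq_add_neg] at e1
    omega
  rw [cyc_transport _ i g hw h2]
  have h3 := same_rot hn F hj (fun z => g (z - sp (phi (pwX n) F hj) i)) h2
    (sp (phi (pwX n) F hj) i + c)
  rw [cyc_eq.2 h3]
  congr 1
  apply Subtype.ext
  rw [hw₂]
  change ins (phi (pwX n) F hj).1 (lf _) = _
  congr 2
  funext z
  congr 1
  ring

theorem bd3_shift (x : ZMod (2 * j + 1)) (d : ZMod (2 * j + 1)) (c : ZMod (2 * j + 1)) :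
    (bd3 (x - c) (x - c + 1) (x - c + d)).1 = fun z => (bd3 x (x + 1) (x + d)).1 (z + c) := by
  funext z
  rw [bd3_apply, bd3_apply]
  have e1 : x - c = z ↔ x = z + c := by
    constructor
    · intro h; linear_combination h
    · intro h; linear_combination h
  have e2 : x - c + 1 = z ↔ x + 1 = z + c := by
    constructor
    · intro h; linear_combination h
    · intro h; linear_combination h
  have e3 : x - c + d = z ↔ x + d = z + c := by
    constructor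
    · intro h; linear_combination h
    · intro h; linear_combination h
  simp only [e1, e2, e3]

/-- one pair over every reduced T-cycle -/
theorem cc_one (hn : 1 ≤ n) (F : ZMod (2 * n + 1) → ℕ) (hj : n + pkn (pwX n).1 + ∑ x, F x = j)
    {y : ZMod (2 * j + 1)} {c c' : X k}
    (hc : c.1 = ins (phi (pwX n) F hj).1 (lf (bd3 y (y + 1) (y + 2)).1))
    (hc' : c'.1 = ins (phi (pwX n) F hj).1 (lf (bd3 y (y + 1) (y + 3)).1))
    {S : Set (Cyc k)} (hS : S ∈ CCg k n) {p : Cyc k} (hp : p ∈ S)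
    (hR : Rd p = ⟨j, cyc (phi (pwX n) F hj)⟩) : S = {cyc c, cyc c'} := by
  obtain ⟨j', u, x, w, w', hu, hw, hw', rfl⟩ := hS
  have h1 : Rd p = ⟨j', cyc u⟩ := by
    rcases hp with rfl | rfl
    · exact Rd_ins (lf_length _) hw
    · exact Rd_ins (lf_length _) hw'
  rw [hR] at h1
  obtain ⟨rfl, h2⟩ := Sigma.mk.inj_iff.1 h1
  have h3 := (eq_of_heq h2).symm
  have e1 : cyc w = cyc c := by
    refine word_indep hn F hj h3 hw (x - y) ?_
    rw [hc, ← bd3_shift, sub_sub_cancel]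
  have e2 : cyc w' = cyc c' := by
    refine word_indep hn F hj h3 hw' (x - y) ?_
    rw [hc', ← bd3_shift, sub_sub_cancel]
  rw [e1, e2]

section
variable {τp τw : Type} {Pp : τp → Set (Cyc k) → DG k → Prop} {Pw : τw → Set (Cyc k) → DG k → Prop}
  {AE : Cyc k → Cyc k → Prop}

/-- **THE CLASS `(n + 2, 2^a, 1^3)`** -/
theorem cls_m3 (hn : 1 ≤ n) (hj6 : 6 ≤ n + 1 + a) {p0 : Cyc k}
    (hp0 : contc p0 = ({n + 2} + Multiset.replicate a 2) + Multiset.replicate 3 1)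
    (e : ∀ p q : Cyc k, cl p = cl p0 → cl q = cl p0 → (∀ F ∈ CCg k n, p ∉ F ∧ q ∉ F) → p ≠ q →
      HopC p q → AE p q)
    (l : ∀ p q g, cl p = cl p0 → cl q = cl p0 → (∀ F ∈ CCg k n, p ∉ F ∧ q ∉ F) → TyL {p, q} g →
      Typd Pp Pw {p, q})
    (hC : ∀ F ∈ CCg k n, (∀ c ∈ F, cl c = cl p0) → ∃ t g, Pp t F g)
    (X D : Set (Cyc k)) (hX : ∀ c, cl c = cl p0 → (c ∈ X ↔ c ∈ D))
    (hD : (D = ∅ ∧ ¬ (oddF n a ∧ oddF (n + 1 + a) 3)) ∨
      ∃ z, D = {z} ∧ (oddF n a ∧ oddF (n + 1 + a) 3) ∧ cl z = cl p0 ∧ (∀ F ∈ CCg k n, z ∉ F) ∧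
        (a = 2 → ∀ U : Cyc (n + 1 + a), Rd z = ⟨n + 1 + a, U⟩ → IsTwo U)) :
    ∃ Gp Gw, ClsOK AE (cl p0) X Gp Gw Pp Pw := by
  obtain ⟨hk0, U1, hp1, hU1, hcU1⟩ := cls_dataM hn hp0
  have hpk : pkc U1 = a + 1 := by
    unfold pkc
    rw [hcU1, Multiset.card_add, Multiset.card_singleton, Multiset.card_replicate, add_comm]
  have hkU : n + 1 + a + pkc U1 + 3 = k := by omega
  obtain ⟨G0, hG0⟩ : ∃ G0 : Set (Set (Cyc k)), G0 = {F | F ∈ CCg k n ∧ ∀ c ∈ F, cl c = cl p0} := ⟨_, rfl⟩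
  have mG : ∀ F, F ∈ G0 ↔ F ∈ CCg k n ∧ ∀ c ∈ F, cl c = cl p0 := by
    intro F
    rw [hG0]
    exact Iff.rfl
  -- members of the class over U
  have clU : ∀ c : Cyc k, cl c = cl p0 → ∃ U : Cyc (n + 1 + a), Rd c = ⟨n + 1 + a, U⟩ ∧
      Rd U = ⟨n, cyc (pwX n)⟩ := by
    intro c hc
    obtain ⟨_, U, h1, h2, _⟩ := cls_dataM hn ((cl_contc hc).trans hp0)
    exact ⟨U, h1, h2⟩
  -- the pair over U
  have pr : ∀ U : Cyc (n + 1 + a), Rd U = ⟨n, cyc (pwX n)⟩ → ∃ (u : OddHC.X (n + 1 + a))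
      (w w' : OddHC.X k), cyc u = U ∧ (1 : ZMod (2 * (n + 1 + a) + 1)) ∈ rotGrp u ∧
        w.1 = ins u.1 (lf (bd3 (0 : ZMod (2 * (n + 1 + a) + 1)) (0 + 1) (0 + 2)).1) ∧
        w'.1 = ins u.1 (lf (bd3 (0 : ZMod (2 * (n + 1 + a) + 1)) (0 + 1) (0 + 3)).1) ∧
        ({cyc w, cyc w'} : Set (Cyc k)) ∈ G0 ∧ ∀ c, Rd c = ⟨n + 1 + a, U⟩ → ∀ F ∈ CCg k n, c ∈ F →
          F = {cyc w, cyc w'} := by
    intro U hU
    obtain ⟨_, _, F, hF, hj, rfl⟩ := cls_fam hn hU1 hcU1 (hU.trans hU1.symm)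
    have hpk' : pkn (phi (pwX n) F hj).1 = a + 1 := by
      rw [← pkc_cyc, pkc_Rd (hU.trans hU1.symm), hpk]
    have s1 : ∀ y : Ms (2 * (n + 1 + a) + 1) 3, n + 1 + a + pkn (phi (pwX n) F hj).1 + ∑ x, y.1 x = k := by
      intro y
      rw [y.2, hpk']
      omega
    refine ⟨phi (pwX n) F hj, phi _ (bd3 0 (0 + 1) (0 + 2)).1 (s1 _), phi _ (bd3 0 (0 + 1) (0 + 3)).1 (s1 _),
      rfl, one_rot hn F hj, rfl, rfl, ?_, ?_⟩
    · rw [mG]
      refine ⟨⟨_, phi (pwX n) F hj, 0, _, _, hU, rfl, rfl, rfl⟩, ?_⟩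
      rintro c (rfl | rfl)
      · exact cl_same hp1 (Rd_ins (lf_length _) rfl) (hU.trans hU1.symm)
      · exact cl_same hp1 (Rd_ins (lf_length _) rfl) (hU.trans hU1.symm)
    · intro c hc S hS hcS
      exact cc_one hn F hj rfl rfl hS hcS hc
  have hinG : ∀ U : Cyc (n + 1 + a), Rd U = ⟨n, cyc (pwX n)⟩ → ∀ c : Cyc k, Rd c = ⟨n + 1 + a, U⟩ →
      ∀ u (w w' : OddHC.X k), cyc u = U → (({cyc w, cyc w'} : Set (Cyc k)) ∈ G0) →
      (∀ c, Rd c = ⟨n + 1 + a, cyc u⟩ → ∀ F ∈ CCg k n, c ∈ F → F = {cyc w, cyc w'}) →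
      (c ∈ inG G0 ↔ c ∈ ({cyc w, cyc w'} : Set (Cyc k))) := by
    rintro U hU c hc u w w' rfl h1 h2
    constructor
    · rintro ⟨F, hF, hcF⟩
      rw [← h2 c hc F ((mG F).1 hF).1 hcF]
      exact hcF
    · intro h
      exact ⟨_, h1, h⟩
  -- not in the pairs
  have nG : ∀ c : Cyc k, (∀ F ∈ CCg k n, c ∉ F) → c ∉ inG G0 := by
    rintro c h ⟨F, hF, hcF⟩
    exact h F ((mG F).1 hF).1 hcF
  have nC : ∀ c : Cyc k, cl c = cl p0 → c ∉ inG G0 → ∀ F ∈ CCg k n, c ∉ F := by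
    intro c hc h F hF hcF
    obtain ⟨U, h1, h2⟩ := clU c hc
    obtain ⟨u, w, w', hu, _, _, _, h3, h4⟩ := pr U h2
    apply h
    rw [h4 c h1 F hF hcF] at hcF
    exact ⟨_, h3, hcF⟩
  have hcnt : ∀ U : Cyc (n + 1 + a), Rd U = ⟨n, cyc (pwX n)⟩ → ∀ p : Cyc k, Rd p = ⟨n + 1 + a, U⟩ →
      (contc p).count 1 = 3 := fun U hU p hp => count_class hp1 hkU hp (hU.trans hU1.symm)
  -- the removal sets
  have odd : oddF (n + 1 + a) 3 → ∀ (U : Cyc (n + 1 + a)) (p : Cyc k), Rd U = ⟨n, cyc (pwX n)⟩ →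
      Rd p = ⟨n + 1 + a, U⟩ → p ∉ inG G0 → RemOK ⟨n + 1 + a, U⟩ ({p} ∪ inG G0) := by
    intro h U p hU hp hpG
    obtain ⟨u, w, w', rfl, hr, hw, hw', h3, h4⟩ := pr U hU
    have h5 := (hinG _ hU p hp u w w' rfl h3 h4).not.1 hpG
    refine (rem_cc_odd hj6 hr hw hw' h hp (fun h6 => h5 (Or.inl h6)) (fun h6 => h5 (Or.inr h6))).congr
      fun c hc => ?_
    have h6 := hinG _ hU c hc u w w' rfl h3 h4
    constructor
    · rintro (h7 | h7)
      · exact Or.inl h7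
      · exact Or.inr (h6.2 h7)
    · rintro (h7 | h7)
      · exact Or.inl h7
      · exact Or.inr (h6.1 h7)
  have main : ∃ Gp Gw, ClsOK AE (cl p0) (X ∪ inG G0) Gp Gw Pp Pw := by
    refine cls_gen hn hp0 (QL := fun p => p ∉ inG G0) (X ∪ inG G0) (inG G0) D ?_ ?_ ?_ ?_ ?_ ?_
    · intro p q hp hq hpG hqG hne hop
      exact e p q hp hq (fun F hF => ⟨nC p hp hpG F hF, nC q hq hqG F hF⟩) hne hop
    · intro U U₂ hU hU₂ hne hop
      obtain ⟨p, q, g, hp, hq, hdp, hdq, hLg⟩ := tyL_dbl (k := k) hne hop (m := 3) le_rfl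
        (by rw [pkc_Rd (hU.trans hU1.symm)]; exact hkU)
      have np : ∀ F ∈ CCg k n, p ∉ F := fun F hF => Dbl.not_cc hdp hF (by rw [hp]; change 2 ≤ n + 1 + a; omega)
      have nq : ∀ F ∈ CCg k n, q ∉ F := fun F hF => Dbl.not_cc hdq hF (by rw [hq]; change 2 ≤ n + 1 + a; omega)
      exact ⟨p, q, hp, hq, nG p np, nG q nq, l p q g (cl_same hp1 hp (hU.trans hU1.symm))
        (cl_same hp1 hq (hU₂.trans hU1.symm)) (fun F hF => ⟨np F hF, nq F hF⟩) hLg⟩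
    · intro c hc
      constructor
      · rintro (h | h)
        · exact Or.inr ((hX c hc).1 h)
        · exact Or.inl h
      · rintro (h | h)
        · exact Or.inr h
        · exact Or.inl ((hX c hc).2 h)
    · rcases hD with h | ⟨z, h1, h2, h3, h4, h5⟩
      · exact Or.inl h
      · refine Or.inr ⟨z, h1, h2, h3, h5, fun U hU => ?_⟩
        have h6 : Rd U = ⟨n, cyc (pwX n)⟩ := by
          have h6 := (cl_iff.1 h3).2
          rw [hU, hp1] at h6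
          exact h6.trans hU1
        exact odd h2.2 U z h6 hU (nG z h4)
    · intro h U hU
      obtain ⟨u, w, w', rfl, hr, hw, hw', h3, h4⟩ := pr U hU
      refine (rem_cc_even hj6 hr hw hw' h).congr fun c hc => ?_
      exact (hinG _ hU c hc u w w' rfl h3 h4).symm
    · intro h U p hU hp hQ
      exact ⟨hQ, odd h U p hU hp hQ⟩
  obtain ⟨Gp, Gw, h⟩ := main
  refine ⟨_, _, h.add ?_ ?_ ?_ ?_⟩
  · intro F hF
    obtain ⟨j, u, x, w, w', _, _, _, rfl⟩ := ((mG F).1 hF).1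
    exact ⟨cyc w, Or.inl rfl⟩
  · intro F hF c hc
    refine ⟨((mG F).1 hF).2 c hc, fun h6 => ?_⟩
    have h7 := (hX c (((mG F).1 hF).2 c hc)).1 h6
    rcases hD with ⟨rfl, _⟩ | ⟨z, rfl, _, _, h4, _⟩
    · exact h7
    · rw [Set.mem_singleton_iff] at h7
      subst h7
      exact h4 F ((mG F).1 hF).1 hc
  · intro F hF F' hF' c hc hc'
    obtain ⟨U, h1, h2⟩ := clU c (((mG F).1 hF).2 c hc)
    obtain ⟨u, w, w', _, _, _, _, _, h4⟩ := pr U h2
    rw [h4 c h1 F ((mG F).1 hF).1 hc, h4 c h1 F' ((mG F').1 hF').1 hc']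
  · intro F hF
    exact hC F ((mG F).1 hF).1 ((mG F).1 hF).2

end

end Hole2

end Pool.OddHC
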