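import Pool.Agent.Work.MP_8f87b2_h40.HCl
import Pool.Agent.Work.MP_8f87b2_h25.MatIJV

/-!
# MP_8f87b2_co: E against the gadgets of `(s, 2^a)`, `a = 2` included

`two_cyc`: `[3][s]()` and `()[3][s]` are on the same T-cycle (`s ≥ 4`), so there is no E group over `[3][s]`.
-/

set_option autoImplicit false
set_option linter.unusedSimpArgs false

namespace Pool.OddHC

open Finset Equiv BinaryTree Pool.Agent.Work.MP_8f87b2_co

namespace J

variable {k n : ℕ}

/-- `X()` and `()X` are on the same T-cycle if `X = inf (inf u)`, `u` over one soliton -/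
theorem inf2_cyc {m : ℕ} (hm : 1 ≤ m) (G : ZMod (2 * m + 1) → ℕ) {W : BinaryTree Unit}
    (hW : W = inf (ins (H1.ch m) (lf G))) {b c : X k}
    (hb : b.1 = app (inf W) (.nil △ .nil)) (hc : c.1 = .nil △ inf W) :
    cyc b = cyc c := by
  obtain ⟨u, hu⟩ : ∃ u : X (m + 1 + ∑ x, G x), u = phi (pwX m) G (Ring1.low_word hm G) := ⟨_, rfl⟩
  have hu1 : u.1 = ins (H1.ch m) (lf G) := by
    rw [hu, Ring1.ch_eq]; rfl
  obtain ⟨j, hj⟩ : ∃ j, j = W.numNodes := ⟨_, rfl⟩
  have hw0 : W ∈ treesOfNumNodesEq j := mem_treesOfNumNodesEq.2 hj.symm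
  obtain ⟨w, hw⟩ : ∃ w : X j, w.1 = W := ⟨⟨W, hw0⟩, rfl⟩
  have hwu : w.1 = inf u.1 := by rw [hw, hW, hu1]
  have hRF : inf W = ins w.1 (lf fun _ : ZMod (2 * j + 1) => 0) := by
    rw [lf_zero, hw, hj]
    rfl
  have hb' := ins_back w (fun _ => 0)
  have hc' := ins_front w (fun _ => 0)
  rw [← hRF] at hb' hc'
  have hk : j + pkn w.1 +
      ∑ x : ZMod (2 * j + 1), ((fun _ => 0) x + if x = 0 then 1 else 0) = k := by
    have h1 := X_num c
    have h2 := (ins_num w.1 (lf fun x : ZMod (2 * j + 1) => 0 + if x = 0 then 1 else 0)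
      (by rw [lf_length, X_num])).1
    rw [hc, ← hc', h2, lf_sum, X_num] at h1
    rw [← h1]
  have hk' : j + pkn w.1 +
      ∑ x : ZMod (2 * j + 1), ((fun _ => 0) x + if x = -1 then 1 else 0) = k := by
    rw [← hk]
    congr 1
    simp
  have eb : b = phi w _ hk' := Subtype.ext (by rw [hb, ← hb']; rfl)
  have ec : c = phi w _ hk := Subtype.ext (by rw [hc, ← hc']; rfl)
  obtain ⟨i, h1, h2⟩ := indep2_all (pwX m) (lf G) (lf_length G) u (by
    rw [hu1, Ring1.ch_eq]; rfl) w hwu 0 1
  have hTu : (TT ^ i) u = u := by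
    rw [hu, pow_phi]
    apply Subtype.ext
    change ins ((TT ^ i) (pwX m)).1 _ = ins (pwX m).1 _
    rw [(sp_pw m hm i).2, h1]
    simp only [add_zero]
  have hju : (m + 1 + ∑ x, G x) + pkn u.1 + ∑ x : ZMod (2 * (m + 1 + ∑ x, G x) + 1), (fun _ => 0) x = j := by
    have h3 := X_num w
    have h4 := (ins_num u.1 (lf fun _ : ZMod (2 * (m + 1 + ∑ x, G x) + 1) => 0) (by rw [lf_length, X_num])).1
    have e : inf u.1 = ins u.1 (lf fun _ : ZMod (2 * (m + 1 + ∑ x, G x) + 1) => 0) := by
      rw [lf_zero]
      unfold inf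
      rw [X_num]
    rw [hwu, e, h4, lf_sum, X_num] at h3
    exact h3
  have ew : w = phi u (fun _ => 0) hju := by
    apply Subtype.ext
    change w.1 = ins u.1 (lf fun _ => 0)
    rw [hwu, lf_zero]
    unfold inf
    rw [X_num]
  have hTw : (TT ^ i) w = w := by
    rw [ew, pow_phi]
    apply Subtype.ext
    change ins ((TT ^ i) u).1 _ = ins u.1 _
    rw [hTu]
  rw [eb, ec, cyc_eq]
  refine Equiv.Perm.SameCycle.symm ⟨(i : ℤ), ?_⟩
  rw [zpow_natCast, pow_phi]
  apply Subtype.ext
  change ins ((TT ^ i) w).1 _ = ins w.1 _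
  rw [hTw, h2]
  congr 2
  funext x
  have : (x + 1 = 0) ↔ (x = -1) := by
    constructor
    · intro h; linear_combination h
    · rintro rfl; ring
  simp only [this]

theorem inf_nil' : inf .nil = .nil := rfl

theorem inf1_nil' : inf1 .nil = l1 := rfl

theorem inf_chs (n : ℕ) : inf (H1.ch (n + 1)) = H1.ch (n + 2) := by
  induction n with
  | zero => rfl
  | succ n ih =>
    change inf (H1.ch (n + 1) △ .nil) = H1.ch (n + 2) △ .nil
    rw [inf_node, inf1_eq (by rintro ⟨⟩), ih]
    rfl

theorem ins_zero (t : BinaryTree Unit) {j : ℕ} (hj : t.numNodes = j) :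
    ins t (lf fun _ : ZMod (2 * j + 1) => 0) = inf t := by
  rw [lf_zero]
  unfold inf
  rw [hj]

/-- `[3][s]()` and `()[3][s]` are on the same T-cycle -/
theorem two_cyc (hn : 2 ≤ n) {b c : X k} (hb : b.1 = app ((l1 △ .nil) △ H1.ch (n + 2)) (.nil △ .nil))
    (hc : c.1 = .nil △ ((l1 △ .nil) △ H1.ch (n + 2))) : cyc b = cyc c := by
  obtain ⟨m, rfl⟩ : ∃ m, n = m + 2 := ⟨n - 2, by omega⟩
  have e1 : ins (H1.ch (m + 1)) (lf fun x : ZMod (2 * (m + 1) + 1) => 0 + if x = 0 then 1 else 0) =
      .nil △ H1.ch (m + 2) := by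
    have h := ins_front (pwX (m + 1)) (fun _ => 0)
    have h0 : (pwX (m + 1)).1 = H1.ch (m + 1) := by rw [Ring1.ch_eq]; rfl
    rw [h0] at h
    rw [h, ins_zero _ (Ring1.ch_num _), inf_chs]
  have e2 : inf (inf (.nil △ H1.ch (m + 2))) = (l1 △ .nil) △ H1.ch (m + 2 + 2) := by
    rw [inf_node, inf1_nil', inf_chs, inf_node, inf_chs, inf1_eq (by rintro ⟨⟩)]
    rfl
  refine inf2_cyc (m := m + 1) (by omega) (fun x => 0 + if x = 0 then 1 else 0) (W := inf (.nil △ H1.ch (m + 2)))
    (by rw [e1]) ?_ ?_
  · rw [e2, hb]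
  · rw [e2, hc]

/-- one square only: `(B')S' = [3][s]` -/
theorem BS_one (hn : 1 ≤ n) {Ψ : ZMod (2 * n + 1) → ℕ} {u t : ℕ} {D : BinaryTree Unit} (ht : 1 ≤ t)
    (e : Ring1.RF n Ψ = RR u D t) (hΨ : ∑ x, Ψ x ≤ 1) : b2 t △ RR u D 0 = (l1 △ .nil) △ H1.ch (n + 2) := by
  have e1 : Ring1.RF n Ψ = app (RR u D 0) (b2 t) := by
    rw [e]
    apply cs_inj
    simp
  have hc := Ring1.cont_RF hn Ψ
  rw [e1, cont_app, cont_b2] at hc
  have h1 := congrArg (Multiset.count 2) hc
  rw [Multiset.count_add, Multiset.count_add, Multiset.count_replicate_self, Multiset.count_replicate_self,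
    Multiset.count_singleton, if_neg (by omega)] at h1
  obtain rfl : t = 1 := by omega
  have h2 : ∑ x, Ψ x = 1 := by omega
  rw [h2] at hc
  have h3 : OddHC.cont (RR u D 0) = {n + 2} := add_right_cancel hc
  obtain ⟨G, h4, h5⟩ := Ring1.exists_RF (n := n) (a := 0) (by omega) (w := RR u D 0) (by
    rw [h3, Multiset.replicate_zero, add_zero])
  have h6 : G = fun _ => 0 := by
    funext x
    exact (Finset.sum_eq_zero_iff.1 h4) x (Finset.mem_univ x)
  have h7 : RR u D 0 = H1.ch (n + 2) := by
    rw [h5, h6]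
    unfold Ring1.RF
    obtain ⟨m, rfl⟩ : ∃ m, n = m + 1 := ⟨n - 1, by omega⟩
    rw [ins_zero _ (Ring1.ch_num _), inf_chs, inf_chs]
  rw [h7]
  rfl

/-- **E against the gadgets of a class**: no common word, if the `E`-group does not contain the T-cycle of `()R()` -/
theorem JG.disj_E2 (hn : 1 ≤ n) {B : Finset (X k)} {P U M : Set (ZMod (2 * n + 1) → ℕ)}
    (h : JG n B P U M) (hP : ∀ Φ ∈ P, 1 ≤ ∑ x, Φ x) (hM : ∀ Ψ ∈ M, 2 ≤ ∑ x, Ψ x ∨ 2 ≤ n)
    {F : Set (Cyc k)} {g : DG k} (hE : TyE F g)
    (hy : ∀ Φ ∈ P, ∀ x : X k, x.1 = pw (Ring1.RF n Φ) 2 → cyc x ∉ F) : ∀ w ∈ B, w ∉ g.B := by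
  obtain ⟨X0, hX0, ht, r, f, hf, rfl, hl⟩ := hE.data
  obtain ⟨a, b, c, ha, hb, hc, h1, h2, h3, rfl, rfl⟩ := ht
  have ha' : a.1 = ins r f △ .nil := ha
  have hb' : b.1 = app (ins r f) (.nil △ .nil) := hb
  have hc' : c.1 = .nil △ ins r f := hc
  intro w hw hwE
  have hwE' : w = a ∨ w = b ∨ w = c := by
    have : w ∈ ({a, b, c} : Finset (X k)) := hwE
    rwa [Finset.mem_insert, Finset.mem_insert, Finset.mem_singleton] at this
  have hX1 : ∀ A : BinaryTree Unit, app (ins r f) (.nil △ .nil) ≠ A △ .nil := by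
    intro A e
    have e1 := congrArg (fun t => (cs t).length) e
    simp only [cs_app, cs_node, cs_nil, List.length_append, List.length_cons, List.length_nil] at e1
    cases h4 : ins r f with
    | nil => exact hX0 h4
    | node _ C D => rw [h4, cs_node'] at e1; simp at e1
  rcases h w hw with ⟨Φ, hΦ, hp⟩ | ⟨G, hG, hu⟩ | ⟨Ψ, hΨ, hm⟩
  · have hS := hP Φ hΦ
    obtain ⟨p, q, D, hD, e, hcs⟩ := pu_cases hn hp
    have key : ∀ x : X k, x.1 = .nil △ app (RR p D q) (.nil △ .nil) → (x = b ∨ x = c) → False := by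
      intro x hx hxb
      refine hy Φ hΦ x (by rw [hx, e]; rfl) ?_
      rcases hxb with rfl | rfl
      · exact Or.inl rfl
      · exact Or.inr rfl
    have hlast : ∀ Z : BinaryTree Unit, app Z (RR p D q) ≠ app (ins r f) (.nil △ .nil) := by
      intro Z
      exact RR_last p D q hD Z _
    rcases hcs with e1 | e1 | e1 | e1 | e1 | e1 | e1 | e1
    · -- R()()
      obtain ⟨A, Y, e2, hA⟩ := RR_first p D q hD (.nil △ (.nil △ .nil))
      rcases hwE' with rfl | rfl | rfl
      · rw [ha', e2] at e1
        have h5 := congrArg (fun t => (cs t).length) (e2.trans e1.symm)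
        simp only [cs_app, cs_RR, cs_node, cs_nil, List.length_append, List.length_cons,
          List.length_nil, List.length_replicate] at h5
        omega
      · rw [hb'] at e1
        have e3 : ins r f = app (RR p D q) (.nil △ .nil) := by
          apply app_right (X := .nil △ .nil)
          rw [e1]
          apply cs_inj
          simp
        exact key c (by rw [hc', e3]) (Or.inr rfl)
      · rw [hc', e2] at e1
        exact hA (node_inj' e1).1.symm
    · -- ()R()
      rcases hwE' with rfl | rfl | rfl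
      · rw [ha'] at e1
        exact hX0 (node_inj' e1).1
      · exact key _ e1 (Or.inl rfl)
      · exact key _ e1 (Or.inr rfl)
    · -- (R())
      rcases hwE' with rfl | rfl | rfl
      · rw [ha'] at e1
        exact key c (by rw [hc', (node_inj' e1).1]) (Or.inr rfl)
      · rw [hb'] at e1
        exact hX1 _ e1
      · rw [hc'] at e1
        obtain ⟨A, Y, e2, hA⟩ := RR_first p D q hD (.nil △ .nil)
        rw [e2] at e1
        have := (node_inj' e1).1
        simp at this
    · -- ()()R
      rcases hwE' with rfl | rfl | rfl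
      · rw [ha'] at e1
        exact hX0 (node_inj' e1).1
      · rw [hb'] at e1
        exact hlast (.nil △ (.nil △ .nil)) e1.symm
      · rw [hc'] at e1
        have e3 := (node_inj' e1).2
        refine key b ?_ (Or.inl rfl)
        rw [hb', e3]
        rfl
    · -- (R)()
      rcases hwE' with rfl | rfl | rfl
      · rw [ha'] at e1
        exact absurd (node_inj' e1).2.symm (by simp)
      · rw [hb'] at e1
        refine not_low_prime hn hS hf hl ?_
        rw [e]
        exact app_right (X := .nil △ .nil) e1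
      · rw [hc'] at e1
        exact absurd (node_inj' e1).1.symm (RR_ne p D q)
    · -- (()R)
      rcases hwE' with rfl | rfl | rfl
      · rw [ha'] at e1
        refine key b ?_ (Or.inl rfl)
        rw [hb', (node_inj' e1).1]
        rfl
      · rw [hb'] at e1
        exact hX1 _ e1
      · rw [hc'] at e1
        exact absurd (node_inj' e1).1.symm (by simp)
    · -- ()(R)
      rcases hwE' with rfl | rfl | rfl
      · rw [ha'] at e1
        exact hX0 (node_inj' e1).1
      · rw [hb'] at e1
        have h5 := congrArg (fun t => (cs t).reverse) e1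
        simp only [cs_app, cs_node, cs_nil, List.reverse_append, List.reverse_cons,
          List.reverse_nil, List.nil_append, List.singleton_append, List.cons_append,
          List.cons.injEq] at h5
        exact RR_ne p D q h5.1.symm
      · rw [hc'] at e1
        refine not_low_prime hn hS hf hl ?_
        rw [e]
        exact (node_inj' e1).2
    · -- ((R))
      rcases hwE' with rfl | rfl | rfl
      · rw [ha'] at e1
        refine not_low_prime hn hS hf hl ?_
        rw [e]
        exact (node_inj' e1).1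
      · rw [hb'] at e1
        exact hX1 _ e1
      · rw [hc'] at e1
        exact absurd (node_inj' e1).1.symm (by simp)
  · -- words of the class
    obtain ⟨h0, hw0⟩ := hu
    obtain ⟨D, hD, e⟩ := RF_shape hn G
    rw [e] at hw0
    obtain ⟨A, Y, e2, hA⟩ := RR_first (G 0) D (G (-1)) hD .nil
    rw [app_nil'] at e2
    rcases hwE' with rfl | rfl | rfl
    · rw [ha'] at hw0
      have h5 := congrArg (fun t => (cs t).length) hw0
      simp only [cs_RR, cs_node, cs_nil, List.length_append, List.length_cons,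
          List.length_nil, List.length_replicate] at h5
      omega
    · rw [hb'] at hw0
      exact RR_last _ D _ hD .nil _ hw0.symm
    · rw [hc', e2] at hw0
      exact hA (node_inj' hw0).1.symm
  · -- mixed words
    have hS := hM Ψ hΨ
    obtain ⟨t, u, D, ht, hD, e, hcs⟩ := mx_cases hm
    have hBS : ∀ X1 : BinaryTree Unit, ins r f = X1 → X1 = app (b2 t) (RR u D 0 △ .nil) → False := by
      intro X1 h5 h6
      obtain ⟨G, hG⟩ := BS_RF hn hD e
      apply h1
      refine one_cyc (m := n + 1) (by omega) G ?_ ?_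
      · rw [hb', h5, h6, hG]
      · rw [hc', h5, h6, hG]
    have hlow : ins r f = b2 t △ RR u D 0 → False := by
      by_cases hS2 : 2 ≤ ∑ x, Ψ x
      · exact not_low_BS hn hS2 ht e hf hl
      · intro h5
        rcases hS with hS | hS
        · exact hS2 hS
        · have h6 := BS_one hn ht e (by omega)
          rw [h6] at h5
          exact h1 (two_cyc hS (by rw [hb', h5]) (by rw [hc', h5]))
    obtain ⟨t, rfl⟩ : ∃ m, t = m + 1 := ⟨t - 1, by omega⟩
    have hDn : D ≠ .nil := fun h => by have := hD.ht; rw [h, OddHC.ht] at this; omega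
    have hRn := RR_ne u D 0
    rcases hcs with e1 | e1 | e1 | e1 | e1 | e1 | e1 | e1 | e1
    · -- S'()()B'
      obtain ⟨A, Y, e2, hA⟩ := RR_first u D 0 hD (.nil △ (.nil △ b2 (t + 1)))
      rcases hwE' with rfl | rfl | rfl
      · rw [ha'] at e1
        have h5 := congrArg (fun t => (cs t).length) e1
        simp only [cs_app, cs_RR, cs_b2, cs_node, cs_nil, List.length_append, List.length_cons,
          List.length_nil, List.length_replicate] at h5
        omega
      · rw [hb'] at e1
        have h5 := congrArg (fun t => (cs t).reverse) e1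
        simp [List.replicate_succ'] at h5
      · rw [hc', e2] at e1
        exact hA (node_inj' e1).1.symm
    · -- ()B'(S')
      rcases hwE' with rfl | rfl | rfl
      · rw [ha'] at e1
        exact hX0 (node_inj' e1).1
      · rw [hb'] at e1
        have h5 := congrArg (fun t => (cs t).reverse) e1
        simp [hRn.symm] at h5
      · rw [hc'] at e1
        exact hBS _ (node_inj' e1).2 rfl
    · -- (()B')S'
      rcases hwE' with rfl | rfl | rfl
      · rw [ha'] at e1
        exact hRn (node_inj' e1).2.symm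
      · rw [hb'] at e1
        exact RR_last u D 0 hD ((.nil △ b2 (t + 1)) △ .nil) _ e1.symm
      · rw [hc'] at e1
        exact absurd (node_inj' e1).1.symm (by simp)
    · -- B'(S'())
      rcases hwE' with rfl | rfl | rfl
      · rw [ha'] at e1
        have h5 := congrArg (fun t => (cs t).length) e1
        simp at h5
      · rw [hb'] at e1
        have h5 := congrArg (fun t => (cs t).reverse) e1
        have h6 : app (RR u D 0) (.nil △ .nil) ≠ .nil := by
          obtain ⟨A, Y, e2, hA⟩ := RR_first u D 0 hD (.nil △ .nil)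
          rw [e2]; simp
        simp [h6.symm] at h5
      · rw [hc'] at e1
        exact absurd (node_inj' e1).1.symm (by simp)
    · -- B'(S')()
      rcases hwE' with rfl | rfl | rfl
      · rw [ha'] at e1
        have h5 := congrArg (fun t => (cs t).length) e1
        simp at h5
      · rw [hb'] at e1
        refine hBS _ ?_ rfl
        apply app_right (X := .nil △ .nil)
        rw [e1]
        apply cs_inj
        simp
      · rw [hc'] at e1
        exact absurd (node_inj' e1).1.symm (by simp)
    · -- ()(B')S'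
      rcases hwE' with rfl | rfl | rfl
      · rw [ha'] at e1
        exact hX0 (node_inj' e1).1
      · rw [hb'] at e1
        exact RR_last u D 0 hD (.nil △ (b2 (t + 1) △ .nil)) _ e1.symm
      · rw [hc'] at e1
        exact hlow (node_inj' e1).2
    · -- (B'(S'))
      rcases hwE' with rfl | rfl | rfl
      · rw [ha'] at e1
        exact hBS _ (node_inj' e1).1 rfl
      · rw [hb'] at e1
        exact hX1 _ e1
      · rw [hc'] at e1
        exact absurd (node_inj' e1).1.symm (by
          have : b2 (t + 1) = l1 △ b2 t := rfl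
          rw [this]; simp [app])
    · -- (B')S'()
      rcases hwE' with rfl | rfl | rfl
      · rw [ha'] at e1
        have h5 := congrArg (fun t => (cs t).length) e1
        simp at h5
      · rw [hb'] at e1
        refine hlow ?_
        apply app_right (X := .nil △ .nil)
        rw [e1]
        apply cs_inj
        simp
      · rw [hc'] at e1
        exact absurd (node_inj' e1).1.symm (by
          have : b2 (t + 1) = l1 △ b2 t := rfl
          rw [this]; simp)
    · -- ((B')S')
      rcases hwE' with rfl | rfl | rfl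
      · rw [ha'] at e1
        exact hlow (node_inj' e1).1
      · rw [hb'] at e1
        exact hX1 _ e1
      · rw [hc'] at e1
        exact absurd (node_inj' e1).1.symm (by simp)

end J

namespace MW

open Hole2

variable {k : ℕ} {F F' : Set (Cyc k)} {g g' : DG k}

/-- E: at least two squares, and the E group is disjoint from the groups of type H -/
def sH_E2 (F F' : Set (Cyc k)) : Prop := (∀ c ∈ F, htc c + 4 ≤ k) ∧ ∀ c ∈ F', c ∉ TYH k

theorem r_H_E2 (hk : 8 ≤ k) (h : TyH F g) (h' : TyE F' g') (hs : sH_E2 F F') : NC g g' := by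
  obtain ⟨hA, hH⟩ := hs
  obtain ⟨n, a, hn, ha, hk', hF, P, U, M, hj, hP, hU, hM, hl⟩ := h.full
  have ha2 : 2 ≤ a := by
    obtain ⟨c, hc⟩ := h.ne
    have h1 := hA c hc
    have h2 := hF c hc
    omega
  refine hj.disj_E2 hn (fun Φ hΦ => ?_) (fun Ψ hΨ => ?_) h' (fun Φ hΦ x hx hc => ?_)
  · have := hP Φ hΦ
    omega
  · have := hM Ψ hΨ
    rcases Nat.lt_or_ge (∑ x, Ψ x) 2 with h3 | h3
    · right
      omega
    · exact Or.inl h3
  · obtain ⟨S, g₁, h1, -, h2⟩ := hl Φ (Or.inl hΦ)
    refine hH _ hc ⟨S, g₁, h1, ?_⟩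
    rw [zc_of hx]
    exact h2

theorem r_H_Ed2 (hk : 8 ≤ k) (h : TyH F g) (h' : TyEd F' g') (hs : sH_E2 F F') : NC g g' :=
  r_H_E2 hk h h'.toE hs

/-- J4 as host -/
theorem i_J4_H2 (h : J1.TyJt F g) (h' : TyH F' g') : NI g g' := by
  obtain ⟨s, hs, hk, -, h2⟩ := h.isJ1M
  obtain ⟨n, hn, P, U, M, hj⟩ := h'.jg
  exact J.J1M.inner_J (s := s) (c := 4) hn le_rfl (by omega) h2 hj

end MW

end Pool.OddHC
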