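import Pool.Agent.Work.MP_8f87b2_h71.H1
import Pool.Agent.Work.MP_8f87b2_end.End

/-!
# MP_8f87b2_co, one soliton, no beads: the words of the pair gadget J2 and of the single absorber

`RR p D t = (())^p (D) (())^t`. Words `W R nil B S i` with `B = (())^t`, `S = (D') (())^t'`. `kn` = the kind of a word.
-/

set_option autoImplicit false

namespace Pool.OddHC

namespace J

open BinaryTree H1

/-! ### Components -/

/-- the insides of the components -/
def cs : BinaryTree Unit → List (BinaryTree Unit)
  | .nil => []
  | .node _ A B => A :: cs B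

@[simp] theorem cs_nil : cs .nil = [] := rfl

@[simp] theorem cs_node (A B : BinaryTree Unit) : cs (A △ B) = A :: cs B := rfl

theorem cs_node' (u : Unit) (A B : BinaryTree Unit) : cs (.node u A B) = A :: cs B := rfl

@[simp] theorem cs_app (P Q : BinaryTree Unit) : cs (app P Q) = cs P ++ cs Q := by
  induction P with
  | nil => rfl
  | node _ A B _ ih => rw [app, cs_node, cs_node, ih, List.cons_append]

theorem cs_inj : ∀ {P Q : BinaryTree Unit}, cs P = cs Q → P = Q := by
  intro P
  induction P with
  | nil =>
    intro Q h
    cases Q with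
    | nil => rfl
    | node _ A B => exact absurd h (by rw [cs_nil, cs_node']; simp)
  | node _ A B _ ih =>
    intro Q h
    cases Q with
    | nil => exact absurd h (by rw [cs_nil, cs_node']; simp)
    | node _ C D =>
      have h' : A :: cs B = C :: cs D := h
      rw [List.cons.injEq] at h'
      rw [h'.1, ih h'.2]

/-- `()` inside: the component `(())` -/
abbrev l1 : BinaryTree Unit := .nil △ .nil

def isN : BinaryTree Unit → Bool
  | .nil => true
  | .node _ _ _ => false

def isL : BinaryTree Unit → Bool
  | .node _ .nil .nil => true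
  | _ => false

@[simp] theorem isN_nil : isN .nil = true := rfl

@[simp] theorem isN_node (A B : BinaryTree Unit) : isN (A △ B) = false := rfl

@[simp] theorem isL_nil : isL .nil = false := rfl

@[simp] theorem isL_l1 : isL l1 = true := rfl

theorem isN_iff {A : BinaryTree Unit} : isN A = true ↔ A = .nil := by
  cases A with
  | nil => simp
  | node _ A B => exact ⟨fun h => absurd h (by rw [isN]; simp), fun h => absurd h (by simp)⟩

theorem isL_iff {A : BinaryTree Unit} : isL A = true ↔ A = l1 := by
  constructor
  · intro h
    match A, h with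
    | .node _ .nil .nil, _ => rfl
  · rintro rfl
    rfl

theorem isN_ht {D : BinaryTree Unit} (h : 2 ≤ ht D) : isN D = false := by
  cases D with
  | nil => rw [ht] at h; omega
  | node _ A B => rfl

theorem isL_ht {D : BinaryTree Unit} (h : 2 ≤ ht D) : isL D = false := by
  by_contra h2
  rw [Bool.not_eq_false, isL_iff] at h2
  subst h2
  have : ht l1 = 1 := rfl
  omega

/-- no component `()` -/
def nn (A : BinaryTree Unit) : Prop := ∀ X ∈ cs A, isN X = false

/-- starts with `()` and is not `()` -/
def hN (A : BinaryTree Unit) : Bool := !isL A && (cs A).head?.any isN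

/-- ends with `()` and is not `()` -/
def eN (A : BinaryTree Unit) : Bool := !isL A && (cs A).reverse.head?.any isN

/-- the kind of a word -/
def kn (w : BinaryTree Unit) : ℕ :=
  if (cs w).head?.any isN then
    if (cs w).reverse.head?.any isN then 2
    else if (cs w).tail.head?.any isN then 5
    else if (cs w).length = 2 then 8
    else if (cs w).reverse.head?.any isL then 15 else 18
  else if (cs w).reverse.head?.any isN then
    if (cs w).reverse.tail.head?.any isN then 1
    else if (cs w).length = 2 then 6
    else if (cs w).reverse.tail.head?.any isL then 12 else 16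
  else if (cs w).length = 1 then
    if (cs ((cs w).headD .nil)).reverse.head?.any isN then 3
    else if (cs ((cs w).headD .nil)).head?.any isN then 7
    else if (cs ((cs w).headD .nil)).length = 1 then 9
    else if (cs ((cs w).headD .nil)).reverse.head?.any isL then 17 else 19
  else if (cs w).any isN then 11
  else if (cs w).head?.any hN then 14
  else if (cs w).reverse.head?.any eN then 13
  else 0

/-! ### The words -/

/-- `(())^t` -/
def b2 (t : ℕ) : BinaryTree Unit := lv2 t .nil

@[simp] theorem cs_lv2 (n : ℕ) (t : BinaryTree Unit) : cs (lv2 n t) = List.replicate n l1 ++ cs t := by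
  induction n with
  | zero => rfl
  | succ n ih => rw [lv2, cs_node, ih]; rfl

@[simp] theorem cs_b2 (t : ℕ) : cs (b2 t) = List.replicate t l1 := by
  rw [b2, cs_lv2, cs_nil, List.append_nil]

/-- `(())^p (D) (())^t` -/
def RR (p : ℕ) (D : BinaryTree Unit) (t : ℕ) : BinaryTree Unit := lv2 p (D △ b2 t)

@[simp] theorem cs_RR (p : ℕ) (D : BinaryTree Unit) (t : ℕ) :
    cs (RR p D t) = List.replicate p l1 ++ D :: List.replicate t l1 := by
  rw [RR, cs_lv2, cs_node, cs_b2]

/-- a good inside -/
structure GD (D : BinaryTree Unit) : Prop where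
  ht : 2 ≤ OddHC.ht D
  nn : nn D

theorem GD.isN {D : BinaryTree Unit} (h : GD D) : isN D = false := isN_ht h.ht

theorem GD.isL {D : BinaryTree Unit} (h : GD D) : isL D = false := isL_ht h.ht

theorem GD.ne {D : BinaryTree Unit} (h : GD D) : D ≠ l1 := fun e => by
  have := h.isL
  rw [e] at this
  exact absurd this (by simp)

theorem GD.hN {D : BinaryTree Unit} (h : GD D) : hN D = false := by
  unfold J.hN
  rw [Bool.and_eq_false_iff]
  right
  cases hc : cs D with
  | nil => rfl
  | cons A c =>
    have := h.nn A (by rw [hc]; exact List.mem_cons_self)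
    simpa using this

theorem GD.eN {D : BinaryTree Unit} (h : GD D) : eN D = false := by
  unfold J.eN
  rw [Bool.and_eq_false_iff]
  right
  cases hc : (cs D).reverse with
  | nil => rfl
  | cons A c =>
    have h1 : A ∈ (cs D).reverse := by rw [hc]; exact List.mem_cons_self
    have := h.nn A (List.mem_reverse.1 h1)
    simpa using this

/-! ### Heads of lists -/

section Lists

variable {p : ℕ} {D : BinaryTree Unit} {c : List (BinaryTree Unit)}

theorem head_rep {q : BinaryTree Unit → Bool} (hl : q l1 = false) (hD : q D = false) :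
    (List.replicate p l1 ++ D :: c).head?.any q = false := by
  cases p with
  | zero => simp [hD]
  | succ p => simp [List.replicate_succ, hl]

theorem head_rep' {q : BinaryTree Unit → Bool} {p : ℕ} (hp : 1 ≤ p) :
    (List.replicate p l1 ++ c).head?.any q = q l1 := by
  obtain ⟨p, rfl⟩ : ∃ m, p = m + 1 := ⟨p - 1, by omega⟩
  simp [List.replicate_succ]

theorem head_rep'' {q : BinaryTree Unit → Bool} {p : ℕ} (hp : 1 ≤ p) :
    (List.replicate p l1).head?.any q = q l1 := by
  have := head_rep' (c := []) (q := q) hp
  rwa [List.append_nil] at this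

end Lists

theorem rev_RR (p t : ℕ) (D : BinaryTree Unit) :
    (List.replicate p l1 ++ D :: List.replicate t l1).reverse =
      List.replicate t l1 ++ D :: List.replicate p l1 := by
  rw [List.reverse_append, List.reverse_cons, List.reverse_replicate, List.reverse_replicate,
    List.append_assoc, List.singleton_append]

theorem any_RR {p t : ℕ} {D : BinaryTree Unit} (hD : isN D = false) :
    (List.replicate p l1 ++ D :: List.replicate t l1).any isN = false := by
  rw [List.any_eq_false]
  intro x hx
  rw [List.mem_append, List.mem_cons, List.mem_replicate, List.mem_replicate] at hx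
  rcases hx with ⟨_, rfl⟩ | rfl | ⟨_, rfl⟩ <;> simp [hD]

section Pure

variable {p t : ℕ} {D : BinaryTree Unit}

/-- the pure words: `bw nil nil nil nil R i`, `i < 10`, `R = RR p D t` -/
theorem kn_RR (h : GD D) (hpt : 1 ≤ p + t) : kn (RR p D t) = 0 := by
  have h1 : (cs (RR p D t)).head?.any isN = false := by
    rw [cs_RR]; exact head_rep (by simp) h.isN
  have h2 : (cs (RR p D t)).reverse.head?.any isN = false := by
    rw [cs_RR, rev_RR]; exact head_rep (by simp) h.isN
  have h3 : (cs (RR p D t)).length ≠ 1 := by
    rw [cs_RR]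
    simp only [List.length_append, List.length_cons, List.length_replicate]
    omega
  have h4 : (cs (RR p D t)).any isN = false := by
    rw [cs_RR]; exact any_RR h.isN
  have h5 : (cs (RR p D t)).head?.any hN = false := by
    rw [cs_RR]; exact head_rep (by simp [hN]) h.hN
  have h6 : (cs (RR p D t)).reverse.head?.any eN = false := by
    rw [cs_RR, rev_RR]; exact head_rep (by simp [eN]) h.eN
  unfold kn
  simp only [h1, h2, h3, h4, h5, h6, Bool.false_eq_true, if_false]

theorem kn_1 (h : GD D) : kn (app (RR p D t) (.nil △ .nil △ .nil)) = 1 := by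
  have h1 : (cs (app (RR p D t) (.nil △ .nil △ .nil))).head?.any isN = false := by
    rw [cs_app, cs_RR, List.append_assoc, List.cons_append]; exact head_rep (by simp) h.isN
  have e : (cs (app (RR p D t) (.nil △ .nil △ .nil))).reverse =
      .nil :: .nil :: (List.replicate t l1 ++ D :: List.replicate p l1) := by
    rw [cs_app, cs_RR, List.reverse_append, rev_RR]
    rfl
  unfold kn
  simp only [h1, e, Bool.false_eq_true, if_false, List.head?_cons, Option.any_some, isN_nil,
    if_true, List.tail_cons]

theorem kn_2 : kn (.nil △ app (RR p D t) (.nil △ .nil)) = 2 := by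
  have e : (cs (.nil △ app (RR p D t) (.nil △ .nil))).reverse =
      .nil :: ((List.replicate t l1 ++ D :: List.replicate p l1) ++ [.nil]) := by
    rw [cs_node, cs_app, cs_RR, List.reverse_cons, List.reverse_append, rev_RR]
    rfl
  have h1 : (cs (.nil △ app (RR p D t) (.nil △ .nil))).head?.any isN = true := rfl
  unfold kn
  simp only [h1, e, if_true, List.head?_cons, Option.any_some, isN_nil]

theorem kn_3 : kn (app (RR p D t) (.nil △ .nil) △ .nil) = 3 := by
  have e : (cs (app (RR p D t) (.nil △ .nil))).reverse =
      .nil :: (List.replicate t l1 ++ D :: List.replicate p l1) := by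
    rw [cs_app, cs_RR, List.reverse_append, rev_RR]
    rfl
  have h1 : isN (app (RR p D t) (.nil △ .nil)) = false := by
    cases hR : app (RR p D t) (.nil △ .nil) with
    | nil => rw [hR] at e; exact absurd e (by simp)
    | node _ A B => rfl
  unfold kn
  simp only [cs_node, cs_nil, List.head?_cons, Option.any_some, h1, List.reverse_cons,
    List.reverse_nil, List.nil_append, List.length_cons, List.length_nil, List.headD_cons, e,
    Bool.false_eq_true, if_false, isN_nil, if_true, Nat.reduceAdd]

theorem kn_5 (h : GD D) : kn (.nil △ (.nil △ RR p D t)) = 5 := by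
  have e : (cs (.nil △ (.nil △ RR p D t))).reverse.head?.any isN = false := by
    rw [cs_node, cs_node, cs_RR, List.reverse_cons, List.reverse_cons, rev_RR, List.append_assoc,
      List.append_assoc, List.cons_append]
    exact head_rep (by simp) h.isN
  have h1 : (cs (.nil △ (.nil △ RR p D t))).head?.any isN = true := rfl
  have h2 : (cs (.nil △ (.nil △ RR p D t))).tail.head?.any isN = true := rfl
  unfold kn
  simp only [h1, h2, e, Bool.false_eq_true, if_false, if_true]

theorem RR_isN : isN (RR p D t) = false := by
  cases hR : RR p D t with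
  | nil =>
    have e := cs_RR p D t
    rw [hR] at e
    exact absurd e (by simp)
  | node _ A B => rfl

theorem kn_6 : kn (RR p D t △ (.nil △ .nil)) = 6 := by
  unfold kn
  simp only [cs_node, cs_nil, List.head?_cons, Option.any_some, RR_isN, List.reverse_cons,
    List.reverse_nil, List.nil_append, List.length_cons, List.length_nil, List.cons_append,
    Bool.false_eq_true, if_false, isN_nil, if_true, Nat.reduceAdd, List.tail_cons]

theorem kn_7 (h : GD D) : kn ((.nil △ RR p D t) △ .nil) = 7 := by
  have e : (cs (.nil △ RR p D t)).reverse.head?.any isN = false := by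
    rw [cs_node, cs_RR, List.reverse_cons, rev_RR, List.append_assoc, List.cons_append]
    exact head_rep (by simp) h.isN
  have h1 : (cs (.nil △ RR p D t)).head?.any isN = true := rfl
  unfold kn
  simp only [List.headD_cons, cs_nil, cs_node ((.nil : BinaryTree Unit) △ RR p D t) .nil, e, h1,
    List.head?_cons, Option.any_some, isN_node, List.reverse_cons,
    List.reverse_nil, List.nil_append, List.length_cons, List.length_nil,
    Bool.false_eq_true, if_false, if_true, Nat.reduceAdd]

theorem kn_8 : kn (.nil △ (RR p D t △ .nil)) = 8 := by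
  unfold kn
  simp only [cs_node, cs_nil, List.head?_cons, Option.any_some, RR_isN, List.reverse_cons,
    List.reverse_nil, List.nil_append, List.length_cons, List.length_nil, List.cons_append,
    Bool.false_eq_true, if_false, isN_nil, if_true, Nat.reduceAdd, List.tail_cons]

theorem kn_9 : kn ((RR p D t △ .nil) △ .nil) = 9 := by
  unfold kn
  simp only [cs_node, cs_nil, List.head?_cons, Option.any_some, RR_isN, isN_node,
    List.reverse_cons, List.headD_cons,
    List.reverse_nil, List.nil_append, List.length_cons, List.length_nil, List.cons_append,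
    Bool.false_eq_true, if_false, if_true, Nat.reduceAdd, List.tail_cons]

end Pure

/-! ### The mixed words -/

section Mixed

variable {t u : ℕ} {D : BinaryTree Unit}

theorem b2_isN (ht : 1 ≤ t) : isN (b2 t) = false := by
  obtain ⟨t, rfl⟩ : ∃ m, t = m + 1 := ⟨t - 1, by omega⟩
  rfl

theorem b2_isL (ht : 1 ≤ t) : isL (b2 t) = false := by
  by_contra h
  rw [Bool.not_eq_false, isL_iff] at h
  have h1 := congrArg cs h
  rw [cs_b2] at h1
  have h2 := congrArg List.length h1
  simp at h2
  subst h2
  exact absurd h1 (by simp)

theorem kn_11 (h : GD D) (ht : 1 ≤ t) :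
    kn (app (b2 t) (.nil △ (.nil △ RR 0 D u))) = 11 := by
  have h1 : (cs (app (b2 t) (.nil △ (.nil △ RR 0 D u)))).head?.any isN = false := by
    rw [cs_app, cs_b2, head_rep' ht]; rfl
  have h2 : (cs (app (b2 t) (.nil △ (.nil △ RR 0 D u)))).reverse.head?.any isN = false := by
    rw [cs_app, cs_node, cs_node, cs_RR, List.reverse_append, List.reverse_cons, List.reverse_cons,
      rev_RR, List.append_assoc, List.append_assoc, List.append_assoc, List.cons_append]
    exact head_rep (by simp) h.isN
  have h3 : (cs (app (b2 t) (.nil △ (.nil △ RR 0 D u)))).length ≠ 1 := by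
    simp only [cs_app, cs_node, List.length_append, List.length_cons]
    omega
  have h4 : (cs (app (b2 t) (.nil △ (.nil △ RR 0 D u)))).any isN = true := by
    simp only [cs_app, cs_node, List.any_append, List.any_cons, isN_nil, Bool.true_or, Bool.or_true]
  unfold kn
  simp only [h1, h2, h3, h4, Bool.false_eq_true, if_false, if_true]

theorem kn_12 (ht : 1 ≤ t) :
    kn (RR 0 D u △ app (b2 t) (.nil △ .nil)) = 12 := by
  have h1 : (cs (RR 0 D u △ app (b2 t) (.nil △ .nil))).head?.any isN = false := by
    rw [cs_node]; simp [RR_isN]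
  have e : (cs (RR 0 D u △ app (b2 t) (.nil △ .nil))).reverse =
      .nil :: (List.replicate t l1 ++ [RR 0 D u]) := by
    rw [cs_node, cs_app, cs_b2, List.reverse_cons, List.reverse_append, List.reverse_replicate]
    rfl
  have h2 : (cs (RR 0 D u △ app (b2 t) (.nil △ .nil))).length ≠ 2 := by
    simp only [cs_app, cs_node, cs_b2, List.length_append, List.length_cons, List.length_replicate]
    omega
  have h3 : (List.replicate t l1 ++ [RR 0 D u]).head?.any isN = false := by
    rw [head_rep' ht]; rfl
  have h4 : (List.replicate t l1 ++ [RR 0 D u]).head?.any isL = true := by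
    rw [head_rep' ht]; rfl
  unfold kn
  rw [h1, e]
  simp only [List.head?_cons, Option.any_some, isN_nil, List.tail_cons, h2, h3, h4, if_true, if_false]
  simp

theorem kn_13 (h : GD D) (ht : 1 ≤ t) :
    kn (app (RR 0 D u) (app (b2 t) (.nil △ .nil) △ .nil)) = 13 := by
  have hb : isN (app (b2 t) (.nil △ .nil)) = false := by
    obtain ⟨t, rfl⟩ : ∃ m, t = m + 1 := ⟨t - 1, by omega⟩
    rfl
  have hl : isL (app (b2 t) (.nil △ .nil)) = false := by
    obtain ⟨t, rfl⟩ : ∃ m, t = m + 1 := ⟨t - 1, by omega⟩
    rfl
  have e : (cs (app (RR 0 D u) (app (b2 t) (.nil △ .nil) △ .nil))).reverse =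
      app (b2 t) (.nil △ .nil) :: (List.replicate u l1 ++ [D]) := by
    rw [cs_app, cs_RR, List.reverse_append, rev_RR]
    rfl
  have e1 : cs (app (RR 0 D u) (app (b2 t) (.nil △ .nil) △ .nil)) =
      D :: (List.replicate u l1 ++ [app (b2 t) (.nil △ .nil)]) := by
    rw [cs_app, cs_RR]
    rfl
  have e2 : (cs (app (b2 t) (.nil △ .nil))).reverse = .nil :: List.replicate t l1 := by
    rw [cs_app, cs_b2, List.reverse_append, List.reverse_replicate]
    rfl
  have h2 : (D :: (List.replicate u l1 ++ [app (b2 t) (.nil △ .nil)])).length ≠ 1 := by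
    simp only [List.length_append, List.length_cons, List.length_replicate]
    omega
  have h3 : (D :: (List.replicate u l1 ++ [app (b2 t) (.nil △ .nil)])).any isN = false := by
    rw [List.any_eq_false]
    intro x hx
    rw [List.mem_cons, List.mem_append, List.mem_replicate, List.mem_singleton] at hx
    rcases hx with rfl | ⟨_, rfl⟩ | rfl
    · simp [h.isN]
    · simp
    · simp [hb]
  have h4 : eN (app (b2 t) (.nil △ .nil)) = true := by
    unfold eN
    rw [hl, e2]
    rfl
  unfold kn
  rw [e, e1, h3]
  simp only [List.head?_cons, Option.any_some, h.isN, hb, h2, h.hN, h4, if_true, if_false]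
  simp

theorem kn_14 (ht : 1 ≤ t) : kn ((.nil △ RR 0 D u) △ b2 t) = 14 := by
  have hl : isL (.nil △ RR 0 D u) = false := by
    by_contra h
    rw [Bool.not_eq_false, isL_iff] at h
    have h1 := congrArg (fun w => (cs w).length) h
    simp at h1
  have e : (cs ((.nil △ RR 0 D u) △ b2 t)).reverse =
      List.replicate t l1 ++ [.nil △ RR 0 D u] := by
    rw [cs_node, cs_b2, List.reverse_cons, List.reverse_replicate]
  have h1 : (List.replicate t l1 ++ [BinaryTree.nil △ RR 0 D u]).head?.any isN = false := by
    rw [head_rep' ht]; rfl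
  have h2 : (cs ((.nil △ RR 0 D u) △ b2 t)).length ≠ 1 := by
    rw [cs_node, cs_b2, List.length_cons, List.length_replicate]
    omega
  have h3 : (cs ((.nil △ RR 0 D u) △ b2 t)).any isN = false := by
    rw [cs_node, cs_b2, List.any_eq_false]
    intro x hx
    rw [List.mem_cons, List.mem_replicate] at hx
    rcases hx with rfl | ⟨_, rfl⟩ <;> simp
  have h4 : hN (.nil △ RR 0 D u) = true := by
    unfold hN
    rw [hl]
    rfl
  unfold kn
  rw [e, h1, h3]
  simp only [cs_node, List.head?_cons, Option.any_some, h4, isN_node]
  simp only [cs_node] at h2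
  simp only [h2, Bool.false_eq_true, if_false, if_true]

theorem kn_15 (ht : 1 ≤ t) : kn (.nil △ (RR 0 D u △ b2 t)) = 15 := by
  have e : (cs (.nil △ (RR 0 D u △ b2 t))).reverse =
      List.replicate t l1 ++ ([RR 0 D u] ++ [.nil]) := by
    rw [cs_node, cs_node, cs_b2, List.reverse_cons, List.reverse_cons, List.reverse_replicate,
      List.append_assoc]
  have h1 : (List.replicate t l1 ++ ([RR 0 D u] ++ [BinaryTree.nil])).head?.any isN = false := by
    rw [head_rep' ht]; rfl
  have h3 : (List.replicate t l1 ++ ([RR 0 D u] ++ [BinaryTree.nil])).head?.any isL = true := by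
    rw [head_rep' ht]; rfl
  have h2 : (cs (.nil △ (RR 0 D u △ b2 t))).length ≠ 2 := by
    rw [cs_node, cs_node, cs_b2, List.length_cons, List.length_cons, List.length_replicate]
    omega
  have h4 : (cs (.nil △ (RR 0 D u △ b2 t))).head?.any isN = true := rfl
  have h5 : (cs (.nil △ (RR 0 D u △ b2 t))).tail.head?.any isN = false := by
    simp only [cs_node, List.tail_cons, List.head?_cons, Option.any_some, RR_isN]
  unfold kn
  rw [e, h1, h3]
  simp only [h2, h4, h5, Bool.false_eq_true, if_false, if_true]

theorem kn_16 (h : GD D) (ht : 1 ≤ t) :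
    kn (app (RR 0 D u) (b2 t △ (.nil △ .nil))) = 16 := by
  have e : (cs (app (RR 0 D u) (b2 t △ (.nil △ .nil)))).reverse =
      .nil :: b2 t :: (List.replicate u l1 ++ [D]) := by
    rw [cs_app, cs_RR, List.reverse_append, rev_RR]
    rfl
  have e1 : cs (app (RR 0 D u) (b2 t △ (.nil △ .nil))) =
      D :: (List.replicate u l1 ++ [b2 t, .nil]) := by
    rw [cs_app, cs_RR]
    rfl
  unfold kn
  rw [e, e1]
  simp [h.isN, b2_isN ht, b2_isL ht]

theorem kn_17 (ht : 1 ≤ t) : kn ((RR 0 D u △ b2 t) △ .nil) = 17 := by
  have e : (cs (RR 0 D u △ b2 t)).reverse = List.replicate t l1 ++ [RR 0 D u] := by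
    rw [cs_node, cs_b2, List.reverse_cons, List.reverse_replicate]
  have h1 : (List.replicate t l1 ++ [RR 0 D u]).head?.any isN = false := by
    rw [head_rep' ht]; rfl
  have h3 : (List.replicate t l1 ++ [RR 0 D u]).head?.any isL = true := by
    rw [head_rep' ht]; rfl
  have h2 : (cs (RR 0 D u △ b2 t)).length ≠ 1 := by
    rw [cs_node, cs_b2, List.length_cons, List.length_replicate]
    omega
  unfold kn
  simp only [cs_node, cs_nil, List.head?_cons, Option.any_some, isN_node, List.reverse_cons,
    List.reverse_nil, List.nil_append, List.length_cons, List.length_nil, List.headD_cons]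
  simp only [cs_node, List.reverse_cons] at e h2
  simp only [List.length_cons] at h2
  simp only [e, h1, h3, h2, RR_isN, Bool.false_eq_true, if_false, if_true, Nat.reduceAdd]

theorem kn_18 (h : GD D) (ht : 1 ≤ t) : kn (.nil △ app (RR 0 D u) (b2 t △ .nil)) = 18 := by
  have e : (cs (.nil △ app (RR 0 D u) (b2 t △ .nil))).reverse =
      b2 t :: (List.replicate u l1 ++ [D] ++ [.nil]) := by
    rw [cs_node, cs_app, cs_RR, List.reverse_cons, List.reverse_append, rev_RR]
    rfl
  have e1 : cs (.nil △ app (RR 0 D u) (b2 t △ .nil)) =
      .nil :: D :: (List.replicate u l1 ++ [b2 t]) := by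
    rw [cs_node, cs_app, cs_RR]
    rfl
  unfold kn
  rw [e, e1]
  simp [h.isN, b2_isN ht, b2_isL ht]

theorem kn_19 (h : GD D) (ht : 1 ≤ t) : kn (app (RR 0 D u) (b2 t △ .nil) △ .nil) = 19 := by
  have e : (cs (app (RR 0 D u) (b2 t △ .nil))).reverse =
      b2 t :: (List.replicate u l1 ++ [D]) := by
    rw [cs_app, cs_RR, List.reverse_append, rev_RR]
    rfl
  have e1 : cs (app (RR 0 D u) (b2 t △ .nil)) =
      D :: (List.replicate u l1 ++ [b2 t]) := by
    rw [cs_app, cs_RR]
    rfl
  have h1 : isN (app (RR 0 D u) (b2 t △ .nil)) = false := by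
    cases hR : app (RR 0 D u) (b2 t △ .nil) with
    | nil => rw [hR] at e1; exact absurd e1 (by simp)
    | node _ A B => rfl
  unfold kn
  simp only [cs_node, cs_nil, List.head?_cons, Option.any_some, h1, List.reverse_cons,
    List.reverse_nil, List.nil_append, List.length_cons, List.length_nil, List.headD_cons]
  simp only [e, e1]
  simp [h.isN, b2_isN ht, b2_isL ht]

end Mixed

end J

end Pool.OddHC
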